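set_option maxRecDepth 100000
namespace Pool.Agent.Work.MP_f1799f_co
noncomputable section
def cl0 : List (Nat × List Nat) := [(1040388,[22,20,16,16,18,22,16,8,2,20,10,20,1,21,5]),(0,[16,13,12,18,18,3,2,4,4,0,1,1,0,0,0])]
def cl1 : List (Nat × List Nat) := [(885928,[22,15,11,7,3,12,17,11,5,3,1,23,15,0,15]),(233155,[0,13,4,21,23,4,2,16,10,16,13,15,8,2,0])]
def cl2 : List (Nat × List Nat) := [(1020040,[22,13,16,9,12,22,21,11,4,17,1,15,3,5,21]),(1047552,[22,19,18,18,18,20,21,18,4,19,20,1,21,0,0])]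
def cl3 : List (Nat × List Nat) := [(1017992,[22,13,16,9,12,19,22,23,4,16,3,15,0,5,21]),(16896,[0,13,13,7,23,7,10,10,17,1,1,3,1,5,5])]
def cl4 : List (Nat × List Nat) := [(1008204,[16,22,16,12,14,22,12,2,10,18,20,1,1,3,23]),(15600,[16,1,0,4,4,1,0,4,4,0,17,17,16,16,0])]
def cl5 : List (Nat × List Nat) := [(1017004,[22,13,21,6,12,12,22,8,12,22,1,17,21,0,23]),(502433,[0,1,16,22,23,3,22,16,17,16,17,17,0,0,0])]
def cl6 : List (Nat × List Nat) := [(1017228,[22,13,21,7,12,22,22,8,2,13,1,20,21,1,16]),(69249,[0,2,18,18,23,5,13,16,11,16,13,9,8,0,0])]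
def cl7 : List (Nat × List Nat) := [(1018888,[22,16,23,7,12,22,16,16,4,16,3,4,9,5,21]),(3264,[16,2,4,1,3,4,2,3,1,0,13,15,15,13,0])]
def cl8 : List (Nat × List Nat) := [(468520,[12,19,18,4,15,13,16,4,17,16,9,3,9,0,11]),(20016,[0,13,1,10,21,1,2,16,23,1,18,5,20,11,0])]
def cl9 : List (Nat × List Nat) := [(518848,[0,1,16,22,23,5,12,22,10,18,18,15,1,13,0]),(245491,[0,1,0,18,18,1,0,18,18,16,17,17,16,16,0])]
def cl10 : List (Nat × List Nat) := [(1028122,[22,20,12,15,7,22,18,20,4,16,14,0,5,21,20]),(232764,[7,13,1,7,7,1,13,13,2,13,13,4,15,21,16])]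
def cl11 : List (Nat × List Nat) := [(853032,[16,15,11,1,2,12,17,4,3,5,4,3,21,0,11]),(3120,[4,2,0,4,4,1,2,5,5,2,5,5,11,11,0])]
def cl12 : List (Nat × List Nat) := [(694048,[7,16,18,10,23,15,4,10,17,8,1,4,16,18,0]),(983040,[16,16,16,7,7,22,22,1,1,16,1,1,1,1,0])]
def cl13 : List (Nat × List Nat) := [(1017874,[22,16,12,9,18,20,22,22,4,22,3,0,0,21,1]),(212220,[16,1,0,4,4,3,2,4,4,16,17,17,16,16,16])]
def cl14 : List (Nat × List Nat) := [(1003140,[16,13,18,18,23,20,22,2,9,20,18,15,21,0,19]),(757442,[10,16,18,20,23,22,12,16,20,16,12,14,23,22,20])]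
def cl15 : List (Nat × List Nat) := [(761920,[10,19,3,17,18,22,2,11,10,23,9,1,0,5,0]),(232064,[0,2,3,9,23,4,5,16,9,16,5,11,6,0,2])]
def cl16 : List (Nat × List Nat) := [(511528,[0,13,18,8,9,3,22,16,23,20,4,3,10,0,11]),(756353,[9,15,13,15,23,21,19,16,15,16,19,21,0,6,12])]
def cl17 : List (Nat × List Nat) := [(772696,[7,16,12,9,7,20,12,16,10,19,5,1,1,16,21]),(959488,[22,19,18,18,18,9,9,15,4,9,9,1,9,0,0])]
def cl18 : List (Nat × List Nat) := [(958528,[22,20,16,16,18,9,14,15,4,11,15,1,0,5,0]),(434816,[0,1,16,22,23,3,21,15,15,21,15,15,0,0,0])]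
def cl19 : List (Nat × List Nat) := [(996904,[16,19,19,4,9,13,18,4,23,16,9,3,16,0,11]),(518888,[0,1,16,15,13,3,15,16,19,21,19,16,7,13,15])]
def cl20 : List (Nat × List Nat) := [(952336,[22,16,12,9,18,10,9,16,4,23,3,1,0,21,0]),(917512,[16,16,16,12,12,9,9,2,2,11,0,0,0,0,21])]
def cl21 : List (Nat × List Nat) := [(1016964,[22,13,19,20,19,22,16,14,0,16,1,21,21,1,3]),(835584,[22,15,15,9,18,9,9,15,18,1,1,1,1,0,0])]
def cl22 : List (Nat × List Nat) := [(874152,[16,15,11,6,12,12,21,4,17,5,4,17,21,0,21]),(998400,[16,20,20,4,20,20,20,4,20,16,17,21,16,21,0])]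
def cl23 : List (Nat × List Nat) := [(759424,[7,13,18,20,23,22,18,20,17,23,1,17,16,0,0]),(434176,[4,4,16,16,23,2,23,23,5,23,23,3,0,0,0])]
def cl24 : List (Nat × List Nat) := [(778840,[7,19,12,15,7,22,12,11,10,18,20,1,1,16,21]),(959748,[22,21,20,18,18,9,9,8,2,8,9,1,9,1,5])]
def cl25 : List (Nat × List Nat) := [(992800,[16,19,19,18,23,13,22,4,17,22,11,22,21,11,11]),(986304,[16,13,19,18,19,19,13,19,18,16,22,23,23,22,0])]
def cl26 : List (Nat × List Nat) := [(960592,[22,22,13,22,18,11,9,17,18,11,17,1,1,17,0]),(983052,[16,16,16,12,12,22,22,6,12,16,0,0,0,0,16])]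
def cl27 : List (Nat × List Nat) := [(758408,[7,13,3,9,14,22,19,11,17,22,1,15,5,0,23]),(598528,[15,21,12,22,23,23,22,12,17,16,17,20,6,12,14])]
def cl28 : List (Nat × List Nat) := [(988806,[16,13,18,18,23,22,18,1,8,16,14,9,16,0,5]),(79028,[17,6,7,18,19,12,18,7,13,3,9,17,17,9,3])]
def cl29 : List (Nat × List Nat) := [(861762,[16,10,10,18,23,22,12,4,10,5,14,2,21,19,4]),(79410,[6,4,6,5,20,3,19,7,23,3,8,12,22,15,1])]
def cl30 : List (Nat × List Nat) := [(767536,[7,19,3,18,20,13,4,10,17,16,9,3,16,9,0]),(249558,[7,13,0,11,19,19,3,15,6,19,1,9,10,16,5])]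
def cl31 : List (Nat × List Nat) := [(501412,[0,2,18,18,23,3,17,8,12,17,9,22,9,0,5]),(434209,[4,4,16,16,18,2,9,9,5,9,9,3,0,0,0])]
def cl32 : List (Nat × List Nat) := [(466600,[12,13,18,7,12,3,18,18,17,16,3,17,16,0,21]),(1026049,[18,19,16,16,7,18,16,16,1,16,17,1,0,0,0])]
def cl33 : List (Nat × List Nat) := [(511620,[0,13,19,20,23,18,23,13,9,21,18,15,21,0,19]),(32496,[12,6,6,18,23,6,6,18,23,18,20,22,18,23,21])]
def cl34 : List (Nat × List Nat) := [(761488,[7,13,1,20,18,19,4,18,17,16,3,17,23,11,0]),(68664,[0,1,0,7,7,3,3,5,5,5,3,3,21,21,21])]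
def cl35 : List (Nat × List Nat) := [(437008,[0,19,12,23,20,1,9,16,17,8,22,4,0,21,0]),(523936,[0,2,18,18,23,2,18,18,17,18,20,17,21,0,0])]
def cl36 : List (Nat × List Nat) := [(1010196,[16,19,12,5,20,20,22,2,14,20,20,1,10,11,5]),(959814,[22,20,19,19,18,9,8,8,1,8,8,1,9,5,5])]
def cl37 : List (Nat × List Nat) := [(778332,[10,19,12,12,7,22,12,9,7,19,20,1,1,16,16]),(802032,[16,9,11,18,18,9,9,18,18,5,22,22,23,23,0])]
def cl38 : List (Nat × List Nat) := [(889224,[22,15,11,9,3,16,21,11,4,2,4,11,5,4,21]),(163840,[4,16,16,11,18,3,3,11,4,11,3,3,3,2,0])]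
def cl39 : List (Nat × List Nat) := [(885888,[22,15,21,21,19,17,23,11,4,5,1,15,23,0,0]),(999936,[16,17,17,12,23,17,17,6,23,23,20,2,18,2,2])]
def cl40 : List (Nat × List Nat) := [(768784,[7,18,12,22,20,18,4,19,17,12,23,4,5,21,0]),(1003200,[14,15,20,10,23,20,15,16,21,18,18,11,20,5,3])]
def cl41 : List (Nat × List Nat) := [(923776,[16,13,17,18,19,11,11,4,4,11,3,15,3,0,0]),(999168,[16,19,19,4,23,19,19,4,23,16,17,20,16,20,0])]
def cl42 : List (Nat × List Nat) := [(863760,[16,10,11,5,20,20,22,5,17,5,17,1,17,11,0]),(986112,[16,16,22,4,2,22,16,5,0,16,5,0,11,6,0])]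
def cl43 : List (Nat × List Nat) := [(795840,[16,7,11,4,19,9,9,4,4,0,9,23,9,5,0]),(789696,[16,9,11,18,19,11,9,19,18,0,5,11,11,5,0])]
def cl44 : List (Nat × List Nat) := [(636864,[7,7,18,18,23,22,2,10,20,2,9,20,16,19,0]),(233011,[7,13,0,11,11,1,13,17,17,16,3,3,9,9,0])]
def cl45 : List (Nat × List Nat) := [(616008,[14,21,18,4,9,22,2,4,11,5,10,1,10,5,11]),(233152,[0,13,19,21,23,19,13,23,21,16,3,9,9,3,0])]
def cl46 : List (Nat × List Nat) := [(895192,[22,7,14,13,4,18,12,16,4,5,16,15,0,16,21]),(989340,[16,13,13,0,2,19,19,2,2,16,19,21,19,21,16])]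
def cl47 : List (Nat × List Nat) := [(898464,[22,7,11,18,19,14,18,10,19,2,15,20,16,20,0]),(975972,[22,20,20,20,20,8,8,8,4,11,11,3,11,5,5])]
def cl48 : List (Nat × List Nat) := [(627888,[10,15,6,20,18,12,19,10,5,5,1,22,16,17,0]),(501760,[4,4,16,16,18,5,16,16,18,16,17,20,1,1,1])]
def cl49 : List (Nat × List Nat) := [(948784,[16,19,12,5,20,9,10,4,17,10,18,3,5,9,0]),(772756,[6,13,12,9,18,18,5,14,14,18,18,11,1,11,13])]
def cl50 : List (Nat × List Nat) := [(929796,[16,19,17,5,18,9,11,1,12,11,11,20,5,21,5]),(229888,[0,13,13,11,17,13,13,11,17,16,1,1,1,1,0])]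
def cl51 : List (Nat × List Nat) := [(1026136,[22,20,14,12,7,20,14,16,4,16,16,1,0,17,21]),(245488,[0,2,2,20,20,2,2,20,20,16,22,22,23,23,0])]
def cl52 : List (Nat × List Nat) := [(500224,[0,19,16,16,23,3,22,11,17,16,9,1,0,0,0]),(786432,[16,15,15,0,2,15,21,2,2,0,1,1,1,1,0])]
def cl53 : List (Nat × List Nat) := [(932368,[16,19,12,5,20,11,11,4,17,11,17,1,16,11,0]),(500353,[0,1,16,22,23,3,22,15,15,16,15,15,0,0,0])]
def cl54 : List (Nat × List Nat) := [(937476,[16,16,23,18,23,11,9,2,15,11,4,1,21,1,5]),(986316,[16,13,19,7,13,19,13,13,7,16,13,15,15,13,17])]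
def cl55 : List (Nat × List Nat) := [(1019008,[22,13,23,20,19,19,22,22,4,22,3,15,9,0,0]),(68808,[16,2,4,7,13,18,12,3,1,5,5,17,17,5,9])]
def cl56 : List (Nat × List Nat) := [(978016,[22,19,18,18,18,9,8,16,4,11,20,3,10,3,0]),(989328,[16,13,13,18,18,19,19,18,18,16,3,9,3,9,6])]
def cl57 : List (Nat × List Nat) := [(755460,[7,16,18,10,23,16,3,8,8,12,1,1,21,1,5]),(233008,[0,13,0,20,20,1,13,22,22,16,13,13,15,15,0])]
def cl58 : List (Nat × List Nat) := [(1024072,[22,22,16,12,12,22,16,11,4,17,11,1,7,5,21]),(926209,[16,22,16,16,17,9,9,4,17,11,17,4,2,0,0])]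
def cl59 : List (Nat × List Nat) := [(879120,[16,10,14,5,20,20,22,5,17,18,20,1,4,11,0]),(592920,[17,17,0,0,7,20,3,3,4,3,3,4,21,21,21])]
def cl60 : List (Nat × List Nat) := [(992292,[16,19,19,4,18,13,22,2,2,22,9,3,23,21,5]),(958465,[23,21,16,16,23,9,15,15,17,15,15,17,0,0,0])]
def cl61 : List (Nat × List Nat) := [(505504,[0,2,18,18,23,3,18,10,17,16,9,22,16,0,0]),(503456,[0,2,19,19,23,3,16,16,17,16,16,17,9,0,0])]
def cl62 : List (Nat × List Nat) := [(230440,[4,13,18,7,6,12,19,11,5,22,1,5,15,7,15]),(789552,[16,9,11,7,7,9,9,13,13,0,13,13,15,15,0])]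
def cl63 : List (Nat × List Nat) := [(1017883,[22,16,12,9,7,20,22,22,4,22,3,0,6,15,6]),(791715,[16,15,21,18,19,15,21,18,19,3,0,15,13,0,0])]
def cl64 : List (Nat × List Nat) := [(929344,[16,19,19,18,23,11,8,5,10,11,22,1,17,19,0]),(709249,[8,14,3,9,23,9,7,11,17,11,7,23,0,2,0])]
def cl65 : List (Nat × List Nat) := [(499816,[4,4,16,12,12,2,12,11,5,17,11,3,0,3,21]),(236176,[0,2,2,9,18,4,4,18,15,16,3,9,3,9,0])]
def cl66 : List (Nat × List Nat) := [(885921,[22,15,11,11,19,12,22,11,5,5,1,17,14,0,0]),(434436,[5,4,17,16,18,3,17,14,2,14,17,4,3,1,3])]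
def cl67 : List (Nat × List Nat) := [(469576,[12,5,16,2,14,5,12,5,20,17,22,1,12,5,11]),(792720,[16,14,14,18,18,20,20,18,18,6,22,23,22,23,6])]
def cl68 : List (Nat × List Nat) := [(501280,[0,19,18,18,23,13,22,11,17,22,17,16,11,0,0]),(501817,[4,4,12,12,7,3,16,16,5,16,16,3,0,14,14])]
def cl69 : List (Nat × List Nat) := [(784984,[7,19,12,15,7,20,2,19,10,23,19,1,5,16,21]),(507553,[1,1,23,23,23,3,23,23,17,16,17,17,13,14,14])]
def cl70 : List (Nat × List Nat) := [(903312,[22,15,14,9,18,20,22,22,4,18,19,15,7,15,0]),(978976,[22,20,22,22,4,9,21,21,5,21,21,3,18,6,6])]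
def cl71 : List (Nat × List Nat) := [(884872,[22,15,11,9,12,17,17,21,4,5,1,21,1,5,15]),(234112,[0,13,3,15,23,5,19,21,9,22,6,15,13,0,0])]
def cl72 : List (Nat × List Nat) := [(989834,[16,13,16,12,12,19,22,18,17,17,3,15,5,0,21]),(233089,[0,2,4,10,23,4,22,16,17,16,22,23,8,6,12])]
def cl73 : List (Nat × List Nat) := [(970888,[22,13,16,9,12,9,10,10,4,11,1,15,19,5,21]),(930568,[13,19,17,12,14,11,21,4,17,15,17,4,5,4,21])]
def cl74 : List (Nat × List Nat) := [(208404,[0,19,0,18,20,18,3,12,14,16,17,1,11,11,5]),(460941,[16,13,16,12,13,19,22,13,12,17,22,23,0,6,12])]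
def cl75 : List (Nat × List Nat) := [(846960,[22,10,6,18,18,9,8,16,4,1,20,22,10,16,0]),(834864,[22,10,7,20,20,7,10,22,22,0,17,4,16,10,2])]
def cl76 : List (Nat × List Nat) := [(796864,[16,7,11,19,19,11,8,19,18,0,17,21,3,19,0]),(688129,[10,16,3,9,18,9,8,11,20,11,8,14,12,2,0])]
def cl77 : List (Nat × List Nat) := [(493186,[0,13,19,20,23,3,22,11,17,22,0,15,23,0,20]),(855240,[16,15,21,7,13,18,12,5,4,3,3,15,15,3,21])]
def cl78 : List (Nat × List Nat) := [(636144,[10,7,0,19,18,13,2,11,18,5,11,22,17,23,0]),(988332,[16,13,19,6,12,13,19,6,12,16,1,17,16,1,23])]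
def cl79 : List (Nat × List Nat) := [(773824,[7,13,18,20,23,19,2,23,10,19,18,15,21,13,0]),(802608,[12,10,8,19,20,8,10,18,22,6,22,18,23,20,2])]
def cl80 : List (Nat × List Nat) := [(495232,[0,13,19,20,23,19,22,22,17,22,3,17,9,0,0]),(757376,[7,13,18,20,23,19,3,22,17,22,3,23,9,2,0])]
def cl81 : List (Nat × List Nat) := [(556752,[14,7,0,5,18,11,0,4,10,1,20,15,18,16,0]),(502273,[0,19,16,16,23,18,16,16,17,16,17,1,0,0,0])]
def cl82 : List (Nat × List Nat) := [(893256,[22,10,11,12,12,23,12,11,10,2,11,7,0,5,21]),(958520,[22,20,12,12,7,9,21,21,5,21,21,3,0,21,21])]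
def cl83 : List (Nat × List Nat) := [(504448,[0,1,16,22,23,3,21,20,17,17,9,17,3,0,0]),(455296,[1,1,16,16,23,12,10,10,17,10,10,17,5,0,0])]
def cl84 : List (Nat × List Nat) := [(638160,[10,7,0,19,18,18,2,19,4,5,17,17,16,23,0]),(503425,[1,1,18,18,23,5,23,23,17,23,23,17,8,0,0])]
def cl85 : List (Nat × List Nat) := [(995848,[16,22,16,12,14,16,22,4,17,17,9,1,3,1,21]),(926216,[16,22,16,12,14,9,21,4,17,15,17,4,5,4,21])]
def cl86 : List (Nat × List Nat) := [(500290,[0,19,16,16,23,3,12,15,10,17,15,0,0,19,1]),(494209,[4,13,22,21,23,19,16,23,21,16,13,15,0,6,6])]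
def cl87 : List (Nat × List Nat) := [(952448,[22,13,16,9,19,11,9,17,4,11,3,15,0,0,0]),(958496,[18,19,16,16,4,9,9,9,5,9,9,3,6,6,6])]
def cl88 : List (Nat × List Nat) := [(706144,[7,16,18,10,23,9,2,23,18,11,18,19,11,19,0]),(853124,[16,9,11,18,19,23,17,2,0,19,9,15,15,9,3])]
def cl89 : List (Nat × List Nat) := [(1015882,[22,16,16,9,12,22,12,11,10,17,6,14,0,5,21]),(984204,[16,12,18,1,3,16,22,12,6,22,2,11,11,2,16])]
def cl90 : List (Nat × List Nat) := [(990856,[16,13,18,7,12,19,19,18,17,16,3,15,16,0,21]),(818928,[16,7,7,4,18,7,7,4,18,4,22,17,23,16,16])]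
def cl91 : List (Nat × List Nat) := [(635952,[10,10,0,18,18,12,5,10,19,5,9,3,16,21,0]),(492034,[0,13,16,17,17,13,22,17,17,16,0,0,5,5,1])]
def cl92 : List (Nat × List Nat) := [(241216,[0,19,19,18,23,18,13,16,10,16,16,1,21,19,0]),(235168,[1,12,18,20,22,12,18,20,22,23,1,17,16,1,1])]
def cl93 : List (Nat × List Nat) := [(928864,[16,19,19,4,18,6,8,5,4,11,16,3,17,3,0]),(522880,[0,2,16,16,23,5,21,21,15,21,21,15,5,19,19])]
def cl94 : List (Nat × List Nat) := [(763424,[7,18,18,19,23,12,3,9,17,22,9,3,9,0,0]),(435872,[0,2,18,18,23,2,9,9,17,9,9,17,9,0,0])]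
def cl95 : List (Nat × List Nat) := [(695344,[10,16,0,10,18,8,4,20,19,11,3,3,17,21,0]),(790272,[16,15,11,18,23,11,15,19,21,0,3,1,9,7,5])]
def cl96 : List (Nat × List Nat) := [(896208,[22,7,6,18,18,18,12,16,4,5,16,17,9,23,0]),(942664,[17,23,16,3,9,9,8,3,10,10,10,3,1,3,21])]
def cl97 : List (Nat × List Nat) := [(760960,[10,13,4,20,19,19,4,18,4,16,3,15,23,0,0]),(502816,[4,4,19,19,4,3,22,22,5,22,22,3,9,6,6])]
def cl98 : List (Nat × List Nat) := [(831904,[22,8,11,22,19,9,10,20,19,6,11,20,5,20,0]),(757020,[10,16,3,9,7,22,3,15,0,15,3,1,9,21,23])]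
def cl99 : List (Nat × List Nat) := [(924296,[16,13,16,12,12,11,10,4,17,11,3,15,3,0,21]),(966804,[22,14,14,11,18,9,9,8,12,11,1,9,1,9,19])]
def cl100 : List (Nat × List Nat) := [(385728,[0,1,11,22,23,3,12,15,10,5,10,15,7,13,0]),(731720,[14,21,19,2,9,23,2,19,11,16,17,1,12,19,21])]
def cl101 : List (Nat × List Nat) := [(693636,[10,13,4,20,19,9,4,10,2,8,1,10,23,20,5]),(186016,[0,2,5,11,23,2,4,11,17,11,4,23,23,21,23])]
def cl102 : List (Nat × List Nat) := [(754740,[10,16,0,10,18,13,3,8,3,16,1,3,21,21,5]),(385696,[5,1,15,23,23,3,23,15,17,18,20,17,7,0,6])]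
def cl103 : List (Nat × List Nat) := [(630672,[7,15,0,21,20,20,5,18,17,12,5,21,22,21,0]),(243376,[1,1,0,18,19,3,5,21,23,23,17,23,23,17,5])]
def cl104 : List (Nat × List Nat) := [(704320,[7,19,18,18,23,11,0,18,10,14,17,20,16,5,0]),(1026073,[18,19,12,12,7,18,23,23,1,23,23,1,8,14,14])]
def cl105 : List (Nat × List Nat) := [(441232,[0,0,14,22,18,1,10,22,17,8,23,20,5,20,0]),(506545,[0,0,12,16,19,1,18,19,16,16,17,16,2,8,0])]
def cl106 : List (Nat × List Nat) := [(666708,[17,19,5,18,18,11,2,12,1,11,17,1,15,22,5]),(857256,[16,9,11,1,3,16,22,18,19,3,7,23,23,7,21])]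
def cl107 : List (Nat × List Nat) := [(626320,[7,15,0,21,20,20,3,23,17,5,5,17,11,11,0]),(1006224,[16,16,16,18,18,20,20,4,17,20,4,17,5,11,0])]
def cl108 : List (Nat × List Nat) := [(677508,[14,13,18,18,23,15,1,1,9,20,20,15,19,0,19]),(806592,[16,15,20,20,23,20,15,22,21,4,4,21,10,19,0])]
def cl109 : List (Nat × List Nat) := [(517668,[0,19,18,18,23,3,22,15,17,20,21,3,21,0,5]),(212796,[14,4,3,4,9,3,4,5,15,15,17,4,16,10,16])]
def cl110 : List (Nat × List Nat) := [(629904,[10,15,6,20,18,20,19,19,4,5,5,15,23,15,0]),(756760,[20,22,2,8,7,20,3,17,0,17,3,1,15,21,23])]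
def cl111 : List (Nat × List Nat) := [(470560,[12,19,18,18,23,3,22,5,17,22,22,3,17,0,0]),(502400,[1,1,16,16,23,18,23,23,11,23,23,9,0,6,6])]
def cl112 : List (Nat × List Nat) := [(925186,[16,16,23,18,23,11,11,4,23,11,12,8,17,0,4]),(791712,[16,15,21,4,5,15,21,4,5,0,0,17,16,0,0])]
def cl113 : List (Nat × List Nat) := [(961633,[22,19,18,18,18,6,8,16,4,11,16,3,8,3,0]),(987276,[17,13,16,6,12,22,19,6,12,17,0,17,16,6,23])]
def cl114 : List (Nat × List Nat) := [(932608,[16,22,16,5,23,11,11,4,23,9,17,20,16,20,0]),(756826,[11,17,2,8,7,20,2,16,4,16,2,2,9,23,21])]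
def cl115 : List (Nat × List Nat) := [(692864,[7,13,3,9,23,9,1,10,17,9,1,15,16,7,7]),(754178,[11,16,13,21,21,22,13,21,21,16,0,0,12,14,1])]
def cl116 : List (Nat × List Nat) := [(924832,[16,13,19,18,19,7,10,4,19,17,22,17,16,0,0]),(373920,[4,1,10,19,19,3,19,10,13,5,11,17,16,6,0])]
def cl117 : List (Nat × List Nat) := [(826800,[22,15,9,20,18,9,10,18,5,0,5,18,23,21,0]),(456612,[3,1,23,22,23,2,21,7,17,7,21,23,18,4,5])]
def cl118 : List (Nat × List Nat) := [(887952,[22,15,9,20,18,23,23,22,4,5,5,15,11,15,0]),(467464,[12,18,16,2,8,5,22,2,23,16,23,2,0,2,11])]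
def cl119 : List (Nat × List Nat) := [(341634,[12,1,11,18,23,3,21,1,17,5,9,15,23,0,20]),(799920,[17,9,11,18,19,15,21,20,22,6,21,16,16,21,5])]
def cl120 : List (Nat × List Nat) := [(691904,[7,13,18,20,22,11,2,22,20,11,3,9,9,3,0]),(806448,[16,15,8,7,20,8,15,13,22,7,19,3,21,9,1])]
def cl121 : List (Nat × List Nat) := [(861832,[16,7,11,4,12,22,17,4,17,5,9,15,9,0,21]),(865464,[16,9,11,3,1,15,21,4,5,22,23,22,22,23,23])]
def cl122 : List (Nat × List Nat) := [(816672,[16,10,10,4,23,9,10,4,17,4,10,3,21,0,0]),(1032204,[18,16,16,14,2,16,16,8,2,23,1,4,1,4,16])]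
def cl123 : List (Nat × List Nat) := [(872064,[16,15,11,18,23,20,16,19,17,5,5,15,11,0,0]),(851976,[16,15,15,12,12,22,22,4,4,16,4,4,4,4,21])]
def cl124 : List (Nat × List Nat) := [(636720,[7,10,0,21,20,17,5,10,23,12,9,18,16,21,0]),(503685,[3,1,20,18,17,5,16,12,8,12,16,10,9,0,2])]
def cl125 : List (Nat × List Nat) := [(471688,[12,1,16,12,12,3,21,1,17,17,17,15,5,0,21]),(385536,[1,1,15,23,23,3,23,15,17,18,20,1,7,0,6])]
def cl126 : List (Nat × List Nat) := [(342672,[12,1,14,5,18,4,22,5,17,5,16,17,16,11,0]),(631857,[20,20,0,19,18,14,22,17,5,22,17,5,8,14,0])]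
def cl127 : List (Nat × List Nat) := [(935556,[16,15,18,18,23,9,9,2,9,11,20,15,21,0,19]),(892929,[22,11,17,23,2,17,23,17,4,16,17,4,6,6,0])]
def cl128 : List (Nat × List Nat) := [(986626,[16,16,23,18,23,23,23,19,23,23,3,2,21,0,4]),(1016076,[22,16,16,9,2,16,16,15,2,16,12,1,12,1,16])]
def cl129 : List (Nat × List Nat) := [(953536,[22,13,18,20,19,11,9,22,18,11,3,21,9,19,0]),(498322,[0,13,14,11,20,19,20,20,11,16,13,15,16,17,1])]
def cl130 : List (Nat × List Nat) := [(707264,[7,13,3,9,23,11,2,22,10,11,4,9,7,3,0]),(599568,[15,21,0,18,20,23,22,18,17,16,17,18,17,11,12])]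
def cl131 : List (Nat × List Nat) := [(370336,[0,1,11,22,23,3,17,11,17,5,11,17,11,0,0]),(803328,[16,15,15,4,23,15,15,4,23,1,1,17,1,16,16])]
def cl132 : List (Nat × List Nat) := [(634576,[7,7,0,18,19,18,2,16,10,5,16,15,9,16,0]),(1027072,[22,20,18,18,18,20,16,16,4,16,16,4,9,0,0])]
def cl133 : List (Nat × List Nat) := [(830784,[22,10,11,18,18,11,8,17,4,0,17,4,21,5,0]),(865460,[16,7,6,18,19,13,19,7,13,5,9,17,17,9,5])]
def cl134 : List (Nat × List Nat) := [(339648,[12,1,11,18,23,4,12,5,20,5,22,15,9,5,0]),(603648,[9,20,4,19,23,22,19,4,17,16,17,2,23,2,8])]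
def cl135 : List (Nat × List Nat) := [(396832,[12,13,18,7,23,1,9,3,17,9,3,3,9,0,0]),(835848,[22,15,15,14,14,15,15,15,4,0,7,1,7,1,23])]
def cl136 : List (Nat × List Nat) := [(493768,[4,13,16,9,12,19,12,23,4,17,3,15,0,5,21]),(793776,[16,15,6,4,18,7,21,19,5,1,16,17,16,17,2])]
def cl137 : List (Nat × List Nat) := [(408256,[12,1,16,5,23,1,9,19,10,11,17,15,16,5,0]),(232908,[4,2,4,9,2,4,2,15,0,14,3,10,9,4,17])]
def cl138 : List (Nat × List Nat) := [(831664,[22,8,14,16,18,9,10,10,5,0,11,22,5,17,2]),(991750,[13,19,16,22,23,22,22,8,15,16,15,8,17,11,4])]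
def cl139 : List (Nat × List Nat) := [(870020,[16,15,11,18,23,17,17,6,9,5,20,15,21,0,19]),(909332,[22,10,15,22,18,16,22,15,12,19,21,7,1,21,19])]
def cl140 : List (Nat × List Nat) := [(864904,[16,7,11,12,12,22,21,4,17,5,9,15,5,0,21]),(898209,[19,9,20,20,19,15,20,20,13,3,9,17,17,14,12])]
def cl141 : List (Nat × List Nat) := [(634704,[7,10,0,21,20,23,2,23,10,2,17,1,9,21,0]),(453344,[5,3,16,22,23,1,8,22,19,10,19,22,1,3,3])]
def cl142 : List (Nat × List Nat) := [(370560,[0,1,20,22,23,3,22,11,17,12,17,20,11,10,0]),(435492,[5,4,20,18,4,2,23,9,2,9,23,4,23,1,3])]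
def cl143 : List (Nat × List Nat) := [(807552,[16,15,11,18,23,9,10,4,17,4,4,17,5,21,21]),(368640,[5,1,17,17,18,3,17,17,12,16,17,1,21,6,0])]
def cl144 : List (Nat × List Nat) := [(827664,[22,10,14,16,18,9,9,17,4,8,17,20,11,21,0]),(950536,[18,16,16,14,12,9,9,15,4,15,9,1,9,1,21])]
def cl145 : List (Nat × List Nat) := [(931888,[16,19,12,5,18,6,10,4,19,23,17,22,16,21,0]),(909384,[20,10,23,14,8,16,14,23,10,4,10,7,4,16,17])]
def cl146 : List (Nat × List Nat) := [(894000,[22,10,6,18,18,12,22,11,5,5,17,3,11,11,0]),(1027332,[22,20,23,22,23,20,16,16,0,16,16,1,17,4,5])]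
def cl147 : List (Nat × List Nat) := [(709168,[7,16,12,9,20,8,4,21,17,21,1,3,18,15,0]),(861956,[12,10,10,18,23,17,17,2,15,2,15,7,15,7,5])]
def cl148 : List (Nat × List Nat) := [(800416,[16,10,11,5,23,9,10,4,17,0,17,17,16,0,0]),(991744,[12,18,16,5,11,23,17,1,17,23,17,1,3,1,0])]
def cl149 : List (Nat × List Nat) := [(855168,[16,15,21,18,19,20,23,19,4,5,22,15,21,0,0]),(787584,[16,15,21,18,19,9,11,5,4,2,0,15,15,0,0])]
def cl150 : List (Nat × List Nat) := [(822657,[22,15,11,11,19,10,9,22,4,8,19,20,14,1,0]),(231448,[10,16,3,9,7,5,22,23,4,23,22,2,17,23,21])]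
def cl151 : List (Nat × List Nat) := [(639504,[7,15,12,9,20,22,13,15,17,5,1,1,1,11,0]),(206340,[12,19,19,18,23,13,13,8,8,23,15,6,15,6,5])]
def cl152 : List (Nat × List Nat) := [(922114,[16,16,16,18,23,9,10,18,17,11,0,2,5,2,4]),(1024033,[22,22,16,16,19,16,22,11,5,22,11,5,0,0,0])]
def cl153 : List (Nat × List Nat) := [(953473,[22,13,23,20,19,11,9,17,4,9,3,15,9,0,0]),(760466,[11,13,12,15,20,19,18,20,15,16,3,9,3,9,7])]
def cl154 : List (Nat × List Nat) := [(930304,[16,22,16,5,23,9,10,4,17,11,17,1,5,0,0]),(836736,[22,15,11,11,19,9,17,17,1,4,4,15,10,2,2])]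
def cl155 : List (Nat × List Nat) := [(794496,[16,15,11,18,23,11,11,19,17,0,5,20,23,10,0]),(986892,[16,16,23,6,8,23,16,12,14,16,3,1,9,7,16])]
def cl156 : List (Nat × List Nat) := [(709264,[7,13,12,9,18,9,4,10,17,10,1,17,5,11,0]),(923800,[16,17,17,12,2,11,11,4,4,9,3,21,3,21,21])]
def cl157 : List (Nat × List Nat) := [(790144,[16,15,11,18,23,21,9,19,15,0,22,15,21,0,0]),(820384,[22,15,21,21,19,9,9,9,19,0,0,17,21,14,14])]
def cl158 : List (Nat × List Nat) := [(893985,[22,10,11,18,18,15,22,11,5,5,11,3,8,0,0]),(962593,[18,21,22,22,18,8,11,11,5,11,11,3,12,0,0])]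
def cl159 : List (Nat × List Nat) := [(706240,[7,13,18,20,23,9,2,15,10,10,1,9,21,3,0]),(836640,[22,15,11,11,18,9,15,15,5,1,1,3,21,0,0])]
def cl160 : List (Nat × List Nat) := [(1021356,[22,13,21,7,12,13,21,7,12,12,1,20,16,1,16]),(1042524,[23,21,15,15,7,23,15,15,7,18,20,1,1,16,16])]
def cl161 : List (Nat × List Nat) := [(837912,[22,15,14,15,7,20,21,22,4,6,19,1,7,21,21]),(495298,[0,13,19,21,23,19,13,23,21,16,13,15,9,3,1])]
def cl162 : List (Nat × List Nat) := [(956824,[22,13,13,9,4,11,11,18,4,8,3,10,3,10,21]),(81618,[0,0,0,18,20,18,2,18,10,16,13,9,16,16,7])]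
def cl163 : List (Nat × List Nat) := [(1024000,[22,22,16,16,18,22,22,11,4,22,11,4,0,0,0]),(756736,[20,22,18,20,18,22,5,22,8,22,5,10,11,0,2])]
def cl164 : List (Nat × List Nat) := [(812640,[16,10,10,18,23,9,9,4,18,1,20,22,20,22,0]),(1003020,[16,16,20,7,9,20,16,13,15,19,4,9,10,3,16])]
def cl165 : List (Nat × List Nat) := [(691760,[7,16,0,20,20,9,2,22,22,11,3,3,9,9,0]),(818736,[16,10,11,5,20,11,10,4,22,1,22,3,23,9,0])]
def cl166 : List (Nat × List Nat) := [(1015816,[22,16,16,9,12,22,22,11,4,16,1,4,1,4,21]),(180736,[0,3,3,9,23,8,8,15,17,11,7,6,7,6,0])]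
def cl167 : List (Nat × List Nat) := [(1024048,[22,22,12,22,18,16,22,11,5,22,11,5,0,21,0]),(796416,[16,10,10,18,23,9,9,2,17,0,15,4,15,4,5])]
def cl168 : List (Nat × List Nat) := [(824736,[22,15,11,11,19,15,11,11,19,0,1,20,16,20,0]),(824706,[22,15,11,11,19,9,10,10,4,0,0,7,16,7,7])]
def cl169 : List (Nat × List Nat) := [(960832,[22,22,16,16,18,11,14,17,4,14,17,4,0,5,0]),(940672,[16,16,22,12,23,11,21,4,17,21,4,17,5,21,21])]
def cl170 : List (Nat × List Nat) := [(780880,[7,18,12,22,20,18,12,22,20,19,20,1,1,16,0]),(1015296,[16,19,19,18,23,19,19,18,23,19,20,1,18,1,0])]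
def cl171 : List (Nat × List Nat) := [(992776,[16,22,22,4,9,22,22,4,17,22,17,4,17,4,21]),(501376,[4,4,22,18,23,3,22,15,15,22,15,15,9,0,0])]
def cl172 : List (Nat × List Nat) := [(1024040,[22,22,16,12,12,16,22,11,5,22,11,5,0,0,21]),(867984,[16,10,10,18,18,20,20,18,15,5,23,9,23,9,0])]
def cl173 : List (Nat × List Nat) := [(436240,[4,4,12,22,18,1,15,16,4,15,16,4,0,21,0]),(790656,[16,15,11,1,19,9,21,18,3,0,7,15,13,1,1])]
def cl174 : List (Nat × List Nat) := [(861696,[16,10,10,18,23,16,16,4,17,5,11,1,11,1,0]),(927232,[16,19,19,18,23,9,9,4,17,9,11,1,11,1,0])]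
def cl175 : List (Nat × List Nat) := [(1026064,[22,22,12,22,18,20,22,22,4,22,22,4,0,21,0]),(1019136,[22,22,20,20,16,20,22,22,10,12,3,1,9,7,14])]
def cl176 : List (Nat × List Nat) := [(1042512,[22,22,16,22,18,22,16,22,18,19,20,1,18,23,0]),(777856,[7,13,18,20,23,23,18,21,15,21,18,21,23,15,9])]
def cl177 : List (Nat × List Nat) := [(891288,[22,15,15,9,4,20,20,18,4,13,3,20,3,20,21]),(237232,[0,13,0,10,23,1,19,21,16,23,16,16,17,17,5])]
def cl178 : List (Nat × List Nat) := [(1025028,[22,19,19,18,18,22,22,8,2,22,9,20,9,20,5]),(502417,[0,0,16,22,23,5,22,22,15,22,22,15,0,14,0])]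
def cl179 : List (Nat × List Nat) := [(972952,[22,13,13,9,4,11,11,18,4,11,4,15,4,15,21]),(455556,[2,0,16,17,23,3,21,7,15,7,21,21,5,4,5])]
def cl180 : List (Nat × List Nat) := [(417448,[12,12,18,7,12,1,11,5,17,11,5,17,21,0,21]),(503329,[0,19,18,18,23,3,16,16,17,16,16,22,9,0,0])]
def cl181 : List (Nat × List Nat) := [(497314,[0,13,19,20,23,13,19,20,23,16,0,15,16,0,1]),(507808,[0,1,18,18,17,1,18,18,17,12,17,21,16,1,0])]
def cl182 : List (Nat × List Nat) := [(985096,[16,16,16,12,12,20,22,16,4,22,16,4,0,5,21]),(501808,[4,4,12,22,18,3,22,17,5,22,17,5,16,11,0])]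
def cl183 : List (Nat × List Nat) := [(502328,[0,19,12,12,9,3,22,22,17,22,22,3,0,21,21]),(522808,[0,19,12,12,9,3,18,18,17,18,18,3,18,21,21])]
def cl184 : List (Nat × List Nat) := [(956560,[22,13,13,9,18,11,11,18,4,11,3,15,3,15,0]),(959584,[22,19,19,18,4,9,9,15,4,9,9,3,9,3,6])]
def cl185 : List (Nat × List Nat) := [(1022104,[22,13,13,9,4,19,19,18,4,16,3,15,3,15,21]),(923796,[16,13,13,4,18,11,11,4,2,11,13,15,13,15,5])]
def cl186 : List (Nat × List Nat) := [(1025056,[22,22,18,18,18,16,22,11,5,22,11,5,11,0,0]),(920608,[16,16,18,4,12,9,11,5,5,11,5,5,11,0,0])]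
def cl187 : List (Nat × List Nat) := [(900240,[22,7,7,18,18,18,18,18,4,5,17,15,17,15,0]),(1003212,[16,13,19,7,12,19,13,13,6,21,4,9,10,3,16])]
def cl188 : List (Nat × List Nat) := [(844896,[22,10,10,18,18,9,9,11,4,1,20,3,20,3,0]),(820482,[22,15,11,11,1,9,9,9,1,8,8,1,21,4,4])]
def cl189 : List (Nat × List Nat) := [(455344,[0,0,12,22,18,2,10,20,17,10,20,17,18,21,0]),(501832,[4,19,23,12,12,18,12,23,18,22,23,3,0,5,11])]
def cl190 : List (Nat × List Nat) := [(893952,[22,10,10,18,18,16,16,11,4,5,11,1,11,1,0]),(950272,[22,16,16,11,4,9,9,15,4,11,1,1,1,1,0])]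
def cl191 : List (Nat × List Nat) := [(1026376,[22,22,16,12,12,22,12,16,4,12,16,4,0,5,21]),(1021090,[23,14,20,10,19,14,20,10,19,23,2,15,16,14,1])]
def cl192 : List (Nat × List Nat) := [(609816,[14,15,0,0,7,20,3,3,17,19,19,1,21,21,21]),(914612,[22,7,7,18,18,13,18,7,12,5,11,17,21,9,3])]
def cl193 : List (Nat × List Nat) := [(992772,[16,19,19,18,23,22,22,2,8,22,9,1,9,1,5]),(960529,[23,23,12,22,18,20,9,22,3,9,22,3,0,14,0])]
def cl194 : List (Nat × List Nat) := [(941728,[16,16,18,18,23,10,10,4,17,10,4,17,21,0,0]),(520864,[2,2,16,22,23,3,22,21,17,22,21,17,18,0,0])]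
def cl195 : List (Nat × List Nat) := [(462472,[12,12,18,7,12,18,22,5,17,22,5,17,21,0,21]),(867476,[16,7,7,18,18,18,18,4,2,5,17,15,17,15,5])]
def cl196 : List (Nat × List Nat) := [(518680,[0,19,12,12,9,18,22,22,17,20,20,1,1,21,21]),(1032348,[19,13,13,9,1,22,22,8,2,21,1,15,1,15,16])]
def cl197 : List (Nat × List Nat) := [(769792,[7,19,18,18,23,19,18,18,23,13,22,20,23,20,0]),(245296,[0,19,3,18,20,3,19,19,22,22,22,3,23,9,0])]
def cl198 : List (Nat × List Nat) := [(379032,[4,2,14,14,4,5,16,16,4,18,18,15,1,15,15]),(451105,[1,19,23,23,23,2,15,15,17,11,11,22,6,2,2])]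
def cl199 : List (Nat × List Nat) := [(450756,[4,1,16,16,19,3,8,8,7,10,10,15,1,3,3]),(960872,[22,22,16,13,12,8,14,16,4,14,16,4,1,19,21])]
def cl200 : List (Nat × List Nat) := [(888090,[22,15,6,6,7,20,22,22,4,2,2,1,21,20,20]),(380088,[4,14,7,7,4,3,16,16,5,5,5,17,10,21,21])]
def cl201 : List (Nat × List Nat) := [(507520,[0,2,18,18,23,5,18,18,17,16,16,17,16,0,0]),(369280,[0,1,17,22,22,3,22,17,17,16,17,17,0,0,0])]
def cl202 : List (Nat × List Nat) := [(934404,[16,16,16,18,23,9,9,2,8,11,1,1,1,1,5]),(878084,[16,10,10,18,23,16,16,2,8,5,10,1,10,1,5])]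
def cl203 : List (Nat × List Nat) := [(503296,[0,19,18,18,23,18,22,22,17,22,22,1,21,0,0]),(861188,[16,10,10,18,18,16,16,2,2,5,11,20,11,20,5])]
def cl204 : List (Nat × List Nat) := [(819328,[22,15,11,11,19,9,9,9,4,2,2,15,2,0,0]),(311424,[4,2,21,21,19,5,23,23,4,18,18,15,18,0,0])]
def cl205 : List (Nat × List Nat) := [(438944,[0,1,16,16,23,2,10,10,17,11,11,17,5,0,0]),(992775,[12,18,18,18,23,16,16,2,15,16,9,0,9,0,2])]
def cl206 : List (Nat × List Nat) := [(653040,[7,7,0,18,23,13,2,10,23,5,11,17,21,16,0]),(749148,[14,19,0,0,9,20,2,2,11,19,19,1,11,23,23])]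
def cl207 : List (Nat × List Nat) := [(853002,[16,15,11,6,2,22,17,4,4,5,0,14,21,5,21]),(499744,[4,4,16,16,18,3,22,17,5,22,17,5,6,0,0])]
def cl208 : List (Nat × List Nat) := [(491560,[4,13,16,14,12,3,23,9,16,16,1,13,1,1,21]),(753664,[11,23,16,9,13,23,16,9,13,16,1,1,0,0,0])]
def cl209 : List (Nat × List Nat) := [(337440,[12,1,11,5,23,3,17,4,17,5,11,22,21,11,11]),(599060,[17,11,6,4,18,17,3,2,2,5,11,3,21,21,5])]
def cl210 : List (Nat × List Nat) := [(361632,[4,2,11,20,19,2,17,9,19,5,1,17,15,15,15]),(330888,[5,0,11,1,13,4,17,3,0,5,5,17,15,2,23])]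
def cl211 : List (Nat × List Nat) := [(436288,[4,4,23,22,18,1,9,23,4,11,17,1,8,16,0]),(627858,[10,15,6,20,19,16,19,10,4,5,0,15,16,21,4])]
def cl212 : List (Nat × List Nat) := [(331392,[12,2,11,18,23,19,17,19,17,5,19,17,21,0,0]),(273600,[16,1,21,5,19,1,8,5,20,2,17,21,17,19,2])]
def cl213 : List (Nat × List Nat) := [(622608,[10,15,12,9,18,22,13,15,4,16,3,1,5,21,0]),(457672,[0,0,16,12,12,1,8,20,10,8,20,10,5,5,21])]
def cl214 : List (Nat × List Nat) := [(888264,[22,15,11,7,2,20,12,16,4,2,3,20,21,19,21]),(868244,[16,7,7,18,18,18,18,2,15,3,22,10,22,10,16])]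
def cl215 : List (Nat × List Nat) := [(956728,[22,16,12,9,7,9,10,18,5,8,3,4,3,21,15]),(457393,[0,0,12,22,23,7,11,21,17,11,21,17,0,14,0])]
def cl216 : List (Nat × List Nat) := [(454596,[0,5,18,22,23,1,8,15,10,10,23,10,21,19,5]),(456952,[4,5,14,13,5,0,8,22,5,10,22,23,18,23,17])]
def cl217 : List (Nat × List Nat) := [(774712,[7,16,12,9,7,13,18,20,17,19,1,3,19,21,21]),(771276,[10,13,18,9,12,23,2,8,6,21,7,15,10,5,16])]
def cl218 : List (Nat × List Nat) := [(860040,[16,15,11,6,12,20,20,19,17,2,3,20,16,1,21]),(905400,[22,9,14,8,4,15,18,21,5,5,1,16,18,11,11])]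
def cl219 : List (Nat × List Nat) := [(882356,[16,7,7,18,18,13,18,1,12,5,20,17,21,21,19]),(454369,[4,2,23,22,23,7,9,16,23,11,23,22,9,3,0])]
def cl220 : List (Nat × List Nat) := [(506680,[0,19,12,12,9,3,18,18,17,14,17,4,5,11,21]),(499624,[0,13,20,6,14,1,20,19,17,12,5,18,17,4,21])]
def cl221 : List (Nat × List Nat) := [(771688,[7,16,5,9,9,12,2,11,19,19,1,3,21,3,11]),(855188,[17,15,6,18,19,18,23,2,12,5,13,21,21,21,19])]
def cl222 : List (Nat × List Nat) := [(992838,[16,19,19,18,23,16,13,8,10,16,9,0,15,19,5]),(1034388,[23,13,14,11,18,19,22,15,2,19,19,15,1,15,5])]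
def cl223 : List (Nat × List Nat) := [(259764,[0,1,0,18,18,3,5,8,12,18,10,22,21,21,19]),(960625,[18,19,16,22,18,9,14,17,4,17,17,3,2,14,0])]
def cl224 : List (Nat × List Nat) := [(473656,[12,19,12,12,7,3,18,18,17,16,16,3,5,11,11]),(473748,[2,1,12,5,18,18,18,1,15,16,16,9,16,9,5])]
def cl225 : List (Nat × List Nat) := [(866180,[16,10,11,5,23,22,20,0,8,2,9,10,17,7,5]),(243250,[0,5,0,21,20,3,5,11,17,16,14,3,17,15,1])]
def cl226 : List (Nat × List Nat) := [(389778,[0,1,14,22,23,3,21,10,17,19,6,15,18,11,1]),(832962,[21,11,11,22,19,9,8,21,10,0,8,6,23,4,1])]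
def cl227 : List (Nat × List Nat) := [(717588,[7,19,12,22,20,9,7,8,8,6,10,7,18,20,19]),(953569,[22,15,19,21,13,9,8,22,4,15,13,23,14,2,14])]
def cl228 : List (Nat × List Nat) := [(863433,[16,7,11,3,12,18,12,5,4,16,17,17,8,2,14]),(241201,[6,19,3,18,21,3,3,22,17,23,22,3,9,14,0])]
def cl229 : List (Nat × List Nat) := [(707704,[10,16,0,6,7,8,2,16,18,10,4,3,10,16,11]),(495265,[4,3,20,20,23,1,22,23,17,22,13,17,15,14,0])]
def cl230 : List (Nat × List Nat) := [(516756,[0,0,14,22,18,3,22,8,8,18,10,15,4,15,5]),(863944,[17,6,20,0,13,19,12,5,10,19,16,15,23,5,21])]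
def cl231 : List (Nat × List Nat) := [(933442,[16,19,22,18,23,11,8,18,10,11,13,0,16,19,1]),(930370,[17,19,17,16,23,9,8,1,10,11,9,0,22,19,1])]
def cl232 : List (Nat × List Nat) := [(995862,[16,19,12,5,20,22,18,7,9,16,9,0,16,21,4]),(774856,[10,14,3,14,12,23,0,11,10,21,1,15,4,3,21])]
def cl233 : List (Nat × List Nat) := [(991116,[16,13,21,7,13,20,21,1,8,12,3,20,23,1,16]),(896193,[21,7,20,18,19,18,15,16,4,16,16,21,8,2,0])]
def cl234 : List (Nat × List Nat) := [(1019080,[22,13,19,7,12,19,13,16,4,16,3,15,9,3,21]),(815304,[17,9,15,12,12,15,8,18,4,7,20,15,5,5,21])]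
def cl235 : List (Nat × List Nat) := [(245458,[0,1,0,18,18,19,2,18,10,23,13,15,16,16,1]),(757448,[11,15,18,9,17,21,12,16,10,16,3,15,15,5,21])]
def cl236 : List (Nat × List Nat) := [(910388,[22,10,6,18,18,12,16,8,2,5,20,3,20,21,5]),(437473,[4,3,22,22,19,1,8,22,4,23,22,22,8,3,0])]
def cl237 : List (Nat × List Nat) := [(249544,[0,13,19,7,13,19,13,16,10,19,4,15,10,16,21]),(937672,[17,15,21,7,13,10,9,5,10,21,4,15,10,16,21])]
def cl238 : List (Nat × List Nat) := [(894003,[22,10,6,18,18,15,22,11,5,5,8,3,8,14,0]),(956593,[18,15,15,9,18,9,10,19,5,9,3,17,2,8,0])]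
def cl239 : List (Nat × List Nat) := [(734988,[14,19,18,4,9,22,18,1,8,13,9,7,16,1,16]),(838968,[23,9,8,7,7,8,9,22,5,0,4,4,20,20,21])]
def cl240 : List (Nat × List Nat) := [(888212,[22,15,9,20,18,22,17,15,2,2,3,20,21,21,5]),(705732,[10,13,19,20,19,9,8,9,1,11,1,15,21,5,5])]
def cl241 : List (Nat × List Nat) := [(605400,[17,7,0,4,4,18,0,4,4,22,17,15,17,17,21]),(865032,[15,10,11,12,14,22,22,18,17,3,17,7,13,7,21])]
def cl242 : List (Nat × List Nat) := [(495496,[0,13,18,8,12,5,22,22,17,14,3,20,17,4,21]),(864786,[12,10,14,19,20,22,22,4,17,22,9,14,5,11,20])]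
def cl243 : List (Nat × List Nat) := [(986635,[16,16,23,7,9,22,16,5,17,16,3,0,15,0,6]),(404676,[16,2,18,4,19,7,8,2,1,11,17,15,9,5,5])]
def cl244 : List (Nat × List Nat) := [(998152,[16,22,16,12,14,22,22,18,17,16,22,1,5,4,21]),(669444,[9,19,18,19,17,9,10,6,8,8,11,7,23,7,13])]
def cl245 : List (Nat × List Nat) := [(603284,[17,7,0,5,18,22,5,0,2,5,11,15,16,17,5])]
def clG0 : List (List (Nat × List Nat)) := [cl0,cl16,cl32,cl48,cl64,cl80,cl96,cl112,cl128,cl144,cl160,cl176,cl192,cl208,cl224,cl240]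
def clG1 : List (List (Nat × List Nat)) := [cl1,cl17,cl33,cl49,cl65,cl81,cl97,cl113,cl129,cl145,cl161,cl177,cl193,cl209,cl225,cl241]
def clG2 : List (List (Nat × List Nat)) := [cl2,cl18,cl34,cl50,cl66,cl82,cl98,cl114,cl130,cl146,cl162,cl178,cl194,cl210,cl226,cl242]
def clG3 : List (List (Nat × List Nat)) := [cl3,cl19,cl35,cl51,cl67,cl83,cl99,cl115,cl131,cl147,cl163,cl179,cl195,cl211,cl227,cl243]
def clG4 : List (List (Nat × List Nat)) := [cl4,cl20,cl36,cl52,cl68,cl84,cl100,cl116,cl132,cl148,cl164,cl180,cl196,cl212,cl228,cl244]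
def clG5 : List (List (Nat × List Nat)) := [cl5,cl21,cl37,cl53,cl69,cl85,cl101,cl117,cl133,cl149,cl165,cl181,cl197,cl213,cl229,cl245]
def clG6 : List (List (Nat × List Nat)) := [cl6,cl22,cl38,cl54,cl70,cl86,cl102,cl118,cl134,cl150,cl166,cl182,cl198,cl214,cl230]
def clG7 : List (List (Nat × List Nat)) := [cl7,cl23,cl39,cl55,cl71,cl87,cl103,cl119,cl135,cl151,cl167,cl183,cl199,cl215,cl231]
def clG8 : List (List (Nat × List Nat)) := [cl8,cl24,cl40,cl56,cl72,cl88,cl104,cl120,cl136,cl152,cl168,cl184,cl200,cl216,cl232]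
def clG9 : List (List (Nat × List Nat)) := [cl9,cl25,cl41,cl57,cl73,cl89,cl105,cl121,cl137,cl153,cl169,cl185,cl201,cl217,cl233]
def clG10 : List (List (Nat × List Nat)) := [cl10,cl26,cl42,cl58,cl74,cl90,cl106,cl122,cl138,cl154,cl170,cl186,cl202,cl218,cl234]
def clG11 : List (List (Nat × List Nat)) := [cl11,cl27,cl43,cl59,cl75,cl91,cl107,cl123,cl139,cl155,cl171,cl187,cl203,cl219,cl235]
def clG12 : List (List (Nat × List Nat)) := [cl12,cl28,cl44,cl60,cl76,cl92,cl108,cl124,cl140,cl156,cl172,cl188,cl204,cl220,cl236]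
def clG13 : List (List (Nat × List Nat)) := [cl13,cl29,cl45,cl61,cl77,cl93,cl109,cl125,cl141,cl157,cl173,cl189,cl205,cl221,cl237]
def clG14 : List (List (Nat × List Nat)) := [cl14,cl30,cl46,cl62,cl78,cl94,cl110,cl126,cl142,cl158,cl174,cl190,cl206,cl222,cl238]
def clG15 : List (List (Nat × List Nat)) := [cl15,cl31,cl47,cl63,cl79,cl95,cl111,cl127,cl143,cl159,cl175,cl191,cl207,cl223,cl239]
def clL : List (List (Nat × List Nat)) := clG0 ++ (clG1 ++ (clG2 ++ (clG3 ++ (clG4 ++ (clG5 ++ (clG6 ++ (clG7 ++ (clG8 ++ (clG9 ++ (clG10 ++ (clG11 ++ (clG12 ++ (clG13 ++ (clG14 ++ (clG15)))))))))))))))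
end
end Pool.Agent.Work.MP_f1799f_co
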