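import Pool.Agent.Work.MP_f1799f_co.Ver0
set_option linter.defProp false
namespace Pool.Agent.Work.MP_f1799f_co
noncomputable section
def v_tu0 : allN 24 (fun o => chkTE ([2,3,4,5],0,1) (nth tu0 te0 o)) = true := by decide +kernel
def v_tu1 : allN 24 (fun o => chkTE ([1,3,4,5],0,2) (nth tu1 te0 o)) = true := by decide +kernel
def v_tu2 : allN 24 (fun o => chkTE ([1,2,4,5],0,3) (nth tu2 te0 o)) = true := by decide +kernel
def v_tu3 : allN 24 (fun o => chkTE ([1,2,3,5],0,4) (nth tu3 te0 o)) = true := by decide +kernel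
def v_tu4 : allN 24 (fun o => chkTE ([1,2,3,4],0,5) (nth tu4 te0 o)) = true := by decide +kernel
def v_tu5 : allN 24 (fun o => chkTE ([0,3,4,5],1,2) (nth tu5 te0 o)) = true := by decide +kernel
def v_tu6 : allN 24 (fun o => chkTE ([0,2,4,5],1,3) (nth tu6 te0 o)) = true := by decide +kernel
def v_tu7 : allN 24 (fun o => chkTE ([0,2,3,5],1,4) (nth tu7 te0 o)) = true := by decide +kernel
def v_tu8 : allN 24 (fun o => chkTE ([0,2,3,4],1,5) (nth tu8 te0 o)) = true := by decide +kernel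
def v_tu9 : allN 24 (fun o => chkTE ([0,1,4,5],2,3) (nth tu9 te0 o)) = true := by decide +kernel
def v_tu10 : allN 24 (fun o => chkTE ([0,1,3,5],2,4) (nth tu10 te0 o)) = true := by decide +kernel
def v_tu11 : allN 24 (fun o => chkTE ([0,1,3,4],2,5) (nth tu11 te0 o)) = true := by decide +kernel
def v_tu12 : allN 24 (fun o => chkTE ([0,1,2,5],3,4) (nth tu12 te0 o)) = true := by decide +kernel
def v_tu13 : allN 24 (fun o => chkTE ([0,1,2,4],3,5) (nth tu13 te0 o)) = true := by decide +kernel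
def v_tu14 : allN 24 (fun o => chkTE ([0,1,2,3],4,5) (nth tu14 te0 o)) = true := by decide +kernel
theorem v_tu : chkTU prs tuL = true :=
  chkTU_cons v_tu0 (chkTU_cons v_tu1 (chkTU_cons v_tu2 (chkTU_cons v_tu3 (chkTU_cons v_tu4 (chkTU_cons v_tu5 (chkTU_cons v_tu6 (chkTU_cons v_tu7 (chkTU_cons v_tu8 (chkTU_cons v_tu9 (chkTU_cons v_tu10 (chkTU_cons v_tu11 (chkTU_cons v_tu12 (chkTU_cons v_tu13 (chkTU_cons v_tu14 (rfl)))))))))))))))
end
end Pool.Agent.Work.MP_f1799f_co
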