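import Pool.Agent.Work.MP_f1799f_co.Ver0
set_option linter.defProp false
namespace Pool.Agent.Work.MP_f1799f_co
noncomputable section
def v_tc0 : allN 72 (fun i => tcP (72 * 0 + i)) = true := by decide +kernel
def v_tc1 : allN 72 (fun i => tcP (72 * 1 + i)) = true := by decide +kernel
def v_tc2 : allN 72 (fun i => tcP (72 * 2 + i)) = true := by decide +kernel
def v_tc3 : allN 72 (fun i => tcP (72 * 3 + i)) = true := by decide +kernel
def v_tc4 : allN 72 (fun i => tcP (72 * 4 + i)) = true := by decide +kernel
def v_tc5 : allN 72 (fun i => tcP (72 * 5 + i)) = true := by decide +kernel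
def v_tc6 : allN 72 (fun i => tcP (72 * 6 + i)) = true := by decide +kernel
def v_tc7 : allN 72 (fun i => tcP (72 * 7 + i)) = true := by decide +kernel
def v_tc8 : allN 72 (fun i => tcP (72 * 8 + i)) = true := by decide +kernel
def v_tc9 : allN 72 (fun i => tcP (72 * 9 + i)) = true := by decide +kernel
theorem v_tc : chkTC tcL = true := by
  refine allN_of (allN_split (m := 72) (k := 10) (p := tcP) fun c hc => ?_)
  match c, hc with
  | 0, _ => exact v_tc0
  | 1, _ => exact v_tc1
  | 2, _ => exact v_tc2
  | 3, _ => exact v_tc3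
  | 4, _ => exact v_tc4
  | 5, _ => exact v_tc5
  | 6, _ => exact v_tc6
  | 7, _ => exact v_tc7
  | 8, _ => exact v_tc8
  | 9, _ => exact v_tc9
end
end Pool.Agent.Work.MP_f1799f_co
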