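import Pool.Agent.Work.MP_f1799f_co.Ver0
set_option linter.defProp false
namespace Pool.Agent.Work.MP_f1799f_co
noncomputable section
def v_c60 : allN 3 (fun i => c6P (3 * 0 + i)) = true := by decide +kernel
def v_c61 : allN 3 (fun i => c6P (3 * 1 + i)) = true := by decide +kernel
def v_c62 : allN 3 (fun i => c6P (3 * 2 + i)) = true := by decide +kernel
def v_c63 : allN 3 (fun i => c6P (3 * 3 + i)) = true := by decide +kernel
def v_c64 : allN 3 (fun i => c6P (3 * 4 + i)) = true := by decide +kernel
def v_c65 : allN 3 (fun i => c6P (3 * 5 + i)) = true := by decide +kernel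
def v_c66 : allN 3 (fun i => c6P (3 * 6 + i)) = true := by decide +kernel
def v_c67 : allN 2 (fun i => c6P (3 * 7 + i)) = true := by decide +kernel
theorem v_len : cov6.length = 23 := by decide +kernel
theorem v_c6 : ∀ e ∈ cov6, chk6 tcL (bmap clL) e = true := by
  intro e he
  obtain ⟨i, hi, rfl⟩ := mem_nth (0, 0) he
  rw [v_len] at hi
  by_cases c : i < 3 * 7
  · refine allN_split (m := 3) (k := 7) (p := c6P) (fun c hc => ?_) i c
    match c, hc with
    | 0, _ => exact v_c60
    | 1, _ => exact v_c61
    | 2, _ => exact v_c62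
    | 3, _ => exact v_c63
    | 4, _ => exact v_c64
    | 5, _ => exact v_c65
    | 6, _ => exact v_c66
  · have := allN_spec v_c67 (i - 3 * 7) (by omega)
    rwa [Nat.add_sub_cancel' (by omega)] at this
end
end Pool.Agent.Work.MP_f1799f_co
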