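import Mathlib

/-!
Existence of the Turán density of the tetrahedron (averaging argument) and passage from a
finite bound to the limit.
-/

namespace Pool.Agent.Work.MP_f1799f_co

open Finset Filter

/-- `E` is a 3-uniform family on `Fin n` in which every 4-set misses a triple. -/
def LimGood (n : ℕ) (E : Finset (Finset (Fin n))) : Prop :=
  (∀ e ∈ E, e.card = 3) ∧ (∀ S : Finset (Fin n), S.card = 4 → ∃ T ⊆ S, T.card = 3 ∧ T ∉ E)

/-- The set of sizes of such families. -/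
def limSizes (n : ℕ) : Set ℕ :=
  {m : ℕ | ∃ E : Finset (Finset (Fin n)), (∀ e ∈ E, e.card = 3) ∧
    (∀ S : Finset (Fin n), S.card = 4 → ∃ T ⊆ S, T.card = 3 ∧ T ∉ E) ∧ E.card = m}

theorem limSizes_nonempty (n : ℕ) : (limSizes n).Nonempty := by
  refine ⟨0, ∅, by simp, ?_, by simp⟩
  intro S hS
  obtain ⟨T, hT, hc⟩ := Finset.exists_subset_card_eq (s := S) (n := 3) (by omega)
  exact ⟨T, hT, hc, by simp⟩

theorem limSizes_bdd (n : ℕ) : BddAbove (limSizes n) := by
  refine ⟨Fintype.card (Finset (Fin n)), ?_⟩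
  rintro m ⟨E, -, -, rfl⟩
  exact Finset.card_le_univ E

theorem limEx_spec (n : ℕ) : ∃ E : Finset (Finset (Fin n)), LimGood n E ∧
    E.card = sSup (limSizes n) := by
  obtain ⟨E, h1, h2, h3⟩ := Nat.sSup_mem (limSizes_nonempty n) (limSizes_bdd n)
  exact ⟨E, ⟨h1, h2⟩, h3⟩

theorem le_limEx {n : ℕ} {E : Finset (Finset (Fin n))} (hE : LimGood n E) :
    E.card ≤ sSup (limSizes n) :=
  le_csSup (limSizes_bdd n) ⟨E, hE.1, hE.2, rfl⟩

theorem card_avoid_le {n : ℕ} {E : Finset (Finset (Fin (n + 1)))} (hE : LimGood (n + 1) E)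
    (v : Fin (n + 1)) : (E.filter (fun e => v ∉ e)).card ≤ sSup (limSizes n) := by
  classical
  let f : Fin n ↪ Fin (n + 1) := v.succAboveEmb
  let E' : Finset (Finset (Fin n)) := univ.filter (fun T => T.map f ∈ E)
  have hgood : LimGood n E' := by
    refine ⟨?_, ?_⟩
    · intro e he
      have := hE.1 _ (mem_filter.1 he).2
      simpa using this
    · intro S hS
      obtain ⟨T, hT, hc, hn⟩ := hE.2 (S.map f) (by simpa using hS)
      obtain ⟨u, hu, rfl⟩ := Finset.subset_map_iff.1 hT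
      refine ⟨u, hu, by simpa using hc, ?_⟩
      intro hmem
      exact hn (mem_filter.1 hmem).2
  refine le_trans ?_ (le_limEx hgood)
  refine le_trans (card_le_card (t := E'.image (fun T => T.map f)) ?_) card_image_le
  intro e he
  obtain ⟨he1, he2⟩ := mem_filter.1 he
  have hsub : e ⊆ (univ : Finset (Fin n)).map f := by
    intro x hx
    have hxv : x ≠ v := fun h => he2 (h ▸ hx)
    obtain ⟨y, hy⟩ := Fin.exists_succAbove_eq hxv
    exact mem_map.2 ⟨y, mem_univ _, hy⟩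
  obtain ⟨u, -, rfl⟩ := Finset.subset_map_iff.1 hsub
  exact mem_image.2 ⟨u, mem_filter.2 ⟨mem_univ _, he1⟩, rfl⟩

theorem limEx_step (n : ℕ) :
    (n - 2) * sSup (limSizes (n + 1)) ≤ (n + 1) * sSup (limSizes n) := by
  classical
  obtain ⟨E, hE, hc⟩ := limEx_spec (n + 1)
  rw [← hc]
  have h1 : ∑ v : Fin (n + 1), (E.filter (fun e => v ∉ e)).card = (n - 2) * E.card := by
    have : ∀ v : Fin (n + 1), (E.filter (fun e => v ∉ e)).card
        = ∑ e ∈ E, if v ∉ e then 1 else 0 := by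
      intro v
      rw [Finset.card_filter]
    simp_rw [this]
    rw [Finset.sum_comm]
    rw [mul_comm, ← smul_eq_mul, ← Finset.sum_const]
    refine Finset.sum_congr rfl ?_
    intro e he
    rw [← Finset.card_filter]
    have : (univ.filter (fun v : Fin (n + 1) => v ∉ e)) = eᶜ := by
      ext v; simp
    rw [this, Finset.card_compl, hE.1 e he, Fintype.card_fin]
    omega
  rw [← h1]
  calc ∑ v : Fin (n + 1), (E.filter (fun e => v ∉ e)).card
      ≤ ∑ _v : Fin (n + 1), sSup (limSizes n) := Finset.sum_le_sum (fun v _ => card_avoid_le hE v)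
    _ = (n + 1) * sSup (limSizes n) := by simp

theorem six_choose_three (n : ℕ) :
    6 * (((n + 3).choose 3 : ℕ) : ℝ) = ((n : ℝ) + 3) * (n + 2) * (n + 1) := by
  induction n with
  | zero => norm_num
  | succ k ih =>
    have h2 : ∀ m : ℕ, 2 * (((m + 2).choose 2 : ℕ) : ℝ) = ((m : ℝ) + 2) * (m + 1) := by
      intro m
      rw [Nat.cast_choose_two]
      push_cast
      ring
    have : (k + 1 + 3).choose 3 = (k + 3).choose 2 + (k + 3).choose 3 := by
      rw [show k + 1 + 3 = (k + 3) + 1 by ring, Nat.choose_succ_succ]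
    rw [this]
    have h3 := h2 (k + 1)
    rw [show k + 1 + 2 = k + 3 by ring] at h3
    push_cast at h3 ⊢
    nlinarith [ih, h3]

theorem limit_of_finite (c : ℝ) (h : ∀ (n : ℕ) (E : Finset (Finset (Fin n))), (∀ e ∈ E, e.card = 3) → (∀ S : Finset (Fin n), S.card = 4 → ∃ T ⊆ S, T.card = 3 ∧ T ∉ E) → 6 * (E.card : ℝ) ≤ c * (n:ℝ)^3) :
    ∃ L : ℝ, Filter.Tendsto (fun n : ℕ => ((sSup {m : ℕ | ∃ E : Finset (Finset (Fin n)), (∀ e ∈ E, e.card = 3) ∧ (∀ S : Finset (Fin n), S.card = 4 → ∃ T ⊆ S, T.card = 3 ∧ T ∉ E) ∧ E.card = m} : ℕ) : ℝ) / ((n.choose 3 : ℕ) : ℝ)) Filter.atTop (nhds L) ∧ L ≤ c := by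
  let a : ℕ → ℝ := fun n => ((sSup (limSizes n) : ℕ) : ℝ) / ((n.choose 3 : ℕ) : ℝ)
  have hpos : ∀ n : ℕ, (0 : ℝ) < (((n + 3).choose 3 : ℕ) : ℝ) := by
    intro n
    exact_mod_cast Nat.choose_pos (by omega)
  have hanti : Antitone (fun n => a (n + 3)) := by
    refine antitone_nat_of_succ_le ?_
    intro n
    show ((sSup (limSizes (n + 1 + 3)) : ℕ) : ℝ) / (((n + 1 + 3).choose 3 : ℕ) : ℝ)
      ≤ ((sSup (limSizes (n + 3)) : ℕ) : ℝ) / (((n + 3).choose 3 : ℕ) : ℝ)
    rw [div_le_div_iff₀ (hpos _) (hpos _)]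
    have hs := limEx_step (n + 3)
    rw [show n + 3 - 2 = n + 1 by omega, show n + 3 + 1 = n + 1 + 3 by ring] at hs
    have hs' : ((n : ℝ) + 1) * ((sSup (limSizes (n + 1 + 3)) : ℕ) : ℝ)
        ≤ ((n : ℝ) + 4) * ((sSup (limSizes (n + 3)) : ℕ) : ℝ) := by
      have : (((n + 1) * sSup (limSizes (n + 1 + 3)) : ℕ) : ℝ)
          ≤ (((n + 1 + 3) * sSup (limSizes (n + 3)) : ℕ) : ℝ) := by exact_mod_cast hs
      push_cast at this
      linarith
    have e1 := six_choose_three n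
    have e2 := six_choose_three (n + 1)
    push_cast at e2
    have hn : (0 : ℝ) ≤ ((n : ℝ) + 3) * (n + 2) := by positivity
    have := mul_le_mul_of_nonneg_left hs' hn
    nlinarith [this, e1, e2]
  have hbdd : BddBelow (Set.range (fun n => a (n + 3))) := by
    refine ⟨0, ?_⟩
    rintro _ ⟨n, rfl⟩
    exact div_nonneg (Nat.cast_nonneg _) (Nat.cast_nonneg _)
  have ht := tendsto_atTop_ciInf hanti hbdd
  refine ⟨⨅ n, a (n + 3), ?_, ?_⟩
  · exact (tendsto_add_atTop_iff_nat 3).1 ht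
  · have hb : Tendsto (fun n : ℕ => c * ((1 + 1 / ((n : ℝ) + 2)) * (1 + 2 / ((n : ℝ) + 1))))
        atTop (nhds (c * ((1 + 0) * (1 + 0)))) := by
      refine Tendsto.const_mul c (Tendsto.mul ?_ ?_)
      · refine Tendsto.const_add 1 ?_
        exact Tendsto.div_atTop tendsto_const_nhds
          (tendsto_atTop_add_const_right _ _ tendsto_natCast_atTop_atTop)
      · refine Tendsto.const_add 1 ?_
        exact Tendsto.div_atTop tendsto_const_nhds
          (tendsto_atTop_add_const_right _ _ tendsto_natCast_atTop_atTop)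
    have hc : c * ((1 + 0) * (1 + 0)) = c := by ring
    rw [hc] at hb
    refine le_of_tendsto_of_tendsto' ht hb ?_
    intro n
    obtain ⟨E, hE, hcard⟩ := limEx_spec (n + 3)
    have h6 := h (n + 3) E hE.1 hE.2
    show ((sSup (limSizes (n + 3)) : ℕ) : ℝ) / (((n + 3).choose 3 : ℕ) : ℝ) ≤ _
    rw [← hcard, div_le_iff₀ (hpos n)]
    have e1 := six_choose_three n
    have e3 : (((n + 3).choose 3 : ℕ) : ℝ) = ((n : ℝ) + 3) * (n + 2) * (n + 1) / 6 := by
      linarith
    rw [e3]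
    have : c * ((1 + 1 / ((n : ℝ) + 2)) * (1 + 2 / ((n : ℝ) + 1)))
        * (((n : ℝ) + 3) * (n + 2) * (n + 1) / 6) = c * ((n : ℝ) + 3) ^ 3 / 6 := by
      field_simp
      ring
    rw [this]
    push_cast at h6
    linarith

end Pool.Agent.Work.MP_f1799f_co
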