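import Pool.Agent.Work.MP_f1799f_co.Data
import Pool.Agent.Work.MP_f1799f_co.DataC
set_option linter.defProp false
namespace Pool.Agent.Work.MP_f1799f_co
noncomputable section
def ck1 : chkAll cl1 = true := by decide +kernel
def ck17 : chkAll cl17 = true := by decide +kernel
def ck33 : chkAll cl33 = true := by decide +kernel
def ck49 : chkAll cl49 = true := by decide +kernel
def ck65 : chkAll cl65 = true := by decide +kernel
def ck81 : chkAll cl81 = true := by decide +kernel
def ck97 : chkAll cl97 = true := by decide +kernel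
def ck113 : chkAll cl113 = true := by decide +kernel
def ck129 : chkAll cl129 = true := by decide +kernel
def ck145 : chkAll cl145 = true := by decide +kernel
def ck161 : chkAll cl161 = true := by decide +kernel
def ck177 : chkAll cl177 = true := by decide +kernel
def ck193 : chkAll cl193 = true := by decide +kernel
def ck209 : chkAll cl209 = true := by decide +kernel
def ck225 : chkAll cl225 = true := by decide +kernel
def ck241 : chkAll cl241 = true := by decide +kernel
theorem ckG1 : ∀ c ∈ clG1, chkAll c = true :=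
  (List.forall_mem_cons.2 ⟨ck1,
    (List.forall_mem_cons.2 ⟨ck17,
    (List.forall_mem_cons.2 ⟨ck33,
    (List.forall_mem_cons.2 ⟨ck49,
    (List.forall_mem_cons.2 ⟨ck65,
    (List.forall_mem_cons.2 ⟨ck81,
    (List.forall_mem_cons.2 ⟨ck97,
    (List.forall_mem_cons.2 ⟨ck113,
    (List.forall_mem_cons.2 ⟨ck129,
    (List.forall_mem_cons.2 ⟨ck145,
    (List.forall_mem_cons.2 ⟨ck161,
    (List.forall_mem_cons.2 ⟨ck177,
    (List.forall_mem_cons.2 ⟨ck193,
    (List.forall_mem_cons.2 ⟨ck209,
    (List.forall_mem_cons.2 ⟨ck225,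
    (List.forall_mem_cons.2 ⟨ck241,
    (fun _ h => nomatch h)⟩)⟩)⟩)⟩)⟩)⟩)⟩)⟩)⟩)⟩)⟩)⟩)⟩)⟩)⟩)⟩)
end
end Pool.Agent.Work.MP_f1799f_co
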