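import Pool.Agent.Work.MP_f1799f_co.Data
import Pool.Agent.Work.MP_f1799f_co.DataC
set_option linter.defProp false
namespace Pool.Agent.Work.MP_f1799f_co
noncomputable section
def ck2 : chkAll cl2 = true := by decide +kernel
def ck18 : chkAll cl18 = true := by decide +kernel
def ck34 : chkAll cl34 = true := by decide +kernel
def ck50 : chkAll cl50 = true := by decide +kernel
def ck66 : chkAll cl66 = true := by decide +kernel
def ck82 : chkAll cl82 = true := by decide +kernel
def ck98 : chkAll cl98 = true := by decide +kernel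
def ck114 : chkAll cl114 = true := by decide +kernel
def ck130 : chkAll cl130 = true := by decide +kernel
def ck146 : chkAll cl146 = true := by decide +kernel
def ck162 : chkAll cl162 = true := by decide +kernel
def ck178 : chkAll cl178 = true := by decide +kernel
def ck194 : chkAll cl194 = true := by decide +kernel
def ck210 : chkAll cl210 = true := by decide +kernel
def ck226 : chkAll cl226 = true := by decide +kernel
def ck242 : chkAll cl242 = true := by decide +kernel
theorem ckG2 : ∀ c ∈ clG2, chkAll c = true :=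
  (List.forall_mem_cons.2 ⟨ck2,
    (List.forall_mem_cons.2 ⟨ck18,
    (List.forall_mem_cons.2 ⟨ck34,
    (List.forall_mem_cons.2 ⟨ck50,
    (List.forall_mem_cons.2 ⟨ck66,
    (List.forall_mem_cons.2 ⟨ck82,
    (List.forall_mem_cons.2 ⟨ck98,
    (List.forall_mem_cons.2 ⟨ck114,
    (List.forall_mem_cons.2 ⟨ck130,
    (List.forall_mem_cons.2 ⟨ck146,
    (List.forall_mem_cons.2 ⟨ck162,
    (List.forall_mem_cons.2 ⟨ck178,
    (List.forall_mem_cons.2 ⟨ck194,
    (List.forall_mem_cons.2 ⟨ck210,
    (List.forall_mem_cons.2 ⟨ck226,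
    (List.forall_mem_cons.2 ⟨ck242,
    (fun _ h => nomatch h)⟩)⟩)⟩)⟩)⟩)⟩)⟩)⟩)⟩)⟩)⟩)⟩)⟩)⟩)⟩)⟩)
end
end Pool.Agent.Work.MP_f1799f_co
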