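import Pool.Agent.Work.MP_f1799f_co.Data
import Pool.Agent.Work.MP_f1799f_co.DataC
import Pool.Agent.Work.MP_f1799f_co.Chk2
set_option linter.defProp false
namespace Pool.Agent.Work.MP_f1799f_co
noncomputable section
def ck6 : chkAll cl6 = true := by decide +kernel
def ck22 : chkAll cl22 = true := by decide +kernel
def ck38 : chkAll cl38 = true := by decide +kernel
def ck54 : chkAll cl54 = true := by decide +kernel
def ck70 : chkAll cl70 = true := by decide +kernel
def ck86 : chkAll cl86 = true := by decide +kernel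
def ck102 : chkAll cl102 = true := by decide +kernel
def ck118 : chkAll cl118 = true := by decide +kernel
def ck134 : chkAll cl134 = true := by decide +kernel
def ck150 : chkAll cl150 = true := by decide +kernel
def ck166 : chkAll cl166 = true := by decide +kernel
def ck182 : chkAll cl182 = true := by decide +kernel
def ck198 : chkAll cl198 = true := by decide +kernel
def ck214 : chkAll cl214 = true := by decide +kernel
def ck230 : chkAll cl230 = true := by decide +kernel
theorem ckG6 : ∀ c ∈ clG6, chkAll c = true :=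
  (List.forall_mem_cons.2 ⟨ck6,
    (List.forall_mem_cons.2 ⟨ck22,
    (List.forall_mem_cons.2 ⟨ck38,
    (List.forall_mem_cons.2 ⟨ck54,
    (List.forall_mem_cons.2 ⟨ck70,
    (List.forall_mem_cons.2 ⟨ck86,
    (List.forall_mem_cons.2 ⟨ck102,
    (List.forall_mem_cons.2 ⟨ck118,
    (List.forall_mem_cons.2 ⟨ck134,
    (List.forall_mem_cons.2 ⟨ck150,
    (List.forall_mem_cons.2 ⟨ck166,
    (List.forall_mem_cons.2 ⟨ck182,
    (List.forall_mem_cons.2 ⟨ck198,
    (List.forall_mem_cons.2 ⟨ck214,
    (List.forall_mem_cons.2 ⟨ck230,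
    (fun _ h => nomatch h)⟩)⟩)⟩)⟩)⟩)⟩)⟩)⟩)⟩)⟩)⟩)⟩)⟩)⟩)⟩)
end
end Pool.Agent.Work.MP_f1799f_co
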