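import Pool.Agent.Work.MP_f1799f_co.Data
import Pool.Agent.Work.MP_f1799f_co.DataC
import Pool.Agent.Work.MP_f1799f_co.Chk6
set_option linter.defProp false
namespace Pool.Agent.Work.MP_f1799f_co
noncomputable section
def ck10 : chkAll cl10 = true := by decide +kernel
def ck26 : chkAll cl26 = true := by decide +kernel
def ck42 : chkAll cl42 = true := by decide +kernel
def ck58 : chkAll cl58 = true := by decide +kernel
def ck74 : chkAll cl74 = true := by decide +kernel
def ck90 : chkAll cl90 = true := by decide +kernel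
def ck106 : chkAll cl106 = true := by decide +kernel
def ck122 : chkAll cl122 = true := by decide +kernel
def ck138 : chkAll cl138 = true := by decide +kernel
def ck154 : chkAll cl154 = true := by decide +kernel
def ck170 : chkAll cl170 = true := by decide +kernel
def ck186 : chkAll cl186 = true := by decide +kernel
def ck202 : chkAll cl202 = true := by decide +kernel
def ck218 : chkAll cl218 = true := by decide +kernel
def ck234 : chkAll cl234 = true := by decide +kernel
theorem ckG10 : ∀ c ∈ clG10, chkAll c = true :=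
  (List.forall_mem_cons.2 ⟨ck10,
    (List.forall_mem_cons.2 ⟨ck26,
    (List.forall_mem_cons.2 ⟨ck42,
    (List.forall_mem_cons.2 ⟨ck58,
    (List.forall_mem_cons.2 ⟨ck74,
    (List.forall_mem_cons.2 ⟨ck90,
    (List.forall_mem_cons.2 ⟨ck106,
    (List.forall_mem_cons.2 ⟨ck122,
    (List.forall_mem_cons.2 ⟨ck138,
    (List.forall_mem_cons.2 ⟨ck154,
    (List.forall_mem_cons.2 ⟨ck170,
    (List.forall_mem_cons.2 ⟨ck186,
    (List.forall_mem_cons.2 ⟨ck202,
    (List.forall_mem_cons.2 ⟨ck218,
    (List.forall_mem_cons.2 ⟨ck234,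
    (fun _ h => nomatch h)⟩)⟩)⟩)⟩)⟩)⟩)⟩)⟩)⟩)⟩)⟩)⟩)⟩)⟩)⟩)
end
end Pool.Agent.Work.MP_f1799f_co
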