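import Pool.Agent.Work.MP_f1799f_co.Chk0
import Pool.Agent.Work.MP_f1799f_co.Chk1
import Pool.Agent.Work.MP_f1799f_co.Chk2
import Pool.Agent.Work.MP_f1799f_co.Chk3
import Pool.Agent.Work.MP_f1799f_co.Chk4
import Pool.Agent.Work.MP_f1799f_co.Chk5
import Pool.Agent.Work.MP_f1799f_co.Chk6
import Pool.Agent.Work.MP_f1799f_co.Chk7
import Pool.Agent.Work.MP_f1799f_co.Chk8
import Pool.Agent.Work.MP_f1799f_co.Chk9
import Pool.Agent.Work.MP_f1799f_co.Chk10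
import Pool.Agent.Work.MP_f1799f_co.Chk11
import Pool.Agent.Work.MP_f1799f_co.Chk12
import Pool.Agent.Work.MP_f1799f_co.Chk13
import Pool.Agent.Work.MP_f1799f_co.Chk14
import Pool.Agent.Work.MP_f1799f_co.Chk15
namespace Pool.Agent.Work.MP_f1799f_co
theorem ck_all : ∀ c ∈ clL, chkAll c = true :=
  (List.forall_mem_append.2 ⟨ckG0,
    (List.forall_mem_append.2 ⟨ckG1,
    (List.forall_mem_append.2 ⟨ckG2,
    (List.forall_mem_append.2 ⟨ckG3,
    (List.forall_mem_append.2 ⟨ckG4,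
    (List.forall_mem_append.2 ⟨ckG5,
    (List.forall_mem_append.2 ⟨ckG6,
    (List.forall_mem_append.2 ⟨ckG7,
    (List.forall_mem_append.2 ⟨ckG8,
    (List.forall_mem_append.2 ⟨ckG9,
    (List.forall_mem_append.2 ⟨ckG10,
    (List.forall_mem_append.2 ⟨ckG11,
    (List.forall_mem_append.2 ⟨ckG12,
    (List.forall_mem_append.2 ⟨ckG13,
    (List.forall_mem_append.2 ⟨ckG14,
    ckG15⟩)⟩)⟩)⟩)⟩)⟩)⟩)⟩)⟩)⟩)⟩)⟩)⟩)⟩)⟩)
end Pool.Agent.Work.MP_f1799f_co
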