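import Pool.Agent.Work.MP_f1799f_co.Ver0
set_option linter.defProp false
namespace Pool.Agent.Work.MP_f1799f_co
noncomputable section
def v_r0 : allN 128 (fun i => rowP (128 * 0 + i)) = true := by decide +kernel
def v_r1 : allN 128 (fun i => rowP (128 * 1 + i)) = true := by decide +kernel
def v_r2 : allN 128 (fun i => rowP (128 * 2 + i)) = true := by decide +kernel
def v_r3 : allN 128 (fun i => rowP (128 * 3 + i)) = true := by decide +kernel
def v_r4 : allN 128 (fun i => rowP (128 * 4 + i)) = true := by decide +kernel
def v_r5 : allN 128 (fun i => rowP (128 * 5 + i)) = true := by decide +kernel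
def v_r6 : allN 128 (fun i => rowP (128 * 6 + i)) = true := by decide +kernel
def v_r7 : allN 128 (fun i => rowP (128 * 7 + i)) = true := by decide +kernel
theorem v_r : ∀ g < 1024, rowff g = rowC gcL g := by
  intro g hg
  have := allN_split (m := 128) (k := 8) (p := rowP) (fun c hc => ?_) g hg
  · rw [rowP, forceB_eq] at this
    exact Nat.eq_of_beq_eq_true this
  match c, hc with
  | 0, _ => exact v_r0
  | 1, _ => exact v_r1
  | 2, _ => exact v_r2
  | 3, _ => exact v_r3
  | 4, _ => exact v_r4
  | 5, _ => exact v_r5
  | 6, _ => exact v_r6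
  | 7, _ => exact v_r7
end
end Pool.Agent.Work.MP_f1799f_co
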