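import Pool.Agent.Work.MP_f1799f_co.Fin
import Pool.Agent.Work.MP_f1799f_co.Ver1
import Pool.Agent.Work.MP_f1799f_co.Ver2
import Pool.Agent.Work.MP_f1799f_co.Ver3
import Pool.Agent.Work.MP_f1799f_co.Ver4
import Pool.Agent.Work.MP_f1799f_co.Ver5
import Pool.Agent.Work.MP_f1799f_co.ChkAll
/-! Assembly of the checks. -/
namespace Pool.Agent.Work.MP_f1799f_co

theorem vlook_ZS (s : ℕ) : ZS (vbf s) (vcf s) := by
  have key : ∀ l : List (ℕ × ℕ × List ℕ), (∀ e ∈ l, ZS e.2.1 e.2.2) →
      ZS (List.rec (motive := fun _ => ℕ × List ℕ) (0, []) (fun e _ ih =>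
        Bool.rec (motive := fun _ => ℕ × List ℕ) ih e.2 (Nat.beq e.1 s)) l).1
      (List.rec (motive := fun _ => ℕ × List ℕ) (0, []) (fun e _ ih =>
        Bool.rec (motive := fun _ => ℕ × List ℕ) ih e.2 (Nat.beq e.1 s)) l).2 := by
    intro l
    induction l with
    | nil => intro _; exact ⟨Nat.zero_le _, fun c hc => (nomatch hc), fun i _ => rfl⟩
    | cons e l ih =>
      intro h
      dsimp only
      cases Nat.beq e.1 s
      · exact ih fun e he => h e (List.mem_cons_of_mem _ he)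
      · exact h e List.mem_cons_self
  exact key vcL fun e he => ZS_of_chk (List.all_eq_true.mp v_vc e he)

theorem data_ok : DOk vcf vbf gcL b3 cmax kap p5L wdf rowff where
  hv := vlook_ZS
  hz := ZS_of_chk v_gc
  hg := fun c hc => Nat.eq_of_beq_eq_true (List.all_eq_true.mp v_sw c hc)
  hp := v_p5
  hw := fun tau h1 h2 => by
    have : ∀ t < 16, tauOk t = true → t = 0 ∨ t = 1 ∨ t = 3 ∨ t = 7 := by decide +kernel
    rcases this tau h1 h2 with rfl | rfl | rfl | rfl
    · exact allN_spec v_w0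
    · exact allN_spec v_w1
    · exact allN_spec v_w3
    · exact allN_spec v_w7
  hr := v_r
  n1 := v_n1
  n2 := v_n2
  n3 := v_n3

theorem edge_bound (n : ℕ) (E : Finset (Finset (Fin n))) (e3 : ∀ e ∈ E, e.card = 3)
    (e4 : ∀ S : Finset (Fin n), S.card = 4 → ∃ T ⊆ S, T.card = 3 ∧ T ∉ E) :
    6489000000000 * (6 * (E.card : ℤ)) ≤ 3616579525314 * (n : ℤ) ^ 3 := by
  have h := finite_bound data_ok v_tu v_kc (cl := clL)
    (fun c hc => allL_spec (ck_all c hc)) v_tc v_p v_c5 v_c6 n E e3 e4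
  have e1 : kap = 61800000000 := by decide +kernel
  have e2 : cbound = 3616579525314 := by decide +kernel
  rw [e1, e2] at h
  push_cast at h
  linarith

end Pool.Agent.Work.MP_f1799f_co
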