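import Mathlib.Algebra.BigOperators.Ring.Finset
import Mathlib.Algebra.Order.BigOperators.Group.Finset
import Mathlib.Data.Fintype.BigOperators
import Mathlib.Data.List.Perm.Basic
import Mathlib.Tactic.Ring
import Mathlib.Tactic.Linarith
/-! Abstract averaging: sampling seven vertices with replacement. -/
namespace Pool.Agent.Work.MP_f1799f_co
open Finset

variable {V : Type*}

def sumPicks : List V → (V → List V → ℤ) → ℤ
  | [], _ => 0
  | x :: l, g => g x l + sumPicks l (fun u r => g u (x :: r))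

theorem sumPicks_congr {l : List V} {g h : V → List V → ℤ} (e : ∀ u r, g u r = h u r) :
    sumPicks l g = sumPicks l h := by
  have : g = h := by funext u r; exact e u r
  rw [this]

theorem sumPicks_perm {l l' : List V} (p : l.Perm l') :
    ∀ (g : V → List V → ℤ), (∀ u r r', r.Perm r' → g u r = g u r') → sumPicks l g = sumPicks l' g := by
  induction p with
  | nil => intro g _; rfl
  | cons x p ih =>
    intro g hg
    simp only [sumPicks]
    rw [hg x _ _ p, ih _ (fun u r r' q => hg u _ _ (q.cons x))]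
  | swap x y l =>
    intro g hg
    simp only [sumPicks]
    rw [sumPicks_congr (l := l) (fun u r => hg u _ _ (List.Perm.swap x y r))]
    ring
  | trans _ _ ih1 ih2 => intro g hg; rw [ih1 g hg, ih2 g hg]

section
variable [Fintype V]

def SN : ℕ → (List V → ℤ) → ℤ
  | 0, g => g []
  | n + 1, g => ∑ v, SN n (fun l => g (v :: l))

theorem SN_add (n : ℕ) : ∀ g h : List V → ℤ, SN n (fun l => g l + h l) = SN n g + SN n h := by
  induction n with
  | zero => intro g h; rfl
  | succ n ih => intro g h; simp only [SN, ih, sum_add_distrib]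

theorem SN_mul (c : ℤ) (n : ℕ) : ∀ g : List V → ℤ, SN n (fun l => c * g l) = c * SN n g := by
  induction n with
  | zero => intro g; rfl
  | succ n ih => intro g; simp only [SN, ih, mul_sum]

theorem SN_sum (n : ℕ) : ∀ g : V → List V → ℤ,
    SN n (fun l => ∑ v, g v l) = ∑ v, SN n (g v) := by
  induction n with
  | zero => intro g; rfl
  | succ n ih => intro g; simp only [SN, ih]; rw [sum_comm]

theorem SN_mono (n : ℕ) : ∀ g h : List V → ℤ, (∀ l, l.length = n → g l ≤ h l) → SN n g ≤ SN n h := by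
  induction n with
  | zero => intro g h e; exact e [] rfl
  | succ n ih =>
    intro g h e
    exact sum_le_sum fun v _ => ih _ _ fun l hl => e _ (by simp [hl])

theorem SN_const (c : ℤ) (n : ℕ) : SN n (fun _ : List V => c) = c * (Fintype.card V : ℤ) ^ n := by
  induction n with
  | zero => simp [SN]
  | succ n ih => simp only [SN, ih]; simp; ring

theorem SN_picks (n : ℕ) : ∀ g : V → List V → ℤ,
    SN (n + 1) (fun l => sumPicks l g) = (n + 1) * ∑ v, SN n (g v) := by
  induction n with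
  | zero => intro g; simp [SN, sumPicks]
  | succ n ih =>
    intro g
    have e : SN (n + 1 + 1) (fun l => sumPicks l g) =
        ∑ v, SN (n + 1) (fun l => g v l + sumPicks l (fun u r => g u (v :: r))) := rfl
    rw [e]
    simp only [SN_add, ih, sum_add_distrib]
    rw [← mul_sum, sum_comm]
    have e2 : ∀ u, ∑ v, SN n (fun r => g u (v :: r)) = SN (n + 1) (g u) := fun u => rfl
    simp only [e2]
    push_cast; ring
end

variable (G : List V → V → V → ℤ) (Q : List V → V → V → V → V → ℤ) (B : V → V → V → ℤ) (k : ℤ)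

def psi (r : List V) (a b : V) : ℤ :=
  20 * G r a b + sumPicks r (fun p r4 => sumPicks r4 (fun q r3 => Q r3 a b p q)) +
    4 * k * sumPicks r (fun v _ => B a b v)

def Phi (l : List V) : ℤ := sumPicks l fun a r => sumPicks r fun b r' => psi G Q B k r' a b

def uu (vs : List V) (a b z : V) : ℤ :=
  40 * G (vs ++ [z]) a b + 8 * G (vs ++ [b]) a z + 8 * G (vs ++ [a]) b z +
    sumPicks vs (fun p r => sumPicks r fun q r' => sumPicks r' fun s r'' =>
      sumPicks r'' fun t _ => Q [a, b, z] p q s t) +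
    8 * sumPicks vs (fun p r => Q r a b p z) + 24 * k * B a b z +
    8 * k * sumPicks vs (fun v _ => B v a b)

structure Inv : Prop where
  g1 : ∀ l l' u v, l.Perm l' → G l u v = G l' u v
  g2 : ∀ l u v, G l u v = G l v u
  q1 : ∀ l l' p q r s, l.Perm l' → Q l p q r s = Q l' p q r s
  q2 : ∀ l p q r s, Q l p q r s = Q l q p r s
  q3 : ∀ l p q r s, Q l p q r s = Q l r s p q
  b1 : ∀ x y z, B x y z = B y x z
  b2 : ∀ x y z, B x y z = B x z y

variable {G Q B}

theorem Phi_perm (h : Inv G Q B) {l l' : List V} (p : l.Perm l') :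
    Phi G Q B k l = Phi G Q B k l' := by
  refine sumPicks_perm p _ fun a r r' q => sumPicks_perm q _ fun b s s' t => ?_
  unfold psi
  rw [h.g1 _ _ _ _ t, sumPicks_perm t (fun v _ => B a b v) (fun _ _ _ _ => rfl),
    sumPicks_perm t (fun p r4 => sumPicks r4 (fun q r3 => Q r3 a b p q))
      (fun u w w' y => sumPicks_perm y _ fun _ _ _ z => h.q1 _ _ _ _ _ _ z)]

theorem uu_perm (h : Inv G Q B) {l l' : List V} (p : l.Perm l') (a b z : V) :
    uu G Q B k l a b z = uu G Q B k l' a b z := by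
  unfold uu
  rw [h.g1 _ _ _ _ (p.append_right [z]), h.g1 _ _ _ _ (p.append_right [b]),
    h.g1 _ _ _ _ (p.append_right [a]), sumPicks_perm p (fun v _ => B v a b) (fun _ _ _ _ => rfl),
    sumPicks_perm p (fun p r => Q r a b p z) (fun _ _ _ y => h.q1 _ _ _ _ _ _ y),
    sumPicks_perm p (fun p r => sumPicks r fun q r' => sumPicks r' fun s r'' =>
      sumPicks r'' fun t _ => Q [a, b, z] p q s t) (fun _ _ _ y => sumPicks_perm y _ fun _ _ _ y2 =>
      sumPicks_perm y2 _ fun _ _ _ y3 => sumPicks_perm y3 _ fun _ _ _ _ => rfl)]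

theorem Phi_lower [Fintype V] (hG : ∀ l, 0 ≤ ∑ u, ∑ v, G l u v)
    (hQ : ∀ l, 0 ≤ ∑ p, ∑ q, ∑ r, ∑ s, Q l p q r s) :
    840 * k * (∑ a, ∑ b, ∑ v, B a b v) * (Fintype.card V : ℤ) ^ 4 ≤ SN 7 (Phi G Q B k) := by
  have e1 : SN 7 (Phi G Q B k) = 7 * ∑ a, 6 * ∑ b, SN 5 (fun r => psi G Q B k r a b) := by
    have := SN_picks 6 (fun a r => sumPicks r fun b r' => psi G Q B k r' a b)
    simp only [SN_picks 5] at this
    exact_mod_cast this
  have e2 : ∀ a b, SN 5 (fun r => psi G Q B k r a b) = 20 * SN 5 (fun r => G r a b) +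
      5 * ∑ p, 4 * ∑ q, SN 3 (fun r => Q r a b p q) +
      4 * k * (5 * ∑ v, B a b v * (Fintype.card V : ℤ) ^ 4) := by
    intro a b
    unfold psi
    rw [SN_add, SN_add, SN_mul, SN_mul, SN_picks 4, SN_picks 4]
    simp only [SN_picks 3, SN_const]
    norm_num
  have p1 : 0 ≤ ∑ a, ∑ b, SN 5 (fun r => G r a b) := by
    simp only [← SN_sum]
    have := SN_mono 5 (fun _ => 0) _ (fun l _ => hG l)
    rw [SN_const] at this; simpa using this
  have p2 : 0 ≤ ∑ a, ∑ b, ∑ p, ∑ q, SN 3 (fun r => Q r a b p q) := by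
    simp only [← SN_sum]
    have := SN_mono 3 (fun _ => 0) _ (fun l _ => hQ l)
    rw [SN_const] at this; simpa using this
  rw [e1]
  simp only [e2, sum_add_distrib, ← mul_sum, ← sum_mul]
  nlinarith

theorem Phi_upper [Fintype V] (c : ℤ) (h : ∀ l : List V, l.length = 7 → Phi G Q B k l ≤ c) :
    SN 7 (Phi G Q B k) ≤ c * (Fintype.card V : ℤ) ^ 7 := by
  rw [← SN_const]; exact SN_mono 7 _ _ h

theorem uu_eval (h : Inv G Q B) (v0 v1 v2 v3 a b z : V) :
    uu G Q B k [v0, v1, v2, v3] a b z = 8 * (5 * G [v0, v1, v2, v3, z] a b +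
      G [v0, v1, v2, v3, b] a z + G [v0, v1, v2, v3, a] b z +
      Q [a, b, z] v0 v1 v2 v3 + Q [a, b, z] v0 v2 v1 v3 + Q [a, b, z] v1 v2 v0 v3 +
      (Q [v1, v2, v3] a b v0 z + Q [v0, v2, v3] a b v1 z + Q [v0, v1, v3] a b v2 z +
        Q [v0, v1, v2] a b v3 z) + 3 * k * B a b z +
      k * (B v0 a b + B v1 a b + B v2 a b + B v3 a b)) := by
  have q2 := h.q2
  have q3 := h.q3
  have q4 : ∀ l p q r s, Q l p q r s = Q l p q s r := fun l p q r s => by
    rw [h.q3, h.q2, h.q3]
  simp only [uu, sumPicks, List.cons_append, List.nil_append]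
  simp only [q2, q3, q4]
  ring

theorem Phi_eval (h : Inv G Q B) (x0 x1 x2 x3 x4 x5 x6 : V) :
    Phi G Q B k [x0, x1, x2, x3, x4, x5, x6] =
      uu G Q B k [x2, x3, x4, x5] x0 x1 x6 + uu G Q B k [x1, x3, x4, x5] x0 x2 x6 +
      uu G Q B k [x1, x2, x4, x5] x0 x3 x6 + uu G Q B k [x1, x2, x3, x5] x0 x4 x6 +
      uu G Q B k [x1, x2, x3, x4] x0 x5 x6 + uu G Q B k [x0, x3, x4, x5] x1 x2 x6 +
      uu G Q B k [x0, x2, x4, x5] x1 x3 x6 + uu G Q B k [x0, x2, x3, x5] x1 x4 x6 +
      uu G Q B k [x0, x2, x3, x4] x1 x5 x6 + uu G Q B k [x0, x1, x4, x5] x2 x3 x6 +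
      uu G Q B k [x0, x1, x3, x5] x2 x4 x6 + uu G Q B k [x0, x1, x3, x4] x2 x5 x6 +
      uu G Q B k [x0, x1, x2, x5] x3 x4 x6 + uu G Q B k [x0, x1, x2, x4] x3 x5 x6 +
      uu G Q B k [x0, x1, x2, x3] x4 x5 x6 := by
  have q2 := h.q2
  have q3 := h.q3
  have q4 : ∀ l p q r s, Q l p q r s = Q l p q s r := fun l p q r s => by
    rw [h.q3, h.q2, h.q3]
  have g2 := h.g2
  have g3 : ∀ a b c d e u v, G [a, b, c, d, e] u v = G [b, a, c, d, e] u v :=
    fun a b c d e u v => h.g1 _ _ _ _ (List.Perm.swap _ _ _)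
  have g4 : ∀ a b c d e u v, G [a, b, c, d, e] u v = G [a, c, b, d, e] u v :=
    fun a b c d e u v => h.g1 _ _ _ _ ((List.Perm.swap _ _ _).cons _)
  have g5 : ∀ a b c d e u v, G [a, b, c, d, e] u v = G [a, b, d, c, e] u v :=
    fun a b c d e u v => h.g1 _ _ _ _ (((List.Perm.swap _ _ _).cons _).cons _)
  have g6 : ∀ a b c d e u v, G [a, b, c, d, e] u v = G [a, b, c, e, d] u v :=
    fun a b c d e u v => h.g1 _ _ _ _ ((((List.Perm.swap _ _ _).cons _).cons _).cons _)
  have b1 := h.b1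
  have b2 := h.b2
  simp only [uu_eval k h]
  simp only [Phi, psi, sumPicks]
  simp only [q2, q3, q4, g2, g3, g4, g5, g6, b1, b2]
  ring

end Pool.Agent.Work.MP_f1799f_co
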