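import Pool.Agent.Work.MP_f1799f_co.Dig
/-! Index-bit permutations of packed tables, and codes of labelled subgraphs. -/
namespace Pool.Agent.Work.MP_f1799f_co

theorem bitsOf_eq (n : ℕ) : bitsOf n = 56 * 2 ^ n := rfl

theorem dig_amask (n m i : ℕ) :
    dig (amask n m) i = if i < 2 ^ n ∧ i.testBit m = true then 2 ^ 56 - 1 else 0 := by
  induction n generalizing i with
  | zero =>
    have e : amask 0 m = 0 := rfl
    rw [e, dig_zero, if_neg]
    rintro ⟨h1, h2⟩
    have : i = 0 := by simpa using h1
    subst this; simp at h2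
  | succ n ih =>
    have e : amask (n + 1) m = amask n m ||| ((Bool.rec (motive := fun _ => ℕ) (amask n m)
      (onesD (2 ^ n)) (Nat.beq n m)) <<< (56 * 2 ^ n)) := rfl
    have p : 2 ^ (n + 1) = 2 ^ n + 2 ^ n := by rw [pow_succ]; ring
    rw [e, dig_lor, dig_shl, ih]
    by_cases h : i < 2 ^ n
    · have h' : i < 2 ^ (n + 1) := by omega
      simp [h, h']
    · obtain ⟨j, rfl⟩ := Nat.exists_eq_add_of_le (not_lt.mp h)
      rw [if_neg (fun hh => h hh.1), if_neg h, Nat.zero_or, Nat.add_sub_cancel_left]
      by_cases hnm : n = m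
      · subst hnm
        have : Nat.beq n n = true := Nat.beq_refl n
        rw [this]
        show dig (onesD (2 ^ n)) j = _
        rw [dig_onesD, Nat.testBit_two_pow_add_eq]
        by_cases hj : j < 2 ^ n
        · rw [if_pos hj, if_pos]
          exact ⟨by omega, by simp [Nat.testBit_lt_two_pow hj]⟩
        · rw [if_neg hj, if_neg]
          intro hh; omega
      · have : Nat.beq n m = false := by
          cases hb : Nat.beq n m
          · rfl
          · exact absurd (Nat.eq_of_beq_eq_true hb) hnm
        rw [this]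
        show dig (amask n m) j = _
        rw [ih]
        by_cases hj : j < 2 ^ n
        · have h1 : 2 ^ n + j < 2 ^ (n + 1) := by omega
          have h2 : (2 ^ n + j).testBit m = j.testBit m := by
            rcases lt_or_gt_of_ne hnm with c | c
            · have a1 : 2 ^ (n + 1) ≤ 2 ^ m := Nat.pow_le_pow_right (by decide) c
              rw [Nat.testBit_lt_two_pow (by omega), Nat.testBit_lt_two_pow (by omega)]
            · exact Nat.testBit_two_pow_add_gt c j
          simp [hj, h1, h2]
        · rw [if_neg (fun hh => hj hh.1), if_neg]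
          intro hh; omega

theorem dig_msk (n s k : ℕ) : dig (msk n s) k =
    if k < 2 ^ n ∧ k.testBit (s / 16) = true ∧ k.testBit (s % 16) = false then 2 ^ 56 - 1 else 0 := by
  have e : msk n s = amask n (s / 16) &&& (onesD (2 ^ n) ^^^ amask n (s % 16)) := rfl
  rw [e, dig_land, dig_xor, dig_amask, dig_amask, dig_onesD]
  by_cases h : k < 2 ^ n <;> cases k.testBit (s / 16) <;> cases k.testBit (s % 16) <;>
    simp [h]

theorem add_two_pow_eq_xor {k j : ℕ} (h : k.testBit j = false) : k + 2 ^ j = k ^^^ 2 ^ j := by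
  have hr : k % 2 ^ (j + 1) < 2 ^ j := by
    apply Nat.lt_pow_two_of_testBit
    intro i hi
    rw [Nat.testBit_mod_two_pow]
    by_cases c : i = j
    · subst c; simp [h]
    · have : ¬ i < j + 1 := by omega
      simp [this]
  have p : 2 ^ (j + 1) = 2 ^ j + 2 ^ j := by rw [pow_succ]; ring
  have e : k + 2 ^ j = 2 ^ (j + 1) * (k / 2 ^ (j + 1)) + (2 ^ j + k % 2 ^ (j + 1)) := by
    have := Nat.div_add_mod k (2 ^ (j + 1)); omega
  apply Nat.eq_of_testBit_eq; intro m
  rw [e, Nat.testBit_two_pow_mul_add _ (by omega), Nat.testBit_xor, Nat.testBit_two_pow]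
  split_ifs with c
  · by_cases d : m = j
    · subst d
      rw [Nat.testBit_two_pow_add_eq, Nat.testBit_lt_two_pow hr, h]; simp
    · have d' : ¬ j = m := fun x => d x.symm
      rw [Nat.testBit_two_pow_add_gt (by omega), Nat.testBit_mod_two_pow]
      simp [c, d']
  · have d' : ¬ j = m := by omega
    rw [Nat.testBit_div_two_pow, Nat.sub_add_cancel (by omega)]
    simp [d']

def flip2 (i j k : ℕ) : ℕ := k ^^^ 2 ^ i ^^^ 2 ^ j

theorem testBit_flip2 (i j k m : ℕ) :
    (flip2 i j k).testBit m = ((k.testBit m ^^ decide (i = m)) ^^ decide (j = m)) := by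
  simp [flip2, Nat.testBit_two_pow]

theorem flip2_flip2 (i j k : ℕ) : flip2 i j (flip2 i j k) = k := by
  apply Nat.eq_of_testBit_eq; intro m
  simp only [testBit_flip2]
  cases k.testBit m <;> cases decide (i = m) <;> cases decide (j = m) <;> rfl

theorem flip2_lt {i j k n : ℕ} (hi : i < n) (hj : j < n) (h : k < 2 ^ n) : flip2 i j k < 2 ^ n :=
  Nat.xor_lt_two_pow (Nat.xor_lt_two_pow h (Nat.pow_lt_pow_right (by decide) hi))
    (Nat.pow_lt_pow_right (by decide) hj)

theorem flip2_add {i j k : ℕ} (hij : i < j) (h1 : k.testBit i = true) (h2 : k.testBit j = false) :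
    flip2 i j k = (2 ^ j - 2 ^ i) + k := by
  have a : (k ^^^ 2 ^ i).testBit i = false := by simp [h1]
  have b : (k ^^^ 2 ^ i).testBit j = false := by
    have : ¬ i = j := by omega
    simp [h2, this]
  have c := add_two_pow_eq_xor a
  have d := add_two_pow_eq_xor b
  rw [Nat.xor_assoc, Nat.xor_self, Nat.xor_zero] at c
  have e : 2 ^ i ≤ 2 ^ j := Nat.pow_le_pow_right (by decide) hij.le
  unfold flip2
  omega

def sidx (n s k : ℕ) : ℕ :=
  if k < 2 ^ n ∧ k.testBit (s / 16) ≠ k.testBit (s % 16) then flip2 (s / 16) (s % 16) k else k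

def spos (s m : ℕ) : ℕ := if m = s / 16 then s % 16 else if m = s % 16 then s / 16 else m

theorem dig_swp {n s : ℕ} (h1 : s / 16 < s % 16) (h2 : s % 16 < n) (x k : ℕ) :
    dig (swp n s x) k = dig x (sidx n s k) := by
  have hd : dlt s = 56 * (2 ^ (s % 16) - 2 ^ (s / 16)) := by
    rw [Nat.mul_sub]; rfl
  have e : swp n s x = (x ^^^ ((x >>> dlt s ^^^ x) &&& msk n s)) ^^^
      (((x >>> dlt s ^^^ x) &&& msk n s) <<< dlt s) := rfl
  generalize hi : s / 16 = i at *
  generalize hj : s % 16 = j at *
  have ne : ¬ i = j := by omega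
  have ne' : ¬ j = i := by omega
  have ht : ∀ q, dig ((x >>> dlt s ^^^ x) &&& msk n s) q =
      if q < 2 ^ n ∧ q.testBit i = true ∧ q.testBit j = false then
        dig x (flip2 i j q) ^^^ dig x q else 0 := by
    intro q
    rw [dig_land, dig_xor, hd, dig_shr, dig_msk, hi, hj]
    split_ifs with c
    · rw [flip2_add h1 c.2.1 c.2.2, ← dig_shr, ← dig_xor, and_full]
    · simp
  rw [e, dig_xor, dig_xor, hd, dig_shl, ← hd, ht, ht]
  unfold sidx
  rw [hi, hj]
  -- the shifted part
  have key : (if k < 2 ^ j - 2 ^ i then 0 else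
      if k - (2 ^ j - 2 ^ i) < 2 ^ n ∧ (k - (2 ^ j - 2 ^ i)).testBit i = true ∧
          (k - (2 ^ j - 2 ^ i)).testBit j = false then
        dig x (flip2 i j (k - (2 ^ j - 2 ^ i))) ^^^ dig x (k - (2 ^ j - 2 ^ i)) else 0) =
      if k < 2 ^ n ∧ k.testBit i = false ∧ k.testBit j = true then
        dig x k ^^^ dig x (flip2 i j k) else 0 := by
    by_cases c : k < 2 ^ n ∧ k.testBit i = false ∧ k.testBit j = true
    · have a1 : (flip2 i j k).testBit i = true := by simp [testBit_flip2, c.2.1, ne']
      have a2 : (flip2 i j k).testBit j = false := by simp [testBit_flip2, c.2.2, ne]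
      have a3 := flip2_add h1 a1 a2
      rw [flip2_flip2] at a3
      have a4 : k - (2 ^ j - 2 ^ i) = flip2 i j k := by omega
      rw [if_neg (by omega), a4, if_pos ⟨flip2_lt (by omega) h2 c.1, a1, a2⟩, if_pos c, flip2_flip2]
    · rw [if_neg c]
      split_ifs with d f
      · rfl
      · exfalso; apply c
        have a3 := flip2_add h1 f.2.1 f.2.2
        have a4 : k = flip2 i j (k - (2 ^ j - 2 ^ i)) := by omega
        refine ⟨?_, ?_, ?_⟩
        · rw [a4]; exact flip2_lt (by omega) h2 f.1
        · rw [a4]; simp [testBit_flip2, f.2.1, ne']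
        · rw [a4]; simp [testBit_flip2, f.2.2, ne]
      · rfl
  rw [key]
  by_cases c : k < 2 ^ n <;> cases k.testBit i <;> cases k.testBit j <;> simp [c]
  · rw [← Nat.xor_assoc, Nat.xor_self, Nat.zero_xor]
  · rw [Nat.xor_comm (dig x (flip2 i j k)), ← Nat.xor_assoc, Nat.xor_self, Nat.zero_xor]

theorem sidx_lt {n s k : ℕ} (h1 : s / 16 < s % 16) (h2 : s % 16 < n) (h : k < 2 ^ n) :
    sidx n s k < 2 ^ n := by
  unfold sidx
  split_ifs
  · exact flip2_lt (by omega) h2 h
  · exact h

theorem testBit_sidx {n s k : ℕ} (h1 : s / 16 < s % 16) (h : k < 2 ^ n) (m : ℕ) :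
    (sidx n s k).testBit m = k.testBit (spos s m) := by
  unfold sidx spos
  generalize s / 16 = i at *
  generalize s % 16 = j at *
  have ne : ¬ i = j := by omega
  have ne' : ¬ j = i := by omega
  by_cases a : m = i
  · subst a
    cases h3 : k.testBit m <;> cases h4 : k.testBit j <;> simp [h, h3, h4, testBit_flip2, ne']
  · by_cases b : m = j
    · subst b
      cases h3 : k.testBit i <;> cases h4 : k.testBit m <;>
        simp [h, h3, h4, testBit_flip2, ne, ne']
    · have a' : ¬ i = m := fun x => a x.symm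
      have b' : ¬ j = m := fun x => b x.symm
      rw [if_neg a, if_neg b]
      split_ifs
      · simp [testBit_flip2, a', b']
      · rfl

def swOk (n : ℕ) (l : List ℕ) : Bool := l.all fun s => decide (s / 16 < s % 16) && decide (s % 16 < n)

def sidxs (n : ℕ) : List ℕ → ℕ → ℕ
  | [], k => k
  | s :: l, k => sidxs n l (sidx n s k)

def sposs : List ℕ → ℕ → ℕ
  | [], m => m
  | s :: l, m => spos s (sposs l m)

theorem swOk_cons {n s : ℕ} {l : List ℕ} (h : swOk n (s :: l) = true) :
    s / 16 < s % 16 ∧ s % 16 < n ∧ swOk n l = true := by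
  simpa [swOk, and_assoc] using h

theorem dig_appl {n : ℕ} {l : List ℕ} (h : swOk n l = true) (x k : ℕ) :
    dig (appl n l x) k = dig x (sidxs n l k) := by
  induction l generalizing k with
  | nil => rfl
  | cons s l ih =>
    obtain ⟨h1, h2, h3⟩ := swOk_cons h
    have e : appl n (s :: l) x = swp n s (appl n l x) := rfl
    rw [e, dig_swp h1 h2, ih h3]; rfl

theorem sidxs_spec {n : ℕ} {l : List ℕ} (h : swOk n l = true) {k : ℕ} (hk : k < 2 ^ n) :
    sidxs n l k < 2 ^ n ∧ ∀ m, (sidxs n l k).testBit m = k.testBit (sposs l m) := by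
  induction l generalizing k with
  | nil => exact ⟨hk, fun _ => rfl⟩
  | cons s l ih =>
    obtain ⟨h1, h2, h3⟩ := swOk_cons h
    obtain ⟨a, b⟩ := ih h3 (sidx_lt h1 h2 hk)
    exact ⟨a, fun m => by rw [sidxs, b, testBit_sidx h1 hk]; rfl⟩

theorem dig_appl_le {n : ℕ} {l : List ℕ} (h : swOk n l = true) {x D : ℕ} (hx : ∀ i, dig x i ≤ D)
    (k : ℕ) : dig (appl n l x) k ≤ D := by
  rw [dig_appl h]; exact hx _

/-! ### codes -/

abbrev Tr : Type := ℕ × ℕ × ℕ

section
variable {V : Type*} (a : V → V → V → Bool)

def ev (x : ℕ → V) (t : Tr) : Bool := a (x t.1) (x t.2.1) (x t.2.2)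

def code (x : ℕ → V) : List Tr → ℕ
  | [] => 0
  | t :: T => (ev a x t).toNat + 2 * code x T

/-- symmetry of a ternary relation -/
def Sym3 : Prop := (∀ x y z, a x y z = a y x z) ∧ ∀ x y z, a x y z = a x z y

def same3 (t u : Tr) : Bool :=
  t == u || t == (u.2.1, u.1, u.2.2) || t == (u.1, u.2.2, u.2.1) || t == (u.2.1, u.2.2, u.1) ||
    t == (u.2.2, u.1, u.2.1) || t == (u.2.2, u.2.1, u.1)

variable {a}

theorem ev_same3 (hs : Sym3 a) (x : ℕ → V) {t u : Tr} (h : same3 t u = true) :
    ev a x t = ev a x u := by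
  obtain ⟨h1, h2⟩ := hs
  obtain ⟨p, q, r⟩ := u
  simp only [same3, Bool.or_eq_true, beq_iff_eq] at h
  rcases h with ((((h | h) | h) | h) | h) | h <;> subst h <;> simp only [ev]
  · exact h1 _ _ _
  · exact h2 _ _ _
  · rw [h2, h1]
  · rw [h1, h2]
  · rw [h1, h2, h1]

theorem code_lt (x : ℕ → V) (T : List Tr) : code a x T < 2 ^ T.length := by
  induction T with
  | nil => simp [code]
  | cons t T ih =>
    have := Bool.toNat_le (ev a x t)
    simp only [code, List.length_cons, pow_succ]; omega

theorem testBit_code (x : ℕ → V) (T : List Tr) (m : ℕ) :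
    (code a x T).testBit m = (decide (m < T.length) && ev a x (T.getD m (0, 0, 0))) := by
  induction T generalizing m with
  | nil => simp [code]
  | cons t T ih =>
    cases m with
    | zero =>
      simp only [code, Nat.testBit_zero, List.getD_cons_zero]
      cases ev a x t <;> simp
    | succ m =>
      rw [Nat.testBit_add_one]
      have : code a x (t :: T) / 2 = code a x T := by
        have := Bool.toNat_le (ev a x t)
        simp only [code]; omega
      rw [this, ih]; simp

theorem code_append (x : ℕ → V) (T U : List Tr) :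
    code a x (T ++ U) = code a x T + 2 ^ T.length * code a x U := by
  induction T with
  | nil => simp [code]
  | cons t T ih => simp only [List.cons_append, code, ih, List.length_cons, pow_succ]; ring

def mapT (r : ℕ → ℕ) (T : List Tr) : List Tr := T.map fun t => (r t.1, r t.2.1, r t.2.2)

theorem code_comp (x : ℕ → V) (r : ℕ → ℕ) (T : List Tr) :
    code a (fun i => x (r i)) T = code a x (mapT r T) := by
  induction T with
  | nil => rfl
  | cons t T ih => simp only [code, mapT, List.map_cons, ev] at *; rw [ih]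

def chkG (T' : List Tr) : List Tr → List ℕ → Bool
  | [], [] => true
  | t :: T, p :: pos => decide (p < T'.length) && same3 t (T'.getD p (0, 0, 0)) && chkG T' T pos
  | _, _ => false

theorem bit_eq (r m : ℕ) : (r >>> m) &&& 1 = (r.testBit m).toNat := by
  rw [Nat.and_one_is_mod, Nat.testBit_eq_decide_div_mod_eq, Nat.shiftRight_eq_div_pow]
  rcases Nat.mod_two_eq_zero_or_one (r / 2 ^ m) with h | h <;> simp [h]

theorem gath_code (hs : Sym3 a) (x : ℕ → V) {T' T : List Tr} {pos : List ℕ}
    (h : chkG T' T pos = true) : gath pos (code a x T') = code a x T := by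
  induction T generalizing pos with
  | nil => cases pos with
    | nil => rfl
    | cons p pos => simp [chkG] at h
  | cons t T ih => cases pos with
    | nil => simp [chkG] at h
    | cons p pos =>
      simp only [chkG, Bool.and_eq_true, decide_eq_true_eq] at h
      have e : gath (p :: pos) (code a x T') =
        ((code a x T' >>> p) &&& 1) + 2 * gath pos (code a x T') := rfl
      rw [e, ih h.2, bit_eq, testBit_code, code, ev_same3 hs x h.1.2]
      simp [h.1.1]

theorem testBit_gath (pos : List ℕ) (r m : ℕ) :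
    (gath pos r).testBit m = (decide (m < pos.length) && r.testBit (pos.getD m 0)) := by
  induction pos generalizing m with
  | nil => simp [gath]
  | cons p pos ih =>
    have e : gath (p :: pos) r = ((r >>> p) &&& 1) + 2 * gath pos r := rfl
    rw [e, bit_eq]
    cases m with
    | zero =>
      simp only [Nat.testBit_zero, List.getD_cons_zero]
      cases r.testBit p <;> simp
    | succ m =>
      rw [Nat.testBit_add_one]
      have : ((r.testBit p).toNat + 2 * gath pos r) / 2 = gath pos r := by
        have := Bool.toNat_le (r.testBit p); omega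
      rw [this, ih]; simp

def chkS (n : ℕ) (T' T : List Tr) (l : List ℕ) : Bool :=
  swOk n l && T'.length == n && chkG T' T ((List.range n).map (sposs l))

theorem chkS_ok {n : ℕ} {T' T : List Tr} {l : List ℕ} (h : chkS n T' T l = true) :
    swOk n l = true := by
  simp only [chkS, Bool.and_eq_true] at h; exact h.1.1

theorem appl_code (hs : Sym3 a) (x : ℕ → V) {n : ℕ} {T' T : List Tr} {l : List ℕ}
    (h : chkS n T' T l = true) (c : ℕ) :
    dig (appl n l c) (code a x T') = dig c (code a x T) := by
  simp only [chkS, Bool.and_eq_true, beq_iff_eq] at h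
  obtain ⟨⟨h1, h2⟩, h3⟩ := h
  have hk : code a x T' < 2 ^ n := h2 ▸ code_lt x T'
  obtain ⟨b1, b2⟩ := sidxs_spec h1 hk
  rw [dig_appl h1, ← gath_code hs x h3]
  congr 1
  apply Nat.eq_of_testBit_eq; intro m
  rw [testBit_gath]
  by_cases c : m < n
  · rw [b2]; simp [c]
  · rw [Nat.testBit_lt_two_pow (lt_of_lt_of_le b1 (Nat.pow_le_pow_right (by decide) (by omega)))]
    simp [c]

def chkE : List Tr → List Tr → Bool
  | [], [] => true
  | t :: T, u :: U => same3 t u && chkE T U
  | _, _ => false

theorem code_chkE (hs : Sym3 a) (x : ℕ → V) {T U : List Tr} (h : chkE T U = true) :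
    code a x T = code a x U := by
  induction T generalizing U with
  | nil => cases U with
    | nil => rfl
    | cons u U => simp [chkE] at h
  | cons t T ih => cases U with
    | nil => simp [chkE] at h
    | cons u U =>
      simp only [chkE, Bool.and_eq_true] at h
      rw [code, code, ih h.2, ev_same3 hs x h.1]

def mk {α : Type*} (t : List α) (u : α) : ℕ → α := fun i => t.getD i u

theorem code_mk (hs : Sym3 a) (y : ℕ → V) (r : List ℕ) (d : ℕ) {T U : List Tr}
    (h : chkE (mapT (mk r d) T) U = true) : code a (mk (r.map y) (y d)) T = code a y U := by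
  have : mk (r.map y) (y d) = fun i => y (mk r d i) := by
    funext i; simp [mk]
  rw [this, code_comp, code_chkE hs y h]

end

end Pool.Agent.Work.MP_f1799f_co
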