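import Mathlib.Data.List.Permutation
import Pool.Agent.Work.MP_f1799f_co.Swap
import Pool.Agent.Work.MP_f1799f_co.Abs
/-! The sum-of-squares kernels defined from the certificate columns. -/
namespace Pool.Agent.Work.MP_f1799f_co
open Finset

def lk (u : ℕ) : List Tr := [(1,2,u),(0,3,u),(0,2,u),(1,3,u),(0,1,u),(2,3,u)]
def pp (u v : ℕ) : List Tr := [(0,u,v),(1,u,v),(2,u,v),(3,u,v)]
def T4 : List Tr := [(0,1,2),(0,1,3),(0,2,3),(1,2,3)]
def T5 : List Tr := T4 ++ lk 4
def TL : List Tr := pp 4 5 ++ lk 5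
def T20 : List Tr := T4 ++ (lk 4 ++ (lk 5 ++ pp 4 5))
def TU : List Tr := pp 5 6 ++ (pp 4 6 ++ ([(4,5,6)] ++ lk 6))
def TG9 : List Tr := [(0,2,3),(1,2,3),(0,2,4),(1,2,4),(2,3,4),(0,1,3),(0,1,4),(0,3,4),(1,3,4)]
def TG : List Tr := TG9 ++ [(0,1,2)]

def fv (b c l : ℕ) : ℤ := (dig c l : ℤ) - 2 ^ b
def gram (b : ℕ) (cols : List ℕ) (i j : ℕ) : ℤ := (cols.map fun c => fv b c i * fv b c j).sum
def ng (cols : List ℕ) (i j : ℕ) : ℕ := (cols.map fun c => dig c i * dig c j).sum

theorem gram_comm (b : ℕ) (cols : List ℕ) (i j : ℕ) : gram b cols i j = gram b cols j i := by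
  simp only [gram, mul_comm]

theorem gram_nonneg {W : Type*} [Fintype W] (b : ℕ) (cols : List ℕ) (f : W → ℕ) :
    0 ≤ ∑ u, ∑ v, gram b cols (f u) (f v) := by
  induction cols with
  | nil => simp [gram]
  | cons c cs ih =>
    have e : ∀ i j, gram b (c :: cs) i j = fv b c i * fv b c j + gram b cs i j := fun i j => by
      simp [gram]
    simp only [e, sum_add_distrib]
    rw [← sum_mul_sum]
    exact add_nonneg (mul_self_nonneg _) ih

section
variable {V : Type*} (a : V → V → V → Bool) (vc : ℕ → List ℕ) (vb : ℕ → ℕ) (gc : List ℕ) (b3 : ℕ)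

def F5 : List V → V → V → ℤ
  | [], _, _ => 0
  | v :: t, u, u' => gram (vb (code a (mk (v :: t) v) T5)) (vc (code a (mk (v :: t) v) T5))
      (code a (mk (v :: t) u) TL) (code a (mk (v :: t) u') TL)

def G5 (l : List V) (u u' : V) : ℤ := (l.permutations'.map fun t => F5 a vc vb t u u').sum

def F3 : List V → V → V → V → V → ℤ
  | [x, y, z], p, q, r, s =>
    gram b3 gc (code a (mk [x, y, z, p] q) TG) (code a (mk [x, y, z, r] s) TG)
  | _, _, _, _, _ => 0

def Q3 (l : List V) (p q r s : V) : ℤ := (l.permutations'.map fun t => F3 a gc b3 t p q r s).sum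

def Bt (x y z : V) : ℤ := ((a x y z).toNat : ℤ)

theorem G5_nonneg [Fintype V] (l : List V) : 0 ≤ ∑ u, ∑ v, G5 a vc vb l u v := by
  unfold G5
  induction l.permutations' with
  | nil => simp
  | cons t L ih =>
    simp only [List.map_cons, List.sum_cons, sum_add_distrib]
    refine add_nonneg ?_ ih
    cases t with
    | nil => simp [F5]
    | cons v t => exact gram_nonneg _ _ (fun u => code a (mk (v :: t) u) TL)

theorem F3_nonneg [Fintype V] (t : List V) : 0 ≤ ∑ p, ∑ q, ∑ r, ∑ s, F3 a gc b3 t p q r s := by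
  match t with
  | [x, y, z] =>
    have := gram_nonneg (W := V × V) b3 gc (fun w => code a (mk [x, y, z, w.1] w.2) TG)
    simp only [Fintype.sum_prod_type] at this
    exact this
  | [] => simp [F3]
  | [_] => simp [F3]
  | [_, _] => simp [F3]
  | _ :: _ :: _ :: _ :: _ => simp [F3]

theorem Q3_nonneg [Fintype V] (l : List V) : 0 ≤ ∑ p, ∑ q, ∑ r, ∑ s, Q3 a gc b3 l p q r s := by
  unfold Q3
  induction l.permutations' with
  | nil => simp
  | cons t L ih =>
    simp only [List.map_cons, List.sum_cons, sum_add_distrib]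
    exact add_nonneg (F3_nonneg a gc b3 t) ih

variable {a}

theorem code_mk' (y : ℕ → V) (r : List ℕ) (d : ℕ) (T : List Tr) :
    code a (mk (r.map y) (y d)) T = code a y (mapT (mk r d) T) := by
  have : mk (r.map y) (y d) = fun i => y (mk r d i) := by
    funext i; simp [mk]
  rw [this, code_comp]

def swS : List ℕ := [2, 19, 86]

theorem inv_cert (hs : Sym3 a) (hg : ∀ c ∈ gc, appl 10 swS c = c) :
    Inv (G5 a vc vb) (Q3 a gc b3) (Bt a) where
  g1 := fun _ _ _ _ p => (p.permutations'.map _).sum_eq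
  g2 := fun l u v => by
    unfold G5; congr 2; funext t
    cases t with
    | nil => rfl
    | cons w t => exact gram_comm _ _ _ _
  q1 := fun _ _ _ _ _ _ p => (p.permutations'.map _).sum_eq
  q2 := fun l p q r s => by
    unfold Q3; congr 2; funext t
    match t with
    | [x, y, z] =>
      have key : ∀ c ∈ gc, dig c (code a (mk [x, y, z, p] q) TG) =
          dig c (code a (mk [x, y, z, q] p) TG) := by
        intro c hc
        have h1 := appl_code hs (mk [x, y, z, p] q)
          (show chkS 10 TG (mapT (mk [0, 1, 2, 4] 3) TG) swS = true by decide +kernel) c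
        rw [← code_mk', hg c hc] at h1
        exact h1
      show gram b3 gc (code a (mk [x, y, z, p] q) TG) (code a (mk [x, y, z, r] s) TG) =
        gram b3 gc (code a (mk [x, y, z, q] p) TG) (code a (mk [x, y, z, r] s) TG)
      generalize code a (mk [x, y, z, p] q) TG = i at key
      generalize code a (mk [x, y, z, q] p) TG = j at key
      unfold gram
      refine congrArg List.sum (List.map_congr_left fun c hc => ?_)
      unfold fv
      rw [key c hc]
    | [] => rfl
    | [_] => rfl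
    | [_, _] => rfl
    | _ :: _ :: _ :: _ :: _ => rfl
  q3 := fun l p q r s => by
    unfold Q3; congr 2; funext t
    match t with
    | [x, y, z] => exact gram_comm _ _ _ _
    | [] => rfl
    | [_] => rfl
    | [_, _] => rfl
    | _ :: _ :: _ :: _ :: _ => rfl
  b1 := fun x y z => by unfold Bt; rw [hs.1]
  b2 := fun x y z => by unfold Bt; rw [hs.2]

end

/-! ### zero-sum columns -/

def ZS (b : ℕ) (cols : List ℕ) : Prop :=
  b ≤ 19 ∧ (∀ c ∈ cols, ∀ i, dig c i ≤ 2 * 2 ^ b) ∧
    ∀ i < 1024, (cols.map fun c => dig c i).sum = cols.length * 2 ^ b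

def chkV (b : ℕ) (cols : List ℕ) : Bool :=
  decide (b ≤ 19) && decide (cols.length ≤ 64) &&
    cols.all (fun c => Nat.beq (Nat.land c (Nat.mul (2 ^ (b + 1) - 1) (unitS 56 10))) c) &&
    Nat.beq cols.sum (Nat.mul (cols.length * 2 ^ b) (unitS 56 10))

theorem dig_sum {cols : List ℕ} {D : ℕ} (h : ∀ c ∈ cols, ∀ i, dig c i ≤ D)
    (hD : cols.length * D < 2 ^ 56) :
    ∀ i, dig cols.sum i = (cols.map fun c => dig c i).sum ∧
      (cols.map fun c => dig c i).sum ≤ cols.length * D := by
  induction cols with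
  | nil => intro i; simp [dig_zero]
  | cons c cs ih =>
    have hl : (c :: cs).length * D = cs.length * D + D := by simp [Nat.succ_mul]
    have ih' := ih (fun c hc => h c (List.mem_cons_of_mem _ hc)) (by omega)
    have hc := h c List.mem_cons_self
    intro i
    simp only [List.sum_cons, List.map_cons]
    rw [dig_add (fun j => by have := ih' j; have := hc j; omega), (ih' i).1]
    have := (ih' i).2; have := hc i
    exact ⟨rfl, by omega⟩

theorem pow_le20 {b : ℕ} (h : b ≤ 19) : 2 * 2 ^ b ≤ 2 ^ 20 := by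
  have : 2 ^ b ≤ 2 ^ 19 := Nat.pow_le_pow_right (by decide) h
  omega

theorem ZS_of_chk {b : ℕ} {cols : List ℕ} (h : chkV b cols = true) : ZS b cols := by
  simp only [chkV, Bool.and_eq_true, decide_eq_true_eq, List.all_eq_true, Nat.beq_eq,
    Nat.land_eq, Nat.mul_eq] at h
  obtain ⟨⟨⟨h1, h2⟩, h3⟩, h4⟩ := h
  have p := pow_le20 h1
  have p2 : 2 ^ (b + 1) = 2 * 2 ^ b := by rw [pow_succ]; ring
  have hb : ∀ c ∈ cols, ∀ i, dig c i ≤ 2 * 2 ^ b := by
    intro c hc i
    rw [← h3 c hc, dig_land, unit_eq, pk_mul, dig_pk (fun _ _ => by omega)]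
    refine le_trans Nat.and_le_right ?_
    split_ifs <;> omega
  have hl : cols.length * (2 * 2 ^ b) ≤ 64 * 2 ^ 20 := Nat.mul_le_mul h2 p
  have hl2 : cols.length * (2 * 2 ^ b) = 2 * (cols.length * 2 ^ b) := by ring
  refine ⟨h1, hb, fun i hi => ?_⟩
  rw [← (dig_sum hb (by omega) i).1, h4, unit_eq, pk_mul, dig_pk (fun _ _ => by omega),
    if_pos (by omega), mul_one]

theorem gram_expand (b : ℕ) (cols : List ℕ) (i j : ℕ) :
    gram b cols i j = (ng cols i j : ℤ) - 2 ^ b * (((cols.map fun c => dig c i).sum : ℕ) : ℤ) -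
      2 ^ b * (((cols.map fun c => dig c j).sum : ℕ) : ℤ) + cols.length * 4 ^ b := by
  induction cols with
  | nil => simp [gram, ng]
  | cons c cs ih =>
    have e4 : (4 : ℤ) ^ b = 2 ^ b * 2 ^ b := by rw [← mul_pow]; norm_num
    simp only [gram, ng, List.map_cons, List.sum_cons, List.length_cons, fv, Nat.cast_add,
      Nat.cast_mul, Nat.cast_one] at *
    rw [ih, e4]; ring

theorem gram_ZS {b : ℕ} {cols : List ℕ} (h : ZS b cols) {i j : ℕ} (hi : i < 1024) (hj : j < 1024) :
    gram b cols i j + ((cols.length * 4 ^ b : ℕ) : ℤ) = ng cols i j := by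
  have e4 : (4 : ℤ) ^ b = 2 ^ b * 2 ^ b := by rw [← mul_pow]; norm_num
  rw [gram_expand, h.2.2 i hi, h.2.2 j hj]
  push_cast; rw [e4]; ring

theorem ng_le {cols : List ℕ} {D : ℕ} (h : ∀ c ∈ cols, ∀ i, dig c i ≤ D) (i j : ℕ) :
    ng cols i j ≤ cols.length * (D * D) := by
  induction cols with
  | nil => simp [ng]
  | cons c cs ih =>
    have ih' := ih (fun c hc => h c (List.mem_cons_of_mem _ hc))
    have hc := h c List.mem_cons_self
    have := Nat.mul_le_mul (hc i) (hc j)
    simp only [ng, List.map_cons, List.sum_cons, List.length_cons, Nat.succ_mul] at *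
    omega

theorem ng_append (l m : List ℕ) (i j : ℕ) : ng (l ++ m) i j = ng l i j + ng m i j := by
  simp [ng]

theorem wcols_cons (vc : ℕ → List ℕ) (e : ℕ × List ℕ) (d : List (ℕ × List ℕ)) :
    wcols vc (e :: d) = (vc e.1).map (appl 10 e.2) ++ wcols vc d := by
  have : wcols vc (e :: d) = List.rec (motive := fun _ => List ℕ) (wcols vc d)
    (fun c _ ih2 => appl 10 e.2 c :: ih2) (vc e.1) := rfl
  rw [this]
  induction vc e.1 with
  | nil => rfl
  | cons c cs ih => simp only [List.map_cons, List.cons_append, ← ih]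

theorem ng_wcols (vc : ℕ → List ℕ) (d : List (ℕ × List ℕ)) (i j : ℕ) :
    ng (wcols vc d) i j = (d.map fun e => ng ((vc e.1).map (appl 10 e.2)) i j).sum := by
  induction d with
  | nil => rfl
  | cons e d ih => rw [wcols_cons, ng_append, ih]; simp

theorem wcols_bound {vc : ℕ → List ℕ} {vb : ℕ → ℕ} (hv : ∀ s, ZS (vb s) (vc s))
    {d : List (ℕ × List ℕ)} (hd : ∀ e ∈ d, swOk 10 e.2 = true) :
    (∀ c ∈ wcols vc d, ∀ i, dig c i ≤ 2 ^ 20) ∧
      ∀ i j, ng (wcols vc d) i j ≤ 4 * (d.map fun e => (vc e.1).length * 4 ^ (vb e.1)).sum := by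
  induction d with
  | nil => exact ⟨fun c hc => (by cases hc), fun i j => Nat.zero_le _⟩
  | cons e d ih =>
    obtain ⟨i1, i2⟩ := ih (fun e he => hd e (List.mem_cons_of_mem _ he))
    have he := hd e List.mem_cons_self
    have hb : ∀ c ∈ (vc e.1).map (appl 10 e.2), ∀ i, dig c i ≤ 2 * 2 ^ vb e.1 := by
      intro c hc i
      obtain ⟨c', hc', rfl⟩ := List.mem_map.mp hc
      exact dig_appl_le he ((hv e.1).2.1 c' hc') i
    rw [wcols_cons]
    refine ⟨fun c hc i => ?_, fun i j => ?_⟩
    · rcases List.mem_append.mp hc with h | h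
      · exact le_trans (hb c h i) (pow_le20 (hv e.1).1)
      · exact i1 c h i
    · have h1 := ng_le hb i j
      have e4 : 4 ^ vb e.1 = 2 ^ vb e.1 * 2 ^ vb e.1 := by rw [← Nat.mul_pow]
      have h2 : ((vc e.1).map (appl 10 e.2)).length * (2 * 2 ^ vb e.1 * (2 * 2 ^ vb e.1)) =
          4 * ((vc e.1).length * 4 ^ vb e.1) := by rw [e4, List.length_map]; ring
      have := i2 i j
      rw [ng_append]
      simp only [List.map_cons, List.sum_cons]
      omega

theorem dig_row {cols : List ℕ} {l : ℕ} (h : ∀ j, ng cols l j < 2 ^ 56) (i : ℕ) :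
    dig (row cols (56 * l)) i = ng cols l i := by
  induction cols generalizing i with
  | nil => exact dig_zero i
  | cons c cs ih =>
    have e : row (c :: cs) (56 * l) = ((c >>> (56 * l)) &&& m1) * c + row cs (56 * l) := rfl
    have e2 : ∀ j, ng (c :: cs) l j = dig c l * dig c j + ng cs l j := fun j => by simp [ng]
    simp only [e2] at h ⊢
    have ih' := fun i => ih (fun j => by have := h j; omega) i
    have hm := fun i => dig_mul (c := dig c l) (x := c) (fun j => by have := h j; omega) i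
    rw [e, slice_one, dig_add (fun j => by rw [hm, ih']; exact h j), hm, ih']

/-! ### the five-vertex kernel -/

def chkP5 (p5 : List TE) : Bool :=
  (p5.map fun e => e.1).isPerm [0, 1, 2, 3, 4].permutations' &&
  p5.all fun e => e.1.all (fun i => decide (i < 5)) && !e.1.isEmpty &&
    chkG T5 (mapT (mk e.1 (e.1.headD 0)) T5) e.2.1 && chkS 10 TL (mapT (mk e.1 5) TL) e.2.2

noncomputable def chkW (vc : ℕ → List ℕ) (vb : ℕ → ℕ) (p5 : List TE) (cmax s : ℕ)
    (wd : ℕ × List (ℕ × List ℕ)) : Bool :=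
  wd.2 == (p5.map fun e => (gath e.2.1 s, e.2.2)).filter (fun e => !(vc e.1).isEmpty) &&
    wd.1 + (wd.2.map fun e => (vc e.1).length * 4 ^ (vb e.1)).sum == cmax

theorem sum_filter_ne {α : Type*} (l : List α) (p : α → Bool) (f : α → ℕ)
    (h : ∀ e, p e = false → f e = 0) : ((l.filter p).map f).sum = (l.map f).sum := by
  induction l with
  | nil => rfl
  | cons e l ih =>
    cases hp : p e
    · simp [List.filter_cons, hp, ih, h e hp]
    · simp [List.filter_cons, hp, ih]

theorem chkW_bound {vc : ℕ → List ℕ} {vb : ℕ → ℕ} (hv : ∀ s, ZS (vb s) (vc s)) {p5 : List TE}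
    (hp : chkP5 p5 = true) {cmax s : ℕ} {wd : ℕ × List (ℕ × List ℕ)}
    (hw : chkW vc vb p5 cmax s wd = true) :
    wd.1 ≤ cmax ∧ (∀ c ∈ wcols vc wd.2, ∀ i, dig c i ≤ 2 ^ 20) ∧
      ∀ i j, ng (wcols vc wd.2) i j ≤ 4 * cmax := by
  simp only [chkW, chkP5, Bool.and_eq_true, beq_iff_eq, List.all_eq_true] at hw hp
  have hd : ∀ e ∈ wd.2, swOk 10 e.2 = true := by
    intro e he
    rw [hw.1] at he
    obtain ⟨e', he', rfl⟩ := List.mem_map.mp (List.mem_filter.mp he).1
    exact chkS_ok (hp.2 e' he').2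
  obtain ⟨b1, b2⟩ := wcols_bound hv hd
  exact ⟨by omega, b1, fun i j => by have := b2 i j; omega⟩

section
variable {V : Type*} {a : V → V → V → Bool}

theorem map_mk5 (y : ℕ → V) (u : V) {r : List ℕ} (h : ∀ i ∈ r, i < 5) :
    r.map y = r.map (mk [y 0, y 1, y 2, y 3, y 4] u) := by
  apply List.map_congr_left
  intro i hi
  have := h i hi
  match i, this with
  | 0, _ => rfl
  | 1, _ => rfl
  | 2, _ => rfl
  | 3, _ => rfl
  | 4, _ => rfl

theorem G5_eq (hs : Sym3 a) {vc : ℕ → List ℕ} {vb : ℕ → ℕ} (hv : ∀ s, ZS (vb s) (vc s))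
    {p5 : List TE} (hp : chkP5 p5 = true) {cmax : ℕ} {wd : ℕ × List (ℕ × List ℕ)} (y : ℕ → V)
    (hw : chkW vc vb p5 cmax (code a y T5) wd = true) (u u' : V) :
    (ng (wcols vc wd.2) (code a (mk [y 0, y 1, y 2, y 3, y 4] u) TL)
      (code a (mk [y 0, y 1, y 2, y 3, y 4] u') TL) : ℤ) + wd.1 =
      G5 a vc vb [y 0, y 1, y 2, y 3, y 4] u u' + cmax := by
  simp only [chkW, chkP5, Bool.and_eq_true, beq_iff_eq, List.all_eq_true, decide_eq_true_eq,
    List.isPerm_iff] at hw hp
  obtain ⟨w1, w2⟩ := hw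
  obtain ⟨p1, p2⟩ := hp
  have e1 : G5 a vc vb [y 0, y 1, y 2, y 3, y 4] u u' =
      (p5.map fun e => F5 a vc vb (e.1.map y) u u').sum := by
    have : [y 0, y 1, y 2, y 3, y 4] = [0, 1, 2, 3, 4].map y := rfl
    unfold G5
    rw [this, ← List.map_permutations', List.map_map,
      ← (p1.map ((fun t => F5 a vc vb t u u') ∘ List.map y)).sum_eq, List.map_map]
    rfl
  rw [e1, ← w2, ng_wcols, w1, sum_filter_ne, sum_filter_ne]
  · have key : ∀ e ∈ p5, F5 a vc vb (e.1.map y) u u' +
        (((vc (gath e.2.1 (code a y T5))).length * 4 ^ vb (gath e.2.1 (code a y T5)) : ℕ) : ℤ) =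
        ng ((vc (gath e.2.1 (code a y T5))).map (appl 10 e.2.2))
          (code a (mk [y 0, y 1, y 2, y 3, y 4] u) TL)
          (code a (mk [y 0, y 1, y 2, y 3, y 4] u') TL) := by
      intro e he
      obtain ⟨⟨⟨c1, c2⟩, c3⟩, c4⟩ := p2 e he
      obtain ⟨r, pos, sw⟩ := e
      cases r with
      | nil => simp at c2
      | cons t r =>
        have s1 : code a (mk ((t :: r).map y) (y t)) T5 = gath pos (code a y T5) := by
          rw [code_mk', gath_code hs y c3]; rfl
        have s2 : ∀ w : V, ∀ c, dig (appl 10 sw c) (code a (mk [y 0, y 1, y 2, y 3, y 4] w) TL) =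
            dig c (code a (mk ((t :: r).map y) w) TL) := by
          intro w c
          rw [appl_code hs _ c4, ← code_mk', ← map_mk5 y w c1]; rfl
        have s3 : F5 a vc vb ((t :: r).map y) u u' =
            gram (vb (code a (mk ((t :: r).map y) (y t)) T5))
              (vc (code a (mk ((t :: r).map y) (y t)) T5))
              (code a (mk ((t :: r).map y) u) TL) (code a (mk ((t :: r).map y) u') TL) := rfl
        show F5 a vc vb ((t :: r).map y) u u' + _ = _
        rw [s3, s1, gram_ZS (hv _) (code_lt _ _) (code_lt _ _)]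
        simp only [ng, List.map_map, Function.comp_def, s2]
    simp only [List.map_map, Function.comp_def]
    clear e1 p1 p2 w1 w2
    push_cast
    induction p5 with
    | nil => simp
    | cons e l ih =>
      have h1 := key e List.mem_cons_self
      have h2 := ih (fun e he => key e (List.mem_cons_of_mem _ he))
      simp only [List.map_cons, List.sum_cons] at *
      push_cast at *
      linarith
  · intro e he
    have : vc e.1 = [] := by simpa using he
    simp [this]
  · intro e he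
    have : vc e.1 = [] := by simpa using he
    simp [this, ng]

/-! ### the three-vertex kernel -/

def d3 : List (ℕ × List ℕ) := [(0, []), (0, [5,38,72]), (0, [1,35,120]),
  (0, [5,21,38,54,71,120]), (0, [1,21,35,54,72,120]), (0, [21,54,71])]

noncomputable def w3 (gc : List ℕ) : List ℕ := wcols (fun _ => gc) d3

noncomputable def rowC (gc : List ℕ) (g : ℕ) : ℕ :=
  Nat.land (Nat.shiftRight (row (w3 gc) (Nat.mul 56 g)) (Nat.mul 28672 (Nat.div g 512))) m512

theorem w3_bound {gc : List ℕ} {b3 : ℕ} (h : ZS b3 gc) (i j : ℕ) :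
    ng (w3 gc) i j ≤ 4 * (6 * (gc.length * 4 ^ b3)) := by
  have := (wcols_bound (vc := fun _ => gc) (vb := fun _ => b3) (fun _ => h) (d := d3)
    (by decide)).2 i j
  simp only [d3, List.map_cons, List.map_nil, List.sum_cons, List.sum_nil] at this
  unfold w3 d3
  omega

theorem dig_rowC {gc : List ℕ} {b3 : ℕ} (h : ZS b3 gc)
    (hk : 4 * (6 * (gc.length * 4 ^ b3)) < 2 ^ 56) (g j : ℕ) :
    dig (rowC gc g) j = if j < 512 then ng (w3 gc) g (512 * (g / 512) + j) else 0 := by
  have e : rowC gc g = (row (w3 gc) (56 * g) >>> (28672 * (g / 512))) &&& onesD 512 := rfl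
  have e2 : 28672 * (g / 512) = 56 * (512 * (g / 512)) := by ring
  rw [e, e2, slice_eq, dig_pk (fun _ _ => dig_lt _ _)]
  simp only [dig_row (fun j => lt_of_le_of_lt (w3_bound h g j) hk)]

theorem Q3_eq (hs : Sym3 a) {gc : List ℕ} {b3 : ℕ} (h : ZS b3 gc) (x y z p q r s : V) :
    (ng (w3 gc) (code a (mk [x, y, z, p] q) TG) (code a (mk [x, y, z, r] s) TG) : ℤ) =
      Q3 a gc b3 [x, y, z] p q r s + ((6 * (gc.length * 4 ^ b3) : ℕ) : ℤ) := by
  have key : ∀ (t0 t1 t2 : ℕ) (sw : List ℕ),
      chkS 10 TG (mapT (mk [t0, t1, t2, 3] 4) TG) sw = true →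
      gram b3 gc (code a (mk ([t0, t1, t2, 3].map (mk [x, y, z, p] q)) q) TG)
        (code a (mk ([t0, t1, t2, 3].map (mk [x, y, z, r] s)) s) TG) +
        ((gc.length * 4 ^ b3 : ℕ) : ℤ) =
      ng (gc.map (appl 10 sw)) (code a (mk [x, y, z, p] q) TG) (code a (mk [x, y, z, r] s) TG) := by
    intro t0 t1 t2 sw hc
    rw [gram_ZS h (code_lt _ _) (code_lt _ _)]
    simp only [ng, List.map_map, Function.comp_def, appl_code hs _ hc, ← code_mk']
    rfl
  have k0 : F3 a gc b3 [x, y, z] p q r s + _ = _ := key 0 1 2 [] (by decide +kernel)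
  have k1 : F3 a gc b3 [x, z, y] p q r s + _ = _ := key 0 2 1 [5,38,72] (by decide +kernel)
  have k2 : F3 a gc b3 [y, x, z] p q r s + _ = _ := key 1 0 2 [1,35,120] (by decide +kernel)
  have k3 : F3 a gc b3 [y, z, x] p q r s + _ = _ :=
    key 1 2 0 [5,21,38,54,71,120] (by decide +kernel)
  have k4 : F3 a gc b3 [z, x, y] p q r s + _ = _ :=
    key 2 0 1 [1,21,35,54,72,120] (by decide +kernel)
  have k5 : F3 a gc b3 [z, y, x] p q r s + _ = _ := key 2 1 0 [21,54,71] (by decide +kernel)
  rw [w3, ng_wcols]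
  simp only [d3, Q3, List.permutations', List.permutations'Aux, List.flatMap_cons,
    List.flatMap_nil, List.map_cons, List.map_nil, List.sum_cons, List.sum_nil, List.append_nil,
    List.cons_append, List.nil_append]
  push_cast at *
  linarith

end

end Pool.Agent.Work.MP_f1799f_co
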