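/-! Computational part of the 7-vertex certificate check: packed tables in big natural numbers
(56-bit digits). Everything is written with recursors and kernel-accelerated `Nat` operations. -/
namespace Pool.Agent.Work.MP_f1799f_co
noncomputable section

def force (x : Nat) (f : Nat → Nat) : Nat :=
  Nat.rec (motive := fun _ => Nat) (f 0) (fun n _ => f (Nat.succ n)) x

def forceB (x : Nat) (f : Nat → Bool) : Bool :=
  Nat.rec (motive := fun _ => Bool) (f 0) (fun n _ => f (Nat.succ n)) x

def nth {α : Type} (l : List α) (d : α) (n : Nat) : α :=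
  List.rec (motive := fun _ => Nat → α) (fun _ => d)
    (fun a _ ih n => Nat.rec (motive := fun _ => α) a (fun m _ => ih m) n) l n

def allL {α : Type} (l : List α) (p : α → Bool) : Bool :=
  List.rec (motive := fun _ => Bool) true (fun a _ ih => Bool.rec false ih (p a)) l

def allN (n : Nat) (p : Nat → Bool) : Bool :=
  Nat.rec (motive := fun _ => Bool) true (fun a ih => Bool.rec false ih (p a)) n

/-- number of bits of a table with `2^n` digits -/
def bitsOf (n : Nat) : Nat := Nat.mul 56 (Nat.pow 2 n)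

/-- all bits one on `k` digits -/
def onesD (k : Nat) : Nat := Nat.sub (Nat.shiftLeft 1 (Nat.mul 56 k)) 1

/-- digit one at `2^n` positions, spaced by `s` bits -/
def unitS (s n : Nat) : Nat :=
  Nat.rec (motive := fun _ => Nat) 1
    (fun k ih => Nat.add ih (Nat.shiftLeft ih (Nat.mul s (Nat.pow 2 k)))) n

/-- full digits at the indices below `2^n` whose bit `m` is set -/
def amask (n m : Nat) : Nat :=
  Nat.rec (motive := fun _ => Nat) 0
    (fun k ih => Nat.lor ih (Nat.shiftLeft
      (Bool.rec (motive := fun _ => Nat) ih (onesD (Nat.pow 2 k)) (Nat.beq k m)) (bitsOf k))) n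

def msk (n s : Nat) : Nat :=
  Nat.land (amask n (Nat.div s 16)) (Nat.xor (onesD (Nat.pow 2 n)) (amask n (Nat.mod s 16)))

def dlt (s : Nat) : Nat := Nat.sub (bitsOf (Nat.mod s 16)) (bitsOf (Nat.div s 16))

def swp (n s x : Nat) : Nat :=
  (fun t => Nat.xor (Nat.xor x t) (Nat.shiftLeft t (dlt s)))
    (Nat.land (Nat.xor (Nat.shiftRight x (dlt s)) x) (msk n s))

def appl (n : Nat) (l : List Nat) (x : Nat) : Nat :=
  List.rec (motive := fun _ => Nat) x (fun s _ ih => swp n s ih) l

def m1 : Nat := onesD 1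
def m16 : Nat := onesD 16
def m32 : Nat := onesD 32
def m64 : Nat := onesD 64
def m512 : Nat := onesD 512
def u16 : Nat := unitS 56 4
def uS : Nat := unitS 896 4
def m15 : Nat := unitS 840 4
def mU : Nat := Nat.mul m1 uS
def u15 : Nat := unitS 56 15

def blk (cols : List Nat) (oa ob : Nat) : Nat :=
  List.rec (motive := fun _ => Nat) 0 (fun c _ ih =>
    Nat.add (Nat.mul (Nat.land (Nat.mul (Nat.land (Nat.shiftRight c oa) m16) m15) mU)
      (Nat.land (Nat.shiftRight c ob) m16)) ih) cols

def row (cols : List Nat) (o : Nat) : Nat :=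
  List.rec (motive := fun _ => Nat) 0 (fun c _ ih =>
    Nat.add (Nat.mul (Nat.land (Nat.shiftRight c o) m1) c) ih) cols

def cat (n sh : Nat) (f : Nat → Nat) (b : Nat) : Nat :=
  Nat.rec (motive := fun _ => Nat → Nat) f
    (fun k ih b => Nat.add (ih b)
      (Nat.shiftLeft (ih (Nat.add b (Nat.pow 2 k))) (Nat.mul sh (Nat.pow 2 k)))) n b

def gath (pos : List Nat) (r : Nat) : Nat :=
  List.rec (motive := fun _ => Nat) 0 (fun m _ ih =>
    Nat.add (Nat.land (Nat.shiftRight r m) 1) (Nat.mul 2 ih)) pos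

def wcols (vc : Nat → List Nat) (d : List (Nat × List Nat)) : List Nat :=
  List.rec (motive := fun _ => List Nat) [] (fun e _ ih =>
    List.rec (motive := fun _ => List Nat) ih (fun c _ ih2 => appl 10 e.2 c :: ih2) (vc e.1)) d

def araw (rowf : Nat → Nat) (b1 b2 : Nat) : Nat :=
  cat 6 1792 (fun i =>
    Nat.land (Nat.shiftRight
      (force (Nat.add (Nat.add (Nat.mul 512 (Nat.div i 32)) (Nat.mul 32 b1)) (Nat.mod i 32)) rowf)
      (Nat.mul 1792 b2)) m32) 0

def atab (rowf : Nat → Nat) (sw p1 p2 : List Nat) (r : Nat) : Nat :=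
  force (gath p1 r) fun b1 => force (gath p2 r) fun b2 => appl 11 sw (araw rowf b1 b2)

def btab (rowf : Nat → Nat) (sw p1 p2 : List Nat) (r : Nat) : Nat :=
  Nat.land (Nat.shiftRight (force (gath p1 r) fun g => appl 9 sw (rowf g))
    (Nat.mul 3584 (gath p2 r))) m64

def pop4 (g : Nat) : Nat :=
  Nat.add (Nat.add (Nat.land g 1) (Nat.land (Nat.shiftRight g 1) 1))
    (Nat.add (Nat.land (Nat.shiftRight g 2) 1) (Nat.land (Nat.shiftRight g 3) 1))

def tconst (kap : Nat) : Nat := Nat.shiftLeft (Nat.mul (Nat.mul 3 kap) (unitS 56 8)) 14336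

/-- the 512 digits of the table of a pair for one value `e` of the link on the other four vertices -/
def uext (wf : Nat → Nat → List Nat) (df : Nat → Nat → Nat) (kap tau oa ob ra rb c0 ta tb tc cb e : Nat) :
    Nat :=
  Nat.add (Nat.add
    ((fun x => Nat.add x (Nat.shiftLeft x 14336))
      (Nat.add (Nat.add (Nat.mul 5 (blk (wf tau e) oa ob))
        (Nat.mul (Nat.land (Nat.mul (Nat.land (Nat.shiftRight rb (Nat.mul 896 e)) m16) m15) mU) u16))
        (Nat.mul (Nat.add (Nat.land (Nat.shiftRight ra (Nat.mul 896 e)) m16)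
          (Nat.mul (Nat.add (Nat.add (Nat.mul 5 (df tau e)) c0)
            (Nat.land (Nat.shiftRight cb (Nat.mul 56 e)) m1)) u16)) uS)))
    (Nat.add (Nat.land (Nat.shiftRight ta (Nat.mul 28672 (Nat.div e 16))) m512) (tconst kap)))
    (Nat.add (Nat.land (Nat.shiftRight tb (Nat.mul 28672 (Nat.mod (Nat.div e 4) 4))) m512)
      (Nat.land (Nat.shiftRight tc (Nat.mul 28672 (Nat.mod e 4))) m512))

def swA0 : List Nat := [6,18,39,74,90,122,138]
def swA1 : List Nat := [5,39,74,90,106,122,138]
def swA2 : List Nat := [4,20,39,74,106,122,138]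
def swB0 : List Nat := [7,24,35,53,72,86,103,120]
def swB1 : List Nat := [7,24,40,53,69,86,104,120]
def swB2 : List Nat := [7,24,40,69,86,120]
def swB3 : List Nat := [7,24,55,69,86,120]

def cbt (rowf : Nat → Nat) (r : Nat) : Nat :=
  Nat.add
    (Nat.add (btab rowf swB0 [7,9,13,15,19,4,10,17,18,3] [0,1,2] r)
      (btab rowf swB1 [5,9,11,15,19,6,12,16,18,2] [0,1,3] r))
    (Nat.add (btab rowf swB2 [5,7,11,13,19,8,14,16,17,1] [0,2,3] r)
      (btab rowf swB3 [6,4,12,10,18,8,14,16,17,0] [1,2,3] r))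

def utab (wf : Nat → Nat → List Nat) (df : Nat → Nat → Nat) (rowf : Nat → Nat) (kap r : Nat) : Nat :=
  force (Nat.land r 15) fun tau =>
  force (Nat.land (Nat.shiftRight r 4) 63) fun aa =>
  force (Nat.land (Nat.shiftRight r 10) 63) fun ab =>
  force (Nat.land (Nat.shiftRight r 16) 15) fun gam =>
  force (Nat.mul 896 aa) fun oa =>
  force (Nat.mul 896 ab) fun ob =>
  cat 6 28672 (fun e0 => force e0 (uext wf df kap tau oa ob
    (row (wf tau ab) (Nat.add (Nat.mul 56 gam) oa))
    (row (wf tau aa) (Nat.add (Nat.mul 56 gam) ob))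
    (Nat.add (Nat.add (df tau aa) (df tau ab)) (Nat.mul kap (pop4 gam)))
    (atab rowf swA0 [16,17,8,14] [18,19,9,15] r)
    (atab rowf swA1 [16,18,6,12] [17,19,7,13] r)
    (atab rowf swA2 [17,18,4,10] [16,19,5,11] r)
    (cbt rowf r))) 0

def invL : List (Nat × Nat × Nat × Nat) :=
  [(0,13,11,9),(1,13,10,12),(2,11,10,14),(3,9,12,14),(4,9,5,6),(5,10,4,7),(6,11,4,6),(7,12,5,7),
   (8,13,4,5),(9,14,6,7),(10,9,1,2),(11,10,0,3),(12,11,0,2),(13,12,1,3),(14,13,0,1),(15,14,2,3),
   (16,4,0,8),(17,5,1,8),(18,6,2,8),(19,7,3,8)]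

def tri (e : Nat × Nat × Nat × Nat) : Nat :=
  Nat.land (Nat.land (amask 15 e.2.1) (amask 15 e.2.2.1)) (amask 15 e.2.2.2)

def invM (l : List (Nat × Nat × Nat × Nat)) (r : Nat) : Nat :=
  List.rec (motive := fun _ => Nat) 0 (fun e _ ih =>
    Bool.rec (motive := fun _ => Nat) ih (Nat.lor (tri e) ih)
      (Nat.beq (Nat.land (Nat.shiftRight r e.1) 1) 1)) l

def tauOk (r : Nat) : Bool := Nat.beq (Nat.land (Nat.shiftRight 139 (Nat.land r 15)) 1) 1

abbrev TE : Type := List Nat × List Nat × List Nat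

def te0 : TE := ([], [], [])

def total (ut : Nat → Nat) (tu : List (List TE)) (r : Nat) (os : List Nat) : Nat :=
  List.rec (motive := fun _ => List Nat → Nat) (fun _ => 0) (fun t _ ih os =>
    List.rec (motive := fun _ => Nat) 0 (fun o os' _ =>
      Nat.add (appl 15 (nth t te0 o).2.2 (force (gath (nth t te0 o).2.1 r) ut)) (ih os')) os) tu os

def tausOk (tu : List (List TE)) (r : Nat) (os : List Nat) : Bool :=
  List.rec (motive := fun _ => List Nat → Bool) (fun _ => true) (fun t _ ih os =>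
    List.rec (motive := fun _ => Bool) false (fun o os' _ =>
      Bool.rec false (Bool.rec false (ih os') (Nat.ble o 23)) (tauOk (gath (nth t te0 o).2.1 r))) os) tu os

def topM : Nat := Nat.shiftLeft u15 55

/-- `kc` is `2^55 - 1 - bound` -/
def chkR (ut : Nat → Nat) (tu : List (List TE)) (kc r : Nat) (os : List Nat) : Bool :=
  Bool.rec false
    (Nat.beq (Nat.lor (Nat.land (Nat.add (total ut tu r os) (Nat.mul kc u15)) topM) (invM invL r))
      (invM invL r))
    (tausOk tu r os)

end
end Pool.Agent.Work.MP_f1799f_co
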