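import Pool.Agent.Work.MP_f1799f_co.Tot
/-! Every seven-tuple can be reordered so that its first six entries carry a listed graph. -/
namespace Pool.Agent.Work.MP_f1799f_co
open Finset

variable {V : Type*} {a : V → V → V → Bool}

noncomputable def popN (n r : ℕ) : ℕ :=
  Nat.rec (motive := fun _ => ℕ → ℕ) (fun _ => 0)
    (fun _ ih r => Nat.add (Nat.land r 1) (force (Nat.shiftRight r 1) ih)) n r

theorem popN_code (y : ℕ → V) (T : List Tr) :
    popN T.length (code a y T) = (T.map fun t => (ev a y t).toNat).sum := by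
  induction T with
  | nil => rfl
  | cons t T ih =>
    have e : popN (t :: T).length (code a y (t :: T)) = (code a y (t :: T) &&& 1) +
      force (code a y (t :: T) >>> 1) (popN T.length) := rfl
    have := Bool.toNat_le (ev a y t)
    have e1 : code a y (t :: T) &&& 1 = (ev a y t).toNat := by
      rw [Nat.and_one_is_mod, code_cons]; omega
    have e2 : code a y (t :: T) >>> 1 = code a y T := by
      rw [Nat.shiftRight_eq_div_pow, code_cons]; omega
    rw [e, force_eq, e1, e2, ih]; simp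

def E3 (B : V → V → V → ℤ) (l : List V) : ℤ :=
  sumPicks l fun p r => sumPicks r fun q r' => sumPicks r' fun s _ => B p q s

theorem E3_perm (B : V → V → V → ℤ) {l l' : List V} (p : l.Perm l') : E3 B l = E3 B l' :=
  sumPicks_perm p _ fun _ _ _ q => sumPicks_perm q _ fun _ _ _ t =>
    sumPicks_perm t _ fun _ _ _ _ => rfl

theorem pop20 (y : ℕ → V) : popN 20 (code a y T20) = (T20.map fun t => (ev a y t).toNat).sum :=
  popN_code y T20

theorem E3_eval (hs : Sym3 a) (x0 x1 x2 x3 x4 x5 x6 : V) :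
    E3 (Bt a) [x0, x1, x2, x3, x4, x5] =
      6 * (popN 20 (code a (mk [x0, x1, x2, x3, x4, x5] x6) T20) : ℤ) := by
  have b1 : ∀ x y z, Bt a x y z = Bt a y x z := fun x y z => by unfold Bt; rw [hs.1]
  have b2 : ∀ x y z, Bt a x y z = Bt a x z y := fun x y z => by unfold Bt; rw [hs.2]
  have e : ∀ x y z, ((a x y z).toNat : ℤ) = Bt a x y z := fun _ _ _ => rfl
  rw [pop20]
  simp only [T20, T4, lk, pp, List.cons_append, List.nil_append, List.map_cons, List.map_nil,
    List.sum_cons, List.sum_nil, ev, mk, List.getD_cons_zero, List.getD_cons_succ, Nat.cast_add, e,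
    E3, sumPicks]
  simp only [b1, b2]
  push_cast
  ring

theorem code_six (y : ℕ → V) :
    code a (mk [y 0, y 1, y 2, y 3, y 4, y 5] (y 6)) T20 = code a y T20 := rfl

theorem relabel (y : ℕ → V) {r : List ℕ} (h : r.Perm [0, 1, 2, 3, 4, 5]) :
    [mk (r.map y) (y 6) 0, mk (r.map y) (y 6) 1, mk (r.map y) (y 6) 2, mk (r.map y) (y 6) 3,
      mk (r.map y) (y 6) 4, mk (r.map y) (y 6) 5].Perm [y 0, y 1, y 2, y 3, y 4, y 5] ∧
      mk (r.map y) (y 6) 6 = y 6 := by
  match r, h.length_eq, h with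
  | [_, _, _, _, _, _], _, h => exact ⟨h.map y, rfl⟩

abbrev K4E : Type := (ℕ × ℕ × ℕ × ℕ) × List ℕ

def chkK (T : List Tr) (l : List K4E) : Bool :=
  l.all fun e => chkG T [(e.1.1, e.1.2.1, e.1.2.2.1), (e.1.1, e.1.2.1, e.1.2.2.2),
    (e.1.1, e.1.2.2.1, e.1.2.2.2), (e.1.2.1, e.1.2.2.1, e.1.2.2.2)] e.2

noncomputable def noK (l : List K4E) (r : ℕ) : Bool :=
  allL l fun e => Bool.rec true false (Nat.beq (gath e.2 r) 15)

theorem allL_of {α : Type} {l : List α} {p : α → Bool} (h : ∀ x ∈ l, p x = true) :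
    allL l p = true := by
  induction l with
  | nil => rfl
  | cons b l ih =>
    have e : allL (b :: l) p = Bool.rec false (allL l p) (p b) := rfl
    rw [e, h b List.mem_cons_self]
    exact ih fun x hx => h x (List.mem_cons_of_mem _ hx)

theorem noK_code (hs : Sym3 a) (hK : K4f a) (y : ℕ → V) {T : List Tr} {l : List K4E}
    (h : chkK T l = true) : noK l (code a y T) = true := by
  refine allL_of fun e he => ?_
  rw [gath_code hs y (List.all_eq_true.mp h e he)]
  have := hK (y e.1.1) (y e.1.2.1) (y e.1.2.2.1) (y e.1.2.2.2)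
  simp only [code, ev]
  revert this
  cases a (y e.1.1) (y e.1.2.1) (y e.1.2.2.1) <;> cases a (y e.1.1) (y e.1.2.1) (y e.1.2.2.2) <;>
    cases a (y e.1.1) (y e.1.2.2.1) (y e.1.2.2.2) <;>
    cases a (y e.1.2.1) (y e.1.2.2.1) (y e.1.2.2.2) <;> intro h <;>
    first | rfl | exact (h rfl rfl rfl rfl).elim

def k5L : List K4E := [((0,1,2,3),[0,1,2,3]), ((0,1,2,4),[0,8,6,4]), ((0,1,3,4),[1,8,5,7]),
  ((0,2,3,4),[2,6,5,9]), ((1,2,3,4),[3,4,7,9])]

def k6L : List K4E := k5L ++ [((0,1,2,5),[0,14,12,10]), ((0,1,3,5),[1,14,11,13]),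
  ((0,2,3,5),[2,12,11,15]), ((1,2,3,5),[3,10,13,15]), ((0,1,4,5),[8,14,16,17]),
  ((0,2,4,5),[6,12,16,18]), ((0,3,4,5),[5,11,16,19]), ((1,2,4,5),[4,10,17,18]),
  ((1,3,4,5),[7,13,17,19]), ((2,3,4,5),[9,15,18,19])]

noncomputable def orB (x y : Bool) : Bool := Bool.rec y true x
noncomputable def andB (x y : Bool) : Bool := Bool.rec false y x
noncomputable def notB (x : Bool) : Bool := Bool.rec true false x

theorem orB_eq (x y : Bool) : orB x y = (x || y) := by cases x <;> rfl
theorem andB_eq (x y : Bool) : andB x y = (x && y) := by cases x <;> rfl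
theorem notB_eq (x : Bool) : notB x = !x := by cases x <;> rfl

noncomputable def tcf (tc : List (List (List ℕ × List ℕ))) (t : ℕ) : List ℕ × List ℕ :=
  nth (nth tc [] (Nat.div t 24)) ([], []) (Nat.mod t 24)

noncomputable def chkTC (tc : List (List (List ℕ × List ℕ))) : Bool :=
  allN 720 fun t => (tcf tc t).1.isPerm [0, 1, 2, 3, 4, 5] &&
    chkG T20 (mapT (mk (tcf tc t).1 6) T20) (tcf tc t).2

noncomputable def chk6 (tc : List (List (List ℕ × List ℕ))) (bm : ℕ) (e : ℕ × ℕ) : Bool :=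
  allN 1024 fun h => forceB (Nat.add e.1 (Nat.mul 1024 h)) fun cd =>
    orB (Nat.beq (Nat.land (popN 20 cd) 1) 1)
      (orB (notB (noK k6L cd))
        (forceB (Nat.land (Nat.shiftRight e.2 (Nat.mul 10 h)) 1023) fun t =>
          andB (Nat.ble t 719)
            (Nat.beq (Nat.land (Nat.shiftRight bm (gath (tcf tc t).2 cd)) 1) 1)))

noncomputable def chkP (p5 : List TE) : Bool :=
  allN 120 fun t => ((nth p5 te0 t).1 ++ [5]).isPerm [0, 1, 2, 3, 4, 5] &&
    chkG T5 (mapT (mk ((nth p5 te0 t).1 ++ [5]) 6) T5) (nth p5 te0 t).2.1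

noncomputable def chk5 (p5 : List TE) (c5 : ℕ) (c6 : List (ℕ × ℕ)) : Bool :=
  allN 1024 fun s => orB (notB (noK k5L s))
    (forceB (Nat.land (Nat.shiftRight c5 (Nat.mul 8 s)) 255) fun t =>
      andB (Nat.ble t 119) (forceB (gath (nth p5 te0 t).2.1 s) fun s' =>
        notB (allL c6 fun e => notB (Nat.beq e.1 s'))))

noncomputable def bmap (l : List (List (ℕ × List ℕ))) : ℕ :=
  List.rec (motive := fun _ => ℕ) 0 (fun c _ ih => List.rec (motive := fun _ => ℕ) ih
    (fun e _ ih2 => Nat.lor (Nat.shiftLeft 1 e.1) ih2) c) l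

theorem bmap_spec {l : List (List (ℕ × List ℕ))} {r : ℕ} (h : (bmap l).testBit r = true) :
    ∃ c ∈ l, ∃ e ∈ c, e.1 = r := by
  induction l with
  | nil => simp [bmap] at h
  | cons c l ih =>
    have key : ∀ c : List (ℕ × List ℕ), (bmap (c :: l)).testBit r = true →
        (∃ e ∈ c, e.1 = r) ∨ (bmap l).testBit r = true := by
      intro c
      induction c with
      | nil => intro h; exact Or.inr h
      | cons e c ih2 =>
        intro h
        have e1 : bmap ((e :: c) :: l) = (1 <<< e.1) ||| bmap (c :: l) := rfl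
        rw [e1, Nat.testBit_or, Bool.or_eq_true, Nat.one_shiftLeft, Nat.testBit_two_pow,
          decide_eq_true_eq] at h
        rcases h with h | h
        · exact Or.inl ⟨e, List.mem_cons_self, h⟩
        · rcases ih2 h with ⟨e', h1, h2⟩ | h1
          · exact Or.inl ⟨e', List.mem_cons_of_mem _ h1, h2⟩
          · exact Or.inr h1
    rcases key c h with h1 | h1
    · exact ⟨c, List.mem_cons_self, h1⟩
    · obtain ⟨c', h2, h3⟩ := ih h1
      exact ⟨c', List.mem_cons_of_mem _ h2, h3⟩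

theorem cover (hs : Sym3 a) (hK : K4f a) (P : List V → Prop)
    (hP : ∀ l l' : List V, l.Perm l' → P l → P l') {tc : List (List (List ℕ × List ℕ))} {bm : ℕ}
    {p5 : List TE} {c5 : ℕ} {c6 : List (ℕ × ℕ)} (h1 : chkTC tc = true) (h2 : chkP p5 = true)
    (h3 : chk5 p5 c5 c6 = true) (h4 : ∀ e ∈ c6, chk6 tc bm e = true)
    (hrep : ∀ y : ℕ → V, bm.testBit (code a y T20) = true →
      P [y 0, y 1, y 2, y 3, y 4, y 5, y 6]) : ∀ l : List V, l.length = 7 → P l := by
  have back : ∀ (y : ℕ → V) (r : List ℕ), r.Perm [0, 1, 2, 3, 4, 5] →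
      P [mk (r.map y) (y 6) 0, mk (r.map y) (y 6) 1, mk (r.map y) (y 6) 2, mk (r.map y) (y 6) 3,
        mk (r.map y) (y 6) 4, mk (r.map y) (y 6) 5, mk (r.map y) (y 6) 6] →
      P [y 0, y 1, y 2, y 3, y 4, y 5, y 6] := by
    intro y r hr
    obtain ⟨b1, b2⟩ := relabel y hr
    rw [b2]
    exact hP _ _ (b1.append_right [y 6])
  have s6 : ∀ y : ℕ → V, (∃ e ∈ c6, e.1 = code a y T5) → popN 20 (code a y T20) % 2 = 0 →
      P [y 0, y 1, y 2, y 3, y 4, y 5, y 6] := by
    rintro y ⟨e, he, e1⟩ hev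
    have c := allN_spec (h4 e he) _ (code_lt' (a := a) y (lk 5 ++ pp 4 5) (n := 10) rfl)
    have e2 : Nat.add e.1 (Nat.mul 1024 (code a y (lk 5 ++ pp 4 5))) = code a y T20 := by
      have : T20 = T5 ++ (lk 5 ++ pp 4 5) := rfl
      rw [this, code_append' y T5 _ (n := 10) rfl, e1]; rfl
    simp only [forceB_eq, e2, orB_eq, andB_eq, notB_eq, Bool.or_eq_true, Bool.and_eq_true,
      Nat.beq_eq, Nat.ble_eq, Nat.land_eq, Nat.shiftRight_eq,
      noK_code hs hK y (show chkK T20 k6L = true by decide +kernel)] at c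
    rcases c with c | c | ⟨c1, c2⟩
    · rw [Nat.and_one_is_mod] at c; omega
    · cases c
    · have d := allN_spec h1 _ (Nat.lt_succ_of_le c1)
      simp only [Bool.and_eq_true, List.isPerm_iff] at d
      refine back y _ d.1 (hrep _ ?_)
      rw [gath_code hs y d.2, ← code_mk', bit_eq] at c2
      revert c2
      cases bm.testBit _ <;> simp
  have s5 : ∀ y : ℕ → V, popN 20 (code a y T20) % 2 = 0 →
      P [y 0, y 1, y 2, y 3, y 4, y 5, y 6] := by
    intro y hev
    have c := allN_spec h3 _ (code_lt' (a := a) y T5 (n := 10) rfl)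
    simp only [forceB_eq, orB_eq, andB_eq, notB_eq, Bool.or_eq_true, Bool.and_eq_true,
      Nat.ble_eq, noK_code hs hK y (show chkK T5 k5L = true by decide +kernel)] at c
    rcases c with c | ⟨c1, c2⟩
    · cases c
    · have d := allN_spec h2 _ (Nat.lt_succ_of_le c1)
      simp only [Bool.and_eq_true, List.isPerm_iff] at d
      generalize nth p5 te0 _ = e0 at c2 d
      refine back y _ d.1 (s6 _ ?_ ?_)
      · rw [gath_code hs y d.2, ← code_mk'] at c2
        by_contra hne
        rw [allL_of] at c2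
        · cases c2
        · intro e he
          cases hb : Nat.beq e.1 _
          · rfl
          · exact absurd ⟨e, he, Nat.eq_of_beq_eq_true hb⟩ hne
      · have f1 := E3_perm (Bt a) (relabel y d.1).1
        rw [E3_eval hs _ _ _ _ _ _ (y 6), E3_eval hs _ _ _ _ _ _ (y 6), code_six] at f1
        have f2 := code_six (a := a) (mk ((e0.1 ++ [5]).map y) (y 6))
        rw [(relabel y d.1).2] at f2
        rw [f2] at f1
        omega
  intro l hl
  match l, hl with
  | [x0, x1, x2, x3, x4, x5, x6], _ =>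
    have par : (popN 20 (code a (mk [x1, x2, x3, x4, x5, x6] x0) T20) +
      popN 20 (code a (mk [x0, x2, x3, x4, x5, x6] x1) T20) +
      popN 20 (code a (mk [x0, x1, x3, x4, x5, x6] x2) T20) +
      popN 20 (code a (mk [x0, x1, x2, x4, x5, x6] x3) T20) +
      popN 20 (code a (mk [x0, x1, x2, x3, x5, x6] x4) T20) +
      popN 20 (code a (mk [x0, x1, x2, x3, x4, x6] x5) T20) +
      popN 20 (code a (mk [x0, x1, x2, x3, x4, x5] x6) T20)) % 2 = 0 := by
      simp only [pop20]
      simp only [T20, T4, lk, pp, List.cons_append, List.nil_append, List.map_cons,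
        List.map_nil, List.sum_cons, List.sum_nil, ev, mk, List.getD_cons_zero,
        List.getD_cons_succ]
      omega
    have pm : ∀ (u v : List V) (z : V), (u ++ v ++ [z]).Perm (u ++ z :: v) := fun u v z => by
      rw [List.append_assoc]
      exact (List.perm_append_singleton z v).append_left u
    by_cases d0 : popN 20 (code a (mk [x1, x2, x3, x4, x5, x6] x0) T20) % 2 = 0
    · exact hP _ _ (pm [] [x1, x2, x3, x4, x5, x6] x0) (s5 _ d0)
    by_cases d1 : popN 20 (code a (mk [x0, x2, x3, x4, x5, x6] x1) T20) % 2 = 0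
    · exact hP _ _ (pm [x0] [x2, x3, x4, x5, x6] x1) (s5 _ d1)
    by_cases d2 : popN 20 (code a (mk [x0, x1, x3, x4, x5, x6] x2) T20) % 2 = 0
    · exact hP _ _ (pm [x0, x1] [x3, x4, x5, x6] x2) (s5 _ d2)
    by_cases d3 : popN 20 (code a (mk [x0, x1, x2, x4, x5, x6] x3) T20) % 2 = 0
    · exact hP _ _ (pm [x0, x1, x2] [x4, x5, x6] x3) (s5 _ d3)
    by_cases d4 : popN 20 (code a (mk [x0, x1, x2, x3, x5, x6] x4) T20) % 2 = 0
    · exact hP _ _ (pm [x0, x1, x2, x3] [x5, x6] x4) (s5 _ d4)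
    by_cases d5 : popN 20 (code a (mk [x0, x1, x2, x3, x4, x6] x5) T20) % 2 = 0
    · exact hP _ _ (pm [x0, x1, x2, x3, x4] [x6] x5) (s5 _ d5)
    exact s5 (mk [x0, x1, x2, x3, x4, x5] x6) (by omega)

end Pool.Agent.Work.MP_f1799f_co
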