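import Mathlib.Algebra.BigOperators.Intervals
import Mathlib.Algebra.BigOperators.Ring.Finset
import Mathlib.Algebra.Order.BigOperators.Group.Finset
import Mathlib.Tactic.Ring
import Mathlib.Tactic.Linarith
import Pool.Agent.Work.MP_f1799f_co.Comp
/-! Digits of packed tables. -/
namespace Pool.Agent.Work.MP_f1799f_co
open Finset

def dig (x i : ℕ) : ℕ := x / 2 ^ (56 * i) % 2 ^ 56

def pk (f : ℕ → ℕ) (n : ℕ) : ℕ := ∑ i ∈ range n, f i * 2 ^ (56 * i)

theorem testBit_dig (x i j : ℕ) :
    (dig x i).testBit j = (decide (j < 56) && x.testBit (56 * i + j)) := by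
  unfold dig
  rw [Nat.testBit_mod_two_pow, Nat.testBit_div_two_pow, Nat.add_comm]

theorem dig_lt (x i : ℕ) : dig x i < 2 ^ 56 := Nat.mod_lt _ (Nat.two_pow_pos _)

theorem dig_ext {x y : ℕ} (h : ∀ i, dig x i = dig y i) : x = y := by
  apply Nat.eq_of_testBit_eq
  intro j
  have h1 := congrArg (fun z => Nat.testBit z (j % 56)) (h (j / 56))
  simp only [testBit_dig] at h1
  have h2 : j % 56 < 56 := Nat.mod_lt _ (by decide)
  have h3 : 56 * (j / 56) + j % 56 = j := Nat.div_add_mod j 56
  rw [h3] at h1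
  simpa [h2] using h1

theorem dig_land (x y i : ℕ) : dig (x &&& y) i = dig x i &&& dig y i := by
  apply Nat.eq_of_testBit_eq; intro j
  simp only [testBit_dig, Nat.testBit_and]
  cases decide (j < 56) <;> simp

theorem dig_lor (x y i : ℕ) : dig (x ||| y) i = dig x i ||| dig y i := by
  apply Nat.eq_of_testBit_eq; intro j
  simp only [testBit_dig, Nat.testBit_or]
  cases decide (j < 56) <;> simp

theorem dig_xor (x y i : ℕ) : dig (x ^^^ y) i = dig x i ^^^ dig y i := by
  apply Nat.eq_of_testBit_eq; intro j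
  simp only [testBit_dig, Nat.testBit_xor]
  cases decide (j < 56) <;> simp

theorem dig_shr (x s i : ℕ) : dig (x >>> (56 * s)) i = dig x (s + i) := by
  apply Nat.eq_of_testBit_eq; intro j
  simp only [testBit_dig, Nat.testBit_shiftRight]
  congr 2; ring

theorem dig_shl (x s i : ℕ) : dig (x <<< (56 * s)) i = if i < s then 0 else dig x (i - s) := by
  apply Nat.eq_of_testBit_eq; intro j
  by_cases hj : j < 56
  · split_ifs with h
    · simp only [testBit_dig, Nat.testBit_shiftLeft, Nat.zero_testBit]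
      have : ¬ (56 * i + j ≥ 56 * s) := by omega
      simp [this]
    · simp only [testBit_dig, Nat.testBit_shiftLeft]
      have h1 : 56 * i + j ≥ 56 * s := by omega
      have h2 : 56 * i + j - 56 * s = 56 * (i - s) + j := by omega
      simp [h1, h2]
  · split_ifs <;> simp [testBit_dig, hj]

theorem dig_zero (i : ℕ) : dig 0 i = 0 := by simp [dig]

theorem onesD_eq (k : ℕ) : onesD k = 2 ^ (56 * k) - 1 := by
  simp [onesD, Nat.shiftLeft_eq]

theorem dig_onesD (k i : ℕ) : dig (onesD k) i = if i < k then 2 ^ 56 - 1 else 0 := by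
  apply Nat.eq_of_testBit_eq; intro j
  rw [onesD_eq, testBit_dig, Nat.testBit_two_pow_sub_one]
  split_ifs with h
  · rw [Nat.testBit_two_pow_sub_one]
    by_cases hj : j < 56
    · have : 56 * i + j < 56 * k := by omega
      simp [hj, this]
    · simp [hj]
  · have : ¬ (56 * i + j < 56 * k) := by omega
    simp [this]

theorem and_full (x i : ℕ) : dig x i &&& (2 ^ 56 - 1) = dig x i :=
  Nat.and_two_pow_sub_one_of_lt_two_pow (dig_lt x i)

theorem dig_small {a : ℕ} (h : a < 2 ^ 56) (i : ℕ) : dig a i = if i = 0 then a else 0 := by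
  unfold dig
  split_ifs with hi
  · subst hi; simpa using h
  · have : a < 2 ^ (56 * i) := lt_of_lt_of_le h (Nat.pow_le_pow_right (by decide) (by omega))
    rw [Nat.div_eq_of_lt this, Nat.zero_mod]

theorem pk_succ (f : ℕ → ℕ) (n : ℕ) : pk f (n + 1) = pk f n + f n * 2 ^ (56 * n) := by
  simp [pk, sum_range_succ]

theorem pk_lt {f : ℕ → ℕ} {n : ℕ} (h : ∀ i < n, f i < 2 ^ 56) : pk f n < 2 ^ (56 * n) := by
  induction n with
  | zero => simp [pk]
  | succ n ih =>
    rw [pk_succ]
    have h1 := ih (fun i hi => h i (by omega))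
    have h2 := h n (by omega)
    have h3 : 2 ^ (56 * (n + 1)) = 2 ^ 56 * 2 ^ (56 * n) := by rw [← pow_add]; congr 1; ring
    rw [h3]
    have h4 : (f n + 1) * 2 ^ (56 * n) ≤ 2 ^ 56 * 2 ^ (56 * n) := Nat.mul_le_mul_right _ h2
    nlinarith

theorem dig_of_lt {x n i : ℕ} (h : x < 2 ^ (56 * n)) (hi : n ≤ i) : dig x i = 0 := by
  unfold dig
  have : x < 2 ^ (56 * i) := lt_of_lt_of_le h (Nat.pow_le_pow_right (by decide) (by omega))
  rw [Nat.div_eq_of_lt this, Nat.zero_mod]

theorem dig_pk {f : ℕ → ℕ} {n : ℕ} (h : ∀ i < n, f i < 2 ^ 56) (i : ℕ) :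
    dig (pk f n) i = if i < n then f i else 0 := by
  induction n with
  | zero => simp [pk, dig_zero]
  | succ n ih =>
    have h1 := pk_lt (n := n) (fun i hi => h i (by omega))
    have ih' := ih (fun i hi => h i (by omega))
    rw [pk_succ, Nat.add_comm, ← Nat.shiftLeft_eq, Nat.shiftLeft_add_eq_or_of_lt h1, dig_lor,
      dig_shl, ih', dig_small (h n (by omega))]
    by_cases a : i < n
    · have : i < n + 1 := by omega
      simp [a, this]
    · by_cases b : i = n
      · subst b; simp
      · have c : ¬ (i < n + 1) := by omega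
        have d : i - n ≠ 0 := by omega
        simp [a, c, d]

theorem pk_congr {f g : ℕ → ℕ} {n : ℕ} (h : ∀ i < n, f i = g i) : pk f n = pk g n :=
  sum_congr rfl fun i hi => by rw [h i (mem_range.mp hi)]

theorem eq_pk {x n : ℕ} (h : x < 2 ^ (56 * n)) : x = pk (dig x) n := by
  apply dig_ext; intro i
  rw [dig_pk (fun i _ => dig_lt x i)]
  split_ifs with hi
  · rfl
  · exact dig_of_lt h (by omega)

theorem lt_pow_self56 (x : ℕ) : x < 2 ^ (56 * x) :=
  lt_of_lt_of_le Nat.lt_two_pow_self (Nat.pow_le_pow_right (by decide) (by omega))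

theorem pk_add (f g : ℕ → ℕ) (n : ℕ) : pk f n + pk g n = pk (fun i => f i + g i) n := by
  simp [pk, add_mul, sum_add_distrib]

theorem pk_mul (c : ℕ) (f : ℕ → ℕ) (n : ℕ) : c * pk f n = pk (fun i => c * f i) n := by
  simp [pk, mul_sum, mul_assoc]

theorem dig_add {x y : ℕ} (h : ∀ j, dig x j + dig y j < 2 ^ 56) (i : ℕ) :
    dig (x + y) i = dig x i + dig y i := by
  have hx : x < 2 ^ (56 * (x + y + i + 1)) :=
    lt_of_lt_of_le (lt_pow_self56 x) (Nat.pow_le_pow_right (by decide) (by omega))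
  have hy : y < 2 ^ (56 * (x + y + i + 1)) :=
    lt_of_lt_of_le (lt_pow_self56 y) (Nat.pow_le_pow_right (by decide) (by omega))
  have e : x + y = pk (fun j => dig x j + dig y j) (x + y + i + 1) := by
    rw [← pk_add, ← eq_pk hx, ← eq_pk hy]
  rw [e, dig_pk (fun j _ => h j), if_pos (by omega)]

theorem dig_mul {c x : ℕ} (h : ∀ j, c * dig x j < 2 ^ 56) (i : ℕ) :
    dig (c * x) i = c * dig x i := by
  have hx : x < 2 ^ (56 * (x + i + 1)) :=
    lt_of_lt_of_le (lt_pow_self56 x) (Nat.pow_le_pow_right (by decide) (by omega))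
  have e : c * x = pk (fun j => c * dig x j) (x + i + 1) := by
    rw [← pk_mul, ← eq_pk hx]
  rw [e, dig_pk (fun j _ => h j), if_pos (by omega)]

theorem slice_eq (x s n : ℕ) :
    (x >>> (56 * s)) &&& onesD n = pk (fun j => dig x (s + j)) n := by
  apply dig_ext; intro i
  rw [dig_land, dig_shr, dig_onesD, dig_pk (fun j _ => dig_lt _ _)]
  split_ifs
  · exact and_full _ _
  · simp

theorem slice_one (x s : ℕ) : (x >>> (56 * s)) &&& m1 = dig x s := by
  rw [m1, slice_eq]; simp [pk]

theorem pk_append (f g : ℕ → ℕ) (n m : ℕ) :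
    pk f n + (pk g m) <<< (56 * n) = pk (fun i => if i < n then f i else g (i - n)) (n + m) := by
  unfold pk
  rw [sum_range_add, Nat.shiftLeft_eq, sum_mul]
  congr 1
  · exact sum_congr rfl fun i hi => by simp only [if_pos (mem_range.mp hi)]
  · refine sum_congr rfl fun i _ => ?_
    beta_reduce
    rw [if_neg (by omega), Nat.add_sub_cancel_left, mul_assoc, ← pow_add]
    congr 2; ring

/-- strided packing -/
def pks (b : ℕ) (f : ℕ → ℕ) (a : ℕ) : ℕ := ∑ i ∈ range a, f i * 2 ^ (56 * (b * i))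

theorem outer (b : ℕ) (_hb : 0 < b) (u v : ℕ → ℕ) (a : ℕ) :
    pks b u a * pk v b = pk (fun m => u (m / b) * v (m % b)) (b * a) := by
  induction a with
  | zero => simp [pks, pk]
  | succ a ih =>
    have e : pks b u (a + 1) = pks b u a + u a * 2 ^ (56 * (b * a)) := by
      simp [pks, sum_range_succ]
    rw [e, add_mul, ih, mul_right_comm, pk_mul, ← Nat.shiftLeft_eq, pk_append, Nat.mul_succ]
    apply pk_congr
    intro i hi
    split_ifs with h
    · rfl
    · have h1 : i / b = a := by
        apply Nat.div_eq_of_lt_le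
        · rw [mul_comm]; omega
        · rw [mul_comm, Nat.mul_succ]; omega
      have h2 : i % b = i - b * a := by
        have := Nat.div_add_mod i b
        rw [h1] at this; omega
      rw [h1, h2]

theorem pk_one (b : ℕ) (hb : 0 < b) : pk (fun j => if j = 0 then 1 else 0) b = 1 := by
  unfold pk
  rw [sum_eq_single 0] <;> simp +contextual [hb.ne']

theorem pks_eq (b : ℕ) (hb : 0 < b) (u : ℕ → ℕ) (a : ℕ) :
    pks b u a = pk (fun m => if m % b = 0 then u (m / b) else 0) (b * a) := by
  have := outer b hb u (fun j => if j = 0 then 1 else 0) a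
  rw [pk_one b hb, mul_one] at this
  rw [this]
  apply pk_congr; intro i _
  split_ifs <;> simp

theorem unitS_eq (b n : ℕ) : unitS (56 * b) n = pks b (fun _ => 1) (2 ^ n) := by
  induction n with
  | zero => simp [unitS, pks]
  | succ n ih =>
    have e : unitS (56 * b) (n + 1) = unitS (56 * b) n + (unitS (56 * b) n) <<< (56 * b * 2 ^ n) := rfl
    rw [e, ih, pow_succ, mul_two, Nat.shiftLeft_eq]
    unfold pks
    rw [sum_range_add, sum_mul]
    congr 1
    refine sum_congr rfl fun i _ => ?_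
    rw [mul_assoc, ← pow_add]; congr 2; ring

theorem pks_one (f : ℕ → ℕ) (a : ℕ) : pks 1 f a = pk f a := by simp [pks, pk]

theorem unit_eq (n : ℕ) : unitS 56 n = pk (fun _ => 1) (2 ^ n) := by
  have := unitS_eq 1 n
  rw [pks_one] at this; exact this

theorem u16_eq : u16 = pk (fun _ => 1) 16 := unit_eq 4
theorem uS_eq : uS = pks 16 (fun _ => 1) 16 := unitS_eq 16 4
theorem m15_eq : m15 = pks 15 (fun _ => 1) 16 := unitS_eq 15 4

theorem mU_eq : mU = pk (fun m => if m % 16 = 0 then 2 ^ 56 - 1 else 0) 256 := by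
  have e : mU = m1 * uS := rfl
  rw [e, uS_eq, pks_eq 16 (by decide), pk_mul, m1, onesD_eq]
  apply pk_congr; intro i _
  split_ifs <;> simp

theorem pk_shift (v : ℕ → ℕ) (b s N : ℕ) (h : s + b ≤ N) :
    pk v b * 2 ^ (56 * s) = pk (fun m => if s ≤ m ∧ m < s + b then v (m - s) else 0) N := by
  obtain ⟨t, rfl⟩ := Nat.exists_eq_add_of_le h
  have e1 := pk_append (fun _ => 0) v s b
  have e2 := pk_append (fun i => if i < s then 0 else v (i - s)) (fun _ => 0) (s + b) t
  have z : ∀ k, pk (fun _ => 0) k = 0 := fun k => by simp [pk]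
  rw [z, zero_add, Nat.shiftLeft_eq] at e1
  rw [z, Nat.zero_shiftLeft, add_zero] at e2
  rw [e1, e2]
  apply pk_congr; intro i _
  by_cases a : i < s <;> by_cases c : i < s + b <;> simp [a, c]

theorem spread_eq {v : ℕ → ℕ} {D : ℕ} (hv : ∀ i, v i ≤ D) (hD : 16 * D < 2 ^ 56) :
    (pk v 16 * m15) &&& mU = pks 16 v 16 := by
  have e : pk v 16 * m15 = pk (fun m => ∑ k ∈ range 16,
      if 15 * k ≤ m ∧ m < 15 * k + 16 then v (m - 15 * k) else 0) 256 := by
    rw [m15_eq]
    unfold pks
    rw [mul_sum]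
    have : ∀ k ∈ range 16, pk v 16 * (1 * 2 ^ (56 * (15 * k))) =
        pk (fun m => if 15 * k ≤ m ∧ m < 15 * k + 16 then v (m - 15 * k) else 0) 256 := by
      intro k hk
      rw [one_mul, pk_shift v 16 (15 * k) 256 (by have := mem_range.mp hk; omega)]
    rw [sum_congr rfl this]
    unfold pk
    rw [sum_comm]
    exact sum_congr rfl fun m _ => by rw [sum_mul]
  have hb : ∀ m, (∑ k ∈ range 16,
      if 15 * k ≤ m ∧ m < 15 * k + 16 then v (m - 15 * k) else 0) < 2 ^ 56 := by
    intro m
    refine lt_of_le_of_lt ?_ hD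
    have := sum_le_card_nsmul (range 16)
      (fun k => if 15 * k ≤ m ∧ m < 15 * k + 16 then v (m - 15 * k) else 0) D
      (fun k _ => by split_ifs; exacts [hv _, Nat.zero_le _])
    simpa using this
  apply dig_ext; intro i
  rw [e, mU_eq, pks_eq 16 (by decide), dig_land, dig_pk (fun m _ => hb m),
    dig_pk (fun m _ => by split_ifs <;> omega),
    dig_pk (fun m _ => by have := hv (m / 16); split_ifs <;> omega)]
  by_cases hi : i < 256
  · have hi' : i < 16 * 16 := hi
    rw [if_pos hi, if_pos hi, if_pos hi']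
    split_ifs with h
    · rw [Nat.and_two_pow_sub_one_of_lt_two_pow (hb i), sum_eq_single (i / 16)]
      · have h1 : 15 * (i / 16) ≤ i ∧ i < 15 * (i / 16) + 16 := by clear e; omega
        have h2 : i - 15 * (i / 16) = i / 16 := by clear e; omega
        rw [if_pos h1, h2]
      · intro k hk hne
        have := mem_range.mp hk
        rw [if_neg (by omega)]
      · intro hk; exfalso; apply hk; rw [mem_range]; omega
    · simp
  · have hi' : ¬ i < 16 * 16 := hi
    rw [if_neg hi, if_neg hi, if_neg hi']; simp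

theorem cat_eq (L : ℕ) (hL : 0 < L) (f : ℕ → ℕ) (F : ℕ → ℕ → ℕ) (n : ℕ) :
    ∀ b, (∀ e, b ≤ e → e < b + 2 ^ n → f e = pk (F e) L) →
      cat n (56 * L) f b = pk (fun m => F (b + m / L) (m % L)) (L * 2 ^ n) := by
  induction n with
  | zero =>
    intro b h
    have e : cat 0 (56 * L) f b = f b := rfl
    rw [e, h b le_rfl (by simp), pow_zero, mul_one]
    apply pk_congr; intro i hi
    rw [Nat.div_eq_of_lt hi, Nat.mod_eq_of_lt hi, add_zero]
  | succ n ih =>
    intro b h
    have e : cat (n + 1) (56 * L) f b = cat n (56 * L) f b +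
        (cat n (56 * L) f (b + 2 ^ n)) <<< (56 * L * 2 ^ n) := rfl
    have p : 2 ^ (n + 1) = 2 ^ n + 2 ^ n := by rw [pow_succ]; ring
    rw [e, ih b (fun e h1 h2 => h e h1 (by omega)),
      ih (b + 2 ^ n) (fun e h1 h2 => h e (by omega) (by omega)), mul_assoc, pk_append, p, mul_add]
    apply pk_congr; intro i _
    split_ifs with c
    · rfl
    · obtain ⟨j, rfl⟩ := Nat.exists_eq_add_of_le (not_lt.mp c)
      rw [Nat.add_sub_cancel_left, Nat.mul_add_div hL, Nat.mul_add_mod, add_assoc]

theorem force_eq (x : ℕ) (f : ℕ → ℕ) : force x f = f x := by cases x <;> rfl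
theorem forceB_eq (x : ℕ) (f : ℕ → Bool) : forceB x f = f x := by cases x <;> rfl

end Pool.Agent.Work.MP_f1799f_co
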