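import Pool.Agent.Work.MP_f1799f_co.FdfMain

/-! From the weighted inequality to edge counts. -/

namespace Pool.Agent.Fdf

theorem six_le {n : ℕ} (s : Finset (Fin n)) (hs : s.card = 3) :
    (6 : ℝ) ≤ ∑ a : Fin n, ∑ b : Fin n, ∑ c : Fin n, if ({a, b, c} : Finset (Fin n)) = s then 1 else 0 := by
  obtain ⟨x, y, z, h1, h2, h3, rfl⟩ := Finset.card_eq_three.mp hs
  have e : (∑ a : Fin n, ∑ b : Fin n, ∑ c : Fin n,
      if ({a, b, c} : Finset (Fin n)) = {x, y, z} then (1 : ℝ) else 0)
      = ((Finset.univ.filter fun p : Fin n × Fin n × Fin n =>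
        ({p.1, p.2.1, p.2.2} : Finset (Fin n)) = {x, y, z}).card : ℝ) := by
    rw [Finset.card_filter]
    push_cast
    rw [Fintype.sum_prod_type]
    refine Finset.sum_congr rfl fun a _ => ?_
    rw [Fintype.sum_prod_type]
  rw [e]
  have hsub : ({(x, y, z), (x, z, y), (y, x, z), (y, z, x), (z, x, y), (z, y, x)} :
      Finset (Fin n × Fin n × Fin n)) ⊆ Finset.univ.filter fun p : Fin n × Fin n × Fin n =>
        ({p.1, p.2.1, p.2.2} : Finset (Fin n)) = {x, y, z} := by
    intro p hp
    simp only [Finset.mem_insert, Finset.mem_singleton] at hp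
    rcases hp with rfl | rfl | rfl | rfl | rfl | rfl <;>
      simp only [Finset.mem_filter, Finset.mem_univ, true_and] <;> ext t <;>
      simp only [Finset.mem_insert, Finset.mem_singleton] <;> tauto
  have hc : ({(x, y, z), (x, z, y), (y, x, z), (y, z, x), (z, x, y), (z, y, x)} :
      Finset (Fin n × Fin n × Fin n)).card = 6 := by
    have h1' := h1.symm
    have h2' := h2.symm
    have h3' := h3.symm
    rw [Finset.card_insert_of_notMem, Finset.card_insert_of_notMem, Finset.card_insert_of_notMem,
      Finset.card_insert_of_notMem, Finset.card_insert_of_notMem, Finset.card_singleton] <;>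
      simp [h1, h2, h3, h1', h2', h3']
  have := Finset.card_le_card hsub
  rw [hc] at this
  exact_mod_cast this

theorem count_bound (n : ℕ) (r : Fin n → Fin n → Prop) [DecidableRel r]
    (hasym : ∀ u v, r u v → ¬r v u)
    (hC4 : ∀ a b c d, r a b → r b c → r c d → r d a → r a c ∨ r c a ∨ r b d ∨ r d b)
    (G : Finset (Finset (Fin n)))
    (hG : ∀ s ∈ G, s.card = 3 ∧ (¬∃ v ∈ s, ∀ u ∈ s, ¬r u v ∧ ¬r v u)
      ∧ ¬∃ v ∈ s, ∀ u ∈ s, u ≠ v → r v u) :
    54 * G.card + 27 * (Finset.univ.filter fun p : Fin n × Fin n => r p.1 p.2).card ≤ 5 * n ^ 3 := by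
  rcases Nat.eq_zero_or_pos n with rfl | hn
  · have : G = ∅ := by
      refine Finset.eq_empty_of_forall_notMem fun s hs => ?_
      have h1 := (hG s hs).1
      have h2 : s.card ≤ 0 := by simpa using Finset.card_le_univ s
      omega
    simp [this]
  set A : Fin n → Fin n → ℝ := fun u v => if r u v then 1 else 0 with hA
  set N : Fin n → Fin n → ℝ := fun u v => if r u v ∨ r v u then 0 else 1 with hN
  have hirr : ∀ u, ¬r u u := fun u h => hasym u u h h
  have hO : Og N A := by
    refine ⟨fun u v => ?_, fun u v => ?_, fun u v => ?_, fun u x w y h1 h2 h3 h4 h5 h6 => ?_⟩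
    · simp only [hN]; split_ifs <;> simp
    · simp only [hA]; split_ifs <;> simp
    · have := hasym u v
      by_cases h1 : r u v <;> by_cases h2 : r v u <;> simp_all
    · have k1 : ∀ a b, A a b = 1 → r a b := fun a b h => by
        by_contra hc; simp [hA, hc] at h
      have k0 : ∀ a b, N a b = 1 → ¬(r a b ∨ r b a) := fun a b h hc => by
        simp [hN, hc] at h
      have := hC4 u x w y (k1 _ _ h1) (k1 _ _ h2) (k1 _ _ h3) (k1 _ _ h4)
      have := k0 _ _ h5
      have := k0 _ _ h6
      tauto
  have npos : (0 : ℝ) < n := by exact_mod_cast hn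
  have W := weighted (w := fun _ : Fin n => (1 / n : ℝ)) (fun _ => by positivity)
    (by simp; field_simp) hO
  have e1 : E3 (fun _ : Fin n => (1 / n : ℝ)) (bad N A)
      = (1 / n) ^ 3 * ∑ a, ∑ b, ∑ c, bad N A a b c := by
    simp only [E3, E, Finset.mul_sum]
    refine Finset.sum_congr rfl fun a _ => Finset.sum_congr rfl fun b _ =>
      Finset.sum_congr rfl fun c _ => by ring
  have e2 : 4 / 9 * (n : ℝ) ^ 3 ≤ ∑ a, ∑ b, ∑ c, bad N A a b c := by
    rw [e1] at W
    have := mul_le_mul_of_nonneg_right W (show (0 : ℝ) ≤ n ^ 3 by positivity)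
    have e : (1 / (n : ℝ)) ^ 3 * (∑ a, ∑ b, ∑ c, bad N A a b c) * n ^ 3
      = ∑ a, ∑ b, ∑ c, bad N A a b c := by field_simp
    linarith
  have pt : ∀ a b c, bad N A a b c
      + (∑ s ∈ G, if ({a, b, c} : Finset (Fin n)) = s then (1 : ℝ) else 0)
      + (if a = b then A a c else 0) + (if a = c then A a b else 0) + (if b = c then A b a else 0)
      ≤ 1 := by
    intro a b c
    rw [Finset.sum_ite_eq]
    by_cases hs : ({a, b, c} : Finset (Fin n)) ∈ G
    · obtain ⟨g1, g2, g3⟩ := hG _ hs
      have hab : a ≠ b := by
        rintro rfl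
        have : ({a, a, c} : Finset (Fin n)).card ≤ 2 := by
          rw [Finset.insert_eq_of_mem (by simp)]; exact Finset.card_le_two
        omega
      have hac : a ≠ c := by
        rintro rfl
        have : ({a, b, a} : Finset (Fin n)).card ≤ 2 := by
          rw [Finset.insert_eq_of_mem (by simp)]; exact Finset.card_le_two
        omega
      have hbc : b ≠ c := by
        rintro rfl
        have : ({a, b, b} : Finset (Fin n)).card ≤ 2 := by
          rw [show ({b, b} : Finset (Fin n)) = {b} by simp]; exact Finset.card_le_two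
        omega
      simp only [hs, hab, hac, hbc, if_true, if_false]
      simp only [Finset.mem_insert, Finset.mem_singleton, exists_eq_or_imp, forall_eq_or_imp,
        forall_eq, exists_eq_left, ne_eq, not_true_eq_false, false_imp_iff, true_and, and_true,
        hirr, not_false_eq_true, hab, hac, hbc, hab.symm, hac.symm, hbc.symm, forall_true_left] at g2 g3
      unfold bad maj
      simp only [hA, hN]
      by_cases r1 : r a b <;> by_cases r2 : r b a <;> by_cases r3 : r a c <;> by_cases r4 : r c a <;>
        by_cases r5 : r b c <;> by_cases r6 : r c b <;> simp [r1, r2, r3, r4, r5, r6] at g2 g3 ⊢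
    · simp only [hs, if_false]
      have hb := (bad01 hO a b c).2
      by_cases hab : a = b
      · subst hab
        by_cases hac : a = c
        · subst hac
          simpa [hA, hirr] using hb
        · have s1 := hO.sum a c
          have s2 := hO.diag a
          have s3 := hO.sum a a
          have s4 : A a a = 0 := by linarith
          unfold bad maj
          simp only [hac, if_true, if_false, s2, s4]
          rcases hO.A01 c a with h | h <;> rcases hO.N01 a c with h' | h' <;> rw [h, h'] at s1 ⊢ <;>
            linarith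
      · by_cases hac : a = c
        · subst hac
          have s1 := hO.sum a b
          have s2 := hO.diag a
          have s3 := hO.sum a a
          have s4 : A a a = 0 := by linarith
          unfold bad maj
          simp only [hab, Ne.symm hab, if_true, if_false, s2, s4, hO.symm a b]
          rcases hO.A01 b a with h | h <;> rcases hO.N01 a b with h' | h' <;> rw [h, h'] at s1 ⊢ <;>
            linarith
        · by_cases hbc : b = c
          · subst hbc
            have s1 := hO.sum a b
            have s2 := hO.diag b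
            have s3 := hO.sum b b
            have s4 : A b b = 0 := by linarith
            unfold bad maj
            simp only [hab, if_true, if_false, s2, s4]
            rcases hO.A01 a b with h | h <;> rcases hO.N01 a b with h' | h' <;> rw [h, h'] at s1 ⊢ <;>
              linarith
          · simpa [hab, hac, hbc] using hb
  have tot : ∑ a : Fin n, ∑ b : Fin n, ∑ c : Fin n, (bad N A a b c
      + (∑ s ∈ G, if ({a, b, c} : Finset (Fin n)) = s then (1 : ℝ) else 0)
      + (if a = b then A a c else 0) + (if a = c then A a b else 0) + (if b = c then A b a else 0))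
      ≤ (n : ℝ) ^ 3 := by
    refine le_trans (Finset.sum_le_sum fun a _ => Finset.sum_le_sum fun b _ =>
      Finset.sum_le_sum fun c _ => pt a b c) (le_of_eq ?_)
    simp
    ring
  have arcs : (((Finset.univ.filter fun p : Fin n × Fin n => r p.1 p.2).card : ℕ) : ℝ)
      = ∑ a, ∑ b, A a b := by
    rw [Finset.card_filter]
    push_cast
    rw [Fintype.sum_prod_type]
  have t1 : (∑ a : Fin n, ∑ b : Fin n, ∑ c : Fin n, if a = b then A a c else 0) = ∑ a, ∑ b, A a b := by
    refine Finset.sum_congr rfl fun a _ => ?_
    rw [Finset.sum_comm]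
    simp
  have t2 : (∑ a : Fin n, ∑ b : Fin n, ∑ c : Fin n, if a = c then A a b else 0) = ∑ a, ∑ b, A a b := by
    simp
  have t3 : (∑ a : Fin n, ∑ b : Fin n, ∑ c : Fin n, if b = c then A b a else 0) = ∑ a, ∑ b, A a b := by
    rw [Finset.sum_comm]
    simp
  have t4 : 6 * (G.card : ℝ) ≤ ∑ a : Fin n, ∑ b : Fin n, ∑ c : Fin n,
      ∑ s ∈ G, if ({a, b, c} : Finset (Fin n)) = s then (1 : ℝ) else 0 := by
    have : (∑ a : Fin n, ∑ b : Fin n, ∑ c : Fin n,
        ∑ s ∈ G, if ({a, b, c} : Finset (Fin n)) = s then (1 : ℝ) else 0)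
        = ∑ s ∈ G, ∑ a : Fin n, ∑ b : Fin n, ∑ c : Fin n,
          if ({a, b, c} : Finset (Fin n)) = s then (1 : ℝ) else 0 := by
      rw [Finset.sum_comm (s := G)]
      refine Finset.sum_congr rfl fun a _ => ?_
      rw [Finset.sum_comm (s := G)]
      refine Finset.sum_congr rfl fun b _ => ?_
      rw [Finset.sum_comm (s := G)]
    rw [this]
    refine le_trans (le_of_eq ?_) (Finset.sum_le_sum fun s hs => six_le s (hG s hs).1)
    simp [mul_comm]
  simp only [Finset.sum_add_distrib] at tot
  rw [t1, t2, t3, ← arcs] at tot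
  have fin : (54 : ℝ) * G.card + 27 * ((Finset.univ.filter fun p : Fin n × Fin n => r p.1 p.2).card : ℕ)
      ≤ 5 * n ^ 3 := by linarith
  exact_mod_cast fin

end Pool.Agent.Fdf
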