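import Pool.Agent.Work.MP_f1799f_co.FdfData

namespace Pool.Agent.Fdf

theorem covLow1 : covL (covH 1 2 0 (getL 0 l2)) l1 w1 = true := by decide +kernel
theorem covLow2 : covL (covH 2 3 2 (getL 0 l3)) l2 w2 = true := by decide +kernel
theorem covLow3 : covL (covH 3 4 6 (getL 0 l4)) l3 w3 = true := by decide +kernel
theorem covLow4 : covL (covH 4 5 12 (getL 0 l5)) l4 w4 = true := by decide +kernel
theorem avOk : allN (fun k => Int.decLe (-131072) (apk k) |>.decide) 729 = true := by decide +kernel

end Pool.Agent.Fdf
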