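/-
Kernel-evaluated checkers for the Fon-der-Flaass flag certificate (no Mathlib import, so that the
evaluation modules load quickly).  Soundness is proved in the FdfSound files.
A relation between an ordered pair of vertices is coded 0 (no arc), 1 (forward arc), 2 (backward arc).
-/
namespace Pool.Agent.Fdf

/-- base 4 digit of the pair a < b in a triangular code -/
noncomputable def dg (h a b : Nat) : Nat :=
  Nat.mod (Nat.shiftRight h (Nat.add (Nat.mul b (Nat.sub b 1)) (Nat.mul 2 a))) 4

noncomputable def rn (h a b : Nat) : Nat :=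
  @Bool.rec (fun _ => Nat) (dg h a b)
    (@Bool.rec (fun _ => Nat) (Nat.mod (Nat.mul 2 (dg h b a)) 3) 0 (Nat.ble a b)) (Nat.ble b a)

noncomputable def sumL (f : Nat → Nat) (l : List Nat) : Nat :=
  @List.rec Nat (fun _ => Nat) 0 (fun x _ ih => Nat.add (f x) ih) l

/-- entry i of a packed column, shifted by 2 ^ 20 -/
noncomputable def lv (c i : Nat) : Nat := Nat.mod (Nat.shiftRight c (Nat.mul 21 i)) 2097152

/-- 127 * 2 ^ 40 minus the Gram entry (i, j) -/
noncomputable def xv (cs : List Nat) (i j : Nat) : Nat :=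
  Nat.sub (Nat.add 139637976727552 (sumL (fun c => Nat.mul 1048576 (Nat.add (lv c i) (lv c j))) cs))
    (sumL (fun c => Nat.add (Nat.mul (lv c i) (lv c j)) 1099511627776) cs)

noncomputable def pk (f : Nat → Nat) (n : Nat) : Nat :=
  @Nat.rec (fun _ => Nat) 0 (fun m ih => Nat.add ih (Nat.shiftLeft (f m) (Nat.mul 48 m))) n

noncomputable def spread (c : Nat) : Nat := pk (lv c) 126

noncomputable def ones : Nat := pk (fun _ => 1) 126

noncomputable def mkRow (cs : List Nat) (i : Nat) : Nat :=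
  Nat.sub (Nat.add (Nat.mul 139637976727552 ones)
      (sumL (fun c => Nat.mul 1048576 (Nat.add (Nat.mul (lv c i) ones) (spread c))) cs))
    (sumL (fun c => Nat.add (Nat.mul (lv c i) (spread c)) (Nat.mul 1099511627776 ones)) cs)

noncomputable def anyL (f : Nat → Bool) (l : List Nat) : Bool :=
  @List.rec Nat (fun _ => Bool) false (fun x _ ih => @Bool.rec (fun _ => Bool) ih true (f x)) l

noncomputable def iz (r k : Nat) : Int := @Bool.rec (fun _ => Int) 0 1 (Nat.beq r k)

/-- 1800 times the four-vertex objective, in terms of indicators -/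
noncomputable def apoly (n01 n02 n12 n03 n13 n23 f01 f02 f12 b01 b02 b12 : Int) : Int :=
  (1 - n01) * (609
      - 5400 * ((n02 * n03 + (1 - n02) * n12 * ((1 - n03) * n13)
          + (1 - n02) * (1 - n12) * ((1 - n03) * (1 - n13))) * (1 - 2 * n23) + n23)
      - 1800 * (n02 * n03 + (1 - n02) * n12 * ((1 - n03) * n13)
          + (1 - n02) * (1 - n12) * ((1 - n03) * (1 - n13))))
    - 2000 * ((3 * f01 - 1) * (3 * f02 - 1))
    + 40 * (1800 * (n01 * n02 + n01 * n12 + n02 * n12 - 2 * (n01 * n02 * n12)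
        + f01 * f02 + b01 * f12 + b02 * b12) - 800)

noncomputable def ap6 (r01 r02 r12 r03 r13 r23 : Nat) : Int :=
  apoly (iz r01 0) (iz r02 0) (iz r12 0) (iz r03 0) (iz r13 0) (iz r23 0)
    (iz r01 1) (iz r02 1) (iz r12 1) (iz r01 2) (iz r02 2) (iz r12 2)

noncomputable def apk (k : Nat) : Int :=
  ap6 (k % 3) (k / 3 % 3) (k / 9 % 3) (k / 27 % 3) (k / 81 % 3) (k / 243)

structure Dat where
  cz : List Nat
  cf : List Nat
  ix : Nat
  ty : Nat
  c4 : List (List Nat)

noncomputable def cs2 (D : Dat) (r : Nat) : List Nat :=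
  @Nat.rec (fun _ => List Nat) D.cz (fun m _ => @Nat.rec (fun _ => List Nat) D.cf (fun _ _ => []) m) r

noncomputable def ixv (D : Dat) (k : Nat) : Nat :=
  Nat.mod (Nat.mod (Nat.shiftRight D.ix (Nat.mul 8 k)) 256) 126

noncomputable def nthD {α : Type} (d : α) (l : List α) : Nat → α :=
  @List.rec α (fun _ => Nat → α) (fun _ => d)
    (fun x _ ih n => @Nat.rec (fun _ => α) x (fun m _ => ih m) n) l

noncomputable def cs4 (D : Dat) (k : Nat) : List Nat :=
  nthD [] D.c4 (Nat.mod (Nat.shiftRight D.ty (Nat.mul 4 k)) 16)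

noncomputable def act (cs : List Nat) (i : Nat) : Bool :=
  anyL (fun c => @Bool.rec (fun _ => Bool) true false (Nat.beq (lv c i) 1048576)) cs

noncomputable def nonE (cs : List Nat) : Bool :=
  @List.rec Nat (fun _ => Bool) false (fun _ _ _ => true) cs

noncomputable def av (k : Nat) : Nat := Int.toNat (262144 * apk k + 34359738368)

structure En where
  sh : Nat
  go : (Nat → Nat → Nat) → (Nat → List Nat → Nat) → Nat

noncomputable def mkEn (A sh row : Nat) (cs : List Nat) (b2 b4 : Bool) : En :=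
  @Bool.rec (fun _ => En)
    (@Bool.rec (fun _ => En) ⟨sh, fun _ _ => Nat.add A 558551906910208⟩
      ⟨sh, fun u _ => u (Nat.add A 279275953455104) row⟩ b2)
    (@Bool.rec (fun _ => En) ⟨sh, fun _ v => v (Nat.add A 279275953455104) cs⟩
      ⟨sh, fun u v => v (u A row) cs⟩ b2)
    b4

noncomputable def ent (D : Dat) (k : Nat) : En :=
  mkEn (av k) (Nat.mul 48 (ixv D k)) (mkRow (cs2 D (k % 3)) (ixv D k)) (cs4 D k)
    (act (cs2 D (k % 3)) (ixv D k)) (nonE (cs4 D k))

noncomputable def m3 {α : Type} (R : α → α → Nat) (a b : α) : Nat := Nat.mul 3 (R a b)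
noncomputable def m9 {α : Type} (R : α → α → Nat) (a b : α) : Nat := Nat.mul 9 (R a b)
noncomputable def m27 {α : Type} (R : α → α → Nat) (a b : α) : Nat := Nat.mul 27 (R a b)
noncomputable def m81 {α : Type} (R : α → α → Nat) (a b : α) : Nat := Nat.mul 81 (R a b)
noncomputable def m243 {α : Type} (R : α → α → Nat) (a b : α) : Nat := Nat.mul 243 (R a b)

noncomputable def g4 {α : Type} (R : α → α → Nat) (a b c d e : α) : Nat :=
  Nat.add (Nat.add (R a e) (m3 R b e)) (Nat.add (m9 R c e) (m27 R d e))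

noncomputable def enk (T : Nat → En) (k : Nat) : En :=
  @Nat.rec (fun _ => En) (T 0) (fun p _ => T (Nat.succ p)) k

noncomputable def q2 (E F : En) (A row : Nat) : Nat :=
  Nat.add A (Nat.add (Nat.mod (Nat.shiftRight row E.sh) 281474976710656)
    (Nat.mod (Nat.shiftRight row F.sh) 281474976710656))

noncomputable def q4 {α : Type} (R : α → α → Nat) (a b c d e f : α) (x : Nat) (cs : List Nat) : Nat :=
  Nat.add x (Nat.mul 2 (xv cs (g4 R a b c d e) (g4 R a b c d f)))

noncomputable def pB {α : Type} (R : α → α → Nat) (a b c d e f : α)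
    (Ecd Ece Ecf Edc Ede Edf Eec Eed Eef Efc Efd Efe : En) : Nat :=
  Nat.add (Nat.add
    (Nat.add (Ecd.go (q2 Eef Efe) (q4 R a b c d e f))
      (Nat.add (Ece.go (q2 Edf Efd) (q4 R a b c e d f))
        (Ecf.go (q2 Ede Eed) (q4 R a b c f d e))))
    (Nat.add (Edc.go (q2 Eef Efe) (q4 R a b d c e f))
      (Nat.add (Ede.go (q2 Ecf Efc) (q4 R a b d e c f))
        (Edf.go (q2 Ece Eec) (q4 R a b d f c e)))))
   (Nat.add
    (Nat.add (Eec.go (q2 Edf Efd) (q4 R a b e c d f))
      (Nat.add (Eed.go (q2 Ecf Efc) (q4 R a b e d c f))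
        (Eef.go (q2 Ecd Edc) (q4 R a b e f c d))))
    (Nat.add (Efc.go (q2 Ede Eed) (q4 R a b f c d e))
      (Nat.add (Efd.go (q2 Ece Eec) (q4 R a b f d c e))
        (Efe.go (q2 Ecd Edc) (q4 R a b f e c d)))))

noncomputable def pA {α : Type} (T : Nat → En) (R : α → α → Nat) (a b c d e f : α)
    (uc ud ue uf vc vd ve vf : Nat) : Nat :=
  pB R a b c d e f
    (enk T (Nat.add uc (Nat.add vd (m243 R c d))))
    (enk T (Nat.add uc (Nat.add ve (m243 R c e))))
    (enk T (Nat.add uc (Nat.add vf (m243 R c f))))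
    (enk T (Nat.add ud (Nat.add vc (m243 R d c))))
    (enk T (Nat.add ud (Nat.add ve (m243 R d e))))
    (enk T (Nat.add ud (Nat.add vf (m243 R d f))))
    (enk T (Nat.add ue (Nat.add vc (m243 R e c))))
    (enk T (Nat.add ue (Nat.add vd (m243 R e d))))
    (enk T (Nat.add ue (Nat.add vf (m243 R e f))))
    (enk T (Nat.add uf (Nat.add vc (m243 R f c))))
    (enk T (Nat.add uf (Nat.add vd (m243 R f d))))
    (enk T (Nat.add uf (Nat.add ve (m243 R f e))))

noncomputable def p2 {α : Type} (T : Nat → En) (R : α → α → Nat) (a b c d e f : α) : Nat :=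
  pA T R a b c d e f
    (Nat.add (R a b) (Nat.add (m3 R a c) (m9 R b c)))
    (Nat.add (R a b) (Nat.add (m3 R a d) (m9 R b d)))
    (Nat.add (R a b) (Nat.add (m3 R a e) (m9 R b e)))
    (Nat.add (R a b) (Nat.add (m3 R a f) (m9 R b f)))
    (Nat.add (m27 R a c) (m81 R b c))
    (Nat.add (m27 R a d) (m81 R b d))
    (Nat.add (m27 R a e) (m81 R b e))
    (Nat.add (m27 R a f) (m81 R b f))

noncomputable def s1 {α : Type} (q : α → α → α → α → α → α → Nat) (a b c d e f : α) : Nat :=
  Nat.add (Nat.add (q a b c d e f) (q a c b d e f))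
    (Nat.add (q a d b c e f) (Nat.add (q a e b c d f) (q a f b c d e)))

noncomputable def s0 {α : Type} (q : α → α → α → α → α → α → Nat) (a b c d e f : α) : Nat :=
  Nat.add (Nat.add (s1 q a b c d e f) (Nat.add (s1 q b a c d e f) (s1 q c a b d e f)))
    (Nat.add (s1 q d a b c e f) (Nat.add (s1 q e a b c d f) (s1 q f a b c d e)))

noncomputable def force {α : Type} (x : Nat) (k : Nat → α) : α :=
  @Nat.rec (fun _ => α) (k 0) (fun p _ => k (Nat.succ p)) x

/-- the six-vertex inequality for the graph with code h -/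
noncomputable def phi (T : Nat → En) (h : Nat) : Bool :=
  Nat.ble 201091055993487360 (s0 (p2 T (rn h)) 0 1 2 3 4 5)

/-- a packed chunk holds codes of 30 bits each -/
noncomputable def cget (c i : Nat) : Nat := Nat.mod (Nat.shiftRight c (Nat.mul 30 i)) 1073741824

noncomputable def allN (f : Nat → Bool) (n : Nat) : Bool :=
  @Nat.rec (fun _ => Bool) true (fun m ih => @Bool.rec (fun _ => Bool) false ih (f m)) n

noncomputable def allL (f : Nat → Bool) (l : List Nat) : Bool :=
  @List.rec Nat (fun _ => Bool) true (fun x _ ih => @Bool.rec (fun _ => Bool) false ih (f x)) l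

noncomputable def phiChunk (T : Nat → En) (c : Nat) : Bool :=
  allN (fun i => force (cget c i) (phi T)) 128

/-! isomorphism cover -/

noncomputable def band (x y : Bool) : Bool := @Bool.rec (fun _ => Bool) false y x

noncomputable def pv (p i : Nat) : Nat := Nat.mod (Nat.shiftRight p (Nat.mul 3 i)) 8

noncomputable def ps (a b : Nat) : Nat := Nat.add (Nat.mul b (Nat.sub b 1)) (Nat.mul 2 a)

noncomputable def sft (p i j : Nat) : Nat :=
  @Bool.rec (fun _ => Nat) (ps (pv p i) (pv p j)) (ps (pv p j) (pv p i)) (Nat.ble (pv p j) (pv p i))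

noncomputable def mlt (p i j : Nat) : Nat := @Bool.rec (fun _ => Nat) 1 2 (Nat.ble (pv p j) (pv p i))

noncomputable def pok (n p : Nat) : Bool :=
  allN (fun j => band (Nat.ble (Nat.succ (pv p j)) n)
    (allN (fun i => @Bool.rec (fun _ => Bool) true false (Nat.beq (pv p i) (pv p j))) j)) n

noncomputable def iso (n E K p : Nat) : Bool :=
  band (pok n p) (allN (fun j => allN (fun i =>
    Nat.beq (Nat.mod (Nat.shiftRight K (ps i j)) 4)
      (Nat.mod (Nat.mul (Nat.mod (Nat.shiftRight E (sft p i j)) 4) (mlt p i j)) 3)) j) n)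

noncomputable def bad4 (n E p : Nat) : Bool :=
  band (allN (fun j => Nat.ble (Nat.succ (pv p j)) n) 4)
   (band (Nat.beq (rn E (pv p 0) (pv p 1)) 1) (band (Nat.beq (rn E (pv p 1) (pv p 2)) 1)
    (band (Nat.beq (rn E (pv p 2) (pv p 3)) 1) (band (Nat.beq (rn E (pv p 3) (pv p 0)) 1)
     (band (Nat.beq (rn E (pv p 0) (pv p 2)) 0) (Nat.beq (rn E (pv p 1) (pv p 3)) 0))))))

noncomputable def cov1 (n : Nat) (get : Nat → Nat) (E w : Nat) : Bool :=
  @Bool.rec (fun _ => Bool)
    (force (Nat.mod w 262144) (iso n E (get (Nat.shiftRight w 18))))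
    (bad4 n E w) (Nat.beq (Nat.shiftRight w 18) 32767)

noncomputable def allD (f : Nat → Nat → Bool) (n : Nat) : Nat → Nat → Bool :=
  @Nat.rec (fun _ => Nat → Nat → Bool) f
    (fun _ ih c t => band (ih (Nat.mul 4 c) (Nat.mul 3 t))
      (band (ih (Nat.add (Nat.mul 4 c) 1) (Nat.add (Nat.mul 3 t) 1))
        (ih (Nat.add (Nat.mul 4 c) 2) (Nat.add (Nat.mul 3 t) 2)))) n

/-- all one-vertex extensions of the n-vertex graph H -/
noncomputable def covH (n n1 P : Nat) (get : Nat → Nat) (H W : Nat) : Bool :=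
  band (Nat.beq (Nat.shiftRight H P) 0)
    (allD (fun c t => cov1 n1 get (Nat.add H (Nat.shiftLeft c P))
      (Nat.mod (Nat.shiftRight W (Nat.mul 33 t)) 8589934592)) n 0 0)

noncomputable def covL (g : Nat → Nat → Bool) (l : List Nat) : List Nat → Bool :=
  @List.rec Nat (fun _ => List Nat → Bool) (fun _ => true)
    (fun H _ ih ws => @List.rec Nat (fun _ => Bool) false (fun W ws' _ => band (g H W) (ih ws')) ws) l

noncomputable def getL (d : Nat) (l : List Nat) (i : Nat) : Nat := force i (nthD d l)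

noncomputable def getC (d : Nat) (l : List Nat) (i : Nat) : Nat :=
  cget (force (Nat.shiftRight i 7) (nthD d l)) (Nat.mod i 128)

end Pool.Agent.Fdf
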