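import Mathlib

/-! Weighted averages over a finite vertex set. -/

namespace Pool.Agent.Fdf

variable {V : Type} [Fintype V]

noncomputable def E (w : V → ℝ) (g : V → ℝ) : ℝ := ∑ v, w v * g v

variable (w : V → ℝ)

theorem E_add (g h : V → ℝ) : E w (fun v => g v + h v) = E w g + E w h := by
  simp only [E, mul_add, Finset.sum_add_distrib]

theorem E_sub (g h : V → ℝ) : E w (fun v => g v - h v) = E w g - E w h := by
  simp only [E, mul_sub, Finset.sum_sub_distrib]

theorem E_neg (g : V → ℝ) : E w (fun v => -g v) = -E w g := by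
  simp only [E, mul_neg, Finset.sum_neg_distrib]

theorem E_mul_left (c : ℝ) (g : V → ℝ) : E w (fun v => c * g v) = c * E w g := by
  simp only [E, Finset.mul_sum]
  exact Finset.sum_congr rfl fun v _ => by ring

theorem E_mul_right (c : ℝ) (g : V → ℝ) : E w (fun v => g v * c) = E w g * c := by
  simp only [E, Finset.sum_mul]
  exact Finset.sum_congr rfl fun v _ => by ring

theorem E_zero : E w (fun _ => 0) = 0 := by simp [E]

theorem E_comm (g : V → V → ℝ) :
    E w (fun a => E w (fun b => g b a)) = E w (fun a => E w (fun b => g a b)) := by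
  simp only [E, Finset.mul_sum]
  rw [Finset.sum_comm]
  exact Finset.sum_congr rfl fun a _ => Finset.sum_congr rfl fun b _ => by ring

theorem E_congr {g h : V → ℝ} (e : ∀ v, g v = h v) : E w g = E w h := by
  rw [funext e]

variable {w}

theorem E_const (h1 : ∑ v, w v = 1) (c : ℝ) : E w (fun _ => c) = c := by
  simp only [E]
  rw [← Finset.sum_mul, h1, one_mul]

theorem E_mono (h0 : ∀ v, 0 ≤ w v) {g h : V → ℝ} (e : ∀ v, g v ≤ h v) : E w g ≤ E w h :=
  Finset.sum_le_sum fun v _ => mul_le_mul_of_nonneg_left (e v) (h0 v)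

theorem E_nonneg (h0 : ∀ v, 0 ≤ w v) {g : V → ℝ} (e : ∀ v, 0 ≤ g v) : 0 ≤ E w g :=
  Finset.sum_nonneg fun v _ => mul_nonneg (h0 v) (e v)

theorem E_le_const (h0 : ∀ v, 0 ≤ w v) (h1 : ∑ v, w v = 1) {g : V → ℝ} {c : ℝ} (e : ∀ v, g v ≤ c) :
    E w g ≤ c := by
  have := E_mono h0 (h := fun _ => c) e
  rwa [E_const h1] at this

theorem exists_pos_of_E_pos (h0 : ∀ v, 0 ≤ w v) {g : V → ℝ} (h : 0 < E w g) : ∃ v, 0 < g v := by
  by_contra hc
  push Not at hc
  have := E_mono h0 (h := fun _ => 0) hc
  rw [E_zero] at this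
  linarith

variable (w)

noncomputable def E3 (g : V → V → V → ℝ) : ℝ := E w fun a => E w fun b => E w fun c => g a b c

theorem E3_sw1 (g : V → V → V → ℝ) : E3 w (fun a b c => g b a c) = E3 w g :=
  E_comm w (fun a b => E w fun c => g a b c)

theorem E3_sw2 (g : V → V → V → ℝ) : E3 w (fun a b c => g a c b) = E3 w g :=
  E_congr w fun a => E_comm w (g a)

theorem E3_rot (g : V → V → V → ℝ) : E3 w (fun a b c => g c a b) = E3 w g :=
  (E3_sw2 w (fun a b c => g b a c)).trans (E3_sw1 w g)

theorem E3_add (g h : V → V → V → ℝ) :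
    E3 w (fun a b c => g a b c + h a b c) = E3 w g + E3 w h := by
  simp only [E3, E_add]

theorem E3_sub (g h : V → V → V → ℝ) :
    E3 w (fun a b c => g a b c - h a b c) = E3 w g - E3 w h := by
  simp only [E3, E_sub]

noncomputable def E6 (g : V → V → V → V → V → V → ℝ) : ℝ :=
  E w fun a => E w fun b => E w fun c => E w fun d => E w fun e => E w fun f => g a b c d e f

variable (g : V → V → V → V → V → V → ℝ)

theorem E6_add (h : V → V → V → V → V → V → ℝ) :
    E6 w (fun a b c d e f => g a b c d e f + h a b c d e f) = E6 w g + E6 w h := by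
  simp only [E6, E_add]

theorem E6_sub (h : V → V → V → V → V → V → ℝ) :
    E6 w (fun a b c d e f => g a b c d e f - h a b c d e f) = E6 w g - E6 w h := by
  simp only [E6, E_sub]

theorem E6_sw1 : E6 w (fun a b c d e f => g b a c d e f) = E6 w g :=
  E_comm w (fun a b => E w fun c => E w fun d => E w fun e => E w fun f => g a b c d e f)

theorem E6_sw2 : E6 w (fun a b c d e f => g a c b d e f) = E6 w g :=
  E_congr w fun a => E_comm w (fun b c => E w fun d => E w fun e => E w fun f => g a b c d e f)

theorem E6_sw3 : E6 w (fun a b c d e f => g a b d c e f) = E6 w g :=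
  E_congr w fun a => E_congr w fun b => E_comm w (fun c d => E w fun e => E w fun f => g a b c d e f)

theorem E6_sw4 : E6 w (fun a b c d e f => g a b c e d f) = E6 w g :=
  E_congr w fun a => E_congr w fun b => E_congr w fun c =>
    E_comm w (fun d e => E w fun f => g a b c d e f)

theorem E6_sw5 : E6 w (fun a b c d e f => g a b c d f e) = E6 w g :=
  E_congr w fun a => E_congr w fun b => E_congr w fun c => E_congr w fun d => E_comm w (g a b c d)

end Pool.Agent.Fdf
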