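import Pool.Agent.Work.MP_f1799f_co.FdfData

namespace Pool.Agent.Fdf

theorem run6 : allL (phiChunk (ent dat)) l6p6 = true := by decide +kernel

end Pool.Agent.Fdf
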