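import Pool.Agent.Work.MP_f1799f_co.FdfSoundC
import Pool.Agent.Work.MP_f1799f_co.FdfExp

/-! Averaging the six-vertex inequality. -/

namespace Pool.Agent.Fdf

variable {V : Type} [Fintype V] (w : V → ℝ) (q : V → V → V → V → V → V → ℝ)

theorem E6_S2 : E6 w (S2 q) = 2 * E6 w q := by
  have h1 := E6_sw5 w q
  have : E6 w (S2 q) = E6 w q + E6 w (fun a b c d e f => q a b c d f e) := by
    rw [← E6_add]; rfl
  linarith

theorem E6_S3 : E6 w (S3 q) = 6 * E6 w q := by
  have h1 := E6_sw4 w (S2 q)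
  have h2 := (E6_sw5 w (fun a b c d e f => S2 q a b c e d f)).trans h1
  have h3 := E6_S2 w q
  have : E6 w (S3 q) = E6 w (S2 q) + E6 w (fun a b c d e f => S2 q a b c e d f)
      + E6 w (fun a b c d e f => S2 q a b c f d e) := by
    rw [← E6_add, ← E6_add]; rfl
  linarith

theorem E6_S4 : E6 w (S4 q) = 24 * E6 w q := by
  have h1 := E6_sw3 w (S3 q)
  have h2 := (E6_sw4 w (fun a b c d e f => S3 q a b d c e f)).trans h1
  have h3 := (E6_sw5 w (fun a b c d e f => S3 q a b e c d f)).trans h2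
  have h4 := E6_S3 w q
  have : E6 w (S4 q) = E6 w (S3 q) + E6 w (fun a b c d e f => S3 q a b d c e f)
      + E6 w (fun a b c d e f => S3 q a b e c d f) + E6 w (fun a b c d e f => S3 q a b f c d e) := by
    rw [← E6_add, ← E6_add, ← E6_add]; rfl
  linarith

theorem E6_S5 : E6 w (S5 q) = 120 * E6 w q := by
  have h1 := E6_sw2 w (S4 q)
  have h2 := (E6_sw3 w (fun a b c d e f => S4 q a c b d e f)).trans h1
  have h3 := (E6_sw4 w (fun a b c d e f => S4 q a d b c e f)).trans h2
  have h4 := (E6_sw5 w (fun a b c d e f => S4 q a e b c d f)).trans h3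
  have h5 := E6_S4 w q
  have : E6 w (S5 q) = E6 w (S4 q) + E6 w (fun a b c d e f => S4 q a c b d e f)
      + E6 w (fun a b c d e f => S4 q a d b c e f) + E6 w (fun a b c d e f => S4 q a e b c d f)
      + E6 w (fun a b c d e f => S4 q a f b c d e) := by
    rw [← E6_add, ← E6_add, ← E6_add, ← E6_add]; rfl
  linarith

theorem E6_S6 : E6 w (S6 q) = 720 * E6 w q := by
  have h1 := E6_sw1 w (S5 q)
  have h2 := (E6_sw2 w (fun a b c d e f => S5 q b a c d e f)).trans h1
  have h3 := (E6_sw3 w (fun a b c d e f => S5 q c a b d e f)).trans h2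
  have h4 := (E6_sw4 w (fun a b c d e f => S5 q d a b c e f)).trans h3
  have h5 := (E6_sw5 w (fun a b c d e f => S5 q e a b c d f)).trans h4
  have h6 := E6_S5 w q
  have : E6 w (S6 q) = E6 w (S5 q) + E6 w (fun a b c d e f => S5 q b a c d e f)
      + E6 w (fun a b c d e f => S5 q c a b d e f) + E6 w (fun a b c d e f => S5 q d a b c e f)
      + E6 w (fun a b c d e f => S5 q e a b c d f) + E6 w (fun a b c d e f => S5 q f a b c d e) := by
    rw [← E6_add, ← E6_add, ← E6_add, ← E6_add, ← E6_add]; rfl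
  linarith

theorem gram_cons (c : ℕ) (cs : List ℕ) (i j : ℕ) :
    (gram (c :: cs) i j : ℝ) = (lz c i : ℝ) * (lz c j : ℝ) + (gram cs i j : ℝ) := by
  simp [gram]

theorem psd1 (cs : List ℕ) (g : V → ℕ) :
    0 ≤ E w fun e => E w fun f => (gram cs (g e) (g f) : ℝ) := by
  induction cs with
  | nil => simp [gram, E_zero]
  | cons c cs ih =>
    simp only [gram_cons, E_add, E_mul_left, E_mul_right]
    nlinarith [mul_self_nonneg (E w fun f => (lz c (g f) : ℝ))]

theorem psd2 (cs : List ℕ) (g : V → V → ℕ) :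
    0 ≤ E w fun c => E w fun d => E w fun e => E w fun f => (gram cs (g c d) (g e f) : ℝ) := by
  induction cs with
  | nil => simp [gram, E_zero]
  | cons x cs ih =>
    simp only [gram_cons, E_add, E_mul_left, E_mul_right]
    nlinarith [mul_self_nonneg (E w fun e => E w fun f => (lz x (g e f) : ℝ))]

variable {w}

theorem ap6_avg (h0 : ∀ v, 0 ≤ w v) (h1 : ∑ v, w v = 1) {R : V → V → ℕ} (hR : Org R) {D : Dat}
    (hD : Good D) (hc : Cov R 6 (fun h => phi (ent D) h = true)) :
    0 ≤ E w fun a => E w fun b => E w fun c => E w fun d =>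
      (ap6 (R a b) (R a c) (R b c) (R a d) (R b d) (R c d) : ℝ) := by
  have k1 : 0 ≤ E6 w (S6 (fun a b c d e f => (qz D R a b c d e f : ℝ))) :=
    E_nonneg h0 fun a => E_nonneg h0 fun b => E_nonneg h0 fun c => E_nonneg h0 fun d =>
      E_nonneg h0 fun e => E_nonneg h0 fun f => S6_nonneg hR hD hc a b c d e f
  rw [E6_S6] at k1
  have k2 : 0 ≤ E6 w (fun a b c d e f =>
      (gram (cs4 D (kap R a b c d)) (g4 R a b c d e) (g4 R a b c d f) : ℝ)) :=
    E_nonneg h0 fun a => E_nonneg h0 fun b => E_nonneg h0 fun c => E_nonneg h0 fun d =>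
      psd1 w _ (g4 R a b c d)
  have k3 : 0 ≤ E6 w (fun a b c d e f =>
      (gram (cs2 D (R a b)) (ixv D (kap R a b c d)) (ixv D (kap R a b e f)) : ℝ)) :=
    E_nonneg h0 fun a => E_nonneg h0 fun b => psd2 w _ (fun c d => ixv D (kap R a b c d))
  have k4 : E6 w (fun a b c d e f => (qz D R a b c d e f : ℝ))
      = E6 w (fun a b c d _ _ => 131072 * (ap6 (R a b) (R a c) (R b c) (R a d) (R b d) (R c d) : ℝ))
        - E6 w (fun a b c d e f =>
          (gram (cs4 D (kap R a b c d)) (g4 R a b c d e) (g4 R a b c d f) : ℝ))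
        - E6 w (fun a b c d e f =>
          (gram (cs2 D (R a b)) (ixv D (kap R a b c d)) (ixv D (kap R a b e f)) : ℝ)) := by
    rw [← E6_sub, ← E6_sub]
    congr 1
    funext a b c d e f
    simp [qz]
  have k5 : E6 w (fun a b c d _ _ => 131072 * (ap6 (R a b) (R a c) (R b c) (R a d) (R b d) (R c d) : ℝ))
      = 131072 * E w fun a => E w fun b => E w fun c => E w fun d =>
        (ap6 (R a b) (R a c) (R b c) (R a d) (R b d) (R c d) : ℝ) := by
    simp only [E6, E_const h1, E_mul_left]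
  linarith

end Pool.Agent.Fdf
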