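import Pool.Agent.Work.MP_f1799f_co.FdfRun0
import Pool.Agent.Work.MP_f1799f_co.FdfRun1
import Pool.Agent.Work.MP_f1799f_co.FdfRun2
import Pool.Agent.Work.MP_f1799f_co.FdfRun3
import Pool.Agent.Work.MP_f1799f_co.FdfRun4
import Pool.Agent.Work.MP_f1799f_co.FdfRun5
import Pool.Agent.Work.MP_f1799f_co.FdfRun6
import Pool.Agent.Work.MP_f1799f_co.FdfRun7
import Pool.Agent.Work.MP_f1799f_co.FdfRun8
import Pool.Agent.Work.MP_f1799f_co.FdfRun9
import Pool.Agent.Work.MP_f1799f_co.FdfRun10
import Pool.Agent.Work.MP_f1799f_co.FdfRun11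
import Pool.Agent.Work.MP_f1799f_co.FdfRun12
import Pool.Agent.Work.MP_f1799f_co.FdfRun13
import Pool.Agent.Work.MP_f1799f_co.FdfRun14
import Pool.Agent.Work.MP_f1799f_co.FdfRun15
import Pool.Agent.Work.MP_f1799f_co.FdfRun16
import Pool.Agent.Work.MP_f1799f_co.FdfRun17
import Pool.Agent.Work.MP_f1799f_co.FdfRun18
import Pool.Agent.Work.MP_f1799f_co.FdfCov0
import Pool.Agent.Work.MP_f1799f_co.FdfCov1
import Pool.Agent.Work.MP_f1799f_co.FdfCov2
import Pool.Agent.Work.MP_f1799f_co.FdfCov3
import Pool.Agent.Work.MP_f1799f_co.FdfCov4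
import Pool.Agent.Work.MP_f1799f_co.FdfCov5
import Pool.Agent.Work.MP_f1799f_co.FdfCovLow
import Pool.Agent.Work.MP_f1799f_co.FdfSoundD

/-! Assembling the kernel evaluations. -/

namespace Pool.Agent.Fdf

theorem good_dat : Good dat where
  hz := by decide +kernel
  hf := by decide +kernel
  h4 := by decide +kernel
  ha := fun k hk => of_decide_eq_true (allN_true avOk k hk)

theorem l6_ok : ∀ c ∈ l6, phiChunk (ent dat) c = true := by
  intro c hc
  simp only [l6, List.mem_append] at hc
  rcases hc with h | h | h | h | h | h | h | h | h | h | h | h | h | h | h | h | h | h | h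
  · exact allL_true run0 c h
  · exact allL_true run1 c h
  · exact allL_true run2 c h
  · exact allL_true run3 c h
  · exact allL_true run4 c h
  · exact allL_true run5 c h
  · exact allL_true run6 c h
  · exact allL_true run7 c h
  · exact allL_true run8 c h
  · exact allL_true run9 c h
  · exact allL_true run10 c h
  · exact allL_true run11 c h
  · exact allL_true run12 c h
  · exact allL_true run13 c h
  · exact allL_true run14 c h
  · exact allL_true run15 c h
  · exact allL_true run16 c h
  · exact allL_true run17 c h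
  · exact allL_true run18 c h

theorem l5_ok : ∀ H ∈ l5, ∃ W, covH 5 6 20 (getC ch0 l6) H W = true := by
  intro c hc
  simp only [l5, List.mem_append] at hc
  rcases hc with h | h | h | h | h | h
  · exact covL_true cov5p0 c h
  · exact covL_true cov5p1 c h
  · exact covL_true cov5p2 c h
  · exact covL_true cov5p3 c h
  · exact covL_true cov5p4 c h
  · exact covL_true cov5p5 c h

theorem cover6 {V : Type} {R : V → V → ℕ} (hR : Org R) :
    Cov R 6 (fun h => phi (ent dat) h = true) := by
  have c1 : Cov R 1 (· ∈ l1) := cov_one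
  have c2 : Cov R 2 (· ∈ l2) := cov_list hR (by decide +kernel) c1 (covL_true covLow1)
  have c3 : Cov R 3 (· ∈ l3) := cov_list hR (by decide +kernel) c2 (covL_true covLow2)
  have c4 : Cov R 4 (· ∈ l4) := cov_list hR (by decide +kernel) c3 (covL_true covLow3)
  have c5 : Cov R 5 (· ∈ l5) := cov_list hR (by decide +kernel) c4 (covL_true covLow4)
  refine (cov_step hR (getC ch0 l6) c5 l5_ok).mono ?_
  rintro x ⟨i, rfl⟩
  unfold getC
  rw [force_eq]
  have h0 : ch0 ∈ l6 := List.mem_append_left _ List.mem_cons_self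
  have hm : nthD ch0 l6 (Nat.shiftRight i 7) ∈ l6 := by
    rcases nthD_mem ch0 l6 (Nat.shiftRight i 7) with h | h
    · rw [h]; exact h0
    · exact h
  have := allN_true (l6_ok _ hm) (Nat.mod i 128) (Nat.mod_lt _ (by norm_num))
  rwa [force_eq] at this

theorem flag_ineq {V : Type} [Fintype V] {w : V → ℝ} (h0 : ∀ v, 0 ≤ w v) (h1 : ∑ v, w v = 1)
    {R : V → V → ℕ} (hR : Org R) :
    0 ≤ E w fun a => E w fun b => E w fun c => E w fun d =>
      (ap6 (R a b) (R a c) (R b c) (R a d) (R b d) (R c d) : ℝ) :=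
  ap6_avg h0 h1 hR good_dat (cover6 hR)

end Pool.Agent.Fdf
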