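import Mathlib

/-! Sanity check of the definition (not imported by the hand-in). -/

namespace Pool.Agent.Fdf

/-- Fon-der-Flaass's observation (known, recorded for reference): such a family of triples is
free of the tetrahedron. -/
theorem k4_free (n : ℕ) (r : Fin n → Fin n → Prop) (hasym : ∀ u v, r u v → ¬r v u)
    (hC4 : ∀ a b c d, r a b → r b c → r c d → r d a → r a c ∨ r c a ∨ r b d ∨ r d b)
    (G : Finset (Finset (Fin n)))
    (hG : ∀ s ∈ G, s.card = 3 ∧ (¬∃ v ∈ s, ∀ u ∈ s, ¬r u v ∧ ¬r v u)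
      ∧ ¬∃ v ∈ s, ∀ u ∈ s, u ≠ v → r v u) (a b c d : Fin n) :
    ¬({a, b, c} ∈ G ∧ {a, b, d} ∈ G ∧ {a, c, d} ∈ G ∧ {b, c, d} ∈ G) := by
  have hirr : ∀ u, ¬r u u := fun u h => hasym u u h h
  have key : ∀ x y z, ({x, y, z} : Finset (Fin n)) ∈ G →
      (r x y ∨ r y x ∨ r x z ∨ r z x) ∧ (r x y ∨ r y x ∨ r y z ∨ r z y)
        ∧ (r x z ∨ r z x ∨ r y z ∨ r z y) ∧ ¬(r x y ∧ r x z) ∧ ¬(r y x ∧ r y z) ∧ ¬(r z x ∧ r z y) := by
    intro x y z h
    obtain ⟨-, g2, g3⟩ := hG _ h
    simp only [Finset.mem_insert, Finset.mem_singleton, exists_eq_or_imp, forall_eq_or_imp,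
      forall_eq, exists_eq_left, hirr] at g2 g3
    tauto
  rintro ⟨h1, h2, h3, h4⟩
  have k1 := key _ _ _ h1
  have k2 := key _ _ _ h2
  have k3 := key _ _ _ h3
  have k4 := key _ _ _ h4
  have c1 := hC4 a b c d
  have c2 := hC4 a d c b
  have c3 := hC4 a b d c
  have c4 := hC4 a c d b
  have c5 := hC4 a c b d
  have c6 := hC4 a d b c
  have s1 := hasym a b
  have s2 := hasym a c
  have s3 := hasym a d
  have s4 := hasym b c
  have s5 := hasym b d
  have s6 := hasym c d
  generalize r a b = p1 at *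
  generalize r b a = q1 at *
  generalize r a c = p2 at *
  generalize r c a = q2 at *
  generalize r a d = p3 at *
  generalize r d a = q3 at *
  generalize r b c = p4 at *
  generalize r c b = q4 at *
  generalize r b d = p5 at *
  generalize r d b = q5 at *
  generalize r c d = p6 at *
  generalize r d c = q6 at *
  grind

end Pool.Agent.Fdf
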