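import Pool.Agent.Work.MP_f1799f_co.FdfStabA

/-! Stability analysis, part C: the robust chain lemma and the level-set recursion. -/

namespace Pool.Agent.Fdf

variable {V : Type} {N A : V → V → ℝ} [Fintype V] {w : V → ℝ}

theorem chain_key (h0 : ∀ v, 0 ≤ w v) (hO : Og N A) {Y : V → ℝ} (hY : ∀ v, Y v = 0 ∨ Y v = 1)
    {u z ys : V} (hn : N u z = 1)
    (hmin : (E w fun y => Y y * A u y) ≤ E w fun y => Y y * A z y)
    (h1 : A u ys = 1) (h2 : A ys z = 1) :
    (E w fun y => Y y * A u y * (1 - A z y))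
      ≤ (E w fun y => Y y * N u y) + E w fun y => Y y * (1 - N ys y) := by
  have e1 : (E w fun y => Y y * A u y * (1 - A z y))
      = (E w fun y => Y y * A u y) - E w fun y => Y y * A u y * A z y := by
    rw [← E_sub]; exact E_congr w fun y => by ring
  have e2 : (E w fun y => Y y * A z y * (1 - A u y))
      = (E w fun y => Y y * A z y) - E w fun y => Y y * A u y * A z y := by
    rw [← E_sub]; exact E_congr w fun y => by ring
  have e3 : (E w fun y => Y y * A z y * (1 - A u y))
      ≤ (E w fun y => Y y * N u y) + E w fun y => Y y * (1 - N ys y) := by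
    rw [← E_add]
    refine E_mono h0 fun y => ?_
    have s := hO.sum u y
    have c := hO.c4 u ys z y h1 h2
    rcases hY y with a | a
    · rw [a]; norm_num
    · rcases hO.A01 z y with b | b <;> rcases hO.A01 u y with d | d <;>
        rcases hO.N01 u y with e | e <;> rcases hO.N01 ys y with f | f <;>
        rw [a, b, d, e, f] <;> norm_num
      exact c b (by linarith) hn f
  linarith

theorem chain_ord (h0 : ∀ v, 0 ≤ w v) (hO : Og N A) {X Y : V → ℝ} (hX : ∀ v, X v = 0 ∨ X v = 1)
    (hY : ∀ v, Y v = 0 ∨ Y v = 1) {a b : ℝ} (hab : a ≤ b)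
    (dX : ∀ u, X u = 1 → (E w fun z => X z * (1 - N u z)) + (E w fun y => Y y * N u y) ≤ a)
    (dY : ∀ y, Y y = 1 → (E w fun z => Y z * (1 - N y z)) + (E w fun z => X z * N y z) ≤ b)
    (nX : ∃ u, X u = 1) (nY : ∃ y, Y y = 1) :
    (∃ u, X u = 1 ∧ (E w fun y => Y y * A u y) ≤ 2 * (a + b))
      ∨ (∃ y, Y y = 1 ∧ (E w fun z => X z * A y z) ≤ 2 * (a + b)) := by
  classical
  obtain ⟨u, hu, hum⟩ := Finset.exists_min_image (Finset.univ.filter fun u => X u = 1)
    (fun u => E w fun y => Y y * A u y) (by obtain ⟨u, hu⟩ := nX; exact ⟨u, by simp [hu]⟩)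
  obtain ⟨y0, hy, hym⟩ := Finset.exists_min_image (Finset.univ.filter fun y => Y y = 1)
    (fun y => E w fun z => X z * A y z) (by obtain ⟨u, hu⟩ := nY; exact ⟨u, by simp [hu]⟩)
  have hu1 : X u = 1 := (Finset.mem_filter.mp hu).2
  have hy1 : Y y0 = 1 := (Finset.mem_filter.mp hy).2
  have pos1 : ∀ (Z : V → ℝ), (∀ v, Z v = 0 ∨ Z v = 1) → ∀ t, 0 ≤ E w fun z => Z z * N t z :=
    fun Z hZ t => E_nonneg h0 fun z => by
      rcases hZ z with h | h <;> rcases hO.N01 t z with h' | h' <;> rw [h, h'] <;> norm_num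
  have pos2 : ∀ (Z : V → ℝ), (∀ v, Z v = 0 ∨ Z v = 1) → ∀ t, 0 ≤ E w fun z => Z z * (1 - N t z) :=
    fun Z hZ t => E_nonneg h0 fun z => by
      rcases hZ z with h | h <;> rcases hO.N01 t z with h' | h' <;> rw [h, h'] <;> norm_num
  set T : V → ℝ := fun y => Y y * A u y * N y0 y with hT
  set S : V → ℝ := fun z => X z * A y0 z * N u z with hS
  have T01 : ∀ y, T y = 0 ∨ (T y = 1 ∧ Y y = 1 ∧ A u y = 1 ∧ N y0 y = 1) := fun y => by
    rcases hY y with h | h <;> rcases hO.A01 u y with h1 | h1 <;> rcases hO.N01 y0 y with h2 | h2 <;>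
      simp [hT, h, h1, h2]
  have S01 : ∀ z, S z = 0 ∨ (S z = 1 ∧ X z = 1 ∧ A y0 z = 1 ∧ N u z = 1) := fun z => by
    rcases hX z with h | h <;> rcases hO.A01 y0 z with h1 | h1 <;> rcases hO.N01 u z with h2 | h2 <;>
      simp [hS, h, h1, h2]
  set tu := E w fun y => Y y * N u y with htu
  set ty := E w fun z => X z * N y0 z with hty
  have tu0 : 0 ≤ tu := pos1 Y hY u
  have ty0 : 0 ≤ ty := pos1 X hX y0
  have a0 : 0 ≤ a := by linarith [dX u hu1, pos2 X hX u]
  have K1 : ∀ z, S z * (E w fun y => T y * (1 - A z y)) ≤ S z * (b + tu) := by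
    intro z
    rcases S01 z with h | ⟨h, hz, -, hnz⟩
    · rw [h]; simp
    rw [h, one_mul, one_mul]
    by_cases hex : ∃ ys, T ys = 1 ∧ A ys z = 1
    · obtain ⟨ys, h1, h2⟩ := hex
      rcases T01 ys with h3 | ⟨-, h4, h5, -⟩
      · rw [h3] at h1; norm_num at h1
      have k := chain_key h0 hO hY hnz (hum z (by simp [hz])) h5 h2
      have k2 : (E w fun y => T y * (1 - A z y)) ≤ E w fun y => Y y * A u y * (1 - A z y) :=
        E_mono h0 fun y => by
          rcases hY y with e | e <;> rcases hO.A01 u y with e1 | e1 <;>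
            rcases hO.N01 y0 y with e2 | e2 <;> rcases hO.A01 z y with e3 | e3 <;>
            simp [hT, e, e1, e2, e3]
      linarith [dY ys h4, pos1 X hX ys]
    · have k : (E w fun y => T y * (1 - A z y)) ≤ E w fun y => Y y * N z y :=
        E_mono h0 fun y => by
          rcases T01 y with e | ⟨e, e1, -, -⟩
          · rw [e, zero_mul]
            rcases hY y with f | f <;> rcases hO.N01 z y with f1 | f1 <;> rw [f, f1] <;> norm_num
          · have f : A y z = 0 := (hO.A01 y z).resolve_right fun f => hex ⟨y, e, f⟩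
            have := hO.sum z y
            rw [e, e1]; linarith
      linarith [dX z hz, pos2 X hX z]
  have K2 : ∀ y, T y * (E w fun z => S z * A z y) ≤ T y * (a + ty) := by
    intro y
    rcases T01 y with h | ⟨h, hyy, -, hny⟩
    · rw [h]; simp
    rw [h, one_mul, one_mul]
    by_cases hex : ∃ zs, S zs = 1 ∧ A zs y = 1
    · obtain ⟨zs, h1, h2⟩ := hex
      rcases S01 zs with h3 | ⟨-, h4, h5, -⟩
      · rw [h3] at h1; norm_num at h1
      have k := chain_key h0 hO hX hny (hym y (by simp [hyy])) h5 h2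
      have k2 : (E w fun z => S z * A z y) ≤ E w fun z => X z * A y0 z * (1 - A y z) :=
        E_mono h0 fun z => by
          have s := hO.sum z y
          rcases hX z with e | e <;> rcases hO.A01 y0 z with e1 | e1 <;>
            rcases hO.N01 u z with e2 | e2 <;> rcases hO.A01 y z with e3 | e3 <;>
            rcases hO.A01 z y with e4 | e4 <;> simp [hS, e, e1, e2, e3, e4]
          rcases hO.N01 z y with e5 | e5 <;> linarith
      linarith [dX zs h4, pos1 Y hY zs]
    · have k : (E w fun z => S z * A z y) ≤ E w fun _ => 0 :=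
        E_mono h0 fun z => by
          rcases S01 z with e | ⟨e, -, -, -⟩
          · rw [e, zero_mul]
          · have f : A z y = 0 := (hO.A01 z y).resolve_right fun f => hex ⟨z, e, f⟩
            rw [f, mul_zero]
      rw [E_zero] at k
      linarith
  have cnt : E w S * E w T ≤ E w S * (b + tu) + E w T * (a + ty) := by
    have c1 := E_mono h0 K1
    have c2 := E_mono h0 K2
    rw [E_mul_right] at c1 c2
    have c3 : (E w fun y => T y * (E w fun z => S z * A z y))
        = E w fun z => S z * E w fun y => T y * A z y := by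
      simp only [← E_mul_left]
      rw [← E_comm w (fun z y => S z * (T y * A z y))]
      exact E_congr w fun y => E_congr w fun z => by ring
    have c4 : E w S * E w T = (E w fun z => S z * (E w fun y => T y * (1 - A z y)))
        + E w fun z => S z * E w fun y => T y * A z y := by
      rw [← E_add, ← E_mul_right]
      refine E_congr w fun z => ?_
      rw [← mul_add, ← E_add]
      congr 1
      exact E_congr w fun y => by ring
    linarith
  have cS : (E w fun z => X z * A y0 z) ≤ E w S + E w fun z => X z * (1 - N u z) := by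
    rw [← E_add]
    refine E_mono h0 fun z => ?_
    rcases hX z with e | e <;> rcases hO.A01 y0 z with e1 | e1 <;>
      rcases hO.N01 u z with e2 | e2 <;> simp [hS, e, e1, e2]
  have cT : (E w fun y => Y y * A u y) ≤ E w T + E w fun z => Y z * (1 - N y0 z) := by
    rw [← E_add]
    refine E_mono h0 fun z => ?_
    rcases hY z with e | e <;> rcases hO.A01 u z with e1 | e1 <;>
      rcases hO.N01 y0 z with e2 | e2 <;> simp [hT, e, e1, e2]
  have du := dX u hu1
  have dy := dY y0 hy1
  have su0 := pos2 X hX u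
  have sy0 := pos2 Y hY y0
  by_cases hs : E w S ≤ a + b + tu + ty
  · right; exact ⟨y0, hy1, by linarith⟩
  · by_cases ht : E w T ≤ a + b + tu + ty
    · left; exact ⟨u, hu1, by linarith⟩
    · exfalso
      push Not at hs ht
      have m1 : (b + tu) * (a + ty) < (E w S - (a + ty)) * (E w T - (b + tu)) :=
        mul_lt_mul'' (by linarith) (by linarith) (by linarith) (by linarith)
      nlinarith

theorem chain (h0 : ∀ v, 0 ≤ w v) (hO : Og N A) {X Y : V → ℝ} (hX : ∀ v, X v = 0 ∨ X v = 1)
    (hY : ∀ v, Y v = 0 ∨ Y v = 1) {a b : ℝ}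
    (dX : ∀ u, X u = 1 → (E w fun z => X z * (1 - N u z)) + (E w fun y => Y y * N u y) ≤ a)
    (dY : ∀ y, Y y = 1 → (E w fun z => Y z * (1 - N y z)) + (E w fun z => X z * N y z) ≤ b)
    (nX : ∃ u, X u = 1) (nY : ∃ y, Y y = 1) :
    (∃ u, X u = 1 ∧ (E w fun y => Y y * A u y) ≤ 2 * (a + b))
      ∨ (∃ y, Y y = 1 ∧ (E w fun z => X z * A y z) ≤ 2 * (a + b)) := by
  rcases le_total a b with h | h
  · exact chain_ord h0 hO hX hY h dX dY nX nY
  · rw [add_comm a b]
    exact (chain_ord h0 hO hY hX h dY dX nY nX).symm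

/-- the levels, in hundredths -/
def rho (k : ℕ) : ℕ := [0, 19, 27, 33, 38, 43, 48, 52, 56, 60, 63].getD k 0

def gap (k l : ℕ) : ℕ := 1000000 - (44 * (rho k ^ 2 + rho l ^ 2) + 10000 * rho l)

def wt (k : ℕ) : ℕ := 3 * (rho (k + 1) ^ 2 - rho k ^ 2)

noncomputable def vf (n : ℕ) : ℕ → ℕ → ℕ :=
  @Nat.rec (fun _ => ℕ → ℕ → ℕ) (fun _ _ => 0)
    (fun _ ih k l => if k < 10 ∧ l < 10 then
      min (wt k * gap (k + 1) (l + 1) + ih (k + 1) l) (wt l * gap (l + 1) (k + 1) + ih k (l + 1))
      else 0) n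

theorem vf_val : 7500000000 ≤ vf 20 0 0 := by decide +kernel

theorem levels {CX CY α β : ℕ → ℝ} {a : ℝ} (ha : 0 ≤ a) (X0 : ∀ k, 0 ≤ CX k) (Y0 : ∀ k, 0 ≤ CY k)
    (hX : ∀ k < 10, a ^ 2 * wt k / 10 ^ 4 * α (k + 1) + CX (k + 1) ≤ CX k)
    (hY : ∀ k < 10, a ^ 2 * wt k / 10 ^ 4 * β (k + 1) + CY (k + 1) ≤ CY k)
    (hc : ∀ k < 10, ∀ l < 10, a * gap (k + 1) (l + 1) / 10 ^ 6 ≤ α (k + 1)
      ∨ a * gap (l + 1) (k + 1) / 10 ^ 6 ≤ β (l + 1)) :
    3 / 4 * a ^ 3 ≤ CX 0 + CY 0 := by
  have key : ∀ n k l, a ^ 3 * vf n k l / 10 ^ 10 ≤ CX k + CY l := by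
    intro n
    induction n with
    | zero =>
      intro k l
      have : vf 0 k l = 0 := rfl
      rw [this]; simp only [Nat.cast_zero, mul_zero, zero_div]; linarith [X0 k, Y0 l]
    | succ n ih =>
      intro k l
      have e : vf (n + 1) k l = if k < 10 ∧ l < 10 then
        min (wt k * gap (k + 1) (l + 1) + vf n (k + 1) l) (wt l * gap (l + 1) (k + 1) + vf n k (l + 1))
        else 0 := rfl
      rw [e]
      split_ifs with h
      · have a3 : 0 ≤ a ^ 3 := by positivity
        rcases hc k h.1 l h.2 with h1 | h1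
        · have m1 : ((min (wt k * gap (k + 1) (l + 1) + vf n (k + 1) l)
              (wt l * gap (l + 1) (k + 1) + vf n k (l + 1)) : ℕ) : ℝ)
              ≤ wt k * gap (k + 1) (l + 1) + vf n (k + 1) l := by exact_mod_cast min_le_left _ _
          have m2 := mul_le_mul_of_nonneg_left m1 a3
          have m3 := mul_le_mul_of_nonneg_left h1 (show 0 ≤ a ^ 2 * wt k / 10 ^ 4 by positivity)
          have m4 := hX k h.1
          have m5 := ih (k + 1) l
          linarith
        · have m1 : ((min (wt k * gap (k + 1) (l + 1) + vf n (k + 1) l)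
              (wt l * gap (l + 1) (k + 1) + vf n k (l + 1)) : ℕ) : ℝ)
              ≤ wt l * gap (l + 1) (k + 1) + vf n k (l + 1) := by exact_mod_cast min_le_right _ _
          have m2 := mul_le_mul_of_nonneg_left m1 a3
          have m3 := mul_le_mul_of_nonneg_left h1 (show 0 ≤ a ^ 2 * wt l / 10 ^ 4 by positivity)
          have m4 := hY l h.2
          have m5 := ih k (l + 1)
          linarith
      · simp only [Nat.cast_zero, mul_zero, zero_div]; linarith [X0 k, Y0 l]
  have h1 := key 20 0 0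
  have h2 : (7500000000 : ℝ) ≤ vf 20 0 0 := by exact_mod_cast vf_val
  have h3 := mul_le_mul_of_nonneg_left h2 (show 0 ≤ a ^ 3 by positivity)
  linarith

end Pool.Agent.Fdf
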