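import Pool.Agent.Work.MP_f1799f_co.FdfStabB
import Pool.Agent.Work.MP_f1799f_co.FdfStabC

/-! Stability analysis, part D: two large parts force a large cost; the core contradiction. -/

namespace Pool.Agent.Fdf

variable {V : Type} {N A : V → V → ℝ} [Fintype V] {w : V → ℝ}

theorem cost_num1 {e a r p : ℝ} (e1 : e ≤ 0.11) (a0 : 0 ≤ a) (a1 : a ≤ 0.0578)
    (r0 : 0 ≤ r) (r1 : r ≤ 63) (h : 0.8266 * e - 3 * e ^ 2 + 3 * p ^ 2 < 3 * r ^ 2 * a ^ 2 / 10 ^ 4) :
    e ≤ 0.22 * a * r ^ 2 / 10 ^ 4 := by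
  by_contra hc
  push Not at hc
  have p2 := sq_nonneg p
  have r2 : r ^ 2 ≤ 3969 := by nlinarith
  have r3 := sq_nonneg r
  have y0 : 0 ≤ a * r ^ 2 := by positivity
  have y1 : a * (a * r ^ 2) ≤ 0.0578 * (a * r ^ 2) := mul_le_mul_of_nonneg_right a1 y0
  have y2 : a * r ^ 2 ≤ 0.0578 * 3969 := mul_le_mul a1 r2 r3 (by norm_num)
  have e0 : 0 ≤ e := by linarith
  rcases le_total e 0.0127 with h1 | h1
  · have := mul_le_mul_of_nonneg_left h1 e0
    linarith
  · have := mul_le_mul_of_nonneg_left e1 e0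
    linarith

theorem cost_num2 {e r p : ℝ} (e0 : 0 ≤ e) (e1 : e ≤ 0.11) (r0 : 0 ≤ r) (r1 : r ≤ 0.04)
    (hp : r - e ≤ p) : 3 * r ^ 2 ≤ 0.8266 * e - 3 * e ^ 2 + 3 * p ^ 2 := by
  rcases le_total e r with h | h
  · have h1 : (r - e) ^ 2 ≤ p ^ 2 := pow_le_pow_left₀ (by linarith) hp 2
    have := mul_le_mul_of_nonneg_left r1 e0
    linarith
  · have h1 := mul_le_mul_of_nonneg_left e1 e0
    have h2 := mul_le_mul_of_nonneg_left r1 r0
    have := sq_nonneg p
    linarith

theorem rho_le (k : ℕ) : (rho k : ℝ) ≤ 63 := by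
  have : rho k ≤ 63 := by
    by_cases h : k < 11
    · interval_cases k <;> simp [rho]
    · unfold rho
      rw [List.getD_eq_default _ _ (by simp; omega)]
      norm_num
  exact_mod_cast this

theorem wt_eq (k : ℕ) (hk : k < 10) :
    (wt k : ℝ) = 3 * (rho (k + 1) : ℝ) ^ 2 - 3 * (rho k : ℝ) ^ 2 := by
  interval_cases k <;> norm_num [wt, rho]

theorem gap_le {a y : ℝ} (k l : ℕ) (hy : 0 ≤ y)
    (h : a - a * rho l / 100 - 2 * (0.22 * a * (rho k : ℝ) ^ 2 / 10 ^ 4
      + 0.22 * a * (rho l : ℝ) ^ 2 / 10 ^ 4) ≤ y) : a * gap k l / 10 ^ 6 ≤ y := by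
  unfold gap
  rcases le_total (44 * (rho k ^ 2 + rho l ^ 2) + 10000 * rho l) 1000000 with h1 | h1
  · rw [Nat.cast_sub h1]
    push_cast
    linarith
  · rw [Nat.sub_eq_zero_of_le h1]
    simpa using hy

theorem two_parts (h0 : ∀ v, 0 ≤ w v) (hO : Og N A) (c : V → Fin 3)
    {i j k : Fin 3} (h3 : Tr3 i j k) {a : ℝ} (a0 : 0 ≤ a) (a1 : a ≤ 0.0578)
    (hk : (E w fun u => sm k (c u)) = 1 / 3 - a)
    (hi : 0.0578 ≤ E w fun u => sm i (c u)) (hj : 0.0578 ≤ E w fun u => sm j (c u))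
    (he : ∀ v, (E w fun u => df (sm (c v) (c u)) (N v u)) ≤ 0.11) :
    3 / 4 * a ^ 3 ≤ E w fun v => 0.8266 * (E w fun u => df (sm (c v) (c u)) (N v u))
      - 3 * (E w fun u => df (sm (c v) (c u)) (N v u)) ^ 2 + 3 * (1 / 3 - E w (A v)) ^ 2 := by
  classical
  set e : V → ℝ := fun v => E w fun u => df (sm (c v) (c u)) (N v u) with hed
  set cost : V → ℝ := fun v => 0.8266 * e v - 3 * e v ^ 2 + 3 * (1 / 3 - E w (A v)) ^ 2 with hcost
  show 3 / 4 * a ^ 3 ≤ E w cost
  have e0 : ∀ v, 0 ≤ e v := fun v => E_nonneg h0 fun u => df_nonneg (sm01 _ _) (hO.N01 _ _)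
  have c0 : ∀ v, 0 ≤ cost v := fun v => by
    have h1 := mul_le_mul_of_nonneg_left (he v) (e0 v)
    have h2 := sq_nonneg (1 / 3 - E w (A v))
    have h3 := e0 v
    simp only [hcost]
    linarith
  set L : ℕ → ℝ := fun n => 3 * (rho n : ℝ) ^ 2 * a ^ 2 / 10 ^ 4 with hL
  set Z : Fin 3 → ℕ → V → ℝ := fun t n v => sm t (c v) * if cost v < L n then 1 else 0 with hZ
  set B : Fin 3 → ℕ → ℝ := fun t n => E w fun v => sm t (c v) * if cost v < L n then 0 else 1 with hB
  set C : Fin 3 → ℕ → ℝ := fun t n => E w fun v => sm t (c v) * max (cost v - L n) 0 with hC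
  have Z01 : ∀ t n v, Z t n v = 0 ∨ Z t n v = 1 := fun t n v => by
    simp only [hZ]
    rcases sm01 t (c v) with h | h <;> rw [h] <;> split_ifs <;> simp
  have Z1 : ∀ t n v, Z t n v = 1 → c v = t ∧ cost v < L n := fun t n v h => by
    simp only [hZ] at h
    by_cases h1 : t = c v
    · refine ⟨h1.symm, ?_⟩
      by_contra h2
      simp [h2] at h
    · simp [sm_ne h1] at h
  have Zle : ∀ t n v, 0 ≤ Z t n v ∧ Z t n v ≤ sm t (c v) := fun t n v => by
    simp only [hZ]
    rcases sm01 t (c v) with h | h <;> rw [h] <;> split_ifs <;> simp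
  have B0 : ∀ t n, 0 ≤ B t n := fun t n => E_nonneg h0 fun v => by
    rcases sm01 t (c v) with h | h <;> rw [h] <;> split_ifs <;> simp
  have C0 : ∀ t n, 0 ≤ C t n := fun t n => E_nonneg h0 fun v => by
    rcases sm01 t (c v) with h | h <;> rw [h] <;> simp
  have Cstep : ∀ t, ∀ n < 10, a ^ 2 * wt n / 10 ^ 4 * B t (n + 1) + C t (n + 1) ≤ C t n := by
    intro t n hn
    have hw : a ^ 2 * wt n / 10 ^ 4 = L (n + 1) - L n := by rw [wt_eq n hn]; simp only [hL]; ring
    have hw0 : 0 ≤ L (n + 1) - L n := by rw [← hw]; positivity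
    rw [hw]
    simp only [hB, hC]
    rw [← E_mul_left, ← E_add]
    refine E_mono h0 fun v => ?_
    rcases sm01 t (c v) with h | h <;> rw [h]
    · simp
    · split_ifs with h1
      · rw [max_eq_right (by linarith)]
        simp
      · rw [max_eq_left (by linarith), max_eq_left (by linarith)]
        linarith
  have empty : ∀ t n, (¬∃ u, Z t n u = 1) → (E w fun u => sm t (c u)) ≤ B t n := by
    intro t n h
    refine E_mono h0 fun v => ?_
    have h1 : Z t n v = 0 := (Z01 t n v).resolve_right fun h2 => h ⟨v, h2⟩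
    simp only [hZ] at h1
    split_ifs at h1 ⊢ with h2
    · linarith
    · linarith
  have small : ∀ s t, s ≠ t → ∀ n m u, Z s n u = 1 →
      (E w fun z => Z s n z * (1 - N u z)) + (E w fun y => Z t m y * N u y)
        ≤ 0.22 * a * (rho n : ℝ) ^ 2 / 10 ^ 4 := by
    intro s t hst n m u hu
    obtain ⟨h1, h2⟩ := Z1 s n u hu
    refine le_trans ?_ (cost_num1 (he u) a0 a1 (Nat.cast_nonneg _) (rho_le n) h2)
    rw [← E_add]
    refine E_mono h0 fun z => ?_
    have b1 := Zle s n z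
    have b2 := Zle t m z
    rw [h1]
    unfold df
    by_cases h4 : s = c z
    · rw [sm_ne (show t ≠ c z from fun h => hst (h4.trans h.symm))] at b2
      rw [← h4, sm_self] at b1 ⊢
      rcases hO.N01 u z with h | h <;> rw [h] <;> linarith [b1.1, b1.2, b2.1, b2.2]
    · have b3 : sm t (c z) ≤ 1 := by rcases sm01 t (c z) with h | h <;> rw [h] <;> norm_num
      rw [sm_ne h4] at b1 ⊢
      rcases hO.N01 u z with h | h <;> rw [h] <;> linarith [b1.1, b1.2, b2.1, b2.2]
  have large : ∀ s t, Tr3 s t k → ∀ n m u, Z s n u = 1 →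
      a - a * rho n / 100 - (E w fun y => Z t m y * A u y) ≤ B t m := by
    intro s t hst n m u hu
    obtain ⟨h1, h2⟩ := Z1 s n u hu
    have d1 : (E w fun y => sm t (c y) * A u y) ≤ (E w fun y => Z t m y * A u y) + B t m := by
      simp only [hB]
      rw [← E_add]
      refine E_mono h0 fun y => ?_
      simp only [hZ]
      rcases sm01 t (c y) with h | h <;> rcases hO.A01 u y with h' | h' <;> rw [h, h'] <;>
        split_ifs <;> norm_num
    have d2 : E w (A u) ≤ e u + (E w fun y => sm t (c y) * A u y) + E w fun y => sm k (c y) := by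
      simp only [hed]
      rw [← E_add, ← E_add]
      refine E_mono h0 fun y => ?_
      have s1 := hst.sum (c y)
      have s2 := hO.sum u y
      rw [h1]
      unfold df
      rcases sm01 s (c y) with f1 | f1 <;> rcases sm01 t (c y) with f2 | f2 <;>
        rcases sm01 k (c y) with f3 | f3 <;> rcases hO.N01 u y with f4 | f4 <;>
        rcases hO.A01 y u with f5 | f5 <;> rcases hO.A01 u y with f6 | f6 <;>
        rw [f1, f2, f3] at s1 <;> rw [f4, f5, f6] at s2 <;> rw [f1, f2, f3, f4, f6] <;> linarith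
    by_contra hc
    push Not at hc
    have r0 : 0 ≤ a * rho n / 100 := by positivity
    have r1 : a * rho n / 100 ≤ 0.04 := by
      have := mul_le_mul a1 (rho_le n) (Nat.cast_nonneg _) (by norm_num)
      linarith
    have := cost_num2 (p := 1 / 3 - E w (A u)) (e0 u) (he u) r0 r1 (by linarith)
    simp only [hcost, hL] at h2
    linarith
  have gle : ∀ n m, a * gap n m / 10 ^ 6 ≤ 0.0578 := fun n m => by
    have h1 : (gap n m : ℝ) ≤ 1000000 := by exact_mod_cast Nat.sub_le _ _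
    have := mul_le_mul a1 h1 (Nat.cast_nonneg _) (by norm_num)
    linarith
  have h3' : Tr3 j i k := ⟨h3.1.symm, h3.2.2, h3.2.1⟩
  have key := levels (CX := C i) (CY := C j) (α := B i) (β := B j) a0 (C0 i) (C0 j) (Cstep i) (Cstep j)
    (by
      intro n _ m _
      by_cases nX : ∃ u, Z i (n + 1) u = 1
      · by_cases nY : ∃ u, Z j (m + 1) u = 1
        · rcases chain h0 hO (Z01 i (n + 1)) (Z01 j (m + 1)) (small i j h3.1 (n + 1) (m + 1))
            (small j i h3'.1 (m + 1) (n + 1)) nX nY with ⟨u, hu, h⟩ | ⟨u, hu, h⟩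
          · right
            have := large i j h3 (n + 1) (m + 1) u hu
            exact gap_le _ _ (B0 _ _) (by linarith)
          · left
            have := large j i h3' (m + 1) (n + 1) u hu
            exact gap_le _ _ (B0 _ _) (by linarith)
        · right; linarith [empty _ _ nY, gle (m + 1) (n + 1)]
      · left; linarith [empty _ _ nX, gle (n + 1) (m + 1)])
  refine le_trans key ?_
  simp only [hC]
  rw [← E_add]
  refine E_mono h0 fun v => ?_
  have l0 : L 0 = 0 := by simp [hL, rho]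
  rw [l0, sub_zero, max_eq_left (c0 v), ← add_mul]
  have s1 := h3.sum (c v)
  have s2 : 0 ≤ sm k (c v) := by rcases sm01 k (c v) with h | h <;> rw [h] <;> norm_num
  nlinarith [c0 v]

theorem size_bound {x y z : ℝ} (hs : x + y + z = 1) (h : x * x + y * y + z * z ≤ 1 / 3 + 1 / 200) :
    1 / 3 - 0.0578 ≤ x ∧ x ≤ 1 / 3 + 0.0578 := by
  have hz : z = 1 - x - y := by linarith
  subst hz
  have h1 : (x - 1 / 3) ^ 2 ≤ 0.0578 ^ 2 := by nlinarith [sq_nonneg (y - (1 - x) / 2)]
  have := abs_le_of_sq_le_sq' h1 (by norm_num)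
  constructor <;> linarith [this.1, this.2]

theorem core (h0 : ∀ v, 0 < w v) (h1 : ∑ v, w v = 1) (hO : Og N A)
    (hF : E3 w (bad N A) < 4 / 9) (kkt : ∀ v, (E w fun a => E w fun b => bad N A v a b) < 4 / 9)
    (c0 : V → Fin 3) (hc0 : Phi w N c0 ≤ 1 / 3 + 1 / 200)
    (hψ : (E w fun a => (1 / 3 - E w (A a)) ^ 2) ≤ 1 / 2000) : False := by
  have h0' : ∀ v, 0 ≤ w v := fun v => (h0 v).le
  obtain ⟨c, hc, hopt⟩ := exists_opt h0 hO c0
  set x : Fin 3 → ℝ := fun t => E w fun u => sm t (c u) with hxd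
  have hs : x 0 + x 1 + x 2 = 1 := col_sum h1 c tr012
  have hP : Phi w N c = 3 * (E w fun a => E w fun b => df (sm (c a) (c b)) (N a b))
      + (x 0 * x 0 + x 1 * x 1 + x 2 * x 2) := by
    have : (E w fun a => E w fun b => sm (c a) (c b)) = x 0 * x 0 + x 1 * x 1 + x 2 * x 2 :=
      E_fun_col c x
    rw [← this]
    simp only [Phi, E_add, E_mul_left]
  have W0 : 0 ≤ E w fun a => E w fun b => df (sm (c a) (c b)) (N a b) :=
    E_nonneg h0' fun a => E_nonneg h0' fun b => df_nonneg (sm01 _ _) (hO.N01 _ _)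
  have sq3 : 1 / 3 ≤ x 0 * x 0 + x 1 * x 1 + x 2 * x 2 := by
    have := mul_self_nonneg (x 0 - 1 / 3)
    have := mul_self_nonneg (x 1 - 1 / 3)
    have := mul_self_nonneg (x 2 - 1 / 3)
    linarith
  have hx : ∀ t, 1 / 3 - 0.0578 ≤ x t ∧ x t ≤ 1 / 3 + 0.0578 := by
    intro t
    rcases tr012.cases t with h | h | h <;> rw [h]
    · exact size_bound hs (by linarith)
    · exact size_bound (y := x 0) (z := x 2) (by linarith) (by linarith)
    · exact size_bound (y := x 0) (z := x 1) (by linarith) (by linarith)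
  have he : ∀ v, (E w fun u => df (sm (c v) (c u)) (N v u)) ≤ 0.11 := fun v =>
    defect_bound h0' h1 hO c (fun t => ⟨by linarith [(hx t).1], by linarith [(hx t).2]⟩)
      (by linarith) hψ v (hopt v) (kkt v)
  have g := global_bound h0' h1 hO c (fun t => (hx t).2)
  have tp : ∀ i j k, Tr3 i j k → x k ≤ 1 / 3 → 3 / 4 * (1 / 3 - x k) ^ 3 ≤ _ := fun i j k h hk =>
    two_parts h0' hO c h (a := 1 / 3 - x k) (by linarith) (by linarith [(hx k).1]) (by simp [hxd])
      (by linarith [(hx i).1]) (by linarith [(hx j).1]) he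
  have fin : ∀ p q r : ℝ, p + q + r = 1 → r ≤ 1 / 3 →
      -(3 / 4 * (1 / 3 - r) ^ 3) ≤ 3 * ((p - 1 / 3) * (q - 1 / 3) * (r - 1 / 3)) := by
    intro p q r h hr
    have hq : q = 1 - p - r := by linarith
    subst hq
    have := mul_nonneg (sub_nonneg.mpr hr) (sq_nonneg (p - (1 - r) / 2))
    nlinarith
  change 3 * ((x 0 - 1 / 3) * (x 1 - 1 / 3) * (x 2 - 1 / 3)) + _ ≤ _ at g
  by_cases a0 : x 0 ≤ 1 / 3
  · have t1 := tp 1 2 0 (by unfold Tr3; decide) a0
    have t2 := fin (x 1) (x 2) (x 0) (by linarith) a0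
    linarith
  · by_cases a1 : x 1 ≤ 1 / 3
    · have t1 := tp 0 2 1 (by unfold Tr3; decide) a1
      have t2 := fin (x 0) (x 2) (x 1) (by linarith) a1
      linarith
    · have t1 := tp 0 1 2 (by unfold Tr3; decide) (by linarith)
      have t2 := fin (x 0) (x 1) (x 2) (by linarith) (by linarith)
      linarith

end Pool.Agent.Fdf
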