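import Pool.Agent.Work.MP_f1799f_co.FdfFlag
import Pool.Agent.Work.MP_f1799f_co.FdfStabD

/-! The weighted Fon-der-Flaass inequality. -/

namespace Pool.Agent.Fdf

section
variable {V : Type} [Fintype V] {w : V → ℝ} {N A : V → V → ℝ}

theorem Phi_ge (h0 : ∀ v, 0 ≤ w v) (h1 : ∑ v, w v = 1) (hO : Og N A) (c : V → Fin 3) :
    1 / 3 ≤ Phi w N c := by
  set x : Fin 3 → ℝ := fun t => E w fun u => sm t (c u) with hxd
  have hs : x 0 + x 1 + x 2 = 1 := col_sum h1 c tr012
  have hP : Phi w N c = 3 * (E w fun a => E w fun b => df (sm (c a) (c b)) (N a b))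
      + (x 0 * x 0 + x 1 * x 1 + x 2 * x 2) := by
    have : (E w fun a => E w fun b => sm (c a) (c b)) = x 0 * x 0 + x 1 * x 1 + x 2 * x 2 :=
      E_fun_col c x
    rw [← this]
    simp only [Phi, E_add, E_mul_left]
  have W0 : 0 ≤ E w fun a => E w fun b => df (sm (c a) (c b)) (N a b) :=
    E_nonneg h0 fun a => E_nonneg h0 fun b => df_nonneg (sm01 _ _) (hO.N01 _ _)
  have := mul_self_nonneg (x 0 - 1 / 3)
  have := mul_self_nonneg (x 1 - 1 / 3)
  have := mul_self_nonneg (x 2 - 1 / 3)
  linarith

open Classical in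
/-- the relation code of an oriented graph given by indicators -/
noncomputable def code (A : V → V → ℝ) (u v : V) : ℕ :=
  if A u v = 1 then 1 else if A v u = 1 then 2 else 0

omit [Fintype V] in
theorem code_cases (hO : Og N A) (u v : V) :
    (code A u v = 0 ∧ N u v = 1 ∧ A u v = 0 ∧ A v u = 0)
      ∨ (code A u v = 1 ∧ N u v = 0 ∧ A u v = 1 ∧ A v u = 0)
      ∨ (code A u v = 2 ∧ N u v = 0 ∧ A u v = 0 ∧ A v u = 1) := by
  have s := hO.sum u v
  unfold code
  rcases hO.A01 u v with a | a <;> rcases hO.A01 v u with b | b <;> rcases hO.N01 u v with n | n <;>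
    first
      | (exfalso; linarith)
      | simp [a, b, n]

omit [Fintype V] in
theorem org_code (hO : Og N A) : Org (code A) where
  lt3 := fun x y => by rcases code_cases hO x y with h | h | h <;> omega
  flip := fun x y => by
    rcases code_cases hO x y with h | h | h <;> rcases code_cases hO y x with h' | h' | h' <;>
      first
        | omega
        | (exfalso; linarith [h.2.2.1, h.2.2.2, h'.2.2.1, h'.2.2.2])
  noC4 := fun u x w y h1 h2 h3 h4 h5 h6 => by
    have k1 : ∀ a b, code A a b = 1 → A a b = 1 := fun a b h => by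
      rcases code_cases hO a b with h' | h' | h'
      · omega
      · exact h'.2.2.1
      · omega
    have k0 : ∀ a b, code A a b = 0 → N a b = 1 := fun a b h => by
      rcases code_cases hO a b with h' | h' | h'
      · exact h'.2.1
      · omega
      · omega
    exact hO.c4 u x w y (k1 _ _ h1) (k1 _ _ h2) (k1 _ _ h3) (k1 _ _ h4) (k0 _ _ h5) (k0 _ _ h6)

omit [Fintype V] in
theorem iz_code (hO : Og N A) (u v : V) :
    (iz (code A u v) 0 : ℝ) = N u v ∧ (iz (code A u v) 1 : ℝ) = A u v
      ∧ (iz (code A u v) 2 : ℝ) = A v u := by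
  rcases code_cases hO u v with ⟨h, a, b, c⟩ | ⟨h, a, b, c⟩ | ⟨h, a, b, c⟩ <;>
    rw [h, a, b, c] <;> exact ⟨by norm_cast, by norm_cast, by norm_cast⟩

open Classical in
/-- the colouring defined by an edge -/
noncomputable def col (N : V → V → ℝ) (a b x : V) : Fin 3 :=
  if N a x = 1 then 0 else if N b x = 1 then 1 else 2

omit [Fintype V] in
theorem sm_col (hO : Og N A) (a b c d : V) :
    sm (col N a b c) (col N a b d) = N a c * N a d + (1 - N a c) * N b c * ((1 - N a d) * N b d)
      + (1 - N a c) * (1 - N b c) * ((1 - N a d) * (1 - N b d)) := by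
  unfold col sm
  rcases hO.N01 a c with h1 | h1 <;> rcases hO.N01 b c with h2 | h2 <;>
    rcases hO.N01 a d with h3 | h3 <;> rcases hO.N01 b d with h4 | h4 <;> simp [h1, h2, h3, h4]

omit [Fintype V] in
theorem ap6_code (hO : Og N A) (a b c d : V) :
    (ap6 (code A a b) (code A a c) (code A b c) (code A a d) (code A b d) (code A c d) : ℝ)
      = (1 - N a b) * (609 - 1800 * (3 * df (sm (col N a b c) (col N a b d)) (N c d)
          + sm (col N a b c) (col N a b d)))
        - 2000 * ((3 * A a b - 1) * (3 * A a c - 1)) + (72000 * bad N A a b c - 32000) := by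
  rw [sm_col hO]
  unfold ap6 apoly
  push_cast
  rw [(iz_code hO a b).1, (iz_code hO a b).2.1, (iz_code hO a b).2.2, (iz_code hO a c).1,
    (iz_code hO a c).2.1, (iz_code hO a c).2.2, (iz_code hO b c).1, (iz_code hO b c).2.1,
    (iz_code hO b c).2.2, (iz_code hO a d).1, (iz_code hO b d).1, (iz_code hO c d).1]
  unfold df bad maj
  ring

theorem core2 (h0 : ∀ v, 0 < w v) (h1 : ∑ v, w v = 1) (hO : Og N A)
    (hF : E3 w (bad N A) < 4 / 9) (kkt : ∀ v, (E w fun a => E w fun b => bad N A v a b) < 4 / 9) :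
    False := by
  have h0' : ∀ v, 0 ≤ w v := fun v => (h0 v).le
  have f := flag_ineq h0' h1 (org_code hO)
  simp only [ap6_code hO] at f
  have e : (E w fun a => E w fun b => E w fun c => E w fun d =>
      (1 - N a b) * (609 - 1800 * (3 * df (sm (col N a b c) (col N a b d)) (N c d)
          + sm (col N a b c) (col N a b d)))
        - 2000 * ((3 * A a b - 1) * (3 * A a c - 1)) + (72000 * bad N A a b c - 32000))
      = (E w fun a => E w fun b => (1 - N a b) * (609 - 1800 * Phi w N (col N a b)))
        - 18000 * (E w fun a => (1 / 3 - E w (A a)) ^ 2) + (72000 * E3 w (bad N A) - 32000) := by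
    have e1 : (E w fun a => E w fun b => E w fun c => (3 * A a b - 1) * (3 * A a c - 1))
        = 9 * E w fun a => (1 / 3 - E w (A a)) ^ 2 := by
      rw [← E_mul_left]
      refine E_congr w fun a => ?_
      simp only [E_mul_left, E_mul_right, E_sub, E_const h1]
      ring
    have e2 : ∀ a b, (E w fun c => E w fun d =>
        (1 - N a b) * (609 - 1800 * (3 * df (sm (col N a b c) (col N a b d)) (N c d)
          + sm (col N a b c) (col N a b d)))) = (1 - N a b) * (609 - 1800 * Phi w N (col N a b)) := by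
      intro a b
      simp only [E_mul_left, E_sub, E_const h1, Phi]
    have e3 : ∀ a b, (E w fun c => E w fun d =>
        (1 - N a b) * (609 - 1800 * (3 * df (sm (col N a b c) (col N a b d)) (N c d)
          + sm (col N a b c) (col N a b d)))
        - 2000 * ((3 * A a b - 1) * (3 * A a c - 1)) + (72000 * bad N A a b c - 32000))
        = (1 - N a b) * (609 - 1800 * Phi w N (col N a b))
          - 2000 * (E w fun c => (3 * A a b - 1) * (3 * A a c - 1))
          + (72000 * (E w fun c => bad N A a b c) - 32000) := by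
      intro a b
      rw [← e2]
      simp only [E_add, E_sub (V := V) w (fun c => E w fun d => _), E_sub, E_const h1]
      simp only [E_mul_left]
    simp only [e3]
    simp only [E_add, E_sub, E_const h1]
    simp only [E_mul_left (V := V) w 2000, E_mul_left (V := V) w 72000, e1, E3]
    ring
  rw [e] at f
  have ψ0 : 0 ≤ E w fun a => (1 / 3 - E w (A a)) ^ 2 := E_nonneg h0' fun a => sq_nonneg _
  have P9 : (E w fun a => E w fun b => (1 - N a b) * (609 - 1800 * Phi w N (col N a b))) ≤ 9 :=
    E_le_const h0' h1 fun a => E_le_const h0' h1 fun b => by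
      have := Phi_ge h0' h1 hO (col N a b)
      rcases hO.N01 a b with h | h <;> rw [h] <;> linarith
  obtain ⟨a, ha⟩ := exists_pos_of_E_pos h0'
    (show 0 < E w fun a => E w fun b => (1 - N a b) * (609 - 1800 * Phi w N (col N a b)) by linarith)
  obtain ⟨b, hb⟩ := exists_pos_of_E_pos h0' ha
  refine core h0 h1 hO hF kkt (col N a b) ?_ (by linarith)
  rcases hO.N01 a b with h | h <;> rw [h] at hb <;> linarith

omit [Fintype V] in
theorem bad01 (hO : Og N A) (a b c : V) : 0 ≤ bad N A a b c ∧ bad N A a b c ≤ 1 := by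
  unfold bad maj
  rcases code_cases hO a b with ⟨-, a1, a2, a3⟩ | ⟨-, a1, a2, a3⟩ | ⟨-, a1, a2, a3⟩ <;>
    rcases code_cases hO a c with ⟨-, b1, b2, b3⟩ | ⟨-, b1, b2, b3⟩ | ⟨-, b1, b2, b3⟩ <;>
    rcases code_cases hO b c with ⟨-, c1, c2, c3⟩ | ⟨-, c1, c2, c3⟩ | ⟨-, c1, c2, c3⟩ <;>
    rw [a1, a2, a3, b1, b2, b3, c1, c2, c3] <;> norm_num

theorem kkt_min (h0 : ∀ v, 0 ≤ w v) (h1 : ∑ v, w v = 1) (hO : Og N A)
    (hmin : ∀ w' : V → ℝ, (∀ v, 0 ≤ w' v) → ∑ v, w' v = 1 → E3 w (bad N A) ≤ E3 w' (bad N A))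
    (hF : E3 w (bad N A) < 4 / 9) (v : V) (hv : 0 < w v) :
    (E w fun a => E w fun b => bad N A v a b) < 4 / 9 := by
  classical
  by_contra hc
  push Not at hc
  set F := E3 w (bad N A) with hFd
  have F0 : 0 ≤ F := E_nonneg h0 fun a => E_nonneg h0 fun b => E_nonneg h0 fun c => (bad01 hO a b c).1
  set t := min (w v) ((4 / 9 - F) / 4) with ht
  have t0 : 0 < t := lt_min hv (by linarith)
  have t1 : t ≤ w v := min_le_left _ _
  have t2 : t ≤ (4 / 9 - F) / 4 := min_le_right _ _
  set w' : V → ℝ := fun u => (1 + t) * w u - (if u = v then 1 else 0) * t with hw'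
  have hE : ∀ g : V → ℝ, E w' g = (1 + t) * E w g - t * g v := by
    intro g
    simp only [E, hw', sub_mul, Finset.sum_sub_distrib, Finset.mul_sum, mul_assoc]
    simp
  have p0 : ∀ u, 0 ≤ w' u := by
    intro u
    simp only [hw']
    split_ifs with h
    · subst h; nlinarith
    · have := h0 u
      rw [zero_mul, sub_zero]; positivity
  have p1 : ∑ u, w' u = 1 := by
    have := hE (fun _ => 1)
    rw [E_const h1] at this
    simp only [E, mul_one] at this
    linarith
  have m := hmin w' p0 p1
  have s2 : (E w fun a => E w fun c => bad N A a v c) = E w fun a => E w fun b => bad N A v a b :=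
    E_congr w fun a => E_congr w fun c => by unfold bad maj; rw [hO.symm v a]; ring
  have s3 : (E w fun a => E w fun b => bad N A a b v) = E w fun a => E w fun b => bad N A v a b :=
    E_congr w fun a => E_congr w fun b => by unfold bad maj; rw [hO.symm v a, hO.symm v b]; ring
  have g1 : (E w fun a => bad N A a v v) ≤ 1 := E_le_const h0 h1 fun a => (bad01 hO _ _ _).2
  have g2 : (E w fun a => bad N A v a v) ≤ 1 := E_le_const h0 h1 fun a => (bad01 hO _ _ _).2
  have g3 : (E w fun a => bad N A v v a) ≤ 1 := E_le_const h0 h1 fun a => (bad01 hO _ _ _).2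
  have g4 := (bad01 hO v v v).1
  have ex : E3 w' (bad N A) = (1 + t) ^ 3 * F
      - 3 * t * (1 + t) ^ 2 * (E w fun a => E w fun b => bad N A v a b)
      + t ^ 2 * (1 + t) * ((E w fun a => bad N A a v v) + (E w fun a => bad N A v a v)
        + E w fun a => bad N A v v a) - t ^ 3 * bad N A v v v := by
    simp only [hFd, E3, hE, E_sub, E_mul_left, s2, s3]
    ring
  rw [ex] at m
  have u1 : t ^ 2 * (1 + t) * ((E w fun a => bad N A a v v) + (E w fun a => bad N A v a v)
      + E w fun a => bad N A v v a) ≤ t ^ 2 * (1 + t) * 3 :=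
    mul_le_mul_of_nonneg_left (by linarith) (by positivity)
  have u2 : 3 * t * (1 + t) ^ 2 * (4 / 9) ≤ 3 * t * (1 + t) ^ 2 * (E w fun a => E w fun b => bad N A v a b) :=
    mul_le_mul_of_nonneg_left hc (by positivity)
  have u3 : 0 ≤ t ^ 3 * bad N A v v v := by positivity
  have u4 : t * (3 * (4 / 9) * (1 + t) ^ 2 - (3 + 3 * t + t ^ 2) * F - 3 * t * (1 + t)) ≤ 0 := by
    linarith
  have u5 : 3 * (4 / 9) * (1 + t) ^ 2 - (3 + 3 * t + t ^ 2) * F - 3 * t * (1 + t) ≤ 0 := by
    by_contra h
    push Not at h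
    have := mul_pos t0 h
    linarith
  have u6 : (3 * t + t ^ 2) * F ≤ (3 * t + t ^ 2) * (4 / 9) :=
    mul_le_mul_of_nonneg_left hF.le (by positivity)
  have u7 : t * t ≤ t * (1 / 9) := mul_le_mul_of_nonneg_left (by linarith) t0.le
  nlinarith

theorem weighted (h0 : ∀ v, 0 ≤ w v) (h1 : ∑ v, w v = 1) (hO : Og N A) :
    4 / 9 ≤ E3 w (bad N A) := by
  classical
  have hcont : Continuous fun w : V → ℝ => E3 w (bad N A) := by
    unfold E3 E
    fun_prop
  obtain ⟨m, hm, hmin⟩ := (isCompact_stdSimplex ℝ V).exists_isMinOn ⟨w, h0, h1⟩ hcont.continuousOn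
  refine le_trans ?_ (hmin (show w ∈ stdSimplex ℝ V from ⟨h0, h1⟩))
  by_contra hF
  push Not at hF
  have kkt := kkt_min hm.1 hm.2 hO (fun w' a b => hmin (show w' ∈ stdSimplex ℝ V from ⟨a, b⟩)) hF
  have hE : ∀ g : V → ℝ, E m g = E (fun v : {v // 0 < m v} => m v) (fun v => g v) := by
    intro g
    unfold E
    rw [← Finset.sum_subtype (Finset.univ.filter fun v => 0 < m v) (by simp) (fun v => m v * g v)]
    refine (Finset.sum_filter_of_ne fun v _ h => ?_).symm
    rcases (hm.1 v).eq_or_lt with h' | h'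
    · rw [← h', zero_mul] at h; exact absurd rfl h
    · exact h'
  have hO' : Og (fun u v : {v // 0 < m v} => N u v) (fun u v => A u v) :=
    ⟨fun u v => hO.N01 u v, fun u v => hO.A01 u v, fun u v => hO.sum u v,
      fun u x w y => hO.c4 u x w y⟩
  refine core2 (w := fun v : {v // 0 < m v} => m v) (fun v => v.2) ?_ hO' ?_ ?_
  · have := hE (fun _ => 1)
    rw [E_const hm.2] at this
    simpa [E] using this.symm
  · simp only [E3, hE] at hF
    exact hF
  · intro v
    have := kkt v v.2
    simp only [hE] at this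
    exact this

end

end Pool.Agent.Fdf
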