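import Mathlib
import Pool.Agent.Work.MP_f1799f_co.FdfDefs

/-! Semantics of the low-level checker functions. -/

namespace Pool.Agent.Fdf

theorem sumL_eq (f : ℕ → ℕ) (l : List ℕ) : sumL f l = (l.map f).sum := by
  induction l with
  | nil => rfl
  | cons x l ih =>
    show f x + sumL f l = _
    simp [ih]

theorem band_true {x y : Bool} (h : band x y = true) : x = true ∧ y = true := by
  cases x
  · exact absurd h (by simp [band])
  · exact ⟨rfl, h⟩

theorem allN_true {f : ℕ → Bool} {n : ℕ} (h : allN f n = true) : ∀ i < n, f i = true := by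
  induction n with
  | zero => intro i hi; omega
  | succ m ih =>
    have h' : band (f m) (allN f m) = true := h
    obtain ⟨h1, h2⟩ := band_true h'
    intro i hi
    rcases Nat.lt_succ_iff_lt_or_eq.mp hi with h3 | h3
    · exact ih h2 i h3
    · rw [h3]; exact h1

theorem allL_true {f : ℕ → Bool} {l : List ℕ} (h : allL f l = true) : ∀ x ∈ l, f x = true := by
  induction l with
  | nil => intro x hx; simp at hx
  | cons y l ih =>
    have h' : band (f y) (allL f l) = true := h
    obtain ⟨h1, h2⟩ := band_true h'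
    intro x hx
    rcases List.mem_cons.mp hx with h3 | h3
    · rw [h3]; exact h1
    · exact ih h2 x h3

theorem anyL_false {f : ℕ → Bool} {l : List ℕ} (h : anyL f l = false) : ∀ x ∈ l, f x = false := by
  induction l with
  | nil => intro x hx; simp at hx
  | cons y l ih =>
    have h' : @Bool.rec (fun _ => Bool) (anyL f l) true (f y) = false := h
    intro x hx
    cases hy : f y
    · rw [hy] at h'
      rcases List.mem_cons.mp hx with h3 | h3
      · rw [h3]; exact hy
      · exact ih h' x h3
    · rw [hy] at h'; exact absurd h' (by simp)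

theorem force_eq {α : Type} (x : ℕ) (k : ℕ → α) : force x k = k x := by
  cases x <;> rfl

theorem enk_eq (T : ℕ → En) (k : ℕ) : enk T k = T k := by
  cases k <;> rfl

theorem nthD_mem {α : Type} (d : α) (l : List α) (i : ℕ) : nthD d l i = d ∨ nthD d l i ∈ l := by
  induction l generalizing i with
  | nil => left; rfl
  | cons x l ih =>
    cases i with
    | zero => right; exact List.mem_cons_self
    | succ m =>
      rcases ih m with h | h
      · left; exact h
      · right; exact List.mem_cons_of_mem _ h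

theorem dig_sum (B : ℕ) (f : ℕ → ℕ) (n : ℕ) (hf : ∀ j < n, f j < B) (j : ℕ) (hj : j < n) :
    (∑ i ∈ Finset.range n, f i * B ^ i) / B ^ j % B = f j := by
  have hB : 0 < B := lt_of_le_of_lt (Nat.zero_le _) (hf j hj)
  induction j generalizing f n with
  | zero =>
    obtain ⟨m, rfl⟩ : ∃ m, n = m + 1 := ⟨n - 1, by omega⟩
    rw [Finset.sum_range_succ']
    have : ∑ i ∈ Finset.range m, f (i + 1) * B ^ (i + 1) = B * ∑ i ∈ Finset.range m, f (i + 1) * B ^ i := by
      rw [Finset.mul_sum]; refine Finset.sum_congr rfl fun i _ => by ring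
    rw [this]
    simp [Nat.mod_eq_of_lt (hf 0 hj)]
  | succ j ih =>
    obtain ⟨m, rfl⟩ : ∃ m, n = m + 1 := ⟨n - 1, by omega⟩
    rw [Finset.sum_range_succ']
    have : ∑ i ∈ Finset.range m, f (i + 1) * B ^ (i + 1) = B * ∑ i ∈ Finset.range m, f (i + 1) * B ^ i := by
      rw [Finset.mul_sum]; refine Finset.sum_congr rfl fun i _ => by ring
    rw [this, pow_succ', ← Nat.div_div_eq_div_mul]
    have h0 : f 0 < B := hf 0 (by omega)
    have : (B * ∑ i ∈ Finset.range m, f (i + 1) * B ^ i + f 0 * B ^ 0) / B
        = ∑ i ∈ Finset.range m, f (i + 1) * B ^ i := by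
      rw [pow_zero, mul_one, Nat.mul_add_div hB, Nat.div_eq_of_lt h0, add_zero]
    rw [this]
    exact ih (fun i => f (i + 1)) m (fun i hi => hf (i + 1) (by omega)) (by omega)

theorem pk_eq (f : ℕ → ℕ) (n : ℕ) : pk f n = ∑ i ∈ Finset.range n, f i * (2 ^ 48) ^ i := by
  induction n with
  | zero => rfl
  | succ m ih =>
    show pk f m + (f m) <<< (48 * m) = _
    rw [Finset.sum_range_succ, ih, Nat.shiftLeft_eq, pow_mul]

/-- the signed entry of a packed column -/
noncomputable def lz (c i : ℕ) : ℤ := (lv c i : ℤ) - 1048576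

noncomputable def gram (cs : List ℕ) (i j : ℕ) : ℤ := (cs.map fun c => lz c i * lz c j).sum

theorem lv_lt (c i : ℕ) : lv c i < 2097152 := Nat.mod_lt _ (by norm_num)

theorem gram_bd (cs : List ℕ) (i j : ℕ) :
    -(cs.length * 1099511627776 : ℤ) ≤ gram cs i j ∧ gram cs i j ≤ cs.length * 1099511627776 := by
  induction cs with
  | nil => simp [gram]
  | cons c cs ih =>
    have h1 := lv_lt c i
    have h2 := lv_lt c j
    have a1 : -1048576 ≤ lz c i := by unfold lz; omega
    have a2 : lz c i ≤ 1048576 := by unfold lz; omega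
    have b1 : -1048576 ≤ lz c j := by unfold lz; omega
    have b2 : lz c j ≤ 1048576 := by unfold lz; omega
    have e : gram (c :: cs) i j = lz c i * lz c j + gram cs i j := by simp [gram]
    rw [e, List.length_cons]
    push_cast
    constructor <;> nlinarith [ih.1, ih.2]

theorem gram_symm (cs : List ℕ) (i j : ℕ) : gram cs i j = gram cs j i := by
  unfold gram; congr 1; refine List.map_congr_left fun c _ => mul_comm _ _

theorem gram_split (cs : List ℕ) (i j : ℕ) :
    ((sumL (fun c => Nat.add (Nat.mul (lv c i) (lv c j)) 1099511627776) cs : ℕ) : ℤ)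
      - (sumL (fun c => Nat.mul 1048576 (Nat.add (lv c i) (lv c j))) cs : ℕ) = gram cs i j := by
  rw [sumL_eq, sumL_eq]
  induction cs with
  | nil => simp [gram]
  | cons c cs ih =>
    have e : gram (c :: cs) i j = lz c i * lz c j + gram cs i j := by simp [gram]
    rw [e, ← ih]
    simp only [List.map_cons, List.sum_cons, Nat.add_eq, Nat.mul_eq, lz]
    push_cast
    ring

theorem xv_add (cs : List ℕ) (hl : cs.length ≤ 127) (i j : ℕ) :
    xv cs i j + sumL (fun c => Nat.add (Nat.mul (lv c i) (lv c j)) 1099511627776) cs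
      = 139637976727552 + sumL (fun c => Nat.mul 1048576 (Nat.add (lv c i) (lv c j))) cs := by
  have h1 := gram_split cs i j
  have h2 := (gram_bd cs i j).2
  unfold xv
  simp only [Nat.add_eq, Nat.sub_eq] at *
  omega

theorem xv_eq (cs : List ℕ) (hl : cs.length ≤ 127) (i j : ℕ) :
    (xv cs i j : ℤ) = 139637976727552 - gram cs i j := by
  have h1 := gram_split cs i j
  have h2 := xv_add cs hl i j
  omega

theorem sum_sumL (F : ℕ → ℕ → ℕ) (cs : List ℕ) (n B : ℕ) :
    ∑ j ∈ Finset.range n, sumL (fun c => F c j) cs * B ^ j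
      = sumL (fun c => ∑ j ∈ Finset.range n, F c j * B ^ j) cs := by
  induction cs with
  | nil => simp [sumL_eq]
  | cons c cs ih =>
    simp only [sumL_eq, List.map_cons, List.sum_cons] at *
    rw [← ih, ← Finset.sum_add_distrib]
    refine Finset.sum_congr rfl fun j _ => by ring

theorem mkRow_eq (cs : List ℕ) (hl : cs.length ≤ 127) (i : ℕ) :
    mkRow cs i = ∑ j ∈ Finset.range 126, xv cs i j * (2 ^ 48) ^ j := by
  have h1 : ∑ j ∈ Finset.range 126, xv cs i j * (2 ^ 48) ^ j
      + sumL (fun c => Nat.add (Nat.mul (lv c i) (spread c)) (Nat.mul 1099511627776 ones)) cs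
      = Nat.add (Nat.mul 139637976727552 ones)
        (sumL (fun c => Nat.mul 1048576 (Nat.add (Nat.mul (lv c i) ones) (spread c))) cs) := by
    have e1 : sumL (fun c => Nat.add (Nat.mul (lv c i) (spread c)) (Nat.mul 1099511627776 ones)) cs
        = ∑ j ∈ Finset.range 126,
          sumL (fun c => Nat.add (Nat.mul (lv c i) (lv c j)) 1099511627776) cs * (2 ^ 48) ^ j := by
      rw [sum_sumL (fun c j => Nat.add (Nat.mul (lv c i) (lv c j)) 1099511627776)]
      refine congrArg (fun g => sumL g cs) (funext fun c => ?_)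
      simp only [spread, ones, pk_eq, Nat.add_eq, Nat.mul_eq, Finset.mul_sum, ← Finset.sum_add_distrib]
      refine Finset.sum_congr rfl fun j _ => by ring
    have e2 : sumL (fun c => Nat.mul 1048576 (Nat.add (Nat.mul (lv c i) ones) (spread c))) cs
        = ∑ j ∈ Finset.range 126,
          sumL (fun c => Nat.mul 1048576 (Nat.add (lv c i) (lv c j))) cs * (2 ^ 48) ^ j := by
      rw [sum_sumL (fun c j => Nat.mul 1048576 (Nat.add (lv c i) (lv c j)))]
      refine congrArg (fun g => sumL g cs) (funext fun c => ?_)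
      simp only [spread, ones, pk_eq, Nat.add_eq, Nat.mul_eq, Finset.mul_sum, ← Finset.sum_add_distrib]
      refine Finset.sum_congr rfl fun j _ => by ring
    rw [e1, e2]
    simp only [ones, pk_eq, Nat.add_eq, Nat.mul_eq, Finset.mul_sum, ← Finset.sum_add_distrib]
    refine Finset.sum_congr rfl fun j _ => ?_
    have := xv_add cs hl i j
    simp only [Nat.add_eq, Nat.mul_eq] at this
    rw [← add_mul, this]; ring
  unfold mkRow
  rw [← h1]
  exact Nat.add_sub_cancel ..

theorem mkRow_dig (cs : List ℕ) (hl : cs.length ≤ 127) (i j : ℕ) (hj : j < 126) :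
    ((Nat.mod (Nat.shiftRight (mkRow cs i) (Nat.mul 48 j)) 281474976710656 : ℕ) : ℤ)
      = 139637976727552 - gram cs i j := by
  rw [← xv_eq cs hl]
  congr 1
  show mkRow cs i >>> (48 * j) % 281474976710656 = _
  rw [Nat.shiftRight_eq_div_pow, pow_mul, mkRow_eq cs hl]
  refine dig_sum (2 ^ 48) (xv cs i) 126 (fun k _ => ?_) j hj
  have h1 := xv_eq cs hl i k
  have h2 := (gram_bd cs i k).1
  omega

end Pool.Agent.Fdf
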