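import Pool.Agent.Work.MP_f1799f_co.FdfSoundA

/-! The six-vertex check computes the symmetrisation of an explicit flag expression. -/

namespace Pool.Agent.Fdf

/-- base 3 code of an ordered 4-tuple -/
noncomputable def kap {α : Type} (R : α → α → ℕ) (a b c d : α) : ℕ :=
  Nat.add (Nat.add (R a b) (Nat.add (m3 R a c) (m9 R b c)))
    (Nat.add (Nat.add (m27 R a d) (m81 R b d)) (m243 R c d))

noncomputable def leafv {α : Type} (T : ℕ → En) (R : α → α → ℕ) (a b c d e f : α) : ℕ :=
  (enk T (kap R a b c d)).go (q2 (enk T (kap R a b e f)) (enk T (kap R a b f e))) (q4 R a b c d e f)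

theorem p2_eq {α : Type} (T : ℕ → En) (R : α → α → ℕ) (a b c d e f : α) :
    p2 T R a b c d e f =
      ((leafv T R a b c d e f + (leafv T R a b c e d f + leafv T R a b c f d e))
        + (leafv T R a b d c e f + (leafv T R a b d e c f + leafv T R a b d f c e)))
      + ((leafv T R a b e c d f + (leafv T R a b e d c f + leafv T R a b e f c d))
        + (leafv T R a b f c d e + (leafv T R a b f d c e + leafv T R a b f e c d))) := rfl

structure Good (D : Dat) : Prop where
  hz : D.cz.length ≤ 127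
  hf : D.cf.length ≤ 127
  h4 : ∀ l ∈ D.c4, l.length ≤ 127
  ha : ∀ k < 729, -131072 ≤ apk k

theorem cs2_len {D : Dat} (hD : Good D) (r : ℕ) : (cs2 D r).length ≤ 127 := by
  rcases r with _ | _ | r
  · exact hD.hz
  · exact hD.hf
  · show ([] : List ℕ).length ≤ 127
    simp

theorem cs4_len {D : Dat} (hD : Good D) (k : ℕ) : (cs4 D k).length ≤ 127 := by
  unfold cs4
  rcases nthD_mem [] D.c4 (Nat.mod (Nat.shiftRight D.ty (Nat.mul 4 k)) 16) with h | h
  · rw [h]; simp
  · exact hD.h4 _ h

theorem ixv_lt (D : Dat) (k : ℕ) : ixv D k < 126 := Nat.mod_lt _ (by norm_num)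

theorem gram_act {cs : List ℕ} {i : ℕ} (h : act cs i = false) (j : ℕ) : gram cs i j = 0 := by
  have h1 := anyL_false h
  unfold gram
  refine List.sum_eq_zero fun x hx => ?_
  obtain ⟨c, hc, rfl⟩ := List.mem_map.mp hx
  have h2 := h1 c hc
  cases hb : Nat.beq (lv c i) 1048576
  · rw [hb] at h2; exact absurd h2 (by simp)
  · have := Nat.eq_of_beq_eq_true hb
    simp [lz, this]

theorem gram_nonE {cs : List ℕ} (h : nonE cs = false) (i j : ℕ) : gram cs i j = 0 := by
  cases cs with
  | nil => simp [gram]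
  | cons c cs => exact absurd h (by simp [nonE])

theorem go_eq (A sh row : ℕ) (cs : List ℕ) (b2 b4 : Bool) (u : ℕ → ℕ → ℕ) (v : ℕ → List ℕ → ℕ)
    (x y : ℤ) (hu : ∀ B : ℕ, (u B row : ℤ) = B + 279275953455104 - x)
    (hv : ∀ B : ℕ, (v B cs : ℤ) = B + 279275953455104 - y)
    (h2 : b2 = false → x = 0) (h4 : b4 = false → y = 0) :
    (((mkEn A sh row cs b2 b4).go u v : ℕ) : ℤ) = A + 558551906910208 - x - y := by
  cases b2 <;> cases b4
  · show ((A + 558551906910208 : ℕ) : ℤ) = _
    rw [h2 rfl, h4 rfl]; push_cast; ring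
  · show ((v (A + 279275953455104) cs : ℕ) : ℤ) = _
    rw [hv, h2 rfl]; push_cast; ring
  · show ((u (A + 279275953455104) row : ℕ) : ℤ) = _
    rw [hu, h4 rfl]; push_cast; ring
  · show ((v (u A row) cs : ℕ) : ℤ) = _
    rw [hv, hu]; ring

theorem mkEn_sh (A sh row : ℕ) (cs : List ℕ) (b2 b4 : Bool) : (mkEn A sh row cs b2 b4).sh = sh := by
  cases b2 <;> cases b4 <;> rfl

/-- the integer flag expression on an ordered 6-tuple -/
noncomputable def qz {α : Type} (D : Dat) (R : α → α → ℕ) (a b c d e f : α) : ℤ :=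
  131072 * ap6 (R a b) (R a c) (R b c) (R a d) (R b d) (R c d)
    - gram (cs4 D (kap R a b c d)) (g4 R a b c d e) (g4 R a b c d f)
    - gram (cs2 D (R a b)) (ixv D (kap R a b c d)) (ixv D (kap R a b e f))

theorem kap_val {α : Type} (R : α → α → ℕ) (a b c d : α) :
    kap R a b c d = R a b + 3 * R a c + 9 * R b c + 27 * R a d + 81 * R b d + 243 * R c d := by
  simp only [kap, m3, m9, m27, m81, m243, Nat.add_eq, Nat.mul_eq]; ring

theorem leafv_eq {α : Type} {D : Dat} (hD : Good D) (R : α → α → ℕ) (hR : ∀ x y, R x y < 3)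
    (a b c d e f : α) :
    (leafv (ent D) R a b c d e f : ℤ) = 558586266648576 + qz D R a b c d e f + qz D R a b c d f e := by
  have hk := kap_val R a b c d
  have r1 := hR a b
  have r2 := hR a c
  have r3 := hR b c
  have r4 := hR a d
  have r5 := hR b d
  have r6 := hR c d
  have e1 : kap R a b c d % 3 = R a b := by omega
  have e2 : kap R a b c d / 3 % 3 = R a c := by omega
  have e3 : kap R a b c d / 9 % 3 = R b c := by omega
  have e4 : kap R a b c d / 27 % 3 = R a d := by omega
  have e5 : kap R a b c d / 81 % 3 = R b d := by omega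
  have e6 : kap R a b c d / 243 = R c d := by omega
  have ea : apk (kap R a b c d) = ap6 (R a b) (R a c) (R b c) (R a d) (R b d) (R c d) := by
    unfold apk; rw [e1, e2, e3, e4, e5, e6]
  have hav : (av (kap R a b c d) : ℤ)
      = 262144 * ap6 (R a b) (R a c) (R b c) (R a d) (R b d) (R c d) + 34359738368 := by
    have := hD.ha (kap R a b c d) (by omega)
    unfold av
    rw [Int.toNat_of_nonneg (by omega), ea]
  unfold leafv
  rw [enk_eq, enk_eq, enk_eq]
  conv_lhs => rw [ent]
  rw [go_eq _ _ _ _ _ _ _ _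
    (gram (cs2 D (R a b)) (ixv D (kap R a b c d)) (ixv D (kap R a b e f))
      + gram (cs2 D (R a b)) (ixv D (kap R a b c d)) (ixv D (kap R a b f e)))
    (2 * gram (cs4 D (kap R a b c d)) (g4 R a b c d e) (g4 R a b c d f))]
  · rw [hav]
    unfold qz
    rw [gram_symm (cs4 D (kap R a b c d)) (g4 R a b c d f)]
    ring
  · intro B
    unfold q2
    simp only [ent, mkEn_sh, Nat.add_eq, e1]
    rw [Nat.cast_add, Nat.cast_add, mkRow_dig _ (cs2_len hD _) _ _ (ixv_lt D _), mkRow_dig _ (cs2_len hD _) _ _ (ixv_lt D _)]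
    ring
  · intro B
    unfold q4
    simp only [Nat.add_eq, Nat.mul_eq]
    push_cast
    rw [xv_eq _ (cs4_len hD _)]
    ring
  · intro h
    rw [e1] at h
    rw [gram_act h, gram_act h]; ring
  · intro h
    rw [gram_nonE h]; ring

section
variable {α : Type} (q : α → α → α → α → α → α → ℝ)

def S2 (a b c d e f : α) : ℝ := q a b c d e f + q a b c d f e
def S3 (a b c d e f : α) : ℝ := S2 q a b c d e f + S2 q a b c e d f + S2 q a b c f d e
def S4 (a b c d e f : α) : ℝ :=
  S3 q a b c d e f + S3 q a b d c e f + S3 q a b e c d f + S3 q a b f c d e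
def S5 (a b c d e f : α) : ℝ :=
  S4 q a b c d e f + S4 q a c b d e f + S4 q a d b c e f + S4 q a e b c d f + S4 q a f b c d e
def S6 (a b c d e f : α) : ℝ :=
  S5 q a b c d e f + S5 q b a c d e f + S5 q c a b d e f + S5 q d a b c e f + S5 q e a b c d f
    + S5 q f a b c d e

variable (a b c d e f : α)

theorem S2_5 : S2 q a b c d f e = S2 q a b c d e f := by unfold S2; ring
theorem S3_5 : S3 q a b c d f e = S3 q a b c d e f := by
  unfold S3; rw [S2_5 q a b c d e f]; ring
theorem S3_4 : S3 q a b c e d f = S3 q a b c d e f := by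
  unfold S3; rw [S2_5 q a b c f d e]; ring
theorem S4_5 : S4 q a b c d f e = S4 q a b c d e f := by
  unfold S4; rw [S3_5 q a b c d e f, S3_5 q a b d c e f]; ring
theorem S4_4 : S4 q a b c e d f = S4 q a b c d e f := by
  unfold S4; rw [S3_4 q a b c d e f, S3_5 q a b f c d e]; ring
theorem S4_3 : S4 q a b d c e f = S4 q a b c d e f := by
  unfold S4; rw [S3_4 q a b e c d f, S3_4 q a b f c d e]; ring
theorem S5_5 : S5 q a b c d f e = S5 q a b c d e f := by
  unfold S5; rw [S4_5 q a b c d e f, S4_5 q a c b d e f, S4_5 q a d b c e f]; ring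
theorem S5_4 : S5 q a b c e d f = S5 q a b c d e f := by
  unfold S5; rw [S4_4 q a b c d e f, S4_4 q a c b d e f, S4_5 q a f b c d e]; ring
theorem S5_3 : S5 q a b d c e f = S5 q a b c d e f := by
  unfold S5; rw [S4_3 q a b c d e f, S4_4 q a e b c d f, S4_4 q a f b c d e]; ring
theorem S5_2 : S5 q a c b d e f = S5 q a b c d e f := by
  unfold S5; rw [S4_3 q a d b c e f, S4_3 q a e b c d f, S4_3 q a f b c d e]; ring
theorem S6_5 : S6 q a b c d f e = S6 q a b c d e f := by
  unfold S6; rw [S5_5 q a b c d e f, S5_5 q b a c d e f, S5_5 q c a b d e f, S5_5 q d a b c e f]; ring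
theorem S6_4 : S6 q a b c e d f = S6 q a b c d e f := by
  unfold S6; rw [S5_4 q a b c d e f, S5_4 q b a c d e f, S5_4 q c a b d e f, S5_5 q f a b c d e]; ring
theorem S6_3 : S6 q a b d c e f = S6 q a b c d e f := by
  unfold S6; rw [S5_3 q a b c d e f, S5_3 q b a c d e f, S5_4 q e a b c d f, S5_4 q f a b c d e]; ring
theorem S6_2 : S6 q a c b d e f = S6 q a b c d e f := by
  unfold S6; rw [S5_2 q a b c d e f, S5_3 q d a b c e f, S5_3 q e a b c d f, S5_3 q f a b c d e]; ring
theorem S6_1 : S6 q b a c d e f = S6 q a b c d e f := by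
  unfold S6; rw [S5_2 q c a b d e f, S5_2 q d a b c e f, S5_2 q e a b c d f, S5_2 q f a b c d e]; ring

theorem S6_perm (σ : Equiv.Perm (Fin 6)) : ∀ v : Fin 6 → α,
    S6 q (v (σ 0)) (v (σ 1)) (v (σ 2)) (v (σ 3)) (v (σ 4)) (v (σ 5))
      = S6 q (v 0) (v 1) (v 2) (v 3) (v 4) (v 5) := by
  have hσ : σ ∈ Submonoid.closure (Set.range fun i : Fin 5 => Equiv.swap i.castSucc i.succ) := by
    rw [Equiv.Perm.mclosure_swap_castSucc_succ]; trivial
  induction hσ using Submonoid.closure_induction with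
  | mem x hx =>
    obtain ⟨i, rfl⟩ := hx
    intro v
    fin_cases i
    · exact S6_1 q _ _ _ _ _ _
    · exact S6_2 q _ _ _ _ _ _
    · exact S6_3 q _ _ _ _ _ _
    · exact S6_4 q _ _ _ _ _ _
    · exact S6_5 q _ _ _ _ _ _
  | one => intro v; rfl
  | mul x y _ _ hx hy =>
    intro v
    exact (hy (fun i => v (x i))).trans (hx v)

end

theorem s0_eq {α : Type} {D : Dat} (hD : Good D) (R : α → α → ℕ) (hR : ∀ x y, R x y < 3)
    (a b c d e f : α) :
    ((s0 (p2 (ent D) R) a b c d e f : ℕ) : ℝ)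
      = 201091055993487360 + S6 (fun a b c d e f => (qz D R a b c d e f : ℝ)) a b c d e f := by
  have h2 : ∀ a b c d e f : α, ((leafv (ent D) R a b c d e f : ℕ) : ℝ)
      = 558586266648576 + S2 (fun a b c d e f => (qz D R a b c d e f : ℝ)) a b c d e f := by
    intro a b c d e f
    have := leafv_eq hD R hR a b c d e f
    have h' : (((leafv (ent D) R a b c d e f : ℕ) : ℤ) : ℝ) = _ := congrArg (fun z : ℤ => (z : ℝ)) this
    push_cast at h'
    rw [h', S2]; ring
  have h4 : ∀ a b c d e f : α, ((p2 (ent D) R a b c d e f : ℕ) : ℝ)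
      = 12 * 558586266648576 + S4 (fun a b c d e f => (qz D R a b c d e f : ℝ)) a b c d e f := by
    intro a b c d e f
    rw [p2_eq]
    push_cast
    simp only [h2, S4, S3]
    ring
  have h5 : ∀ a b c d e f : α, ((s1 (p2 (ent D) R) a b c d e f : ℕ) : ℝ)
      = 60 * 558586266648576 + S5 (fun a b c d e f => (qz D R a b c d e f : ℝ)) a b c d e f := by
    intro a b c d e f
    unfold s1
    simp only [Nat.add_eq]
    push_cast
    simp only [h4, S5]
    ring
  unfold s0
  simp only [Nat.add_eq]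
  push_cast
  simp only [h5, S6]
  ring

end Pool.Agent.Fdf
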