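import Pool.Agent.Work.MP_f1799f_co.FdfSoundB

/-! Soundness of the isomorphism cover. -/

namespace Pool.Agent.Fdf

/-- a coded oriented graph without induced directed 4-cycle -/
structure Org {V : Type} (R : V → V → ℕ) : Prop where
  lt3 : ∀ x y, R x y < 3
  flip : ∀ x y, R y x = 2 * R x y % 3
  noC4 : ∀ u x w y, R u x = 1 → R x w = 1 → R w y = 1 → R y u = 1 → R u w = 0 → R x y = 0 → False

variable {V : Type} {R : V → V → ℕ}

def Rep (R : V → V → ℕ) (n h : ℕ) (v : ℕ → V) : Prop :=
  ∀ i j, i < j → j < n → dg h i j = R (v i) (v j)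

def IsP (n : ℕ) (p : ℕ → ℕ) : Prop :=
  (∀ j < n, p j < n) ∧ ∀ i < n, ∀ j < n, p i = p j → i = j

def Cov (R : V → V → ℕ) (n : ℕ) (S : ℕ → Prop) : Prop :=
  ∀ v : ℕ → V, ∃ p, IsP n p ∧ ∃ h, S h ∧ Rep R n h (fun i => v (p i))

theorem Org.diag (hR : Org R) (x : V) : R x x = 0 := by
  have h1 := hR.flip x x
  have h2 := hR.lt3 x x
  omega

theorem rn_rep (hR : Org R) {n h : ℕ} {v : ℕ → V} (hv : Rep R n h v) {a b : ℕ} (ha : a < n)
    (hb : b < n) : rn h a b = R (v a) (v b) := by
  unfold rn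
  cases h1 : Nat.ble b a
  · have : a < b := by
      by_contra hc
      have := Nat.ble_eq_true_of_le (Nat.le_of_not_lt hc)
      rw [h1] at this; exact absurd this (by simp)
    exact hv a b this hb
  · have h2 := Nat.le_of_ble_eq_true h1
    cases h3 : Nat.ble a b
    · have : b < a := by
        by_contra hc
        have := Nat.ble_eq_true_of_le (Nat.le_of_not_lt hc)
        rw [h3] at this; exact absurd this (by simp)
      show 2 * dg h b a % 3 = _
      rw [hv b a this ha, hR.flip (v b) (v a)]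
    · have h4 := Nat.le_of_ble_eq_true h3
      have : a = b := by omega
      subst this
      exact (hR.diag _).symm

theorem allD_true {f : ℕ → ℕ → Bool} (d : ℕ → ℕ) (hd : ∀ i, d i < 3) (n : ℕ) :
    ∀ c t, allD f n c t = true → ∃ t', f (c * 4 ^ n + ∑ i ∈ Finset.range n, d i * 4 ^ i) t' = true := by
  induction n with
  | zero => intro c t h; exact ⟨t, by rw [pow_zero, mul_one, Finset.sum_range_zero, add_zero]; exact h⟩
  | succ m ih =>
    intro c t h
    have h' : band (allD f m (4 * c) (3 * t)) (band (allD f m (4 * c + 1) (3 * t + 1))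
      (allD f m (4 * c + 2) (3 * t + 2))) = true := h
    obtain ⟨h0, h12⟩ := band_true h'
    obtain ⟨h1, h2⟩ := band_true h12
    have key : ∃ t', allD f m (4 * c + d m) t' = true := by
      have := hd m
      interval_cases d m
      · exact ⟨_, h0⟩
      · exact ⟨_, h1⟩
      · exact ⟨_, h2⟩
    obtain ⟨t1, ht1⟩ := key
    obtain ⟨t', ht'⟩ := ih _ _ ht1
    refine ⟨t', ?_⟩
    rw [← ht', Finset.sum_range_succ]
    congr 1
    ring

theorem dg_eq (h a b : ℕ) : dg h a b = h / 2 ^ (b * (b - 1) + 2 * a) % 4 := by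
  show h >>> (b * (b - 1) + 2 * a) % 4 = _
  rw [Nat.shiftRight_eq_div_pow]

theorem rep_ext (hR : Org R) {n H : ℕ} {v : ℕ → V} (hv : Rep R n H v)
    (hH : H >>> (n * (n - 1)) = 0) :
    Rep R (n + 1) (H + (∑ i ∈ Finset.range n, R (v i) (v n) * 4 ^ i) <<< (n * (n - 1))) v := by
  intro i j hij hj
  rw [Nat.shiftRight_eq_div_pow] at hH
  have hlt : H < 2 ^ (n * (n - 1)) := by
    rcases Nat.div_eq_zero_iff.mp hH with h | h
    · exact absurd h (by positivity)
    · exact h
  rw [dg_eq, Nat.shiftLeft_eq]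
  set c := ∑ i ∈ Finset.range n, R (v i) (v n) * 4 ^ i with hc
  rcases Nat.lt_succ_iff_lt_or_eq.mp hj with h | h
  · rw [← hv i j hij h, dg_eq]
    have hle : j * (j - 1) + 2 * i + 2 ≤ n * (n - 1) := by
      obtain ⟨k, rfl⟩ : ∃ k, j = k + 1 := ⟨j - 1, by omega⟩
      obtain ⟨m, rfl⟩ : ∃ m, n = m + 1 := ⟨n - 1, by omega⟩
      simp only [Nat.add_sub_cancel]
      have h1 : k + 1 ≤ m := by omega
      have h2 : i ≤ k := by omega
      nlinarith
    obtain ⟨e, he⟩ := Nat.exists_eq_add_of_le hle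
    rw [he]
    have : c * 2 ^ (j * (j - 1) + 2 * i + 2 + e) = 2 ^ (j * (j - 1) + 2 * i) * (4 * (c * 2 ^ e)) := by
      ring
    rw [this, Nat.add_mul_div_left _ _ (by positivity), Nat.add_mul_mod_self_left]
  · subst h
    rw [pow_add, ← Nat.div_div_eq_div_mul, Nat.add_mul_div_right _ _ (by positivity),
      Nat.div_eq_of_lt hlt, zero_add, pow_mul]
    exact dig_sum 4 (fun i => R (v i) (v j)) j (fun k _ => lt_trans (hR.lt3 _ _) (by norm_num)) i hij

theorem pok_true {n p : ℕ} (h : pok n p = true) : IsP n (pv p) := by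
  have h1 := allN_true h
  have hne : ∀ i j, i < j → j < n → pv p i ≠ pv p j := by
    intro i j hij hj he
    have h2 := allN_true (band_true (h1 j hj)).2 i hij
    have h3 : Nat.beq (pv p i) (pv p j) = true := by rw [he]; exact Nat.beq_refl _
    rw [h3] at h2
    exact absurd h2 (by simp)
  refine ⟨fun j hj => Nat.le_of_ble_eq_true (band_true (h1 j hj)).1, fun i hi j hj he => ?_⟩
  rcases lt_trichotomy i j with h | h | h
  · exact absurd he (hne i j h hj)
  · exact h
  · exact absurd he.symm (hne j i h hi)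

theorem iso_true (hR : Org R) {n E K p : ℕ} {v : ℕ → V} (hv : Rep R n E v)
    (h : iso n E K p = true) : IsP n (pv p) ∧ Rep R n K (fun i => v (pv p i)) := by
  obtain ⟨h1, h2⟩ := band_true h
  have hP := pok_true h1
  refine ⟨hP, fun i j hij hj => ?_⟩
  have h3 := Nat.eq_of_beq_eq_true (allN_true (allN_true h2 j hj) i hij)
  have h4 : dg K i j = (E >>> sft p i j) % 4 * mlt p i j % 3 := h3
  rw [h4]
  have ha := hP.1 i (by omega)
  have hb := hP.1 j hj
  have hne : pv p i ≠ pv p j := fun he => by have := hP.2 i (by omega) j hj he; omega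
  unfold sft mlt
  cases h5 : Nat.ble (pv p j) (pv p i)
  · have hlt : pv p i < pv p j := by
      by_contra hc
      have := Nat.ble_eq_true_of_le (Nat.le_of_not_lt hc)
      rw [h5] at this; exact absurd this (by simp)
    show dg E (pv p i) (pv p j) * 1 % 3 = _
    rw [hv _ _ hlt hb, mul_one, Nat.mod_eq_of_lt (hR.lt3 _ _)]
  · have hle := Nat.le_of_ble_eq_true h5
    show dg E (pv p j) (pv p i) * 2 % 3 = _
    rw [hv _ _ (by omega) ha, mul_comm]
    exact (hR.flip _ _).symm

theorem bad4_false (hR : Org R) {n E p : ℕ} {v : ℕ → V} (hv : Rep R n E v)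
    (h : bad4 n E p = true) : False := by
  obtain ⟨h0, h⟩ := band_true h
  obtain ⟨h1, h⟩ := band_true h
  obtain ⟨h2, h⟩ := band_true h
  obtain ⟨h3, h⟩ := band_true h
  obtain ⟨h4, h⟩ := band_true h
  obtain ⟨h5, h6⟩ := band_true h
  have hb : ∀ j < 4, pv p j < n := fun j hj => Nat.le_of_ble_eq_true (allN_true h0 j hj)
  have b0 := hb 0 (by norm_num)
  have b1 := hb 1 (by norm_num)
  have b2 := hb 2 (by norm_num)
  have b3 := hb 3 (by norm_num)
  rw [rn_rep hR hv b0 b1] at h1
  rw [rn_rep hR hv b1 b2] at h2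
  rw [rn_rep hR hv b2 b3] at h3
  rw [rn_rep hR hv b3 b0] at h4
  rw [rn_rep hR hv b0 b2] at h5
  rw [rn_rep hR hv b1 b3] at h6
  exact hR.noC4 _ _ _ _ (Nat.eq_of_beq_eq_true h1) (Nat.eq_of_beq_eq_true h2)
    (Nat.eq_of_beq_eq_true h3) (Nat.eq_of_beq_eq_true h4) (Nat.eq_of_beq_eq_true h5)
    (Nat.eq_of_beq_eq_true h6)

theorem cov_step (hR : Org R) {n : ℕ} {S : ℕ → Prop} (get : ℕ → ℕ) (hc : Cov R n S)
    (hS : ∀ H, S H → ∃ W, covH n (n + 1) (n * (n - 1)) get H W = true) :
    Cov R (n + 1) (fun h => ∃ i, h = get i) := by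
  intro v
  obtain ⟨p, hp, H, hH, hrep⟩ := hc v
  obtain ⟨W, hW⟩ := hS H hH
  obtain ⟨h0, h1⟩ := band_true hW
  set p' : ℕ → ℕ := fun i => if i = n then n else p i with hp'
  have hP' : IsP (n + 1) p' := by
    constructor
    · intro j hj
      by_cases h : j = n
      · simp [hp', h]
      · have := hp.1 j (by omega)
        simp only [hp', h, if_false]; omega
    · intro i hi j hj he
      by_cases h : i = n <;> by_cases h' : j = n
      · omega
      · have := hp.1 j (by omega)
        simp only [hp', h, h', if_false, if_true] at he; omega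
      · have := hp.1 i (by omega)
        simp only [hp', h, h', if_false, if_true] at he; omega
      · simp only [hp', h, h', if_false] at he
        exact hp.2 i (by omega) j (by omega) he
  have hrep' : Rep R n H (fun i => v (p' i)) := by
    intro i j hij hj
    have e1 : p' i = p i := by simp [hp', show i ≠ n by omega]
    have e2 : p' j = p j := by simp [hp', show j ≠ n by omega]
    simp only [e1, e2]
    exact hrep i j hij hj
  have hE := rep_ext hR hrep' (Nat.eq_of_beq_eq_true h0)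
  obtain ⟨t, ht⟩ := allD_true (fun i => R (v (p' i)) (v (p' n))) (fun i => hR.lt3 _ _) n 0 0 h1
  rw [zero_mul, zero_add] at ht
  generalize Nat.mod (Nat.shiftRight W (Nat.mul 33 t)) 8589934592 = w at ht
  unfold cov1 at ht
  cases hb : Nat.beq (Nat.shiftRight w 18) 32767
  · rw [hb] at ht
    have ht' : force (Nat.mod w 262144) (iso (n + 1) _ (get (Nat.shiftRight w 18))) = true := ht
    rw [force_eq] at ht'
    obtain ⟨hP, hK⟩ := iso_true hR hE ht'
    refine ⟨fun i => p' (pv (Nat.mod w 262144) i), ⟨fun j hj => hP'.1 _ (hP.1 j hj),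
      fun i hi j hj he => hP.2 i hi j hj (hP'.2 _ (hP.1 i hi) _ (hP.1 j hj) he)⟩, _, ⟨_, rfl⟩, hK⟩
  · rw [hb] at ht
    exact (bad4_false hR hE ht).elim

theorem covL_true {g : ℕ → ℕ → Bool} {l ws : List ℕ} (h : covL g l ws = true) :
    ∀ H ∈ l, ∃ W, g H W = true := by
  induction l generalizing ws with
  | nil => intro H hH; simp at hH
  | cons x l ih =>
    cases ws with
    | nil => exact absurd h (by simp [covL])
    | cons W ws =>
      have h' : band (g x W) (covL g l ws) = true := h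
      obtain ⟨h1, h2⟩ := band_true h'
      intro H hH
      rcases List.mem_cons.mp hH with h3 | h3
      · exact ⟨W, h3 ▸ h1⟩
      · exact ih h2 H h3

theorem Cov.mono {n : ℕ} {S S' : ℕ → Prop} (h : Cov R n S) (hS : ∀ x, S x → S' x) : Cov R n S' := by
  intro v
  obtain ⟨p, hp, H, hH, hrep⟩ := h v
  exact ⟨p, hp, H, hS H hH, hrep⟩

theorem cov_list (hR : Org R) {n : ℕ} {l l' : List ℕ} (h0 : 0 ∈ l') (hc : Cov R n (· ∈ l))
    (hS : ∀ H ∈ l, ∃ W, covH n (n + 1) (n * (n - 1)) (getL 0 l') H W = true) :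
    Cov R (n + 1) (· ∈ l') := by
  refine (cov_step hR _ hc hS).mono ?_
  rintro x ⟨i, rfl⟩
  unfold getL
  rw [force_eq]
  rcases nthD_mem 0 l' i with h | h
  · rw [h]; exact h0
  · exact h

theorem cov_one : Cov R 1 (· ∈ [0]) := by
  intro v
  refine ⟨fun i => i, ⟨fun j hj => hj, fun i _ j _ h => h⟩, 0, by simp, fun i j hij hj => by omega⟩

theorem s0_comp {α β : Type} (T : ℕ → En) (R : α → α → ℕ) (φ : β → α) (a b c d e f : β) :
    s0 (p2 T (fun x y => R (φ x) (φ y))) a b c d e f
      = s0 (p2 T R) (φ a) (φ b) (φ c) (φ d) (φ e) (φ f) := rfl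

/-- the pointwise six-vertex inequality -/
theorem S6_nonneg (hR : Org R) {D : Dat} (hD : Good D)
    (hc : Cov R 6 (fun h => phi (ent D) h = true)) (a b c d e f : V) :
    0 ≤ S6 (fun a b c d e f => (qz D R a b c d e f : ℝ)) a b c d e f := by
  let v : ℕ → V := fun i => [a, b, c, d, e].getD i f
  obtain ⟨p, hp, h, hphi, hrep⟩ := hc v
  have h1 : 201091055993487360 ≤ s0 (p2 (ent D) (rn h)) 0 1 2 3 4 5 := Nat.le_of_ble_eq_true hphi
  let π : Fin 6 → Fin 6 := fun i => ⟨p i, hp.1 i i.2⟩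
  have hinj : Function.Injective π := fun i j he =>
    Fin.ext (hp.2 i i.2 j j.2 (congrArg Fin.val he))
  let σ : Equiv.Perm (Fin 6) := Equiv.ofBijective π (Finite.injective_iff_bijective.mp hinj)
  let w : Fin 6 → V := fun i => v i
  have h2 : s0 (p2 (ent D) (rn h)) 0 1 2 3 4 5
      = s0 (p2 (ent D) (fun x y : Fin 6 => rn h x y)) 0 1 2 3 4 5 :=
    (s0_comp (ent D) (rn h) (Fin.val : Fin 6 → ℕ) 0 1 2 3 4 5).symm
  have h3 : (fun x y : Fin 6 => rn h x y) = fun x y : Fin 6 => R (w (σ x)) (w (σ y)) := by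
    funext x y
    exact rn_rep hR hrep x.2 y.2
  rw [h2, h3, s0_comp (ent D) R (fun x => w (σ x))] at h1
  have h4 : ((201091055993487360 : ℕ) : ℝ) ≤ _ := Nat.cast_le.mpr h1
  rw [s0_eq hD R hR.lt3, S6_perm _ σ w] at h4
  have h5 : S6 (fun a b c d e f => (qz D R a b c d e f : ℝ)) (w 0) (w 1) (w 2) (w 3) (w 4) (w 5)
    = S6 (fun a b c d e f => (qz D R a b c d e f : ℝ)) a b c d e f := rfl
  rw [h5] at h4
  push_cast at h4
  linarith

end Pool.Agent.Fdf
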