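import Pool.Agent.Work.MP_f1799f_co.FdfExp

/-! Stability analysis, part A: the optimal 3-colouring and the pointwise defect bound. -/

namespace Pool.Agent.Fdf

/-- indicator form of an oriented graph without induced directed 4-cycle -/
structure Og {V : Type} (N A : V → V → ℝ) : Prop where
  N01 : ∀ u v, N u v = 0 ∨ N u v = 1
  A01 : ∀ u v, A u v = 0 ∨ A u v = 1
  sum : ∀ u v, N u v + A u v + A v u = 1
  c4 : ∀ u x w y, A u x = 1 → A x w = 1 → A w y = 1 → A y u = 1 → N u w = 1 → N x y = 1 → False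

variable {V : Type} {N A : V → V → ℝ}

theorem Og.symm (h : Og N A) (u v : V) : N v u = N u v := by
  have h1 := h.sum u v
  have h2 := h.sum v u
  linarith

theorem Og.diag (h : Og N A) (v : V) : N v v = 1 := by
  have h1 := h.sum v v
  rcases h.A01 v v with h2 | h2 <;> rcases h.N01 v v with h3 | h3 <;> linarith

noncomputable def maj (p q r : ℝ) : ℝ := p * q + p * r + q * r - 2 * (p * q * r)

noncomputable def bad (N A : V → V → ℝ) (a b c : V) : ℝ :=
  maj (N a b) (N a c) (N b c) + A a b * A a c + A b a * A b c + A c a * A c b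

noncomputable def sm (i j : Fin 3) : ℝ := if i = j then 1 else 0

theorem sm01 (i j : Fin 3) : sm i j = 0 ∨ sm i j = 1 := by
  unfold sm; split_ifs <;> simp

theorem sm_symm (i j : Fin 3) : sm j i = sm i j := by
  unfold sm; by_cases h : i = j
  · simp [h]
  · simp [h, Ne.symm h]

theorem sm_self (i : Fin 3) : sm i i = 1 := by simp [sm]

theorem sm_ne {i j : Fin 3} (h : i ≠ j) : sm i j = 0 := by simp [sm, h]

/-- i, j, k are the three colours -/
def Tr3 (i j k : Fin 3) : Prop := i ≠ j ∧ i ≠ k ∧ j ≠ k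

theorem Tr3.cases {i j k : Fin 3} (h : Tr3 i j k) (t : Fin 3) : t = i ∨ t = j ∨ t = k := by
  obtain ⟨h1, h2, h3⟩ := h
  revert i j k t
  decide

theorem Tr3.sum {i j k : Fin 3} (h : Tr3 i j k) (t : Fin 3) : sm i t + sm j t + sm k t = 1 := by
  obtain ⟨h1, h2, h3⟩ := h
  rcases Tr3.cases ⟨h1, h2, h3⟩ t with e | e | e <;> subst e <;>
    simp [sm, h1, h2, h3, Ne.symm h1, Ne.symm h2, Ne.symm h3]

theorem Tr3.expand {i j k : Fin 3} (h : Tr3 i j k) (s t : Fin 3) :
    sm s t = sm i s * sm i t + sm j s * sm j t + sm k s * sm k t := by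
  obtain ⟨h1, h2, h3⟩ := h
  rcases Tr3.cases ⟨h1, h2, h3⟩ t with e | e | e <;>
    rcases Tr3.cases ⟨h1, h2, h3⟩ s with e' | e' | e' <;> subst e <;> subst e' <;>
    simp [sm, h1, h2, h3, Ne.symm h1, Ne.symm h2, Ne.symm h3]

theorem exists_tr3 (i : Fin 3) : ∃ j k, Tr3 i j k := by
  unfold Tr3; revert i; decide

theorem tr012 : Tr3 0 1 2 := by unfold Tr3; decide

/-- defect of a pair: same colour xor non-adjacent -/
noncomputable def df (s n : ℝ) : ℝ := s + n - 2 * (s * n)

theorem df_nonneg {s n : ℝ} (hs : s = 0 ∨ s = 1) (hn : n = 0 ∨ n = 1) : 0 ≤ df s n := by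
  unfold df; rcases hs with h | h <;> rcases hn with h' | h' <;> rw [h, h'] <;> norm_num

variable [Fintype V] {w : V → ℝ}

noncomputable def Phi (w : V → ℝ) (N : V → V → ℝ) (c : V → Fin 3) : ℝ :=
  E w fun a => E w fun b => 3 * df (sm (c a) (c b)) (N a b) + sm (c a) (c b)

theorem E_delta [DecidableEq V] (v : V) (y : ℝ) :
    E w (fun a => (if a = v then 1 else 0) * y) = w v * y := by
  unfold E
  rw [Finset.sum_eq_single v]
  · simp
  · intro b _ hb; simp [hb]
  · simp

theorem exists_opt (h0 : ∀ v, 0 < w v) (hO : Og N A) (c0 : V → Fin 3) :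
    ∃ c : V → Fin 3, Phi w N c ≤ Phi w N c0 ∧ ∀ v k,
      (E w fun u => 3 * df (sm (c v) (c u)) (N v u) + sm (c v) (c u))
        ≤ E w fun u => 3 * df (sm k (c u)) (N v u) + sm k (c u) := by
  classical
  obtain ⟨c, hc⟩ := Finite.exists_min (Phi w N)
  refine ⟨c, hc c0, fun v k => ?_⟩
  have h0' : ∀ v, 0 ≤ w v := fun v => (h0 v).le
  set H : V → ℝ := fun u => (3 * df (sm k (c u)) (N v u) + sm k (c u))
    - (3 * df (sm (c v) (c u)) (N v u) + sm (c v) (c u)) with hH
  have h1 := hc (Function.update c v k)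
  have h2 : Phi w N (Function.update c v k) - Phi w N c
      ≤ E w fun a => E w fun b => (if a = v then 1 else 0) * H b + (if b = v then 1 else 0) * H a := by
    unfold Phi
    rw [← E_sub]
    refine E_mono h0' fun a => ?_
    rw [← E_sub]
    refine E_mono h0' fun b => ?_
    by_cases ha : a = v <;> by_cases hb : b = v
    · subst ha; subst hb
      simp only [Function.update_self, sm_self, hO.diag, if_true, hH, df]
      rcases sm01 k (c b) with h | h <;> rw [h] <;> norm_num
    · subst ha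
      simp [hb, hH]
    · subst hb
      simp only [Function.update_of_ne ha, ha, hH, Function.update_self, if_true, if_false]
      rw [sm_symm k (c a), sm_symm (c b) (c a), hO.symm b a]
      linarith
    · simp [ha, hb]
  have h3 : (E w fun a => E w fun b => (if a = v then 1 else 0) * H b + (if b = v then 1 else 0) * H a)
      = 2 * (w v * E w H) := by
    simp only [E_add, E_mul_left, E_delta]
    ring
  have h4 : 0 ≤ E w H := by
    have : 0 ≤ w v * E w H := by linarith
    exact nonneg_of_mul_nonneg_right this (h0 v) |> fun h => h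
  rw [hH, E_sub] at h4
  linarith

theorem half_aux {x m : ℝ} (hx : 0.2755 ≤ x) (h0 : 0 ≤ m) (h1 : m ≤ x) :
    (0.2755 * m ≤ 2 * (m * (x - m))) ∨ (0.2755 * (x - m) ≤ 2 * (m * (x - m))) := by
  rcases le_total m (x / 2) with h | h
  · left; nlinarith
  · right; nlinarith

theorem num_defect {xi xj xk mi mj mk o W : ℝ} (hs : xi + xj + xk = 1)
    (li : 0.2755 ≤ xi) (lj : 0.2755 ≤ xj) (lk : 0.2755 ≤ xk)
    (_ui : xi ≤ 0.3912) (uj : xj ≤ 0.3912) (uk : xk ≤ 0.3912)
    (i0 : 0 ≤ mi) (j0 : 0 ≤ mj) (k0 : 0 ≤ mk) (i1 : mi ≤ xi) (j1 : mj ≤ xj) (k1 : mk ≤ xk)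
    (oj : 4 * xi - 6 * mi ≤ 4 * xj - 6 * mj) (ok : 4 * xi - 6 * mi ≤ 4 * xk - 6 * mk)
    (hW : W ≤ 1 / 600)
    (h : (mi + mj + mk) * (mi + mj + mk) + 2 * (mi * (xi - mi)) + 2 * (mj * (xj - mj))
      + 2 * (mk * (xk - mk)) - W + o * o + (47 / 75) * (1 - (mi + mj + mk) - o) - 1 / 80 < 4 / 9) :
    xi - mi + mj + mk ≤ 0.11 := by
  have s0 := mul_self_nonneg (o - 47 / 150)
  have t0 := mul_self_nonneg (mi + mj + mk - 47 / 150)
  have t1 := mul_self_nonneg (mi + mj + mk - 47 / 150 - 0.13775)
  have t2 := mul_self_nonneg (mi + mj + mk - 47 / 150 + 0.13775)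
  rcases half_aux li i0 i1 with a | a <;> rcases half_aux lj j0 j1 with b | b <;>
    rcases half_aux lk k0 k1 with c | c <;> linarith

theorem psi_aux {a : ℝ} (o : ℝ) (ha : a = 0 ∨ a = 1) :
    (47 / 150) * a - (25 / 2) * (1 / 3 - o) ^ 2 ≤ a * o := by
  rcases ha with h | h <;> rw [h] <;> nlinarith [sq_nonneg (1 / 3 - o), sq_nonneg (1 / 3 - o - 1 / 25)]

theorem maj_ge {p q n s : ℝ} (hp : p = 0 ∨ p = 1) (hq : q = 0 ∨ q = 1) (hn : n = 0 ∨ n = 1)
    (hs : s = 0 ∨ s = 1) : p * q + (p + q - 2 * (p * q)) * s - df s n ≤ maj p q n := by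
  unfold df maj
  rcases hp with h | h <;> rcases hq with h1 | h1 <;> rcases hn with h2 | h2 <;>
    rcases hs with h3 | h3 <;> rw [h, h1, h2, h3] <;> norm_num

theorem defect_bound (h0 : ∀ v, 0 ≤ w v) (h1 : ∑ v, w v = 1) (hO : Og N A) (c : V → Fin 3)
    (hx : ∀ t, 0.2755 ≤ (E w fun u => sm t (c u)) ∧ (E w fun u => sm t (c u)) ≤ 0.3912)
    (hW : (E w fun a => E w fun b => df (sm (c a) (c b)) (N a b)) ≤ 1 / 600)
    (hψ : (E w fun a => (1 / 3 - E w (A a)) ^ 2) ≤ 1 / 2000) (v : V)
    (hopt : ∀ k, (E w fun u => 3 * df (sm (c v) (c u)) (N v u) + sm (c v) (c u))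
        ≤ E w fun u => 3 * df (sm k (c u)) (N v u) + sm k (c u))
    (hv : (E w fun a => E w fun b => bad N A v a b) < 4 / 9) :
    (E w fun u => df (sm (c v) (c u)) (N v u)) ≤ 0.11 := by
  obtain ⟨j, k, h3⟩ := exists_tr3 (c v)
  set i := c v with hi
  set x : Fin 3 → ℝ := fun t => E w fun u => sm t (c u) with hxd
  set m : Fin 3 → ℝ := fun t => E w fun u => sm t (c u) * N v u with hm
  have hn : E w (N v) = m i + m j + m k := by
    simp only [hm, ← E_add]
    refine E_congr w fun u => ?_
    rw [← add_mul, ← add_mul, h3.sum, one_mul]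
  have hxs : x i + x j + x k = 1 := by
    simp only [hxd, ← E_add, h3.sum, E_const h1]
  have m0 : ∀ t, 0 ≤ m t := fun t => E_nonneg h0 fun u => by
    rcases sm01 t (c u) with h | h <;> rcases hO.N01 v u with h' | h' <;> rw [h, h'] <;> norm_num
  have m1 : ∀ t, m t ≤ x t := fun t => E_mono h0 fun u => by
    rcases sm01 t (c u) with h | h <;> rcases hO.N01 v u with h' | h' <;> rw [h, h'] <;> norm_num
  have he : ∀ t, (E w fun u => df (sm t (c u)) (N v u)) = x t + E w (N v) - 2 * m t := by
    intro t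
    simp only [df, E_add, E_sub, E_mul_left, hxd, hm]
  have hopt' : ∀ t, 4 * x i - 6 * m i ≤ 4 * x t - 6 * m t := by
    intro t
    have := hopt t
    simp only [E_add, E_mul_left, he] at this
    linarith
  -- the link density at v
  have a1 : (m i + m j + m k) * (m i + m j + m k) + 2 * (m i * (x i - m i)) + 2 * (m j * (x j - m j))
      + 2 * (m k * (x k - m k)) - (E w fun a => E w fun b => df (sm (c a) (c b)) (N a b))
      ≤ E w fun a => E w fun b => maj (N v a) (N v b) (N a b) := by
    have e : (E w fun a => E w fun b => N v a * N v b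
          + (N v a + N v b - 2 * (N v a * N v b)) * sm (c a) (c b) - df (sm (c a) (c b)) (N a b))
        = (m i + m j + m k) * (m i + m j + m k) + 2 * (m i * (x i - m i)) + 2 * (m j * (x j - m j))
      + 2 * (m k * (x k - m k)) - (E w fun a => E w fun b => df (sm (c a) (c b)) (N a b)) := by
      have e1 : ∀ a b, N v a * N v b
          + (N v a + N v b - 2 * (N v a * N v b)) * sm (c a) (c b) - df (sm (c a) (c b)) (N a b)
          = N v a * N v b
            + ((sm i (c a) * N v a) * sm i (c b) + sm i (c a) * (sm i (c b) * N v b)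
              - 2 * ((sm i (c a) * N v a) * (sm i (c b) * N v b)))
            + ((sm j (c a) * N v a) * sm j (c b) + sm j (c a) * (sm j (c b) * N v b)
              - 2 * ((sm j (c a) * N v a) * (sm j (c b) * N v b)))
            + ((sm k (c a) * N v a) * sm k (c b) + sm k (c a) * (sm k (c b) * N v b)
              - 2 * ((sm k (c a) * N v a) * (sm k (c b) * N v b)))
            - df (sm (c a) (c b)) (N a b) := by
        intro a b
        rw [show (N v a + N v b - 2 * (N v a * N v b)) * sm (c a) (c b)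
          = (N v a + N v b - 2 * (N v a * N v b)) * (sm i (c a) * sm i (c b) + sm j (c a) * sm j (c b)
            + sm k (c a) * sm k (c b)) by rw [← h3.expand]]
        ring
      simp only [e1, E_add, E_sub, E_mul_left, E_mul_right]
      rw [hn]
      simp only [hxd, hm]
      ring
    rw [← e]
    exact E_mono h0 fun a => E_mono h0 fun b =>
      maj_ge (hO.N01 _ _) (hO.N01 _ _) (hO.N01 _ _) (sm01 _ _)
  have a2 : (47 / 150) * (E w fun a => A a v) - 1 / 160 ≤ E w fun a => A a v * E w (A a) := by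
    have : (E w fun a => (47 / 150) * A a v - (25 / 2) * (1 / 3 - E w (A a)) ^ 2)
        ≤ E w fun a => A a v * E w (A a) := by
      exact E_mono h0 fun a => psi_aux _ (hO.A01 a v)
    simp only [E_sub, E_mul_left] at this
    linarith
  have a3 : E w (N v) + E w (A v) + (E w fun a => A a v) = 1 := by
    rw [← E_add, ← E_add]
    simp only [hO.sum, E_const h1]
  have a4 : (E w fun a => E w fun b => bad N A v a b)
      = (E w fun a => E w fun b => maj (N v a) (N v b) (N a b)) + E w (A v) * E w (A v)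
        + 2 * E w fun a => A a v * E w (A a) := by
    have e2 : (E w fun a => E w fun b => A b v * A b a) = E w fun a => A a v * E w (A a) := by
      rw [E_comm w (fun a b => A a v * A a b)]
      simp only [E_mul_left]
    simp only [bad, E_add, e2]
    simp only [E_mul_left, E_mul_right]
    ring
  rw [he, hn]
  rw [hn] at a3
  have := num_defect (o := E w (A v)) hxs (hx i).1 (hx j).1 (hx k).1 (hx i).2 (hx j).2 (hx k).2 (m0 i)
    (m0 j) (m0 k) (m1 i) (m1 j) (m1 k) (hopt' j) (hopt' k) hW (by linarith)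
  linarith

end Pool.Agent.Fdf
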