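import Pool.Agent.Work.MP_f1799f_co.FdfStabA

/-! Stability analysis, part B: the global lower bound in terms of pointwise costs. -/

namespace Pool.Agent.Fdf

variable {V : Type} {N A : V → V → ℝ} [Fintype V] {w : V → ℝ}

theorem maj_triple {p q r s1 s2 s3 : ℝ} (hp : p = 0 ∨ p = 1) (hq : q = 0 ∨ q = 1) (hr : r = 0 ∨ r = 1)
    (h : (s1 = 1 ∧ s2 = 1 ∧ s3 = 1) ∨ (s1 = 1 ∧ s2 = 0 ∧ s3 = 0) ∨ (s1 = 0 ∧ s2 = 1 ∧ s3 = 0)
      ∨ (s1 = 0 ∧ s2 = 0 ∧ s3 = 1) ∨ (s1 = 0 ∧ s2 = 0 ∧ s3 = 0)) :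
    s1 * s2 + (1 - s1) * p * (s2 + s3) + (1 - s2) * q * (s1 + s3) + (1 - s3) * r * (s1 + s2)
      - df s1 p * df s2 q - df s1 p * df s3 r - df s2 q * df s3 r ≤ maj p q r := by
  unfold df maj
  rcases h with ⟨a, b, c⟩ | ⟨a, b, c⟩ | ⟨a, b, c⟩ | ⟨a, b, c⟩ | ⟨a, b, c⟩ <;>
    rcases hp with h | h <;> rcases hq with h1 | h1 <;> rcases hr with h2 | h2 <;>
    rw [a, b, c, h, h1, h2] <;> norm_num

theorem sm_pattern (a b c : Fin 3) :
    (sm a b = 1 ∧ sm a c = 1 ∧ sm b c = 1) ∨ (sm a b = 1 ∧ sm a c = 0 ∧ sm b c = 0)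
      ∨ (sm a b = 0 ∧ sm a c = 1 ∧ sm b c = 0) ∨ (sm a b = 0 ∧ sm a c = 0 ∧ sm b c = 1)
      ∨ (sm a b = 0 ∧ sm a c = 0 ∧ sm b c = 0) := by
  by_cases h1 : a = b
  · subst h1
    by_cases h2 : a = c
    · subst h2; simp [sm]
    · simp [sm, h2]
  · by_cases h2 : a = c
    · subst h2; simp [sm, h1, Ne.symm h1]
    · by_cases h3 : b = c
      · subst h3; simp [sm, h1]
      · simp [sm, h1, h2, h3]

theorem E_fun_col (c : V → Fin 3) (φ : Fin 3 → ℝ) :
    (E w fun a => φ (c a)) = φ 0 * (E w fun u => sm 0 (c u)) + φ 1 * (E w fun u => sm 1 (c u))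
      + φ 2 * (E w fun u => sm 2 (c u)) := by
  rw [← E_mul_left, ← E_mul_left, ← E_mul_left, ← E_add, ← E_add]
  refine E_congr w fun a => ?_
  rcases tr012.cases (c a) with h | h | h <;> rw [h] <;> simp [sm]

theorem col_sum (h1 : ∑ v, w v = 1) (c : V → Fin 3) {i j k : Fin 3} (h : Tr3 i j k) :
    (E w fun u => sm i (c u)) + (E w fun u => sm j (c u)) + (E w fun u => sm k (c u)) = 1 := by
  simp only [← E_add, h.sum, E_const h1]

theorem F_ident (h1 : ∑ v, w v = 1) (hO : Og N A) :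
    E3 w (bad N A) = E3 w (fun a b c => maj (N a b) (N a c) (N b c))
      - (E w fun a => E w (N a)) + 2 / 3 + 3 * E w fun a => (1 / 3 - E w (A a)) ^ 2 := by
  have e1 : E3 w (fun a b c => A a b * A a c) = E w fun a => E w (A a) * E w (A a) := by
    simp only [E3, E_mul_left, E_mul_right]
  have e2 := E3_sw1 w (fun a b c => A a b * A a c)
  have e3 := E3_rot w (fun a b c => A a b * A a c)
  have e4 : E3 w (bad N A) = E3 w (fun a b c => maj (N a b) (N a c) (N b c))
      + E3 w (fun a b c => A a b * A a c) + E3 w (fun a b c => A b a * A b c)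
      + E3 w (fun a b c => A c a * A c b) := by
    rw [← E3_add, ← E3_add, ← E3_add]; rfl
  have e5 : (E w fun a => E w (N a)) + (E w fun a => E w (A a)) + (E w fun a => E w fun b => A b a)
      = 1 := by
    simp only [← E_add, hO.sum, E_const h1]
  have e6 := E_comm w A
  have e7 : (E w fun a => (1 / 3 - E w (A a)) ^ 2)
      = 1 / 9 - 2 / 3 * (E w fun a => E w (A a)) + E w fun a => E w (A a) * E w (A a) := by
    have : ∀ a, (1 / 3 - E w (A a)) ^ 2 = 1 / 9 - 2 / 3 * E w (A a) + E w (A a) * E w (A a) := by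
      intro a; ring
    simp only [this, E_add, E_sub, E_mul_left, E_const h1]
  have e8 : (E w fun a => E w fun b => A a b) = E w fun a => E w (A a) := rfl
  linarith

theorem global_bound (h0 : ∀ v, 0 ≤ w v) (h1 : ∑ v, w v = 1) (hO : Og N A) (c : V → Fin 3)
    (hx : ∀ t, (E w fun u => sm t (c u)) ≤ 1 / 3 + 0.0578) :
    3 * (((E w fun u => sm 0 (c u)) - 1 / 3) * ((E w fun u => sm 1 (c u)) - 1 / 3)
        * ((E w fun u => sm 2 (c u)) - 1 / 3))
      + (E w fun v => 0.8266 * (E w fun u => df (sm (c v) (c u)) (N v u))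
          - 3 * (E w fun u => df (sm (c v) (c u)) (N v u)) ^ 2 + 3 * (1 / 3 - E w (A v)) ^ 2)
      ≤ E3 w (bad N A) - 4 / 9 := by
  set x : Fin 3 → ℝ := fun t => E w fun u => sm t (c u) with hxd
  set e : V → ℝ := fun v => E w fun u => df (sm (c v) (c u)) (N v u) with hed
  set T : V → V → ℝ := fun a b => (1 - sm (c a) (c b)) * N a b with hT
  set D : V → V → ℝ := fun a b => df (sm (c a) (c b)) (N a b) with hD
  have hs : x 0 + x 1 + x 2 = 1 := col_sum h1 c tr012
  have p1 : E3 w (fun a b d => sm (c a) (c b) * sm (c a) (c d))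
      = x 0 * x 0 * x 0 + x 1 * x 1 * x 1 + x 2 * x 2 * x 2 := by
    simp only [E3, E_mul_left, E_mul_right]
    exact E_fun_col c (fun t => x t * x t)
  have p2 : (2 / 3 - 0.0578) * (E w fun a => E w fun b => T a b)
      ≤ E3 w (fun a b d => T a b * (sm (c a) (c d) + sm (c b) (c d))) := by
    simp only [E3, E_mul_left, E_add]
    rw [← E_mul_left]
    refine E_mono h0 fun a => ?_
    rw [← E_mul_left]
    refine E_mono h0 fun b => ?_
    show (2 / 3 - 0.0578) * T a b ≤ T a b * (x (c a) + x (c b))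
    by_cases h : c a = c b
    · simp [hT, h, sm_self]
    · obtain ⟨k, hk⟩ : ∃ k, Tr3 (c a) (c b) k := by
        revert h; unfold Tr3; generalize c a = i; generalize c b = j; revert i j; decide
      have h2 := col_sum h1 c hk
      have h3 := hx k
      have h4 : 0 ≤ T a b := by
        rcases hO.N01 a b with h' | h' <;> simp [hT, sm_ne h, h']
      have h5 : 2 / 3 - 0.0578 ≤ x (c a) + x (c b) := by simp only [hxd]; linarith
      rw [mul_comm]
      exact mul_le_mul_of_nonneg_left h5 h4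
  have p3 := E3_sw2 w (fun a b d => T a b * (sm (c a) (c d) + sm (c b) (c d)))
  have p4 := (E3_sw1 w (fun a b d => T a d * (sm (c a) (c b) + sm (c d) (c b)))).trans p3
  have q1 : E3 w (fun a b d => D a b * D a d) = E w fun a => e a ^ 2 := by
    simp only [E3, E_mul_left, E_mul_right, sq]
    rfl
  have q2 := E3_sw1 w (fun a b d => D a b * D a d)
  have q3 := E3_rot w (fun a b d => D a b * D a d)
  have r : E3 w (fun a b d => sm (c a) (c b) * sm (c a) (c d))
      + E3 w (fun a b d => T a b * (sm (c a) (c d) + sm (c b) (c d)))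
      + E3 w (fun a b d => T a d * (sm (c a) (c b) + sm (c d) (c b)))
      + E3 w (fun a b d => T b d * (sm (c b) (c a) + sm (c d) (c a)))
      - E3 w (fun a b d => D a b * D a d) - E3 w (fun a b d => D b a * D b d)
      - E3 w (fun a b d => D d a * D d b) ≤ E3 w (fun a b c => maj (N a b) (N a c) (N b c)) := by
    rw [← E3_add, ← E3_add, ← E3_add, ← E3_sub, ← E3_sub, ← E3_sub]
    refine E_mono h0 fun a => E_mono h0 fun b => E_mono h0 fun d => ?_
    have := maj_triple (hO.N01 a b) (hO.N01 a d) (hO.N01 b d) (sm_pattern (c a) (c b) (c d))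
    simp only [hT, hD]
    rw [sm_symm (c b) (c d), sm_symm (c a) (c b), sm_symm (c a) (c d), hO.symm a b, hO.symm a d,
      hO.symm b d]
    exact this
  have n1 : (E w fun a => E w (N a)) = (x 0 * x 0 + x 1 * x 1 + x 2 * x 2)
      + 2 * (E w fun a => E w fun b => T a b) - E w e := by
    have : (E w fun a => E w fun b => sm (c a) (c b)) = x 0 * x 0 + x 1 * x 1 + x 2 * x 2 :=
      E_fun_col c x
    rw [← this]
    simp only [hed, ← E_mul_left, ← E_add, ← E_sub]
    refine E_congr w fun a => E_congr w fun b => ?_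
    simp only [hT, df]; ring
  have n2 : (E w fun a => E w fun b => T a b) ≤ E w e := by
    refine E_mono h0 fun a => E_mono h0 fun b => ?_
    simp only [hT, df]
    rcases sm01 (c a) (c b) with h | h <;> rcases hO.N01 a b with h' | h' <;> rw [h, h'] <;> norm_num
  have f := F_ident h1 hO
  have g : 3 * ((x 0 - 1 / 3) * (x 1 - 1 / 3) * (x 2 - 1 / 3))
      = x 0 * x 0 * x 0 + x 1 * x 1 * x 1 + x 2 * x 2 * x 2 - (x 0 * x 0 + x 1 * x 1 + x 2 * x 2)
        + 2 / 9 := by
    have : x 2 = 1 - x 0 - x 1 := by linarith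
    rw [this]; ring
  have k : (E w fun v => 0.8266 * e v - 3 * e v ^ 2 + 3 * (1 / 3 - E w (A v)) ^ 2)
      = 0.8266 * E w e - 3 * (E w fun a => e a ^ 2) + 3 * E w fun a => (1 / 3 - E w (A a)) ^ 2 := by
    simp only [E_add, E_sub, E_mul_left]
  show 3 * ((x 0 - 1 / 3) * (x 1 - 1 / 3) * (x 2 - 1 / 3))
    + (E w fun v => 0.8266 * e v - 3 * e v ^ 2 + 3 * (1 / 3 - E w (A v)) ^ 2) ≤ _
  rw [g, k]
  linarith

end Pool.Agent.Fdf
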