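import Mathlib.Data.Finset.Card
import Mathlib.Data.Fintype.Prod
import Mathlib.Algebra.Order.BigOperators.Group.Finset
import Pool.Agent.Work.MP_f1799f_co.Cov
/-! From the checked data to the bound on the number of edges. -/
namespace Pool.Agent.Work.MP_f1799f_co
open Finset

def adj {n : ℕ} (E : Finset (Finset (Fin n))) (x y z : Fin n) : Bool := decide ({x, y, z} ∈ E)

theorem adj_sym {n : ℕ} (E : Finset (Finset (Fin n))) : Sym3 (adj E) := by
  constructor
  · intro x y z; unfold adj; rw [insert_comm]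
  · intro x y z; unfold adj; rw [pair_comm y z]

theorem adj_K4f {n : ℕ} {E : Finset (Finset (Fin n))} (h3 : ∀ e ∈ E, e.card = 3)
    (h4 : ∀ S : Finset (Fin n), S.card = 4 → ∃ T ⊆ S, T.card = 3 ∧ T ∉ E) : K4f (adj E) := by
  intro p q r s a1 a2 a3 a4
  simp only [adj, decide_eq_true_eq] at a1 a2 a3 a4
  obtain ⟨b1, b2, b3⟩ := card_eq_three_iff_ne (h3 _ a1)
  obtain ⟨-, b4, b5⟩ := card_eq_three_iff_ne (h3 _ a2)
  obtain ⟨-, -, b6⟩ := card_eq_three_iff_ne (h3 _ a3)
  have c4 : ({p, q, r, s} : Finset (Fin n)).card = 4 := by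
    rw [card_insert_of_notMem (by simp [b1, b2, b4]), h3 _ a4]
  obtain ⟨T, hT, hc, hE⟩ := h4 _ c4
  obtain ⟨w, hw, hwT⟩ := exists_mem_notMem_of_card_lt_card (s := T) (t := {p, q, r, s}) (by omega)
  have e : T = ({p, q, r, s} : Finset (Fin n)).erase w := by
    apply eq_of_subset_of_card_le
    · exact subset_erase.mpr ⟨hT, hwT⟩
    · rw [card_erase_of_mem hw]; omega
  apply hE
  rw [e]
  simp only [mem_insert, mem_singleton] at hw
  rcases hw with rfl | rfl | rfl | rfl
  · convert a4 using 1; ext x; simp only [mem_erase, mem_insert, mem_singleton]; grind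
  · convert a3 using 1; ext x; simp only [mem_erase, mem_insert, mem_singleton]; grind
  · convert a2 using 1; ext x; simp only [mem_erase, mem_insert, mem_singleton]; grind
  · convert a1 using 1; ext x; simp only [mem_erase, mem_insert, mem_singleton]; grind
where
  card_eq_three_iff_ne {x y z : Fin n} (h : ({x, y, z} : Finset (Fin n)).card = 3) :
      x ≠ y ∧ x ≠ z ∧ y ≠ z := by
    refine ⟨?_, ?_, ?_⟩ <;> rintro rfl
    · rw [insert_eq_of_mem (mem_insert_self _ _)] at h
      have := card_le_two (a := x) (b := z); omega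
    · rw [insert_eq_of_mem (by simp)] at h
      have := card_le_two (a := y) (b := x); omega
    · rw [pair_eq_singleton] at h
      have := card_le_two (a := x) (b := y); omega

theorem six_card_le {n : ℕ} {E : Finset (Finset (Fin n))} (h3 : ∀ e ∈ E, e.card = 3) :
    6 * (E.card : ℤ) ≤ ∑ x, ∑ y, ∑ z, Bt (adj E) x y z := by
  have e1 : ∑ x, ∑ y, ∑ z, Bt (adj E) x y z = ((univ.filter fun t : Fin n × Fin n × Fin n =>
      ({t.1, t.2.1, t.2.2} : Finset (Fin n)) ∈ E).card : ℤ) := by
    rw [card_filter]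
    push_cast
    simp only [Fintype.sum_prod_type, Bt, adj]
    refine sum_congr rfl fun x _ => sum_congr rfl fun y _ => sum_congr rfl fun z _ => ?_
    split_ifs with c <;> simp [c]
  rw [e1]
  norm_cast
  refine mul_card_image_le_card_of_maps_to (f := fun t : Fin n × Fin n × Fin n =>
    ({t.1, t.2.1, t.2.2} : Finset (Fin n))) (fun t ht => (mem_filter.mp ht).2) 6 fun e he => ?_
  obtain ⟨x, y, z, a1, a2, a3, rfl⟩ := card_eq_three.mp (h3 e he)
  have c6 : ({(x, y, z), (x, z, y), (y, x, z), (y, z, x), (z, x, y), (z, y, x)} :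
      Finset (Fin n × Fin n × Fin n)).card = 6 := by
    have := a1.symm; have := a2.symm; have := a3.symm
    rw [card_insert_of_notMem (by simp [*]), card_insert_of_notMem (by simp [*]),
      card_insert_of_notMem (by simp [*]), card_insert_of_notMem (by simp [*]),
      card_insert_of_notMem (by simp [*]), card_singleton]
  rw [← c6]
  apply card_le_card
  have key : ∀ p q r : Fin n, ({p, q, r} : Finset (Fin n)) = {x, y, z} →
      (p, q, r) ∈ (univ.filter fun t : Fin n × Fin n × Fin n =>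
        ({t.1, t.2.1, t.2.2} : Finset (Fin n)) ∈ E).filter
        fun t => ({t.1, t.2.1, t.2.2} : Finset (Fin n)) = {x, y, z} := by
    intro p q r h
    simp only [mem_filter, mem_univ, true_and, h, he, and_self]
  intro t ht
  simp only [mem_insert, mem_singleton] at ht
  rcases ht with rfl | rfl | rfl | rfl | rfl | rfl <;> apply key <;> ext w <;>
    simp only [mem_insert, mem_singleton] <;> tauto

theorem finite_bound {vc : ℕ → List ℕ} {vb : ℕ → ℕ} {gc : List ℕ} {b3 cmax kap : ℕ}
    {p5 : List TE} {wd : ℕ → ℕ → ℕ × List (ℕ × List ℕ)} {rowf : ℕ → ℕ}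
    (h : DOk vc vb gc b3 cmax kap p5 wd rowf) {tu : List (List TE)} (htu : chkTU prs tu = true)
    {cb kc : ℕ} (hkc : kc + (cb + 105 * (cmax + 6 * (gc.length * 4 ^ b3))) + 1 = 2 ^ 55)
    {cl : List (List (ℕ × List ℕ))} (hcl : ∀ c ∈ cl, ∀ e ∈ c,
      chkR (utab (fun t e => wcols vc (wd t e).2) (fun t e => (wd t e).1) rowf kap) tu kc
        e.1 e.2 = true)
    {tc : List (List (List ℕ × List ℕ))} {c5 : ℕ} {c6 : List (ℕ × ℕ)} (h1 : chkTC tc = true)
    (h2 : chkP p5 = true) (h3 : chk5 p5 c5 c6 = true) (h4 : ∀ e ∈ c6, chk6 tc (bmap cl) e = true)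
    (n : ℕ) (E : Finset (Finset (Fin n))) (e3 : ∀ e ∈ E, e.card = 3)
    (e4 : ∀ S : Finset (Fin n), S.card = 4 → ∃ T ⊆ S, T.card = 3 ∧ T ∉ E) :
    105 * (kap : ℤ) * (6 * E.card) ≤ cb * (n : ℤ) ^ 3 := by
  have hs := adj_sym E
  have hK := adj_K4f e3 e4
  have hI := inv_cert vc vb gc b3 hs h.hg
  have up := Phi_upper (G := G5 (adj E) vc vb) (Q := Q3 (adj E) gc b3) (B := Bt (adj E)) kap
    (8 * cb) (cover hs hK (fun l => Phi (G5 (adj E) vc vb) (Q3 (adj E) gc b3) (Bt (adj E)) kap l ≤
      8 * cb) (fun l l' p hl => by rw [← Phi_perm _ hI p]; exact hl) h1 h2 h3 h4 (fun y hy => by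
        obtain ⟨c, hc, e, he, e1⟩ := bmap_spec hy
        have := hcl c hc e he
        rw [e1] at this
        exact chkR_sem h hs hK y htu hkc this))
  have lo := Phi_lower (B := Bt (adj E)) kap (G5_nonneg (adj E) vc vb) (Q3_nonneg (adj E) gc b3)
  have s6 := six_card_le e3
  rw [Fintype.card_fin] at up lo
  have k0 : (0 : ℤ) ≤ 105 * kap := by positivity
  refine le_trans (mul_le_mul_of_nonneg_left s6 k0) ?_
  rcases Nat.eq_zero_or_pos n with rfl | hn
  · simp
  · have p : (0 : ℤ) < 8 * (n : ℤ) ^ 4 := by positivity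
    refine le_of_mul_le_mul_right ?_ p
    have := lo.trans up
    linarith

end Pool.Agent.Work.MP_f1799f_co
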