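import Mathlib

/-! The two-cover lemma for the Turan configuration. -/

set_option autoImplicit false
set_option linter.unusedSectionVars false

open Finset

namespace Pool.Agent.Glue

variable {V : Type} [DecidableEq V]

open Classical in
/-- indicator of a relation -/
noncomputable def ind (M : V → V → Prop) (u v : V) : ℝ := if M u v then 1 else 0

variable {M : V → V → Prop} {w : V → ℝ} {m : ℝ}

lemma ind_pos {u v : V} (h : M u v) : ind M u v = 1 := by simp [ind, h]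
lemma ind_neg {u v : V} (h : ¬ M u v) : ind M u v = 0 := by simp [ind, h]
lemma ind_nonneg (u v : V) : 0 ≤ ind M u v := by unfold ind; split_ifs <;> norm_num
lemma ind_le_one (u v : V) : ind M u v ≤ 1 := by unfold ind; split_ifs <;> norm_num

/-- cross weight minus half the sum of squares -/
noncomputable def Dd (M : V → V → Prop) (w : V → ℝ) (P Q : Finset V) : ℝ :=
  ∑ y ∈ Q, w y * (∑ a ∈ P, w a * ind M a y) - (∑ a ∈ P, w a ^ 2) / 2

/-- every vertex of `Q` has at most one neighbour in `P` -/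
def Uq (M : V → V → Prop) (P Q : Finset V) : Prop :=
  ∀ y ∈ Q, ∀ a ∈ P, ∀ a' ∈ P, M a y → M a' y → a = a'

lemma par_cases {P Q : Finset V} (hU : Uq M P Q) {y : V} (hy : y ∈ Q) :
    (∑ a ∈ P, w a * ind M a y = 0) ∨ ∃ a' ∈ P, M a' y ∧ ∑ a ∈ P, w a * ind M a y = w a' := by
  by_cases h : ∃ a' ∈ P, M a' y
  · obtain ⟨a', ha', hM⟩ := h
    right
    refine ⟨a', ha', hM, ?_⟩
    rw [sum_eq_single_of_mem a' ha', ind_pos hM, mul_one]
    intro b hb hne
    rw [ind_neg (fun h => hne (hU y hy b hb a' ha' h hM)), mul_zero]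
  · left
    push Not at h
    exact sum_eq_zero fun a ha => by rw [ind_neg (h a ha), mul_zero]

lemma par_le {P Q : Finset V} (hU : Uq M P Q) {α : ℝ} (h0 : 0 ≤ α) (hα : ∀ a ∈ P, w a ≤ α)
    {y : V} (hy : y ∈ Q) : ∑ a ∈ P, w a * ind M a y ≤ α := by
  rcases par_cases (w := w) hU hy with h | ⟨a', ha', -, h⟩
  · rw [h]; exact h0
  · rw [h]; exact hα a' ha'

lemma Dd_gen (hw : ∀ v, 0 ≤ w v) {P Q : Finset V} (hU : Uq M P Q) (hQ : ∑ y ∈ Q, w y ≤ m)
    {a : V} (ha : a ∈ P) (hα : ∀ b ∈ P, w b ≤ w a) : Dd M w P Q ≤ w a * m - w a ^ 2 / 2 := by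
  have h1 : ∑ y ∈ Q, w y * (∑ a ∈ P, w a * ind M a y) ≤ ∑ y ∈ Q, w y * w a :=
    sum_le_sum fun y hy => mul_le_mul_of_nonneg_left (par_le hU (hw a) hα hy) (hw y)
  rw [← sum_mul] at h1
  have h2 : w a ^ 2 ≤ ∑ b ∈ P, w b ^ 2 :=
    single_le_sum (f := fun b => w b ^ 2) (fun b _ => sq_nonneg _) ha
  have h3 := mul_le_mul_of_nonneg_right hQ (hw a)
  unfold Dd
  linarith

lemma Dd_ref (hw : ∀ v, 0 ≤ w v) {P Q : Finset V} (hU : Uq M P Q) (hP : ∑ y ∈ P, w y ≤ m)
    (hQ : ∑ y ∈ Q, w y ≤ m) {a : V} (ha : a ∈ P) (hα : ∀ b ∈ P, w b ≤ w a) {y : V} (hy : y ∈ Q)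
    (hn : ¬ M a y) : ∃ p, 0 ≤ p ∧ p ≤ w a ∧ p + w a ≤ m ∧
      Dd M w P Q ≤ w a * (m - w y) + w y * p - w a ^ 2 / 2 - p ^ 2 / 2 ∧
      (p = 0 ∨ ∃ a' ∈ P, M a' y ∧ w a' = p) := by
  have h1 : ∑ z ∈ Q.erase y, w z * (∑ a ∈ P, w a * ind M a z) ≤ ∑ z ∈ Q.erase y, w z * w a :=
    sum_le_sum fun z hz =>
      mul_le_mul_of_nonneg_left (par_le hU (hw a) hα (mem_of_mem_erase hz)) (hw z)
  rw [← sum_mul] at h1
  have h2 := add_sum_erase Q w hy
  have h3 := add_sum_erase Q (fun z => w z * (∑ a ∈ P, w a * ind M a z)) hy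
  have h4 : (∑ z ∈ Q.erase y, w z) * w a ≤ (m - w y) * w a :=
    mul_le_mul_of_nonneg_right (by linarith) (hw a)
  have h5 : w a ≤ ∑ b ∈ P, w b := single_le_sum (fun b _ => hw b) ha
  rcases par_cases (w := w) hU hy with h | ⟨a', ha', hM, h⟩
  · refine ⟨0, le_rfl, hw a, by linarith, ?_, Or.inl rfl⟩
    have h6 : w a ^ 2 ≤ ∑ b ∈ P, w b ^ 2 :=
      single_le_sum (f := fun b => w b ^ 2) (fun b _ => sq_nonneg _) ha
    unfold Dd
    simp only [h] at h3
    linarith
  · have hne : a' ≠ a := fun e => hn (e ▸ hM)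
    have hsub : ({a', a} : Finset V) ⊆ P := insert_subset ha' (singleton_subset_iff.2 ha)
    have h6 := sum_le_sum_of_subset_of_nonneg (f := fun b => w b ^ 2) hsub
      (fun b _ _ => sq_nonneg _)
    have h7 := sum_le_sum_of_subset_of_nonneg (f := w) hsub (fun b _ _ => hw b)
    rw [sum_pair hne] at h6 h7
    refine ⟨w a', hw a', hα a' ha', by linarith, ?_, Or.inr ⟨a', ha', hM, rfl⟩⟩
    unfold Dd
    simp only [h] at h3
    linarith

lemma core_rot (hw : ∀ v, 0 ≤ w v) {P0 P1 P2 : Finset V} (h01 : Uq M P0 P1) (h12 : Uq M P1 P2)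
    (h20 : Uq M P2 P0) (m0 : ∑ y ∈ P0, w y ≤ m) (m1 : ∑ y ∈ P1, w y ≤ m) (m2 : ∑ y ∈ P2, w y ≤ m)
    (hT : ∀ x ∈ P0, ∀ y ∈ P1, ∀ z ∈ P2, M x y → M y z → M z x → False)
    {a0 a1 a2 : V} (ha0 : a0 ∈ P0) (ha1 : a1 ∈ P1) (ha2 : a2 ∈ P2)
    (x0 : ∀ b ∈ P0, w b ≤ w a0) (x1 : ∀ b ∈ P1, w b ≤ w a1) (x2 : ∀ b ∈ P2, w b ≤ w a2)
    (hn : ¬ M a1 a2) : Dd M w P0 P1 + Dd M w P1 P2 + Dd M w P2 P0 ≤ m ^ 2 := by
  have g0 := Dd_gen hw h01 m1 ha0 x0
  have g2 := Dd_gen hw h20 m0 ha2 x2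
  have b2 : w a2 ≤ m := (single_le_sum (fun b _ => hw b) ha2).trans m2
  obtain ⟨p, p0, p1, -, r1, hp⟩ := Dd_ref hw h12 m1 m2 ha1 x1 ha2 hn
  rcases hp with rfl | ⟨a', ha', hM, rfl⟩
  · nlinarith [sq_nonneg (w a0 - m), sq_nonneg (w a1 - (m - w a2))]
  by_cases hc : M a0 a'
  · obtain ⟨q, q0, q1, q2, r2, -⟩ := Dd_ref hw h20 m2 m0 ha2 x2 ha0
      (fun h => hT a0 ha0 a' ha' a2 ha2 hc hM h)
    have e1 : (w a2 - q) * (q + w a2) ≤ (w a2 - q) * m :=
      mul_le_mul_of_nonneg_left q2 (by linarith)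
    have e2 : 0 ≤ (w a2 - q) * (m - (w a2 - q)) := mul_nonneg (by linarith) (by linarith)
    nlinarith [sq_nonneg (w a0 - (m - (w a2 - q))), sq_nonneg (w a1 - (m - w a2)),
      sq_nonneg (w a' - w a2)]
  · obtain ⟨q, -, -, -, r0, -⟩ := Dd_ref hw h01 m0 m1 ha0 x0 ha' hc
    have e1 : w a' ^ 2 / 2 ≤ w a' * (m - w a2) + (w a1 - (m - w a2)) ^ 2 / 2 := by
      rcases le_total (w a') (m - w a2) with h | h
      · nlinarith [sq_nonneg (w a1 - (m - w a2)), mul_le_mul_of_nonneg_left h p0]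
      · have : (w a' - (m - w a2)) ^ 2 ≤ (w a1 - (m - w a2)) ^ 2 :=
          pow_le_pow_left₀ (by linarith) (by linarith) 2
        nlinarith [sq_nonneg (m - w a2)]
    nlinarith [sq_nonneg (w a0 - (m - w a')), sq_nonneg (q - w a')]

lemma Dd_half (hw : ∀ v, 0 ≤ w v) {P Q : Finset V} (hU : Uq M P Q) (hQ : ∑ y ∈ Q, w y ≤ m) :
    Dd M w P Q ≤ m ^ 2 / 2 := by
  rcases P.eq_empty_or_nonempty with rfl | hP
  · simp only [Dd, sum_empty, mul_zero, sum_const_zero]
    nlinarith [sq_nonneg m]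
  · obtain ⟨a, ha, hx⟩ := exists_max_image P w hP
    have := Dd_gen hw hU hQ ha hx
    nlinarith [sq_nonneg (w a - m)]

lemma Dd_empty_left (Q : Finset V) : Dd M w ∅ Q = 0 := by simp [Dd]

lemma Dd_empty_right (P : Finset V) : Dd M w P ∅ ≤ 0 := by
  simp only [Dd, sum_empty]
  have : 0 ≤ ∑ a ∈ P, w a ^ 2 := sum_nonneg fun _ _ => sq_nonneg _
  linarith

lemma core (hw : ∀ v, 0 ≤ w v) {P0 P1 P2 : Finset V} (h01 : Uq M P0 P1) (h12 : Uq M P1 P2)
    (h20 : Uq M P2 P0) (m0 : ∑ y ∈ P0, w y ≤ m) (m1 : ∑ y ∈ P1, w y ≤ m) (m2 : ∑ y ∈ P2, w y ≤ m)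
    (hT : ∀ x ∈ P0, ∀ y ∈ P1, ∀ z ∈ P2, M x y → M y z → M z x → False) :
    Dd M w P0 P1 + Dd M w P1 P2 + Dd M w P2 P0 ≤ m ^ 2 := by
  have hm := sq_nonneg m
  rcases P0.eq_empty_or_nonempty with rfl | n0
  · have := Dd_half hw h12 m2
    have := Dd_empty_right (M := M) (w := w) P2
    rw [Dd_empty_left]; linarith
  rcases P1.eq_empty_or_nonempty with rfl | n1
  · have := Dd_half hw h20 m0
    have := Dd_empty_right (M := M) (w := w) P0
    rw [Dd_empty_left]; linarith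
  rcases P2.eq_empty_or_nonempty with rfl | n2
  · have := Dd_half hw h01 m1
    have := Dd_empty_right (M := M) (w := w) P1
    rw [Dd_empty_left]; linarith
  obtain ⟨a0, ha0, x0⟩ := exists_max_image P0 w n0
  obtain ⟨a1, ha1, x1⟩ := exists_max_image P1 w n1
  obtain ⟨a2, ha2, x2⟩ := exists_max_image P2 w n2
  by_cases c12 : M a1 a2
  · by_cases c20 : M a2 a0
    · have c01 : ¬ M a0 a1 := fun h => hT a0 ha0 a1 ha1 a2 ha2 h c12 c20
      have := core_rot hw h20 h01 h12 m2 m0 m1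
        (fun z hz x hx y hy a b c => hT x hx y hy z hz b c a) ha2 ha0 ha1 x2 x0 x1 c01
      linarith
    · have := core_rot hw h12 h20 h01 m1 m2 m0
        (fun y hy z hz x hx a b c => hT x hx y hy z hz c a b) ha1 ha2 ha0 x1 x2 x0 c20
      linarith
  · exact core_rot hw h01 h12 h20 m0 m1 m2 hT ha0 ha1 ha2 x0 x1 x2 c12

/-- the quadratic form of the graph -/
noncomputable def Ph (M : V → V → Prop) (w : V → ℝ) (P Q : Finset V) : ℝ :=
  ∑ y ∈ Q, w y * (∑ a ∈ P, w a * ind M a y)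

lemma Ph_symm (hs : ∀ u v, M u v → M v u) (P Q : Finset V) : Ph M w P Q = Ph M w Q P := by
  unfold Ph
  simp only [mul_sum]
  rw [sum_comm]
  refine sum_congr rfl fun a _ => sum_congr rfl fun y _ => ?_
  have : ind M a y = ind M y a := by
    by_cases h : M a y
    · rw [ind_pos h, ind_pos (hs _ _ h)]
    · rw [ind_neg h, ind_neg (fun h' => h (hs _ _ h'))]
  rw [this]; ring

lemma Ph_self (hw : ∀ v, 0 ≤ w v) (hi : ∀ u, ¬ M u u) {P : Finset V} (hm : 0 ≤ m)
    (hP : ∑ y ∈ P, w y ≤ m) : Ph M w P P ≤ m ^ 2 - ∑ a ∈ P, w a ^ 2 := by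
  have h1 : Ph M w P P ≤ ∑ y ∈ P, (w y * m - w y ^ 2) := by
    refine sum_le_sum fun y hy => ?_
    have h2 := add_sum_erase P (fun a => w a * ind M a y) hy
    have h3 := add_sum_erase P w hy
    have h4 : ∑ a ∈ P.erase y, w a * ind M a y ≤ ∑ a ∈ P.erase y, w a :=
      sum_le_sum fun a _ => mul_le_of_le_one_right (hw a) (ind_le_one _ _)
    simp only [ind_neg (hi y), mul_zero, zero_add] at h2
    have h5 : ∑ a ∈ P, w a * ind M a y ≤ m - w y := by linarith
    nlinarith [mul_le_mul_of_nonneg_left h5 (hw y)]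
  rw [sum_sub_distrib, ← sum_mul] at h1
  nlinarith [mul_le_mul_of_nonneg_right hP hm]

lemma Ph_split (c : V → ZMod 3) (S : Finset V) :
    Ph M w S S = ∑ i : ZMod 3, ∑ j : ZMod 3,
      Ph M w (S.filter fun v => c v = i) (S.filter fun v => c v = j) := by
  unfold Ph
  rw [sum_comm, ← sum_fiberwise S c]
  refine sum_congr rfl fun j _ => ?_
  rw [← sum_comm]
  refine sum_congr rfl fun y _ => ?_
  rw [← mul_sum, sum_fiberwise S c]

lemma sum_z3 (f : ZMod 3 → ℝ) : ∑ i : ZMod 3, f i = f 0 + f 1 + f 2 :=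
  Fin.sum_univ_three f

/-- the two-cover lemma, weighted form -/
theorem cover (hs : ∀ u v, M u v → M v u) (hi : ∀ u, ¬ M u u) (c : V → ZMod 3) (hm : 0 ≤ m) :
    ∀ (k : ℕ) (S : Finset V) (w : V → ℝ), S.card = k → (∀ v, 0 ≤ w v) →
      (∀ i, ∑ y ∈ S.filter (fun v => c v = i), w y ≤ m) →
      (∀ x ∈ S, ∀ y ∈ S, ∀ z ∈ S, c y = c x + 1 → (c z = c x ∨ c z = c x + 2) →
        M x y → M y z → M z x → False) →
      Ph M w S S ≤ 5 * m ^ 2 := by
  intro k
  induction k with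
  | zero =>
    intro S w hk _ _ _
    rw [card_eq_zero.1 hk]
    simp only [Ph, sum_empty]
    positivity
  | succ k ih =>
    intro S w hk hw hmass hT
    by_cases hex : ∃ u ∈ S, ∃ v ∈ S, u ≠ v ∧ c u = c v ∧ ¬ M u v
    · have key : ∀ u ∈ S, ∀ v ∈ S, u ≠ v → c u = c v → ¬ M u v →
          ∑ a ∈ S, w a * ind M a v ≤ ∑ a ∈ S, w a * ind M a u → Ph M w S S ≤ 5 * m ^ 2 := by
        intro u hu v hv huv hc hn hd
        have hu' : u ∈ S.erase v := mem_erase.2 ⟨huv, hu⟩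
        set w' : V → ℝ := fun x => w x + if x = u then w v else 0 with hw'
        have hsum : ∀ g : V → ℝ, ∑ x ∈ S.erase v, w' x * g x
            = ∑ x ∈ S, w x * g x + w v * (g u - g v) := by
          intro g
          have h1 := add_sum_erase S (fun x => w x * g x) hv
          simp only [hw', add_mul, sum_add_distrib, ite_mul, zero_mul, sum_ite_eq', hu', if_true]
          linarith
        have h1 := ih (S.erase v) w' (by rw [card_erase_of_mem hv, hk]; rfl)
          (fun x => by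
            have := hw x
            have := hw v
            simp only [hw']
            split_ifs <;> linarith)
          (fun i => by
            have h2 := hsum (fun x => if c x = i then 1 else 0)
            have h3 := hmass i
            simp only [hc, sub_self, mul_zero, add_zero, mul_ite, mul_one] at h2
            rw [sum_filter] at h3 ⊢
            linarith)
          (fun x hx y hy z hz => hT x (mem_of_mem_erase hx) y (mem_of_mem_erase hy) z
            (mem_of_mem_erase hz))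
        refine le_trans ?_ h1
        unfold Ph
        simp only [hsum]
        have hsy : ∀ a b, ind M a b = ind M b a := fun a b => by
          by_cases h : M a b
          · rw [ind_pos h, ind_pos (hs _ _ h)]
          · rw [ind_neg h, ind_neg (fun h' => h (hs _ _ h'))]
        have e1 : ∑ x ∈ S, w x * (∑ a ∈ S, w a * ind M a x + w v * (ind M u x - ind M v x))
            = ∑ x ∈ S, w x * (∑ a ∈ S, w a * ind M a x)
              + w v * (∑ a ∈ S, w a * ind M a u - ∑ a ∈ S, w a * ind M a v) := by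
          rw [← sum_sub_distrib, mul_sum, ← sum_add_distrib]
          refine sum_congr rfl fun x _ => ?_
          rw [hsy u x, hsy v x]; ring
        rw [e1, ind_neg (hi u), ind_neg (hi v), ind_neg hn, hsy v u, ind_neg hn]
        nlinarith [mul_nonneg (hw v) (sub_nonneg.2 hd)]
      obtain ⟨u, hu, v, hv, huv, hc, hn⟩ := hex
      rcases le_total (∑ a ∈ S, w a * ind M a v) (∑ a ∈ S, w a * ind M a u) with h | h
      · exact key u hu v hv huv hc hn h
      · exact key v hv u hu huv.symm hc.symm (fun h' => hn (hs _ _ h')) h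
    · push Not at hex
      have hU : ∀ i : ZMod 3, Uq M (S.filter fun v => c v = i) (S.filter fun v => c v = i + 1) := by
        intro i y hy a ha a' ha' h1 h2
        rw [mem_filter] at hy ha ha'
        by_contra hne
        exact hT a ha.1 y hy.1 a' ha'.1 (by rw [hy.2, ha.2]) (Or.inl (by rw [ha.2, ha'.2])) h1
          (hs _ _ h2) (hex a' ha'.1 a ha.1 (Ne.symm hne) (by rw [ha.2, ha'.2]))
      have hc := core (M := M) hw (hU 0) (hU 1) (hU 2) (hmass 0) (hmass 1) (hmass 2) (by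
        intro x hx y hy z hz
        rw [mem_filter] at hx hy hz
        exact hT x hx.1 y hy.1 z hz.1 (by rw [hy.2, hx.2]) (Or.inr (by rw [hz.2, hx.2]; rfl)))
      have s0 := Ph_self hw hi hm (hmass 0)
      have s1 := Ph_self hw hi hm (hmass 1)
      have s2 := Ph_self hw hi hm (hmass 2)
      rw [Ph_split c, sum_z3, sum_z3, sum_z3, sum_z3,
        Ph_symm hs (S.filter fun v => c v = 1) (S.filter fun v => c v = 0),
        Ph_symm hs (S.filter fun v => c v = 2) (S.filter fun v => c v = 1),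
        Ph_symm hs (S.filter fun v => c v = 0) (S.filter fun v => c v = 2)]
      have e1 : (0 : ZMod 3) + 1 = 1 := rfl
      have e2 : (1 : ZMod 3) + 1 = 2 := rfl
      simp only [e1, e2] at hc
      unfold Dd at hc
      unfold Ph at s0 s1 s2 ⊢
      linarith

end Pool.Agent.Glue
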