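import Pool.Agent.Work.MP_f1799f_co.GlueCover

/-! Gluing two Turan configurations. -/

set_option autoImplicit false
set_option linter.unusedSectionVars false

open Finset

namespace Pool.Agent.Glue

lemma six_le {n : ℕ} (s : Finset (Fin n)) (hs : s.card = 3) :
    (6 : ℝ) ≤ ∑ a : Fin n, ∑ b : Fin n, ∑ c : Fin n,
      if ({a, b, c} : Finset (Fin n)) = s then 1 else 0 := by
  obtain ⟨x, y, z, h1, h2, h3, rfl⟩ := card_eq_three.mp hs
  have e : (∑ a : Fin n, ∑ b : Fin n, ∑ c : Fin n,
      if ({a, b, c} : Finset (Fin n)) = {x, y, z} then (1 : ℝ) else 0)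
      = ((univ.filter fun p : Fin n × Fin n × Fin n =>
        ({p.1, p.2.1, p.2.2} : Finset (Fin n)) = {x, y, z}).card : ℝ) := by
    rw [card_filter]
    push_cast
    rw [Fintype.sum_prod_type]
    refine sum_congr rfl fun a _ => ?_
    rw [Fintype.sum_prod_type]
  rw [e]
  have hsub : ({(x, y, z), (x, z, y), (y, x, z), (y, z, x), (z, x, y), (z, y, x)} :
      Finset (Fin n × Fin n × Fin n)) ⊆ univ.filter fun p : Fin n × Fin n × Fin n =>
        ({p.1, p.2.1, p.2.2} : Finset (Fin n)) = {x, y, z} := by
    intro p hp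
    simp only [mem_insert, mem_singleton] at hp
    rcases hp with rfl | rfl | rfl | rfl | rfl | rfl <;>
      simp only [mem_filter, mem_univ, true_and] <;> ext t <;>
      simp only [mem_insert, mem_singleton] <;> tauto
  have hc : ({(x, y, z), (x, z, y), (y, x, z), (y, z, x), (z, x, y), (z, y, x)} :
      Finset (Fin n × Fin n × Fin n)).card = 6 := by
    have h1' := h1.symm
    have h2' := h2.symm
    have h3' := h3.symm
    rw [card_insert_of_notMem, card_insert_of_notMem, card_insert_of_notMem,
      card_insert_of_notMem, card_insert_of_notMem, card_singleton] <;>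
      simp [h1, h2, h3, h1', h2', h3']
  have := card_le_card hsub
  rw [hc] at this
  exact_mod_cast this

variable {n : ℕ}

/-- indicator of an ordered triple -/
noncomputable def tri (E : Finset (Finset (Fin n))) (a b c : Fin n) : ℝ :=
  if ({a, b, c} : Finset (Fin n)) ∈ E then 1 else 0

lemma six_card (E : Finset (Finset (Fin n))) (hE : ∀ e ∈ E, e.card = 3) :
    6 * (E.card : ℝ) ≤ ∑ a, ∑ b, ∑ c, tri E a b c := by
  have h1 : 6 * (E.card : ℝ) = ∑ _s ∈ E, (6 : ℝ) := by simp [mul_comm]
  rw [h1]
  refine (sum_le_sum fun s hs => six_le s (hE s hs)).trans (le_of_eq ?_)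
  rw [sum_comm]
  refine sum_congr rfl fun a _ => ?_
  rw [sum_comm]
  refine sum_congr rfl fun b _ => ?_
  rw [sum_comm]
  refine sum_congr rfl fun c _ => ?_
  rw [sum_ite_eq]
  rfl

lemma tri_12 (E : Finset (Finset (Fin n))) (a b c : Fin n) : tri E a b c = tri E b a c := by
  unfold tri; rw [insert_comm]

lemma tri_23 (E : Finset (Finset (Fin n))) (a b c : Fin n) : tri E a b c = tri E a c b := by
  unfold tri; rw [pair_comm b c]

lemma link_bound (E : Finset (Finset (Fin n))) (hE : ∀ e ∈ E, e.card = 3)
    (hK : ∀ S : Finset (Fin n), S.card = 4 → ∃ T ⊆ S, T.card = 3 ∧ T ∉ E)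
    (S : Finset (Fin n)) (part : Fin n → ZMod 3) (m : ℕ)
    (hm : ∀ i, (S.filter fun v => part v = i).card ≤ m)
    (hT : ∀ a ∈ S, ∀ b ∈ S, ∀ c ∈ S, a ≠ c → part b = part a + 1 →
      (part c = part a ∨ part c = part a + 2) → ({a, b, c} : Finset (Fin n)) ∈ E) (v : Fin n) :
    ∑ y ∈ S, ∑ a ∈ S, tri E v a y ≤ 5 * (m : ℝ) ^ 2 := by
  have hne : ∀ a b c : Fin n, ({a, b, c} : Finset (Fin n)) ∈ E → a ≠ b ∧ a ≠ c ∧ b ≠ c := by
    intro a b c h
    have h3 := hE _ h
    refine ⟨?_, ?_, ?_⟩ <;> rintro rfl
    · rw [insert_idem] at h3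
      exact absurd (h3 ▸ card_le_two) (by norm_num)
    · rw [insert_comm, pair_eq_singleton] at h3
      exact absurd (h3 ▸ card_le_two) (by norm_num)
    · rw [pair_eq_singleton] at h3
      exact absurd (h3 ▸ card_le_two) (by norm_num)
  have h := cover (M := fun a b => ({v, a, b} : Finset (Fin n)) ∈ E) (m := (m : ℝ))
    (fun a b h => by rwa [pair_comm b a]) (fun a h => (hne _ _ _ h).2.2 rfl) part
    (Nat.cast_nonneg m) _ S (fun _ => 1) rfl (fun _ => zero_le_one)
    (fun i => by simpa using (Nat.cast_le (α := ℝ)).2 (hm i))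
    (by
      intro x hx y hy z hz h1 h2 e1 e2 e3
      obtain ⟨a1, a2, a3⟩ := hne _ _ _ e1
      obtain ⟨-, a4, a5⟩ := hne _ _ _ e2
      obtain ⟨-, -, a6⟩ := hne _ _ _ e3
      have e4 := hT x hx y hy z hz a6.symm h1 h2
      have hc : ({v, x, y, z} : Finset (Fin n)).card = 4 := by
        rw [card_insert_of_notMem, hE _ e4]
        simp [a1, a2, a4]
      obtain ⟨T, hTS, hT3, hTE⟩ := hK _ hc
      obtain ⟨u, hu, hTu⟩ : ∃ u ∈ ({v, x, y, z} : Finset (Fin n)),
          T = ({v, x, y, z} : Finset (Fin n)).erase u := by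
        obtain ⟨u, hu, hu'⟩ := exists_mem_notMem_of_card_lt_card
          (show T.card < ({v, x, y, z} : Finset (Fin n)).card by omega)
        refine ⟨u, hu, eq_of_subset_of_card_le (subset_erase.2 ⟨hTS, hu'⟩) ?_⟩
        rw [card_erase_of_mem hu]; omega
      apply hTE
      rw [hTu]
      simp only [mem_insert, mem_singleton] at hu
      rcases hu with rfl | rfl | rfl | rfl
      · convert e4 using 1
        ext t; simp only [mem_erase, mem_insert, mem_singleton]
        constructor
        · tauto
        · rintro (rfl | rfl | rfl) <;> simp [a1.symm, a2.symm, a4.symm]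
      · convert e2 using 1
        ext t; simp only [mem_erase, mem_insert, mem_singleton]
        constructor
        · tauto
        · rintro (rfl | rfl | rfl) <;> simp [a1, a3.symm, a6]
      · convert e3 using 1
        ext t; simp only [mem_erase, mem_insert, mem_singleton]
        constructor
        · tauto
        · rintro (rfl | rfl | rfl) <;> simp [a2, a3, a5.symm]
      · convert e1 using 1
        ext t; simp only [mem_erase, mem_insert, mem_singleton]
        constructor
        · tauto
        · rintro (rfl | rfl | rfl) <;> simp [a4, a5, a6.symm])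
  unfold Ph ind at h
  unfold tri
  simpa using h

theorem glue (E : Finset (Finset (Fin n))) (hE : ∀ e ∈ E, e.card = 3)
    (hK : ∀ S : Finset (Fin n), S.card = 4 → ∃ T ⊆ S, T.card = 3 ∧ T ∉ E)
    (side : Fin n → Bool) (part : Fin n → ZMod 3) (m : Bool → ℕ)
    (hm : ∀ s i, (univ.filter fun v => side v = s ∧ part v = i).card ≤ m s)
    (hT : ∀ a b c, side b = side a → side c = side a → a ≠ c → part b = part a + 1 →
      (part c = part a ∨ part c = part a + 2) → ({a, b, c} : Finset (Fin n)) ∈ E) :
    2 * E.card ≤ 5 * (m false + m true) ^ 3 := by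
  set S : Bool → Finset (Fin n) := fun s => univ.filter fun v => side v = s with hS
  have hm' : ∀ s i, ((S s).filter fun v => part v = i).card ≤ m s := by
    intro s i
    simp only [hS, filter_filter]
    exact hm s i
  have hc : ∀ s, ((S s).card : ℝ) ≤ 3 * m s := by
    intro s
    have h1 := card_eq_sum_card_fiberwise (s := S s) (t := univ) (f := part)
      (fun _ _ => mem_coe.2 (mem_univ _))
    have h2 : ∑ i : ZMod 3, ((S s).filter fun v => part v = i).card ≤ ∑ _i : ZMod 3, m s :=
      sum_le_sum fun i _ => hm' s i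
    simp only [sum_const, card_univ, ZMod.card, smul_eq_mul] at h2
    exact_mod_cast h1 ▸ h2
  have hL : ∀ s v, ∑ y ∈ S s, ∑ a ∈ S s, tri E v a y ≤ 5 * (m s : ℝ) ^ 2 := fun s v =>
    link_bound E hE hK (S s) part (m s) (hm' s) (fun a ha b hb c hc' => by
      simp only [hS, mem_filter, mem_univ, true_and] at ha hb hc'
      exact hT a b c (hb.trans ha.symm) (hc'.trans ha.symm)) v
  set W : Bool → Bool → Bool → ℝ := fun r s t =>
    ∑ a ∈ S r, ∑ b ∈ S s, ∑ c ∈ S t, tri E a b c with hW
  have hW1 : ∀ r s, W r s s ≤ 3 * m r * (5 * (m s : ℝ) ^ 2) := by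
    intro r s
    have h1 : W r s s ≤ ∑ _a ∈ S r, 5 * (m s : ℝ) ^ 2 := sum_le_sum fun a _ => by
      rw [sum_comm]; exact hL s a
    rw [sum_const, nsmul_eq_mul] at h1
    exact h1.trans (mul_le_mul_of_nonneg_right (hc r) (by positivity))
  have hW2 : ∀ r s t, W r s t = W s r t := by
    intro r s t
    simp only [hW]
    rw [sum_comm]
    exact sum_congr rfl fun _ _ => sum_congr rfl fun _ _ => sum_congr rfl fun _ _ => tri_12 ..
  have hW3 : ∀ r s t, W r s t = W r t s := by
    intro r s t
    simp only [hW]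
    refine sum_congr rfl fun _ _ => ?_
    rw [sum_comm]
    exact sum_congr rfl fun _ _ => sum_congr rfl fun _ _ => tri_23 ..
  have hsp : ∀ f : Fin n → ℝ, ∑ a, f a = ∑ a ∈ S false, f a + ∑ a ∈ S true, f a := by
    intro f
    rw [← sum_fiberwise univ side, Fintype.sum_bool, add_comm]
  have htot : ∑ a, ∑ b, ∑ c, tri E a b c = W false false false + W true true true
      + 3 * W false true true + 3 * W true false false := by
    have e1 := hW2 true false true
    have e2 := hW3 true true false
    have e3 := hW2 false true false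
    have e4 := hW3 false false true
    simp only [hsp, sum_add_distrib]
    simp only [hW] at e1 e2 e3 e4 ⊢
    linarith
  have h6 := six_card E hE
  have a1 := hW1 false false
  have a2 := hW1 true true
  have a3 := hW1 false true
  have a4 := hW1 true false
  have : (2 * E.card : ℝ) ≤ 5 * ((m false : ℝ) + m true) ^ 3 := by nlinarith
  exact_mod_cast this

end Pool.Agent.Glue
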