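import Pool.Agent.Work.MP_f1799f_co.Cert
/-! Digits of the table of one pair. -/
namespace Pool.Agent.Work.MP_f1799f_co
open Finset

theorem blk_eq {cols : List ℕ} (h : ∀ c ∈ cols, ∀ i, dig c i ≤ 2 ^ 20) (s t : ℕ) :
    blk cols (56 * s) (56 * t) = pk (fun m => ng cols (s + m / 16) (t + m % 16)) 256 := by
  induction cols with
  | nil => simp [blk, ng, pk]
  | cons c cs ih =>
    have e : blk (c :: cs) (56 * s) (56 * t) =
        ((((c >>> (56 * s)) &&& onesD 16) * m15) &&& mU) * ((c >>> (56 * t)) &&& onesD 16) +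
          blk cs (56 * s) (56 * t) := rfl
    rw [e, ih (fun c hc => h c (List.mem_cons_of_mem _ hc)), slice_eq, slice_eq,
      spread_eq (D := 2 ^ 20) (fun i => h c List.mem_cons_self _) (by norm_num),
      outer 16 (by decide), pk_add]
    apply pk_congr; intro i _
    simp [ng]

def FU (W : List ℕ) (d kap sa sb ra rb c0 ta tb tc cb e m : ℕ) : ℕ :=
  (5 * ng W (sa + m % 256 / 16) (sb + m % 16) + dig rb (16 * e + m % 256 / 16) +
    (dig ra (16 * e + m % 16) + (5 * d + c0 + dig cb e))) +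
  (dig ta (512 * (e / 16) + m) + 3 * kap * (m / 256)) +
  (dig tb (512 * (e / 4 % 4) + m) + dig tc (512 * (e % 4) + m))

theorem tconst_eq (kap : ℕ) : tconst kap = pk (fun m => 3 * kap * (m / 256)) 512 := by
  have e : tconst kap = (3 * kap * unitS 56 8) <<< (56 * 256) := rfl
  have z : pk (fun _ => 0) 256 = 0 := by simp [pk]
  have := pk_append (fun _ => 0) (fun _ => 3 * kap * 1) 256 (2 ^ 8)
  rw [z, zero_add] at this
  rw [e, unit_eq, pk_mul, this]
  apply pk_congr; intro i hi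
  split_ifs with c
  · rw [Nat.div_eq_of_lt c]; rfl
  · have : i / 256 = 1 := by omega
    rw [this]

theorem uext_eq (wf df : _) (kap tau sa sb ra rb c0 ta tb tc cb e D : ℕ)
    (hW : ∀ c ∈ wf tau e, ∀ i, dig c i ≤ 2 ^ 20) (hr : ∀ i, dig rb i ≤ D) (hD : 16 * D < 2 ^ 56) :
    uext wf df kap tau (56 * sa) (56 * sb) ra rb c0 ta tb tc cb e =
      pk (FU (wf tau e) (df tau e) kap sa sb ra rb c0 ta tb tc cb e) 512 := by
  have e0 : uext wf df kap tau (56 * sa) (56 * sb) ra rb c0 ta tb tc cb e =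
      (fun x => x + x <<< (56 * 256)) (5 * blk (wf tau e) (56 * sa) (56 * sb) +
        ((((rb >>> (896 * e)) &&& onesD 16) * m15) &&& mU) * u16 +
        (((ra >>> (896 * e)) &&& onesD 16) +
          (5 * df tau e + c0 + ((cb >>> (56 * e)) &&& m1)) * u16) * uS) +
      (((ta >>> (28672 * (e / 16))) &&& onesD 512) + tconst kap) +
      (((tb >>> (28672 * (e / 4 % 4))) &&& onesD 512) +
        ((tc >>> (28672 * (e % 4))) &&& onesD 512)) := rfl
  have a1 : 896 * e = 56 * (16 * e) := by ring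
  have a2 : ∀ x, 28672 * x = 56 * (512 * x) := fun x => by ring
  rw [e0, a1, a2, a2, a2, blk_eq hW, slice_one, tconst_eq]
  simp only [slice_eq]
  rw [spread_eq (D := D) (fun i => hr _) hD, u16_eq, uS_eq, outer 16 (by decide), pk_mul, pk_mul,
    pk_add, pk_add, mul_comm _ (pks 16 (fun _ => 1) 16), outer 16 (by decide), pk_add, pk_append,
    pk_add, pk_add, pk_add, pk_add]
  apply pk_congr; intro m hm
  unfold FU
  split_ifs with c
  · rw [Nat.mod_eq_of_lt c]; ring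
  · have b1 : m % 256 = m - 256 := by omega
    have b2 : (m - 256) % 16 = m % 16 := by omega
    rw [b1, b2]; ring

theorem araw_eq (rowf : ℕ → ℕ) (b1 b2 : ℕ) : araw rowf b1 b2 =
    pk (fun m => dig (rowf (512 * (m / 32 / 32) + 32 * b1 + m / 32 % 32)) (32 * b2 + m % 32))
      2048 := by
  have := cat_eq 32 (by decide) (fun i =>
      (force (512 * (i / 32) + 32 * b1 + i % 32) rowf >>> (1792 * b2)) &&& onesD 32)
    (fun i j => dig (rowf (512 * (i / 32) + 32 * b1 + i % 32)) (32 * b2 + j)) 6 0 (by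
      intro i _ _
      have a : 1792 * b2 = 56 * (32 * b2) := by ring
      rw [force_eq, a, slice_eq])
  simp only [zero_add] at this
  exact this

theorem dig_araw_le {rowf : ℕ → ℕ} {D : ℕ} (h : ∀ g < 1024, ∀ j, dig (rowf g) j ≤ D) {b1 : ℕ}
    (hb : b1 < 16) (b2 i : ℕ) : dig (araw rowf b1 b2) i ≤ D := by
  rw [araw_eq, dig_pk (fun _ _ => dig_lt _ _)]
  split_ifs with c
  · exact h _ (by omega) _
  · exact Nat.zero_le _

theorem gath_lt (pos : List ℕ) (r : ℕ) : gath pos r < 2 ^ pos.length := by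
  induction pos with
  | nil => simp [gath]
  | cons p pos ih =>
    have e : gath (p :: pos) r = ((r >>> p) &&& 1) + 2 * gath pos r := rfl
    have := Bool.toNat_le (r.testBit p)
    rw [e, bit_eq, List.length_cons, pow_succ]; omega

theorem atab_eq (rowf : ℕ → ℕ) (sw p1 p2 : List ℕ) (r : ℕ) :
    atab rowf sw p1 p2 r = appl 11 sw (araw rowf (gath p1 r) (gath p2 r)) := by
  unfold atab; rw [force_eq, force_eq]

theorem dig_atab_le {rowf : ℕ → ℕ} {D : ℕ} (h : ∀ g < 1024, ∀ j, dig (rowf g) j ≤ D)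
    {sw p1 : List ℕ} (hs : swOk 11 sw = true) (hp : p1.length = 4) (p2 : List ℕ) (r i : ℕ) :
    dig (atab rowf sw p1 p2 r) i ≤ D := by
  rw [atab_eq]
  exact dig_appl_le hs (dig_araw_le h (by have := gath_lt p1 r; rw [hp] at this; exact this) _) i

theorem btab_eq (rowf : ℕ → ℕ) (sw p1 p2 : List ℕ) (r : ℕ) :
    btab rowf sw p1 p2 r =
      pk (fun j => dig (appl 9 sw (rowf (gath p1 r))) (64 * gath p2 r + j)) 64 := by
  have e : btab rowf sw p1 p2 r = (force (gath p1 r) (fun g => appl 9 sw (rowf g)) >>>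
    (3584 * gath p2 r)) &&& onesD 64 := rfl
  have a : 3584 * gath p2 r = 56 * (64 * gath p2 r) := by ring
  rw [e, force_eq, a, slice_eq]

section
variable {V : Type*} {a : V → V → V → Bool}

theorem code_cons (y : ℕ → V) (t : Tr) (T : List Tr) :
    code a y (t :: T) = (ev a y t).toNat + 2 * code a y T := rfl

theorem dig_atab (hs : Sym3 a) {gc : List ℕ} {b3 : ℕ} (hz : ZS b3 gc)
    (hk : 4 * (6 * (gc.length * 4 ^ b3)) < 2 ^ 56) {rowf : ℕ → ℕ}
    (hr : ∀ g < 1024, rowf g = rowC gc g) (y : ℕ → V) (p q r s : ℕ) (sw p1 p2 : List ℕ)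
    (c1 : chkG T20 (mapT (mk [4, 5, 6, p] q) (TG9.drop 5)) p1 = true)
    (c2 : chkG T20 (mapT (mk [4, 5, 6, r] s) (TG9.drop 5)) p2 = true)
    (c3 : chkS 11 (pp 5 6 ++ (pp 4 6 ++ [(4, 5, 6)]) ++ [(p, q, 6), (r, s, 6)])
      (mapT (mk [4, 5, 6, r] s) (TG9.take 5) ++ (mapT (mk [4, 5, 6, p] q) (TG9.take 5) ++
        [(4, 5, 6)])) sw = true) :
    (dig (atab rowf sw p1 p2 (code a y T20)) (512 * code a y [(p, q, 6), (r, s, 6)] +
      code a y (pp 5 6 ++ (pp 4 6 ++ [(4, 5, 6)]))) : ℤ) =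
      Q3 a gc b3 [y 4, y 5, y 6] (y p) (y q) (y r) (y s) +
        ((6 * (gc.length * 4 ^ b3) : ℕ) : ℤ) := by
  have h1 := appl_code hs y c3 (araw rowf (gath p1 (code a y T20)) (gath p2 (code a y T20)))
  have l9 : (pp 5 6 ++ (pp 4 6 ++ [(4, 5, 6)])).length = 9 := rfl
  rw [code_append, l9, add_comm] at h1
  have key : ∀ p q : ℕ, code a (mk [y 4, y 5, y 6, y p] (y q)) TG =
      code a y (mapT (mk [4, 5, 6, p] q) (TG9.take 5)) +
        32 * code a y (mapT (mk [4, 5, 6, p] q) (TG9.drop 5)) + 512 * code a y [(4, 5, 6)] := by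
    intro p q
    have e1 : code a (mk [y 4, y 5, y 6, y p] (y q)) TG =
      code a y (mapT (mk [4, 5, 6, p] q) TG) := code_mk' y [4, 5, 6, p] q TG
    have e2 : mapT (mk [4, 5, 6, p] q) TG = mapT (mk [4, 5, 6, p] q) (TG9.take 5) ++
      (mapT (mk [4, 5, 6, p] q) (TG9.drop 5) ++ [(4, 5, 6)]) := rfl
    rw [e1, e2, code_append, code_append]
    have l1 : (mapT (mk [4, 5, 6, p] q) (TG9.take 5)).length = 5 := rfl
    have l2 : (mapT (mk [4, 5, 6, p] q) (TG9.drop 5)).length = 4 := rfl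
    rw [l1, l2]; ring
  rw [← Q3_eq hs hz, key, key, atab_eq]
  norm_cast
  refine h1.trans ?_
  rw [gath_code hs y c1, gath_code hs y c2, code_append, code_append]
  have l1 : ∀ p q, (mapT (mk [4, 5, 6, p] q) (TG9.take 5)).length = 5 := fun _ _ => rfl
  have b1 : ∀ p q, code a y (mapT (mk [4, 5, 6, p] q) (TG9.take 5)) < 32 := fun _ _ => code_lt _ _
  have b2 : ∀ p q, code a y (mapT (mk [4, 5, 6, p] q) (TG9.drop 5)) < 16 := fun _ _ => code_lt _ _
  have b3 : code a y [(4, 5, 6)] < 2 := code_lt _ _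
  rw [l1, l1]
  have d1 := b1 p q
  have d2 := b1 r s
  have d3 := b2 p q
  have d4 := b2 r s
  generalize code a y (mapT (mk [4, 5, 6, p] q) (TG9.take 5)) = A at *
  generalize code a y (mapT (mk [4, 5, 6, r] s) (TG9.take 5)) = B at *
  generalize code a y (mapT (mk [4, 5, 6, p] q) (TG9.drop 5)) = C at *
  generalize code a y (mapT (mk [4, 5, 6, r] s) (TG9.drop 5)) = E at *
  generalize code a y [(4, 5, 6)] = t at *
  rw [araw_eq, dig_pk (fun _ _ => dig_lt _ _), if_pos (by omega), hr _ (by omega),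
    dig_rowC hz hk, if_pos (by omega)]
  congr 1 <;> omega

theorem dig_btab (hs : Sym3 a) {gc : List ℕ} {b3 : ℕ} (hz : ZS b3 gc)
    (hk : 4 * (6 * (gc.length * 4 ^ b3)) < 2 ^ 56) {rowf : ℕ → ℕ}
    (hr : ∀ g < 1024, rowf g = rowC gc g) (y : ℕ → V) (t0 t1 t2 v : ℕ) (kn : List Tr)
    (sw p1 p2 : List ℕ)
    (c1 : chkG T20 (mapT (mk [t0, t1, t2, 4] 5) TG) p1 = true) (c2 : chkG T20 kn p2 = true)
    (c3 : chkS 9 (lk 6 ++ kn) (mapT (mk [t0, t1, t2, v] 6) TG9) sw = true) :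
    (dig (appl 9 sw (rowf (gath p1 (code a y T20))))
      (64 * gath p2 (code a y T20) + code a y (lk 6)) : ℤ) =
      Q3 a gc b3 [y t0, y t1, y t2] (y 4) (y 5) (y v) (y 6) +
        ((6 * (gc.length * 4 ^ b3) : ℕ) : ℤ) := by
  have h1 := appl_code hs y c3 (rowf (gath p1 (code a y T20)))
  have l6 : (lk 6).length = 6 := rfl
  rw [code_append, l6, add_comm] at h1
  have key : ∀ p q : ℕ, code a (mk [y t0, y t1, y t2, y p] (y q)) TG =
      code a y (mapT (mk [t0, t1, t2, p] q) TG9) + 512 * code a y [(t0, t1, t2)] := by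
    intro p q
    have e1 : code a (mk [y t0, y t1, y t2, y p] (y q)) TG =
      code a y (mapT (mk [t0, t1, t2, p] q) TG) := code_mk' y [t0, t1, t2, p] q TG
    have e2 : mapT (mk [t0, t1, t2, p] q) TG = mapT (mk [t0, t1, t2, p] q) TG9 ++
      [(t0, t1, t2)] := rfl
    have l9 : (mapT (mk [t0, t1, t2, p] q) TG9).length = 9 := rfl
    rw [e1, e2, code_append, l9]; norm_num
  have e3 : gath p1 (code a y T20) = code a (mk [y t0, y t1, y t2, y 4] (y 5)) TG := by
    rw [gath_code hs y c1]; exact (code_mk' y [t0, t1, t2, 4] 5 TG).symm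
  rw [← Q3_eq hs hz, gath_code hs y c2]
  norm_cast
  refine h1.trans ?_
  have b1 : ∀ p q, code a y (mapT (mk [t0, t1, t2, p] q) TG9) < 512 := fun p q => by
    have l9 : (mapT (mk [t0, t1, t2, p] q) TG9).length = 9 := rfl
    have := code_lt (a := a) y (mapT (mk [t0, t1, t2, p] q) TG9)
    rw [l9] at this; omega
  rw [e3, hr _ (code_lt _ TG), dig_rowC hz hk, if_pos (b1 _ _), key, key]
  have := b1 4 5
  generalize code a y (mapT (mk [t0, t1, t2, 4] 5) TG9) = A at *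
  generalize code a y (mapT (mk [t0, t1, t2, v] 6) TG9) = B
  generalize code a y [(t0, t1, t2)] = t
  have e5 : 512 * ((A + 512 * t) / 512) + B = B + 512 * t := by omega
  rw [e5]

end

/-- the verified properties of the data -/
structure DOk (vc : ℕ → List ℕ) (vb : ℕ → ℕ) (gc : List ℕ) (b3 cmax kap : ℕ) (p5 : List TE)
    (wd : ℕ → ℕ → ℕ × List (ℕ × List ℕ)) (rowf : ℕ → ℕ) : Prop where
  hv : ∀ s, ZS (vb s) (vc s)
  hz : ZS b3 gc
  hg : ∀ c ∈ gc, appl 10 swS c = c
  hp : chkP5 p5 = true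
  hw : ∀ tau, tau < 16 → tauOk tau = true → ∀ e < 64,
    chkW vc vb p5 cmax (tau + 16 * e) (wd tau e) = true
  hr : ∀ g < 1024, rowf g = rowC gc g
  n1 : cmax ≤ 2 ^ 43
  n2 : 6 * (gc.length * 4 ^ b3) ≤ 2 ^ 43
  n3 : kap ≤ 2 ^ 36

theorem pop4_le (g : ℕ) : pop4 g ≤ 4 := by
  have e : pop4 g = ((g &&& 1) + ((g >>> 1) &&& 1)) + (((g >>> 2) &&& 1) + ((g >>> 3) &&& 1)) := rfl
  have := @Nat.and_le_right g 1
  have := @Nat.and_le_right (g >>> 1) 1
  have := @Nat.and_le_right (g >>> 2) 1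
  have := @Nat.and_le_right (g >>> 3) 1
  omega

theorem cbt_eq (rowf : ℕ → ℕ) (r : ℕ) : cbt rowf r = pk (fun j =>
    (dig (appl 9 swB0 (rowf (gath [7,9,13,15,19,4,10,17,18,3] r))) (64 * gath [0,1,2] r + j) +
      dig (appl 9 swB1 (rowf (gath [5,9,11,15,19,6,12,16,18,2] r))) (64 * gath [0,1,3] r + j)) +
    (dig (appl 9 swB2 (rowf (gath [5,7,11,13,19,8,14,16,17,1] r))) (64 * gath [0,2,3] r + j) +
      dig (appl 9 swB3 (rowf (gath [6,4,12,10,18,8,14,16,17,0] r))) (64 * gath [1,2,3] r + j)))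
      64 := by
  rw [← pk_add, ← pk_add, ← pk_add, ← btab_eq, ← btab_eq, ← btab_eq, ← btab_eq]; rfl

section
variable {vc : ℕ → List ℕ} {vb : ℕ → ℕ} {gc : List ℕ} {b3 cmax kap : ℕ} {p5 : List TE}
  {wd : ℕ → ℕ → ℕ × List (ℕ × List ℕ)} {rowf : ℕ → ℕ}

theorem DOk.row_le (h : DOk vc vb gc b3 cmax kap p5 wd rowf) :
    ∀ g < 1024, ∀ j, dig (rowf g) j ≤ 2 ^ 45 := by
  intro g hg j
  have := h.n2
  rw [h.hr g hg, dig_rowC h.hz (by omega)]
  have := w3_bound h.hz g (512 * (g / 512) + j)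
  split_ifs <;> omega

theorem DOk.cb_le (h : DOk vc vb gc b3 cmax kap p5 wd rowf) (r j : ℕ) :
    (dig (appl 9 swB0 (rowf (gath [7,9,13,15,19,4,10,17,18,3] r))) (64 * gath [0,1,2] r + j) +
      dig (appl 9 swB1 (rowf (gath [5,9,11,15,19,6,12,16,18,2] r))) (64 * gath [0,1,3] r + j)) +
    (dig (appl 9 swB2 (rowf (gath [5,7,11,13,19,8,14,16,17,1] r))) (64 * gath [0,2,3] r + j) +
      dig (appl 9 swB3 (rowf (gath [6,4,12,10,18,8,14,16,17,0] r))) (64 * gath [1,2,3] r + j))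
      ≤ 2 ^ 47 := by
  have k : ∀ sw p : List ℕ, swOk 9 sw = true → p.length = 10 → ∀ i,
      dig (appl 9 sw (rowf (gath p r))) i ≤ 2 ^ 45 := fun sw p a b i =>
    dig_appl_le a (h.row_le _ (by have := gath_lt p r; rw [b] at this; exact this)) i
  have := k swB0 [7,9,13,15,19,4,10,17,18,3] (by decide) rfl (64 * gath [0,1,2] r + j)
  have := k swB1 [5,9,11,15,19,6,12,16,18,2] (by decide) rfl (64 * gath [0,1,3] r + j)
  have := k swB2 [5,7,11,13,19,8,14,16,17,1] (by decide) rfl (64 * gath [0,2,3] r + j)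
  have := k swB3 [6,4,12,10,18,8,14,16,17,0] (by decide) rfl (64 * gath [1,2,3] r + j)
  omega

/-- the digit function of `utab` -/
noncomputable def UF (vc : ℕ → List ℕ) (wd : ℕ → ℕ → ℕ × List (ℕ × List ℕ)) (rowf : ℕ → ℕ)
    (kap r tau aa ab gam e m : ℕ) : ℕ :=
  FU (wcols vc (wd tau e).2) (wd tau e).1 kap (16 * aa) (16 * ab)
    (row (wcols vc (wd tau ab).2) (56 * (gam + 16 * aa)))
    (row (wcols vc (wd tau aa).2) (56 * (gam + 16 * ab)))
    ((wd tau aa).1 + (wd tau ab).1 + kap * pop4 gam)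
    (atab rowf swA0 [16,17,8,14] [18,19,9,15] r) (atab rowf swA1 [16,18,6,12] [17,19,7,13] r)
    (atab rowf swA2 [17,18,4,10] [16,19,5,11] r) (cbt rowf r) e m

theorem DOk.wrow (h : DOk vc vb gc b3 cmax kap p5 wd rowf) {tau e : ℕ} (h1 : tau < 16)
    (h2 : tauOk tau = true) (he : e < 64) (l i : ℕ) :
    dig (row (wcols vc (wd tau e).2) (56 * l)) i = ng (wcols vc (wd tau e).2) l i ∧
      ng (wcols vc (wd tau e).2) l i ≤ 2 ^ 45 := by
  have b := (chkW_bound h.hv h.hp (h.hw tau h1 h2 e he)).2.2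
  have := h.n1
  exact ⟨dig_row (fun j => by have := b l j; omega) i, by have := b l i; omega⟩

theorem DOk.UF_le (h : DOk vc vb gc b3 cmax kap p5 wd rowf) {tau aa ab e : ℕ} (h1 : tau < 16)
    (h2 : tauOk tau = true) (ha : aa < 64) (hb : ab < 64) (he : e < 64) (r gam : ℕ) {m : ℕ}
    (hm : m < 512) : UF vc wd rowf kap r tau aa ab gam e m ≤ 2 ^ 50 := by
  have n1 := h.n1
  have n3 := h.n3
  have d1 := (chkW_bound h.hv h.hp (h.hw tau h1 h2 e he)).1
  have d2 := (chkW_bound h.hv h.hp (h.hw tau h1 h2 aa ha)).1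
  have d3 := (chkW_bound h.hv h.hp (h.hw tau h1 h2 ab hb)).1
  have g1 := (h.wrow h1 h2 he (16 * aa + m % 256 / 16) (16 * ab + m % 16)).2
  have g2 := h.wrow h1 h2 ha (gam + 16 * ab) (16 * e + m % 256 / 16)
  have g3 := h.wrow h1 h2 hb (gam + 16 * aa) (16 * e + m % 16)
  have t1 := dig_atab_le h.row_le (sw := swA0) (p1 := [16,17,8,14]) (by decide) rfl
    [18,19,9,15] r (512 * (e / 16) + m)
  have t2 := dig_atab_le h.row_le (sw := swA1) (p1 := [16,18,6,12]) (by decide) rfl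
    [17,19,7,13] r (512 * (e / 4 % 4) + m)
  have t3 := dig_atab_le h.row_le (sw := swA2) (p1 := [17,18,4,10]) (by decide) rfl
    [16,19,5,11] r (512 * (e % 4) + m)
  have c1 : dig (cbt rowf r) e ≤ 2 ^ 47 := by
    rw [cbt_eq, dig_pk (fun j _ => lt_of_le_of_lt (h.cb_le r j) (by norm_num)), if_pos he]
    exact h.cb_le r e
  have k1 : kap * pop4 gam ≤ 2 ^ 36 * 4 := Nat.mul_le_mul n3 (pop4_le gam)
  have k2 : 3 * kap * (m / 256) ≤ 3 * 2 ^ 36 * 1 := Nat.mul_le_mul (by omega) (by omega)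
  unfold UF FU
  omega

theorem DOk.utab_eq (h : DOk vc vb gc b3 cmax kap p5 wd rowf) {r : ℕ} (h2 : tauOk r = true) :
    utab (fun t e => wcols vc (wd t e).2) (fun t e => (wd t e).1) rowf kap r =
      pk (fun L => UF vc wd rowf kap r (r % 16) (r / 16 % 64) (r / 1024 % 64) (r / 65536 % 16)
        (L / 512) (L % 512)) (2 ^ 15) := by
  have e1 : Nat.land r 15 = r % 16 := Nat.and_two_pow_sub_one_eq_mod r 4
  have e2 : Nat.land (Nat.shiftRight r 4) 63 = r / 16 % 64 := by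
    have := Nat.and_two_pow_sub_one_eq_mod (r >>> 4) 6
    exact this.trans (by rw [Nat.shiftRight_eq_div_pow])
  have e3 : Nat.land (Nat.shiftRight r 10) 63 = r / 1024 % 64 := by
    have := Nat.and_two_pow_sub_one_eq_mod (r >>> 10) 6
    exact this.trans (by rw [Nat.shiftRight_eq_div_pow])
  have e4 : Nat.land (Nat.shiftRight r 16) 15 = r / 65536 % 16 := by
    have := Nat.and_two_pow_sub_one_eq_mod (r >>> 16) 4
    exact this.trans (by rw [Nat.shiftRight_eq_div_pow])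
  have h1 : r % 16 < 16 := Nat.mod_lt _ (by decide)
  have h3 : tauOk (r % 16) = true := by
    have : Nat.land (r % 16) 15 = Nat.land r 15 := by
      rw [e1]; exact (Nat.and_two_pow_sub_one_eq_mod (r % 16) 4).trans (Nat.mod_mod _ _)
    unfold tauOk at h2 ⊢; rw [this]; exact h2
  have ha : r / 16 % 64 < 64 := Nat.mod_lt _ (by decide)
  unfold utab
  simp only [force_eq]
  rw [e1, e2, e3, e4]
  generalize r % 16 = tau at *
  generalize r / 16 % 64 = aa at *
  generalize r / 1024 % 64 = ab at *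
  generalize r / 65536 % 16 = gam at *
  have a1 : ∀ x, Nat.mul 896 x = 56 * (16 * x) := fun x => by
    show 896 * x = _; ring
  have a2 : ∀ x z, Nat.add (Nat.mul 56 x) (56 * (16 * z)) = 56 * (x + 16 * z) := fun x z => by
    show 56 * x + _ = _; ring
  rw [a1, a1, a2, a2]
  have := cat_eq 512 (by decide) _ (fun e m => UF vc wd rowf kap r tau aa ab gam e m) 6 0 (by
    intro e _ he
    exact uext_eq (fun t e => wcols vc (wd t e).2) (fun t e => (wd t e).1) kap tau (16 * aa)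
      (16 * ab) (row (wcols vc (wd tau ab).2) (56 * (gam + 16 * aa)))
      (row (wcols vc (wd tau aa).2) (56 * (gam + 16 * ab)))
      ((wd tau aa).1 + (wd tau ab).1 + kap * pop4 gam)
      (atab rowf swA0 [16,17,8,14] [18,19,9,15] r) (atab rowf swA1 [16,18,6,12] [17,19,7,13] r)
      (atab rowf swA2 [17,18,4,10] [16,19,5,11] r) (cbt rowf r) e (2 ^ 45)
      (chkW_bound h.hv h.hp (h.hw tau h1 h3 e (by omega))).2.1
      (fun i => by have := h.wrow h1 h3 ha (gam + 16 * ab) i; omega) (by norm_num))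
  simp only [zero_add] at this
  exact this

end

end Pool.Agent.Work.MP_f1799f_co
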