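import Pool.Agent.Work.MP_f1799f_co.Sem
/-! Meaning of the table of one pair, of the sum over the pairs, and of the final comparison. -/
namespace Pool.Agent.Work.MP_f1799f_co
open Finset

variable {vc : ℕ → List ℕ} {vb : ℕ → ℕ} {gc : List ℕ} {b3 cmax kap : ℕ} {p5 : List TE}
  {wd : ℕ → ℕ → ℕ × List (ℕ × List ℕ)} {rowf : ℕ → ℕ} {V : Type*} {a : V → V → V → Bool}

theorem code_lt' (y : ℕ → V) (T : List Tr) {n : ℕ} (h : T.length = n) : code a y T < 2 ^ n :=
  h ▸ code_lt y T

theorem code_append' (y : ℕ → V) (T U : List Tr) {n : ℕ} (h : T.length = n) :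
    code a y (T ++ U) = code a y T + 2 ^ n * code a y U := h ▸ code_append y T U

theorem G_eq (h : DOk vc vb gc b3 cmax kap p5 wd rowf) (hs : Sym3 a) (y : ℕ → V)
    (ht : tauOk (code a y T4) = true) (c u v : ℕ) (P Q : List Tr) (l1 : P.length = 4)
    (l2 : Q.length = 4) (c1 : chkE (mapT (mk [0, 1, 2, 3, c] u) TL) (P ++ lk u) = true)
    (c2 : chkE (mapT (mk [0, 1, 2, 3, c] v) TL) (Q ++ lk v) = true) :
    (ng (wcols vc (wd (code a y T4) (code a y (lk c))).2) (code a y P + 16 * code a y (lk u))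
      (code a y Q + 16 * code a y (lk v)) : ℤ) + (wd (code a y T4) (code a y (lk c))).1 =
      G5 a vc vb [y 0, y 1, y 2, y 3, y c] (y u) (y v) + cmax := by
  have e1 : code a (mk ([0, 1, 2, 3, c].map y) (y 0)) T5 = code a y T4 + 16 * code a y (lk c) := by
    rw [code_mk']
    exact code_append' y T4 (lk c) (n := 4) rfl
  have hw := h.hw _ (code_lt' y T4 (n := 4) rfl) ht _ (code_lt' (a := a) y (lk c) (n := 6) rfl)
  rw [← e1] at hw
  have e2 := G5_eq hs h.hv h.hp _ hw (y u) (y v)
  have e3 := code_mk hs y [0, 1, 2, 3, c] u c1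
  have e4 := code_mk hs y [0, 1, 2, 3, c] v c2
  rw [code_append' y _ _ l1] at e3
  rw [code_append' y _ _ l2] at e4
  have e5 : code a (mk [y 0, y 1, y 2, y 3, y c] (y u)) TL =
    code a y P + 16 * code a y (lk u) := e3
  have e6 : code a (mk [y 0, y 1, y 2, y 3, y c] (y v)) TL =
    code a y Q + 16 * code a y (lk v) := e4
  rw [← e5, ← e6]
  exact e2

theorem pop4_code (y : ℕ → V) : (pop4 (code a y (pp 4 5)) : ℤ) =
    Bt a (y 0) (y 4) (y 5) + Bt a (y 1) (y 4) (y 5) + Bt a (y 2) (y 4) (y 5) +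
      Bt a (y 3) (y 4) (y 5) := by
  simp only [pp, code, ev, Bt]
  cases a (y 0) (y 4) (y 5) <;> cases a (y 1) (y 4) (y 5) <;> cases a (y 2) (y 4) (y 5) <;>
    cases a (y 3) (y 4) (y 5) <;> rfl

theorem T20_eq (y : ℕ → V) : code a y T20 = code a y T4 + 16 * (code a y (lk 4) +
    64 * (code a y (lk 5) + 64 * code a y (pp 4 5))) := by
  rw [T20, code_append' y _ _ (n := 4) rfl, code_append' y _ _ (n := 6) rfl,
    code_append' y _ _ (n := 6) rfl]; norm_num

theorem tauOk_mod (r : ℕ) : tauOk (r % 16) = tauOk r := by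
  have e1 : Nat.land r 15 = r % 16 := Nat.and_two_pow_sub_one_eq_mod r 4
  have : Nat.land (r % 16) 15 = Nat.land r 15 := by
    rw [e1]; exact (Nat.and_two_pow_sub_one_eq_mod (r % 16) 4).trans (Nat.mod_mod _ _)
  unfold tauOk; rw [this]

theorem DOk.utab_le (h : DOk vc vb gc b3 cmax kap p5 wd rowf) {r : ℕ} (h2 : tauOk r = true)
    (i : ℕ) : dig (utab (fun t e => wcols vc (wd t e).2) (fun t e => (wd t e).1) rowf kap r) i ≤
      2 ^ 50 ∧ (i < 2 ^ 15 →
      dig (utab (fun t e => wcols vc (wd t e).2) (fun t e => (wd t e).1) rowf kap r) i =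
      UF vc wd rowf kap r (r % 16) (r / 16 % 64) (r / 1024 % 64) (r / 65536 % 16)
        (i / 512) (i % 512)) := by
  have k : ∀ L < 2 ^ 15, UF vc wd rowf kap r (r % 16) (r / 16 % 64) (r / 1024 % 64)
      (r / 65536 % 16) (L / 512) (L % 512) ≤ 2 ^ 50 := fun L hL =>
    h.UF_le (by omega) (by rw [tauOk_mod, h2]) (by omega) (by omega) (by omega) _ _ (by omega)
  rw [h.utab_eq h2, dig_pk (fun L hL => lt_of_le_of_lt (k L hL) (by norm_num))]
  refine ⟨?_, fun hi => if_pos hi⟩
  split_ifs with c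
  · exact k i c
  · exact Nat.zero_le _

theorem DOk.utab_sem (h : DOk vc vb gc b3 cmax kap p5 wd rowf) (hs : Sym3 a) (y : ℕ → V)
    (ht : tauOk (code a y T20) = true) :
    8 * (dig (utab (fun t e => wcols vc (wd t e).2) (fun t e => (wd t e).1) rowf kap
      (code a y T20)) (code a y TU) : ℤ) =
      uu (G5 a vc vb) (Q3 a gc b3) (Bt a) kap [y 0, y 1, y 2, y 3] (y 4) (y 5) (y 6) +
        56 * (cmax + ((6 * (gc.length * 4 ^ b3) : ℕ) : ℤ)) := by
  have hk : 4 * (6 * (gc.length * 4 ^ b3)) < 2 ^ 56 := by have := h.n2; omega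
  have b1 : code a y T4 < 16 := code_lt' y T4 (n := 4) rfl
  have b2 : code a y (lk 4) < 64 := code_lt' y _ (n := 6) rfl
  have b3' : code a y (lk 5) < 64 := code_lt' y _ (n := 6) rfl
  have b4 : code a y (pp 4 5) < 16 := code_lt' y _ (n := 4) rfl
  have b5 : code a y (pp 5 6) < 16 := code_lt' y _ (n := 4) rfl
  have b6 : code a y (pp 4 6) < 16 := code_lt' y _ (n := 4) rfl
  have b7 : code a y [(4, 5, 6)] < 2 := code_lt' y _ (n := 1) rfl
  have b8 : code a y [(1, 2, 6), (0, 3, 6)] < 4 := code_lt' y _ (n := 2) rfl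
  have b9 : code a y [(0, 2, 6), (1, 3, 6)] < 4 := code_lt' y _ (n := 2) rfl
  have b10 : code a y [(0, 1, 6), (2, 3, 6)] < 4 := code_lt' y _ (n := 2) rfl
  have r0 := T20_eq (a := a) y
  have r1 : code a y T20 % 16 = code a y T4 := by omega
  have r2 : code a y T20 / 16 % 64 = code a y (lk 4) := by omega
  have r3 : code a y T20 / 1024 % 64 = code a y (lk 5) := by omega
  have r4 : code a y T20 / 65536 % 16 = code a y (pp 4 5) := by omega
  have m0 : code a y (pp 5 6 ++ (pp 4 6 ++ [(4, 5, 6)])) =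
      code a y (pp 5 6) + 16 * (code a y (pp 4 6) + 16 * code a y [(4, 5, 6)]) := by
    rw [code_append' y _ _ (n := 4) rfl, code_append' y _ _ (n := 4) rfl]; norm_num
  have l0 : code a y TU = code a y (pp 5 6 ++ (pp 4 6 ++ [(4, 5, 6)])) +
      512 * code a y (lk 6) := by
    have : TU = (pp 5 6 ++ (pp 4 6 ++ [(4, 5, 6)])) ++ lk 6 := rfl
    rw [this, code_append' y _ _ (n := 9) rfl]; norm_num
  have e0 : code a y (lk 6) = code a y [(1, 2, 6), (0, 3, 6)] +
      4 * (code a y [(0, 2, 6), (1, 3, 6)] + 4 * code a y [(0, 1, 6), (2, 3, 6)]) := by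
    have : lk 6 = [(1, 2, 6), (0, 3, 6)] ++ ([(0, 2, 6), (1, 3, 6)] ++ [(0, 1, 6), (2, 3, 6)]) :=
      rfl
    rw [this, code_append' y _ _ (n := 2) rfl, code_append' y _ _ (n := 2) rfl]; norm_num
  have ht4 : tauOk (code a y T4) = true := by rw [← r1, tauOk_mod, ht]
  have g1 := G_eq h hs y ht4 6 4 5 (pp 4 6) (pp 5 6) rfl rfl (by decide) (by decide)
  have g2 := G_eq h hs y ht4 5 4 6 (pp 4 5) (pp 5 6) rfl rfl (by decide) (by decide)
  have g3 := G_eq h hs y ht4 4 5 6 (pp 4 5) (pp 4 6) rfl rfl (by decide) (by decide)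
  have q1 := dig_atab hs h.hz hk h.hr y 0 1 2 3 swA0 [16,17,8,14] [18,19,9,15]
    (by decide +kernel) (by decide +kernel) (by decide +kernel)
  have q2 := dig_atab hs h.hz hk h.hr y 0 2 1 3 swA1 [16,18,6,12] [17,19,7,13]
    (by decide +kernel) (by decide +kernel) (by decide +kernel)
  have q3 := dig_atab hs h.hz hk h.hr y 1 2 0 3 swA2 [17,18,4,10] [16,19,5,11]
    (by decide +kernel) (by decide +kernel) (by decide +kernel)
  have s0 := dig_btab hs h.hz hk h.hr y 1 2 3 0 [(0,1,2),(0,1,3),(0,2,3)] swB0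
    [7,9,13,15,19,4,10,17,18,3] [0,1,2] (by decide +kernel) (by decide +kernel)
    (by decide +kernel)
  have s1 := dig_btab hs h.hz hk h.hr y 0 2 3 1 [(0,1,2),(0,1,3),(1,2,3)] swB1
    [5,9,11,15,19,6,12,16,18,2] [0,1,3] (by decide +kernel) (by decide +kernel)
    (by decide +kernel)
  have s2 := dig_btab hs h.hz hk h.hr y 0 1 3 2 [(0,1,2),(0,2,3),(1,2,3)] swB2
    [5,7,11,13,19,8,14,16,17,1] [0,2,3] (by decide +kernel) (by decide +kernel)
    (by decide +kernel)
  have s3 := dig_btab hs h.hz hk h.hr y 0 1 2 3 [(0,1,3),(0,2,3),(1,2,3)] swB3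
    [6,4,12,10,18,8,14,16,17,0] [1,2,3] (by decide +kernel) (by decide +kernel)
    (by decide +kernel)
  have p4 := pop4_code (a := a) y
  have bt : (code a y [(4, 5, 6)] : ℤ) = Bt a (y 4) (y 5) (y 6) := by simp [code, ev, Bt]
  have w1 := fun l i => (h.wrow b1 ht4 b2 l i).1
  have w2 := fun l i => (h.wrow b1 ht4 b3' l i).1
  rw [(h.utab_le ht _).2 (code_lt' y TU (n := 15) rfl), r1, r2, r3, r4,
    uu_eval _ (inv_cert vc vb gc b3 hs h.hg)]
  unfold UF FU
  rw [w1, w2, cbt_eq, dig_pk (fun j _ => lt_of_le_of_lt (h.cb_le _ j) (by norm_num))]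
  have i1 : code a y TU / 512 = code a y (lk 6) := by omega
  have i2 : code a y TU % 512 = code a y (pp 5 6 ++ (pp 4 6 ++ [(4, 5, 6)])) := by omega
  have i3 : code a y (lk 6) / 16 = code a y [(0, 1, 6), (2, 3, 6)] := by omega
  have i4 : code a y (lk 6) / 4 % 4 = code a y [(0, 2, 6), (1, 3, 6)] := by omega
  have i5 : code a y (lk 6) % 4 = code a y [(1, 2, 6), (0, 3, 6)] := by omega
  have i6 : ∀ x, 16 * x + code a y (pp 5 6 ++ (pp 4 6 ++ [(4, 5, 6)])) % 256 / 16 =
    code a y (pp 4 6) + 16 * x := fun x => by omega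
  have i7 : ∀ x, 16 * x + code a y (pp 5 6 ++ (pp 4 6 ++ [(4, 5, 6)])) % 16 =
    code a y (pp 5 6) + 16 * x := fun x => by omega
  have i8 : code a y (pp 5 6 ++ (pp 4 6 ++ [(4, 5, 6)])) / 256 = code a y [(4, 5, 6)] := by omega
  rw [i1, i2, i3, i4, i5, i6, i6, i7, i7, i8, if_pos (by omega)]
  push_cast at *
  rw [p4, bt]
  linarith

abbrev PR : Type := List ℕ × ℕ × ℕ

def prs : List PR := [([2,3,4,5],0,1), ([1,3,4,5],0,2), ([1,2,4,5],0,3), ([1,2,3,5],0,4),
  ([1,2,3,4],0,5), ([0,3,4,5],1,2), ([0,2,4,5],1,3), ([0,2,3,5],1,4), ([0,2,3,4],1,5),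
  ([0,1,4,5],2,3), ([0,1,3,5],2,4), ([0,1,3,4],2,5), ([0,1,2,5],3,4), ([0,1,2,4],3,5),
  ([0,1,2,3],4,5)]

def chkTE (p : PR) : TE → Bool
  | ([r0, r1, r2, r3, u, v], pos, sw) => [r0, r1, r2, r3].isPerm p.1 && u == p.2.1 && v == p.2.2 &&
      chkG T20 (mapT (mk [r0, r1, r2, r3, u, v] 6) T20) pos &&
      chkS 15 TU (mapT (mk [r0, r1, r2, r3, u, v] 6) TU) sw
  | _ => false

noncomputable def chkTU : List PR → List (List TE) → Bool
  | [], [] => true
  | p :: ps, t :: tu => allN 24 (fun o => chkTE p (nth t te0 o)) && chkTU ps tu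
  | _, _ => false

theorem allN_spec {n : ℕ} {p : ℕ → Bool} (h : allN n p = true) : ∀ i < n, p i = true := by
  induction n with
  | zero => intro i hi; omega
  | succ n ih =>
    have e : allN (n + 1) p = Bool.rec false (allN n p) (p n) := rfl
    rw [e] at h
    cases hp : p n
    · rw [hp] at h; cases h
    · rw [hp] at h
      intro i hi
      by_cases c : i = n
      · rw [c, hp]
      · exact ih h i (by omega)

theorem allL_spec {α : Type} {l : List α} {p : α → Bool} (h : allL l p = true) :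
    ∀ x ∈ l, p x = true := by
  induction l with
  | nil => intro x hx; cases hx
  | cons b l ih =>
    have e : allL (b :: l) p = Bool.rec false (allL l p) (p b) := rfl
    rw [e] at h
    cases hp : p b
    · rw [hp] at h; cases h
    · rw [hp] at h
      intro x hx
      rcases List.mem_cons.mp hx with rfl | c
      · exact hp
      · exact ih h x c

theorem pair_sem (h : DOk vc vb gc b3 cmax kap p5 wd rowf) (hs : Sym3 a) (y : ℕ → V) {p : PR}
    {e : TE} (hc : chkTE p e = true) (ht : tauOk (gath e.2.1 (code a y T20)) = true) :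
    (∀ i, dig (appl 15 e.2.2 (utab (fun t e => wcols vc (wd t e).2) (fun t e => (wd t e).1) rowf
      kap (gath e.2.1 (code a y T20)))) i ≤ 2 ^ 50) ∧
    8 * (dig (appl 15 e.2.2 (utab (fun t e => wcols vc (wd t e).2) (fun t e => (wd t e).1) rowf
      kap (gath e.2.1 (code a y T20)))) (code a y TU) : ℤ) =
      uu (G5 a vc vb) (Q3 a gc b3) (Bt a) kap (p.1.map y) (y p.2.1) (y p.2.2) (y 6) +
        56 * (cmax + ((6 * (gc.length * 4 ^ b3) : ℕ) : ℤ)) := by
  match e, hc, ht with
  | ([r0, r1, r2, r3, u, v], pos, sw), hc, ht =>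
    simp only [chkTE, Bool.and_eq_true, beq_iff_eq, List.isPerm_iff] at hc
    obtain ⟨⟨⟨⟨c1, c2⟩, c3⟩, c4⟩, c5⟩ := hc
    refine ⟨fun i => dig_appl_le (chkS_ok c5) (fun j => (h.utab_le ht j).1) i, ?_⟩
    simp only at ht ⊢
    rw [gath_code hs y c4, ← code_mk'] at ht
    rw [appl_code hs y c5, gath_code hs y c4, ← code_mk', ← code_mk', h.utab_sem hs _ ht,
      ← uu_perm _ (inv_cert vc vb gc b3 hs h.hg) (c1.map y), ← c2, ← c3]
    rfl

theorem total_sem (h : DOk vc vb gc b3 cmax kap p5 wd rowf) (hs : Sym3 a) (y : ℕ → V) :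
    ∀ (ps : List PR) (tu : List (List TE)) (os : List ℕ), ps.length ≤ 15 → chkTU ps tu = true →
      tausOk tu (code a y T20) os = true →
      (∀ i, dig (total (utab (fun t e => wcols vc (wd t e).2) (fun t e => (wd t e).1) rowf kap)
        tu (code a y T20) os) i ≤ ps.length * 2 ^ 50) ∧
      8 * (dig (total (utab (fun t e => wcols vc (wd t e).2) (fun t e => (wd t e).1) rowf kap)
        tu (code a y T20) os) (code a y TU) : ℤ) =
        (ps.map fun p => uu (G5 a vc vb) (Q3 a gc b3) (Bt a) kap (p.1.map y) (y p.2.1) (y p.2.2)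
          (y 6)).sum + ps.length * (56 * (cmax + ((6 * (gc.length * 4 ^ b3) : ℕ) : ℤ))) := by
  intro ps
  induction ps with
  | nil =>
    intro tu os _ hc _
    cases tu with
    | nil => exact ⟨fun i => (dig_zero i).le, by
        show 8 * ((dig 0 _ : ℕ) : ℤ) = _
        rw [dig_zero]; simp⟩
    | cons t tu => simp [chkTU] at hc
  | cons p ps ih =>
    intro tu os hl hc ho
    cases tu with
    | nil => simp [chkTU] at hc
    | cons t tu =>
      cases os with
      | nil => cases ho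
      | cons o os =>
        simp only [chkTU, Bool.and_eq_true] at hc
        have e1 : tausOk (t :: tu) (code a y T20) (o :: os) = Bool.rec false
          (Bool.rec false (tausOk tu (code a y T20) os) (Nat.ble o 23))
          (tauOk (gath (nth t te0 o).2.1 (code a y T20))) := rfl
        rw [e1] at ho
        cases h1 : tauOk (gath (nth t te0 o).2.1 (code a y T20))
        · rw [h1] at ho; cases ho
        rw [h1] at ho
        cases h2 : Nat.ble o 23
        · rw [h2] at ho; cases ho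
        rw [h2] at ho
        have h3 : o ≤ 23 := Nat.le_of_ble_eq_true h2
        simp only [List.length_cons] at hl
        obtain ⟨i1, i2⟩ := ih tu os (by omega) hc.2 ho
        obtain ⟨j1, j2⟩ := pair_sem h hs y (allN_spec hc.1 o (by omega)) h1
        have e2 : ∀ ut, total ut (t :: tu) (code a y T20) (o :: os) =
          appl 15 (nth t te0 o).2.2 (force (gath (nth t te0 o).2.1 (code a y T20)) ut) +
            total ut tu (code a y T20) os := fun _ => rfl
        rw [e2, force_eq]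
        have ad := dig_add (fun j => by have := i1 j; have := j1 j; omega :
          ∀ j, dig (appl 15 (nth t te0 o).2.2 (utab (fun t e => wcols vc (wd t e).2)
            (fun t e => (wd t e).1) rowf kap (gath (nth t te0 o).2.1 (code a y T20)))) j +
            dig (total (utab (fun t e => wcols vc (wd t e).2) (fun t e => (wd t e).1) rowf kap)
              tu (code a y T20) os) j < 2 ^ 56)
        refine ⟨fun i => ?_, ?_⟩
        · rw [ad]; have := i1 i; have := j1 i; simp only [List.length_cons]; omega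
        · rw [ad]
          simp only [List.map_cons, List.sum_cons, List.length_cons]
          push_cast at *
          linarith

/-- no four points span four edges -/
def K4f (a : V → V → V → Bool) : Prop :=
  ∀ p q r s, a p q r = true → a p q s = true → a p r s = true → a q r s = true → False

def chkI (e : ℕ × ℕ × ℕ × ℕ) : Bool :=
  chkG TU [((T20.getD e.1 (0, 0, 0)).1, (T20.getD e.1 (0, 0, 0)).2.1, 6),
    ((T20.getD e.1 (0, 0, 0)).1, (T20.getD e.1 (0, 0, 0)).2.2, 6),
    ((T20.getD e.1 (0, 0, 0)).2.1, (T20.getD e.1 (0, 0, 0)).2.2, 6)] [e.2.1, e.2.2.1, e.2.2.2]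

theorem invM_zero (hs : Sym3 a) (hK : K4f a) (y : ℕ → V) {l : List (ℕ × ℕ × ℕ × ℕ)}
    (h : l.all chkI = true) : dig (invM l (code a y T20)) (code a y TU) = 0 := by
  induction l with
  | nil => exact dig_zero _
  | cons e l ih =>
    simp only [List.all_cons, Bool.and_eq_true] at h
    have e1 : invM (e :: l) (code a y T20) = Bool.rec (motive := fun _ => ℕ)
      (invM l (code a y T20)) (tri e ||| invM l (code a y T20))
      (Nat.beq ((code a y T20 >>> e.1) &&& 1) 1) := rfl
    rw [e1]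
    cases h1 : Nat.beq ((code a y T20 >>> e.1) &&& 1) 1
    · exact ih h.2
    · show dig (tri e ||| invM l (code a y T20)) _ = 0
      have e2 : tri e = (amask 15 e.2.1 &&& amask 15 e.2.2.1) &&& amask 15 e.2.2.2 := rfl
      rw [dig_lor, ih h.2, e2, dig_land, dig_land, dig_amask, dig_amask, dig_amask, Nat.or_zero]
      have h2 := Nat.eq_of_beq_eq_true h1
      rw [bit_eq, testBit_code] at h2
      have h3 := h.1
      simp only [chkI, chkG, Bool.and_eq_true, decide_eq_true_eq] at h3
      obtain ⟨⟨-, k1⟩, ⟨-, k2⟩, ⟨-, k3⟩, -⟩ := h3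
      have k1' := ev_same3 hs y k1
      have k2' := ev_same3 hs y k2
      have k3' := ev_same3 hs y k3
      simp only [testBit_code, ← k1', ← k2', ← k3']
      split_ifs with a1 a2 a3
      · exfalso
        simp only [Bool.and_eq_true] at a1 a2 a3
        refine hK _ _ _ _ ?_ a1.2.2 a2.2.2 a3.2.2
        revert h2
        unfold ev
        cases a (y (T20.getD e.1 (0, 0, 0)).1) (y (T20.getD e.1 (0, 0, 0)).2.1)
          (y (T20.getD e.1 (0, 0, 0)).2.2) <;> simp
      all_goals simp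

theorem chkR_sem (h : DOk vc vb gc b3 cmax kap p5 wd rowf) (hs : Sym3 a) (hK : K4f a)
    (y : ℕ → V) {tu : List (List TE)} (htu : chkTU prs tu = true) {cb kc : ℕ}
    (hkc : kc + (cb + 105 * (cmax + 6 * (gc.length * 4 ^ b3))) + 1 = 2 ^ 55) {os : List ℕ}
    (hc : chkR (utab (fun t e => wcols vc (wd t e).2) (fun t e => (wd t e).1) rowf kap) tu kc
      (code a y T20) os = true) :
    Phi (G5 a vc vb) (Q3 a gc b3) (Bt a) kap [y 0, y 1, y 2, y 3, y 4, y 5, y 6] ≤ 8 * cb := by
  unfold chkR at hc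
  cases h1 : tausOk tu (code a y T20) os
  · rw [h1] at hc; cases hc
  rw [h1] at hc
  obtain ⟨i1, i2⟩ := total_sem h hs y prs tu os (by decide) htu h1
  have h2 := congrArg (fun z => dig z (code a y TU)) (Nat.eq_of_beq_eq_true hc)
  generalize total (utab (fun t e => wcols vc (wd t e).2) (fun t e => (wd t e).1) rowf kap) tu
    (code a y T20) os = X at *
  have e1 : topM = pk (fun _ => 2 ^ 55 * 1) (2 ^ 15) := by
    rw [← pk_mul, ← unit_eq, mul_comm, ← Nat.shiftLeft_eq]; rfl
  have e2 : Nat.mul kc u15 = pk (fun _ => kc * 1) (2 ^ 15) := by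
    rw [← pk_mul, ← unit_eq]; rfl
  have hL : code a y TU < 2 ^ 15 := code_lt' y TU rfl
  have l15 : prs.length = 15 := rfl
  rw [l15] at i1 i2
  have d1 : ∀ j, dig (Nat.mul kc u15) j = if j < 2 ^ 15 then kc * 1 else 0 := fun j => by
    rw [e2, dig_pk (fun _ _ => by omega)]
  have h3 : dig (((X + Nat.mul kc u15) &&& topM) ||| invM invL (code a y T20)) (code a y TU) =
    dig (invM invL (code a y T20)) (code a y TU) := h2
  rw [dig_lor, invM_zero hs hK y (by decide +kernel), Nat.or_zero, dig_land, e1,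
    dig_pk (fun _ _ => by norm_num), if_pos hL,
    dig_add (fun j => by have := i1 j; rw [d1]; split_ifs <;> omega), d1, if_pos hL, mul_one,
    mul_one] at h3
  have h4 : dig X (code a y TU) + kc < 2 ^ 55 := by
    have h5 := congrArg (fun z => Nat.testBit z 55) h3
    simp only [Nat.testBit_and, Nat.testBit_two_pow_self, Bool.and_true, Nat.zero_testBit] at h5
    have h6 := i1 (code a y TU)
    rw [Nat.testBit_eq_decide_div_mod_eq] at h5
    simp only [decide_eq_false_iff_not] at h5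
    omega
  rw [Phi_eval _ (inv_cert vc vb gc b3 hs h.hg)]
  simp only [prs, List.map_cons, List.map_nil, List.sum_cons, List.sum_nil] at i2
  have h7 : dig X (code a y TU) ≤ cb + 105 * (cmax + 6 * (gc.length * 4 ^ b3)) := by omega
  have h8 : (dig X (code a y TU) : ℤ) ≤ cb + 105 * (cmax + ((6 * (gc.length * 4 ^ b3) : ℕ) : ℤ)) := by
    exact_mod_cast h7
  push_cast at *
  linarith

end Pool.Agent.Work.MP_f1799f_co
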