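import Pool.Agent.Work.MP_f1799f_co.Cov
import Pool.Agent.Work.MP_f1799f_co.Data
import Pool.Agent.Work.MP_f1799f_co.DataC
/-! Pieces of the table checks. -/
namespace Pool.Agent.Work.MP_f1799f_co

theorem allN_of {n : ℕ} {p : ℕ → Bool} (h : ∀ i < n, p i = true) : allN n p = true := by
  induction n with
  | zero => rfl
  | succ n ih =>
    have e : allN (n + 1) p = Bool.rec false (allN n p) (p n) := rfl
    rw [e, h n (by omega)]
    exact ih fun i hi => h i (by omega)

theorem allN_split {m k : ℕ} {p : ℕ → Bool}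
    (h : ∀ c < k, allN m (fun i => p (m * c + i)) = true) : ∀ i < m * k, p i = true := by
  intro i hi
  have hm : 0 < m := Nat.pos_of_ne_zero (by rintro rfl; simp at hi)
  have := allN_spec (h (i / m) (Nat.div_lt_of_lt_mul hi)) (i % m) (Nat.mod_lt _ hm)
  rwa [Nat.div_add_mod] at this

theorem mem_nth {α : Type} (d : α) {l : List α} {e : α} (h : e ∈ l) :
    ∃ i < l.length, nth l d i = e := by
  induction l with
  | nil => cases h
  | cons b l ih =>
    rcases List.mem_cons.mp h with rfl | c
    · exact ⟨0, by simp, rfl⟩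
    · obtain ⟨i, hi, e⟩ := ih c
      exact ⟨i + 1, by simpa using hi, e⟩

theorem chkTU_cons {p : PR} {ps : List PR} {t : List TE} {tu : List (List TE)}
    (h1 : allN 24 (fun o => chkTE p (nth t te0 o)) = true) (h2 : chkTU ps tu = true) :
    chkTU (p :: ps) (t :: tu) = true := by
  simp only [chkTU, h1, h2, Bool.and_self]

noncomputable def tcP (t : ℕ) : Bool := (tcf tcL t).1.isPerm [0, 1, 2, 3, 4, 5] &&
    chkG T20 (mapT (mk (tcf tcL t).1 6) T20) (tcf tcL t).2

noncomputable def rowP (g : ℕ) : Bool := forceB g fun g => Nat.beq (rowff g) (rowC gcL g)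

noncomputable def c6P (i : ℕ) : Bool := chk6 tcL (bmap clL) (nth cov6 (0, 0) i)

end Pool.Agent.Work.MP_f1799f_co
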